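import Pool.Agent.Lib.MT.Part

/-!
# MT-Moment: the fourth moment of the sieve sums

PROOF. |FF h L x| ≤ M #{σ fits x}, and σ ↦ (prt i σ)_i is injective with prt i σ | x + h i: #{..} ≤ ∏_i d(x + h i) ≤ ... so (FF)^4 ≤ M^4 ∏_i d(x + h i)^4 ≤ M^4 ∑_i d(x + h i)^(4k) (k = card ι ≥ 1: a product of k numbers ≥ 1
is at most the largest one to the power k). Divisor moments: ∑_{n ≤ x} d(n)^j ≤ x (1 + log x)^(2^j): with S_j = ∑_{n≤x} d(n)^j/n: d(n)^j/n = ∑_{ab = n}.. : ∑_{n≤x} d(n)^j ≤ ∑_{a ≤ x} ∑_{b ≤ x/a} (d(a) d(b))^(j-1)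
≤ .. (d(ab) ≤ d(a) d(b)); induction: T_{j+1}(x) ≤ ∑_a d(a)^j T_j(x/a) ≤ x (1 + log x)^(e_j) S_j, S_{j+1} ≤ S_j², S_0 ≤ 1 + log x. With 3X ≥ x + h i: total ≤ M^4 k 3X (1 + log 3X)^(2^(4k)) ≤ M^4 X (log X)^C.
(There may be a divisor moment in Pool/Agent/Lib: grep.)
-/

set_option autoImplicit false

open Finset

namespace Pool.Agent.Lib.MT

private lemma moment_card_mul (a b : ℕ) : (a * b).divisors.card ≤ a.divisors.card * b.divisors.card := by
  open Pointwise in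
  rw [Nat.divisors_mul]
  exact Finset.card_mul_le

private lemma moment_conv (x : ℕ) (f : ℕ → ℝ) (hf : ∀ n, 0 ≤ f n) :
    ∑ n ∈ Icc 1 x, ((n.divisors.card : ℕ) : ℝ) * f n ≤ ∑ a ∈ Icc 1 x, ∑ b ∈ Icc 1 x, f (a * b) := by
  rw [← Finset.sum_product']
  have h1 : ∑ t ∈ (Icc 1 x ×ˢ Icc 1 x).filter (fun t => t.1 * t.2 ≤ x), f (t.1 * t.2) ≤
      ∑ t ∈ Icc 1 x ×ˢ Icc 1 x, f (t.1 * t.2) :=
    Finset.sum_le_sum_of_subset_of_nonneg (filter_subset _ _) (fun t _ _ => hf _)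
  refine le_trans (le_of_eq ?_) h1
  rw [← Finset.sum_fiberwise_of_maps_to (t := Icc 1 x) (g := fun t : ℕ × ℕ => t.1 * t.2)]
  · refine Finset.sum_congr rfl fun n hn => ?_
    rw [mem_Icc] at hn
    have h2 : ∀ t ∈ ((Icc 1 x ×ˢ Icc 1 x).filter (fun t => t.1 * t.2 ≤ x)).filter
        (fun t => t.1 * t.2 = n), f (t.1 * t.2) = f n := by
      intro t ht
      rw [(mem_filter.1 ht).2]
    rw [Finset.sum_congr rfl h2, Finset.sum_const, nsmul_eq_mul]
    congr 2
    have h9 : n.divisors.card = n.divisorsAntidiagonal.card := by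
      rw [← Nat.map_div_right_divisors, Finset.card_map]
    rw [h9]
    congr 1
    ext t
    rw [Nat.mem_divisorsAntidiagonal, mem_filter, mem_filter, mem_product, mem_Icc, mem_Icc]
    constructor
    · rintro ⟨h3, h4⟩
      have h5 : 0 < t.1 := by
        rcases Nat.eq_zero_or_pos t.1 with h | h
        · rw [h, zero_mul] at h3; omega
        · exact h
      have h6 : 0 < t.2 := by
        rcases Nat.eq_zero_or_pos t.2 with h | h
        · rw [h, mul_zero] at h3; omega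
        · exact h
      have h7 : t.1 ≤ t.1 * t.2 := Nat.le_mul_of_pos_right _ h6
      have h8 : t.2 ≤ t.1 * t.2 := Nat.le_mul_of_pos_left _ h5
      exact ⟨⟨⟨⟨h5, by omega⟩, ⟨h6, by omega⟩⟩, by omega⟩, h3⟩
    · rintro ⟨_, h4⟩
      exact ⟨h4, by omega⟩
  · intro t ht
    rw [mem_filter, mem_product, mem_Icc, mem_Icc] at ht
    rw [mem_Icc]
    exact ⟨Nat.mul_pos ht.1.1.1 ht.1.2.1, ht.2⟩

private lemma moment_S (j x : ℕ) :
    ∑ n ∈ Icc 1 x, ((n.divisors.card : ℕ) : ℝ) ^ j / (n : ℝ) ≤ (1 + Real.log x) ^ (2 ^ j) := by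
  induction j with
  | zero =>
    simp only [pow_zero, pow_one]
    have h1 := harmonic_le_one_add_log x
    rw [harmonic_eq_sum_Icc] at h1
    push_cast at h1
    simpa [one_div] using h1
  | succ j ih =>
    have h1 : ∑ n ∈ Icc 1 x, ((n.divisors.card : ℕ) : ℝ) ^ (j + 1) / (n : ℝ) =
        ∑ n ∈ Icc 1 x, ((n.divisors.card : ℕ) : ℝ) * (((n.divisors.card : ℕ) : ℝ) ^ j / (n : ℝ)) := by
      refine Finset.sum_congr rfl fun n _ => ?_
      rw [pow_succ]; ring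
    rw [h1]
    refine (moment_conv x (fun n => ((n.divisors.card : ℕ) : ℝ) ^ j / (n : ℝ)) (fun n => by positivity)).trans ?_
    have h2 : ∑ a ∈ Icc 1 x, ∑ b ∈ Icc 1 x,
        (((a * b).divisors.card : ℕ) : ℝ) ^ j / ((a * b : ℕ) : ℝ) ≤
        ∑ a ∈ Icc 1 x, ∑ b ∈ Icc 1 x, (((a.divisors.card : ℕ) : ℝ) ^ j / (a : ℝ)) *
          (((b.divisors.card : ℕ) : ℝ) ^ j / (b : ℝ)) := by
      refine Finset.sum_le_sum fun a _ => Finset.sum_le_sum fun b _ => ?_
      rw [div_mul_div_comm, ← mul_pow]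
      push_cast
      have h3 : (((a * b).divisors.card : ℕ) : ℝ) ≤ ((a.divisors.card : ℕ) : ℝ) * ((b.divisors.card : ℕ) : ℝ) := by
        exact_mod_cast moment_card_mul a b
      gcongr
    refine h2.trans ?_
    rw [← Finset.sum_mul_sum, pow_succ, pow_mul, sq]
    have h4 : 0 ≤ ∑ n ∈ Icc 1 x, ((n.divisors.card : ℕ) : ℝ) ^ j / (n : ℝ) :=
      Finset.sum_nonneg fun n _ => by positivity
    exact mul_le_mul ih ih h4 (h4.trans ih)

theorem divisor_moment (j : ℕ) : ∃ C : ℕ, ∀ x : ℕ, 2 ≤ x →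
    ∑ n ∈ Icc 1 x, ((n.divisors.card : ℕ) : ℝ) ^ j ≤ x * (1 + Real.log x) ^ C := by
  refine ⟨2 ^ j, fun x hx => ?_⟩
  refine le_trans ?_ (mul_le_mul_of_nonneg_left (moment_S j x) (by positivity))
  rw [Finset.mul_sum]
  refine Finset.sum_le_sum fun n hn => ?_
  rw [mem_Icc] at hn
  have h1 : (0 : ℝ) < n := by exact_mod_cast hn.1
  have h2 : (n : ℝ) ≤ x := by exact_mod_cast hn.2
  rw [mul_div_assoc', le_div_iff₀ h1, mul_comm]
  exact mul_le_mul_of_nonneg_right h2 (by positivity)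

open Classical in
private lemma moment_fit {P : Finset ℕ} {ι : Type} [Fintype ι] [DecidableEq ι]
    (hP : ∀ p ∈ P, p.Prime) (h : ι → ℕ) (x : ℕ) (hx : 0 < x) :
    (univ.filter (fun σ : Col P ι => Fit h x σ)).card ≤ ∏ i, (x + h i).divisors.card := by
  rw [← Fintype.card_piFinset]
  have hpp : ∀ (σ : Col P ι) (i : ι), ∀ p ∈ part i σ, p.Prime := fun σ i p hp =>
    hP p (part_subset i σ hp)
  refine Finset.card_le_card_of_injOn (fun σ i => prt i σ) ?_ ?_
  · intro σ hσ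
    rw [mem_coe, mem_filter] at hσ
    rw [mem_coe, Fintype.mem_piFinset]
    intro i
    rw [Nat.mem_divisors]
    refine ⟨?_, by omega⟩
    show prt i σ ∣ x + h i
    rw [prt_eq, pr]
    refine Finset.prod_primes_dvd _ (fun p hp => (hpp σ i p hp).prime) (fun p hp => ?_)
    rw [mem_part] at hp
    obtain ⟨hp1, hp2⟩ := hp
    exact hσ.2 ⟨p, hp1⟩ i hp2
  · intro σ _ σ' _ he
    have h1 : ∀ i, part i σ = part i σ' := by
      intro i
      have h2 : prt i σ = prt i σ' := congrFun he i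
      rw [prt_eq, prt_eq, pr, pr] at h2
      rw [← Nat.primeFactors_prod (hpp σ i), ← Nat.primeFactors_prod (hpp σ' i), h2]
    funext p
    have h3 : ∀ i, σ p = some i ↔ σ' p = some i := by
      intro i
      have h4 : ((p : ℕ) ∈ part i σ) ↔ ((p : ℕ) ∈ part i σ') := by rw [h1 i]
      rw [mem_part, mem_part] at h4
      constructor
      · intro h5
        obtain ⟨_, h6⟩ := h4.1 ⟨p.2, h5⟩
        exact h6
      · intro h5
        obtain ⟨_, h6⟩ := h4.2 ⟨p.2, h5⟩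
        exact h6
    exact Option.ext fun i => h3 i

theorem FF_moment (ι : Type) [Fintype ι] [DecidableEq ι] [Nonempty ι] : ∃ C : ℕ, ∃ X₀ : ℕ,
    ∀ X : ℕ, X₀ ≤ X → ∀ (P : Finset ℕ), (∀ p ∈ P, p.Prime) → ∀ (h : ι → ℕ), (∀ i, h i ≤ X) →
    ∀ (M : ℝ) (L : Col P ι → ℝ), 0 ≤ M → (∀ σ, |L σ| ≤ M) →
    ∑ x ∈ Ioc X (2 * X), (FF h L x) ^ 4 ≤ M ^ 4 * X * (Real.log X) ^ C := by
  classical
  obtain ⟨C, hC⟩ := divisor_moment (4 * Fintype.card ι)
  set k := Fintype.card ι with hk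
  refine ⟨2 * C + 1, ⌈Real.exp (3 * k + 4)⌉₊, fun X hX P hP h hh M L hM hL => ?_⟩
  have hX1 : Real.exp (3 * k + 4) ≤ X := by
    calc Real.exp (3 * k + 4) ≤ (⌈Real.exp (3 * k + 4)⌉₊ : ℝ) := Nat.le_ceil _
      _ ≤ X := by exact_mod_cast hX
  have hX0 : (0 : ℝ) < X := lt_of_lt_of_le (Real.exp_pos _) hX1
  have hlog : 3 * (k : ℝ) + 4 ≤ Real.log X := by
    rw [← Real.log_exp (3 * (k : ℝ) + 4)]
    exact Real.log_le_log (Real.exp_pos _) hX1
  have hXn : 1 ≤ X := by exact_mod_cast hX0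
  -- pointwise
  have hpt : ∀ x ∈ Ioc X (2 * X), (FF h L x) ^ 4 ≤
      M ^ 4 * ∑ i, (((x + h i).divisors.card : ℕ) : ℝ) ^ (4 * k) := by
    intro x hx
    rw [mem_Ioc] at hx
    have h1 : |FF h L x| ≤ M * ∏ i, (((x + h i).divisors.card : ℕ) : ℝ) := by
      rw [FF]
      calc |∑ σ ∈ univ.filter (fun σ : Col P ι => Fit h x σ), L σ|
          ≤ ∑ σ ∈ univ.filter (fun σ : Col P ι => Fit h x σ), |L σ| := Finset.abs_sum_le_sum_abs _ _
        _ ≤ ∑ σ ∈ univ.filter (fun σ : Col P ι => Fit h x σ), M := Finset.sum_le_sum fun σ _ => hL σ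
        _ = M * ((univ.filter (fun σ : Col P ι => Fit h x σ)).card : ℝ) := by
          rw [Finset.sum_const, nsmul_eq_mul, mul_comm]
        _ ≤ M * ∏ i, (((x + h i).divisors.card : ℕ) : ℝ) := by
          refine mul_le_mul_of_nonneg_left ?_ hM
          exact_mod_cast moment_fit hP h x (by omega)
    obtain ⟨i₀, _, hi₀⟩ := Finset.exists_max_image (univ : Finset ι) (fun i => (x + h i).divisors.card)
      univ_nonempty
    have h2 : ∏ i, (((x + h i).divisors.card : ℕ) : ℝ) ≤ (((x + h i₀).divisors.card : ℕ) : ℝ) ^ k := by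
      rw [hk, ← Finset.card_univ, ← Finset.prod_const]
      exact Finset.prod_le_prod (fun i _ => by positivity) (fun i hi => by exact_mod_cast hi₀ i hi)
    have h3 : |FF h L x| ≤ M * (((x + h i₀).divisors.card : ℕ) : ℝ) ^ k :=
      h1.trans (mul_le_mul_of_nonneg_left h2 hM)
    calc (FF h L x) ^ 4 = |FF h L x| ^ 4 := by rw [Even.pow_abs (by decide)]
      _ ≤ (M * (((x + h i₀).divisors.card : ℕ) : ℝ) ^ k) ^ 4 := pow_le_pow_left₀ (abs_nonneg _) h3 4
      _ = M ^ 4 * (((x + h i₀).divisors.card : ℕ) : ℝ) ^ (4 * k) := by rw [mul_pow, ← pow_mul, mul_comm k 4]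
      _ ≤ _ := by
        refine mul_le_mul_of_nonneg_left ?_ (by positivity)
        exact Finset.single_le_sum (f := fun i => (((x + h i).divisors.card : ℕ) : ℝ) ^ (4 * k))
          (fun i _ => by positivity) (mem_univ i₀)
  refine (Finset.sum_le_sum hpt).trans ?_
  rw [← Finset.mul_sum, Finset.sum_comm, mul_assoc]
  refine mul_le_mul_of_nonneg_left ?_ (by positivity)
  have hi : ∀ i ∈ (univ : Finset ι), ∑ x ∈ Ioc X (2 * X), (((x + h i).divisors.card : ℕ) : ℝ) ^ (4 * k) ≤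
      (3 * X : ℕ) * (1 + Real.log (3 * X : ℕ)) ^ C := by
    intro i _
    refine le_trans ?_ (hC (3 * X) (by omega))
    have hinj : ∑ x ∈ Ioc X (2 * X), (((x + h i).divisors.card : ℕ) : ℝ) ^ (4 * k) =
        ∑ n ∈ (Ioc X (2 * X)).image (fun x => x + h i), ((n.divisors.card : ℕ) : ℝ) ^ (4 * k) := by
      rw [Finset.sum_image]
      intro a _ b _ hab
      simpa using hab
    rw [hinj]
    refine Finset.sum_le_sum_of_subset_of_nonneg ?_ (fun _ _ _ => by positivity)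
    intro n hn
    rw [mem_image] at hn
    obtain ⟨x, hx, rfl⟩ := hn
    rw [mem_Ioc] at hx
    rw [mem_Icc]
    have := hh i
    omega
  refine (Finset.sum_le_sum hi).trans ?_
  rw [Finset.sum_const, Finset.card_univ, ← hk, nsmul_eq_mul]
  set l := Real.log X with hl
  have hl4 : 4 ≤ l := by
    have : (0 : ℝ) ≤ k := by positivity
    linarith
  have h3 : Real.log (3 * X : ℕ) ≤ 2 + l := by
    push_cast
    rw [Real.log_mul (by norm_num) hX0.ne']
    have : Real.log 3 ≤ 2 := by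
      have := Real.log_le_sub_one_of_pos (show (0 : ℝ) < 3 by norm_num)
      linarith
    linarith
  have h4 : 0 ≤ Real.log (3 * X : ℕ) := Real.log_natCast_nonneg _
  have h5 : (1 + Real.log (3 * X : ℕ)) ^ C ≤ (l ^ 2) ^ C := by
    refine pow_le_pow_left₀ (by linarith) ?_ C
    nlinarith
  have h6 : (3 * k : ℝ) ≤ l := by linarith
  calc (k : ℝ) * ((3 * X : ℕ) * (1 + Real.log (3 * X : ℕ)) ^ C)
      = X * ((3 * k) * (1 + Real.log (3 * X : ℕ)) ^ C) := by push_cast; ring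
    _ ≤ X * (l * (l ^ 2) ^ C) := by
      refine mul_le_mul_of_nonneg_left ?_ hX0.le
      exact mul_le_mul h6 h5 (by positivity) (by linarith)
    _ = X * l ^ (2 * C + 1) := by rw [← pow_mul, ← pow_succ']

end Pool.Agent.Lib.MT
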