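import Pool.Agent.Lib.BV.Main
import Pool.Agent.Lib.SW.FW1

/-!
# MT-Theta: primes in (X + h, 2X + h]

PROOF. `BV.EE BV.th`... simplest: the prime number theorem of the library (e.g. SW: ∑_{n≤x} Λ or θ(x) = x + o(x), see `SW.SC.PIA.PIA_pi`: π(x) log x/x → 1) : θ(2X + h) - θ(X + h) ≥ (π(2X+h) - π(X+h)) log X ≥ (1 - o(1)) X for h ≤ √X.
-/

set_option autoImplicit false

open Finset

namespace Pool.Agent.Lib.MT

private theorem theta_split (a b : ℕ) (hab : a ≤ b) : ∑ n ∈ Ioc a b, BV.th n =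
    ∑ p ∈ (Icc 1 b).filter Nat.Prime, Real.log p - ∑ p ∈ (Icc 1 a).filter Nat.Prime, Real.log p := by
  have h1 : ∀ m : ℕ, ∑ p ∈ (Icc 1 m).filter Nat.Prime, Real.log p = ∑ n ∈ Ioc 0 m, BV.th n := by
    intro m
    rw [sum_filter]
    refine sum_congr ?_ fun n _ => rfl
    ext n
    simp only [mem_Icc, mem_Ioc]
    omega
  rw [h1, h1, eq_sub_iff_add_eq, add_comm]
  exact sum_Ioc_consecutive _ (Nat.zero_le a) hab

theorem theta_low : ∃ X₀ : ℕ, ∀ X h : ℕ, X₀ ≤ X → (h : ℝ) ≤ (X : ℝ) ^ (1 / 2 : ℝ) →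
    (X : ℝ) / 2 ≤ ∑ n ∈ Ioc (X + h) (2 * X + h), BV.th n := by
  obtain ⟨X₀, h0⟩ := SW.FW1_theta (1 / 20) (by norm_num)
  refine ⟨max X₀ 1, fun X h hX hh => ?_⟩
  have hX0 : X₀ ≤ X := (le_max_left _ _).trans hX
  have hX1 : 1 ≤ X := (le_max_right _ _).trans hX
  have hX1r : (1 : ℝ) ≤ X := by exact_mod_cast hX1
  have hh2 : (h : ℝ) ≤ X := by
    refine hh.trans ?_
    calc (X : ℝ) ^ (1 / 2 : ℝ) ≤ (X : ℝ) ^ (1 : ℝ) :=
          Real.rpow_le_rpow_of_exponent_le hX1r (by norm_num)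
      _ = X := Real.rpow_one _
  have a1 := h0 (2 * X + h) (by omega)
  have a2 := h0 (X + h) (by omega)
  rw [theta_split (X + h) (2 * X + h) (by omega)]
  rw [abs_le] at a1 a2
  push_cast at a1 a2
  have b1 := a1.1
  have b2 := a2.2
  linarith

end Pool.Agent.Lib.MT
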