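import Pool.Agent.Lib.MT.Defs

/-!
# MT-Inv: the coefficients `lam z`

PROOF. `Amat c * Amat d = Amat (c + d)` (check the four kinds of entries), so `sum_lam`: exchange the sums, and
∑_σ (∏ Amat (c p) (ρ p) (σ p)) (∏ Amat (-1/p) (σ p) (τ p)) = ∏_p ∑_{s} Amat (c p) (ρ p) s * Amat (-1/p) s (τ p)
(`Finset.prod_univ_sum`, `Fintype.piFinset_univ`). `sum_lam_q1`: Amat 0 is the identity matrix, so ∏_p Amat 0 (ρ p) (τ p) = [ρ = τ].
`lam_ext`: some term of the sum is not zero, so for it no factor vanishes; Amat _ (some i) (τ p) ≠ 0 forces τ p = some i.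
`tot_le_of_ext`: `tot σ ∣ tot τ`. `abs_lam_le`: |∏ Amat| ≤ ∏ |..|, sum over τ = ∏_p ∑_s |Amat (-1/p) (σ p) s| and this is 1 + card ι/p if σ p = none and 1
otherwise. `card_tot_le`: #{σ : tot σ ≤ R} ≤ ∑_σ R/tot σ = R ∏_p (1 + card ι/p).
-/

set_option autoImplicit false

open Finset

namespace Pool.Agent.Lib.MT

variable {P : Finset ℕ} {ι : Type} [Fintype ι] [DecidableEq ι]

private lemma inv_amat (c d : ι → ℝ) (a b : Option ι) :
    ∑ s : Option ι, Amat c a s * Amat d s b = Amat (fun j => c j + d j) a b := by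
  rw [Fintype.sum_option]
  rcases a with _ | i <;> rcases b with _ | j
  · simp [Amat]
  · simp [Amat, add_comm]
  · simp [Amat]
  · simp [Amat]

private lemma inv_prod_sum (f : {p : ℕ // p ∈ P} → Option ι → ℝ) :
    ∑ σ : Col P ι, ∏ p : {p : ℕ // p ∈ P}, f p (σ p) = ∏ p : {p : ℕ // p ∈ P}, ∑ s : Option ι, f p s := by
  rw [Finset.prod_univ_sum, Fintype.piFinset_univ]

theorem sum_lam (c : {p : ℕ // p ∈ P} → ι → ℝ) (z : Col P ι → ℝ) (ρ : Col P ι) :
    ∑ σ : Col P ι, (∏ p : {p : ℕ // p ∈ P}, Amat (c p) (ρ p) (σ p)) * lam z σ =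
      ∑ τ : Col P ι, (∏ p : {p : ℕ // p ∈ P},
        Amat (fun j => c p j - 1 / ((p : ℕ) : ℝ)) (ρ p) (τ p)) * z τ := by
  simp only [lam, Finset.mul_sum]
  rw [Finset.sum_comm]
  refine Finset.sum_congr rfl fun τ _ => ?_
  have h1 : ∀ σ : Col P ι, (∏ p : {p : ℕ // p ∈ P}, Amat (c p) (ρ p) (σ p)) *
      ((∏ p : {p : ℕ // p ∈ P}, Amat (fun _ => -(1 / ((p : ℕ) : ℝ))) (σ p) (τ p)) * z τ) =
      (∏ p : {p : ℕ // p ∈ P}, (Amat (c p) (ρ p) (σ p) *
        Amat (fun _ => -(1 / ((p : ℕ) : ℝ))) (σ p) (τ p))) * z τ := by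
    intro σ
    rw [Finset.prod_mul_distrib, mul_assoc]
  simp only [h1]
  rw [← Finset.sum_mul]
  congr 1
  rw [inv_prod_sum (fun p s => Amat (c p) (ρ p) s * Amat (fun _ => -(1 / ((p : ℕ) : ℝ))) s (τ p))]
  refine Finset.prod_congr rfl fun p _ => ?_
  rw [inv_amat]
  simp only [sub_eq_add_neg]

theorem sum_lam_q1 (z : Col P ι → ℝ) (ρ : Col P ι) :
    ∑ σ : Col P ι, (∏ p : {p : ℕ // p ∈ P}, Amat (q1 p) (ρ p) (σ p)) * lam z σ = z ρ := by
  rw [sum_lam]
  have h1 : ∀ (a b : Option ι), Amat (fun _ : ι => (0 : ℝ)) a b = if a = b then 1 else 0 := by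
    intro a b
    rcases a with _ | i <;> rcases b with _ | j <;> simp [Amat]
  have h2 : ∀ τ : Col P ι, (∏ p : {p : ℕ // p ∈ P},
      Amat (fun j => q1 p j - 1 / ((p : ℕ) : ℝ)) (ρ p) (τ p)) = if ρ = τ then 1 else 0 := by
    intro τ
    simp only [q1, sub_self, h1]
    split_ifs with h
    · rw [h]; simp
    · have h3 : ∃ p, ρ p ≠ τ p := by
        by_contra hc
        push Not at hc
        exact h (funext hc)
      obtain ⟨p, hp⟩ := h3
      exact Finset.prod_eq_zero (mem_univ p) (by rw [if_neg hp])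
  simp only [h2]
  simp

theorem lam_ext (z : Col P ι → ℝ) (σ : Col P ι) (h : lam z σ ≠ 0) :
    ∃ τ, z τ ≠ 0 ∧ ∀ p i, σ p = some i → τ p = some i := by
  rw [lam] at h
  obtain ⟨τ, _, hτ⟩ := Finset.exists_ne_zero_of_sum_ne_zero h
  refine ⟨τ, right_ne_zero_of_mul hτ, fun p i hpi => ?_⟩
  have h1 := Finset.prod_ne_zero_iff.1 (left_ne_zero_of_mul hτ) p (mem_univ p)
  rw [hpi] at h1
  rcases h2 : τ p with _ | j
  · rw [h2] at h1
    exact absurd rfl h1
  · rw [h2] at h1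
    by_cases hij : i = j
    · rw [hij]
    · exfalso
      apply h1
      simp [Amat, hij]

theorem tot_le_of_ext (hP : ∀ p ∈ P, 1 ≤ p) (σ τ : Col P ι)
    (h : ∀ p i, σ p = some i → τ p = some i) : tot σ ≤ tot τ := by
  rw [tot, tot]
  refine Finset.prod_le_prod' fun p _ => ?_
  rcases h1 : σ p with _ | i
  · rcases h2 : τ p with _ | j
    · simp
    · simpa using hP p p.2
  · rw [h p i h1]

theorem abs_lam_le (z : Col P ι → ℝ) (hz : ∀ τ, |z τ| ≤ 1) (σ : Col P ι) :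
    |lam z σ| ≤ ∏ p : {p : ℕ // p ∈ P}, (1 + (Fintype.card ι : ℝ) / ((p : ℕ) : ℝ)) := by
  rw [lam]
  calc |∑ τ : Col P ι, (∏ p : {p : ℕ // p ∈ P}, Amat (fun _ => -(1 / ((p : ℕ) : ℝ))) (σ p) (τ p)) * z τ|
      ≤ ∑ τ : Col P ι, |(∏ p : {p : ℕ // p ∈ P}, Amat (fun _ => -(1 / ((p : ℕ) : ℝ))) (σ p) (τ p)) * z τ| :=
        Finset.abs_sum_le_sum_abs _ _
    _ ≤ ∑ τ : Col P ι, ∏ p : {p : ℕ // p ∈ P}, |Amat (fun _ => -(1 / ((p : ℕ) : ℝ))) (σ p) (τ p)| := by
        refine Finset.sum_le_sum fun τ _ => ?_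
        rw [abs_mul, Finset.abs_prod]
        exact mul_le_of_le_one_right (Finset.prod_nonneg fun _ _ => abs_nonneg _) (hz τ)
    _ = ∏ p : {p : ℕ // p ∈ P}, ∑ s : Option ι, |Amat (fun _ => -(1 / ((p : ℕ) : ℝ))) (σ p) s| :=
        inv_prod_sum (fun p s => |Amat (fun _ => -(1 / ((p : ℕ) : ℝ))) (σ p) s|)
    _ ≤ _ := by
        refine Finset.prod_le_prod (fun p _ => Finset.sum_nonneg fun _ _ => abs_nonneg _) fun p _ => ?_
        rw [Fintype.sum_option]
        have h0 : (0 : ℝ) ≤ (Fintype.card ι : ℝ) / ((p : ℕ) : ℝ) := by positivity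
        rcases h1 : σ p with _ | i
        · simp only [Amat]
          rw [Finset.sum_const, Finset.card_univ, nsmul_eq_mul, abs_one, abs_neg, abs_of_nonneg (by positivity)]
          apply le_of_eq
          ring
        · simp only [Amat]
          have h2 : ∑ x : ι, |if i = x then (1 : ℝ) else 0| = 1 := by
            rw [Finset.sum_eq_single i]
            · simp
            · intro b _ hb
              rw [if_neg (Ne.symm hb), abs_zero]
            · intro h; exact absurd (mem_univ i) h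
          rw [h2, abs_zero, zero_add]
          linarith

theorem card_tot_le (hP : ∀ p ∈ P, 1 ≤ p) (R : ℕ) :
    ((univ.filter (fun σ : Col P ι => tot σ ≤ R)).card : ℝ) ≤
      R * ∏ p : {p : ℕ // p ∈ P}, (1 + (Fintype.card ι : ℝ) / ((p : ℕ) : ℝ)) := by
  have hpos : ∀ σ : Col P ι, 0 < tot σ := by
    intro σ
    rw [tot]
    refine Finset.prod_pos fun p _ => ?_
    split_ifs
    · exact one_pos
    · exact hP p p.2
  have h1 : ((univ.filter (fun σ : Col P ι => tot σ ≤ R)).card : ℝ) ≤ ∑ σ : Col P ι, (R : ℝ) / (tot σ : ℝ) := by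
    rw [Finset.card_eq_sum_ones, Finset.sum_filter]
    push_cast
    refine Finset.sum_le_sum fun σ _ => ?_
    have h0 : (0 : ℝ) < tot σ := by exact_mod_cast hpos σ
    split_ifs with h
    · rw [le_div_iff₀ h0, one_mul]
      exact_mod_cast h
    · positivity
  refine h1.trans (le_of_eq ?_)
  have h2 : ∀ σ : Col P ι, (R : ℝ) / (tot σ : ℝ) =
      R * ∏ p : {p : ℕ // p ∈ P}, (if σ p = none then (1 : ℝ) else 1 / ((p : ℕ) : ℝ)) := by
    intro σ
    rw [div_eq_mul_inv, tot]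
    congr 1
    push_cast
    rw [← Finset.prod_inv_distrib]
    refine Finset.prod_congr rfl fun p _ => ?_
    split_ifs <;> simp
  simp only [h2]
  rw [← Finset.mul_sum]
  congr 1
  rw [inv_prod_sum (fun p s => (if s = none then (1 : ℝ) else 1 / ((p : ℕ) : ℝ)))]
  refine Finset.prod_congr rfl fun p _ => ?_
  rw [Fintype.sum_option]
  simp [div_eq_mul_inv]

end Pool.Agent.Lib.MT
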