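import Pool.Agent.Lib.MT.Crt
import Pool.Agent.Lib.MT.Inv
import Pool.Agent.Lib.Sieve.Mertens

/-!
# MT-LayA: sizes of the sums over colourings

PROOF of `layA_prod`: `1 + k/p ≤ (1 + 1/p)^k` (`one_add_mul_le_pow`) `≤ ((1 - 1/p)⁻¹)^k`; the product over `PP z R` is at
most the one over the primes `≤ R ≤ X` (all factors `≥ 1`), `Sieve.mertens_product_upper` for `X` (`X ≥ 3`).
(Products over the subtype: `Finset.prod_coe_sort`/`Finset.prod_attach`.)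
PROOF of `layA_sum`: only `σ` with `tot σ ≤ Q` matter, each term `≤ ∏`, their number: `card_tot_le` (module Inv).
PROOF of `layA_Qf`: `|Qf q L| ≤ M^2 ∑_σ ∑_τ ∏_p Kmat (q p) (σ p) (τ p)` (`Kmat ≥ 0`) `= M^2 ∏_p ∑_s ∑_t Kmat (q p) s t`
(`Fintype.prod_sum`-type identities, e.g. `Finset.prod_univ_sum`, `Fintype.piFinset_univ`; first for pairs
`Option ι × Option ι` and `Equiv.arrowProdEquivProdArrow`, or in two steps), and `∑_s ∑_t Kmat q s t = 1 + 3 ∑_j q j`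
(`Fintype.sum_option`).
-/

set_option autoImplicit false

open Finset

namespace Pool.Agent.Lib.MT

theorem layA_prod (k : ℕ) : ∃ C : ℝ, 1 ≤ C ∧ ∀ X z R : ℕ, 3 ≤ X → R ≤ X →
    ∏ p : {p : ℕ // p ∈ PP z R}, (1 + (k : ℝ) / ((p : ℕ) : ℝ)) ≤ (C * Real.log X) ^ k := by
  classical
  obtain ⟨C, hC, hM⟩ := Pool.Agent.Lib.Sieve.mertens_product_upper
  refine ⟨max C 1, le_max_right _ _, fun X z R hX hR => ?_⟩
  have hfac : ∀ p : ℕ, p.Prime → (0 : ℝ) < 1 - 1 / (p : ℝ) ∧ 1 ≤ (1 - 1 / (p : ℝ))⁻¹ ∧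
      1 + 1 / (p : ℝ) ≤ (1 - 1 / (p : ℝ))⁻¹ := by
    intro p hp
    have h2 : (2 : ℝ) ≤ p := by exact_mod_cast hp.two_le
    have h3 : 1 / (p : ℝ) ≤ 1 / 2 := one_div_le_one_div_of_le (by norm_num) h2
    have h4 : 0 ≤ 1 / (p : ℝ) := by positivity
    have h5 : (0 : ℝ) < 1 - 1 / (p : ℝ) := by linarith
    refine ⟨h5, (one_le_inv₀ h5).2 (by linarith), ?_⟩
    rw [← one_div, le_div_iff₀ h5]
    have h6 : 0 ≤ (1 / (p : ℝ)) ^ 2 := by positivity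
    nlinarith
  have hPP : ∀ p ∈ PP z R, p.Prime ∧ p ≤ R := by
    intro p hp
    unfold PP at hp
    rw [mem_filter, mem_range] at hp
    exact ⟨hp.2.1, by omega⟩
  rw [Finset.prod_coe_sort (PP z R) (fun p => 1 + (k : ℝ) / (p : ℝ))]
  have h2 : ∏ p ∈ PP z R, (1 + (k : ℝ) / (p : ℝ)) ≤ ∏ p ∈ PP z R, ((1 - 1 / (p : ℝ))⁻¹) ^ k := by
    refine prod_le_prod (fun p _ => by positivity) fun p hp => ?_
    have h3 : 1 + (k : ℝ) * (1 / (p : ℝ)) ≤ (1 + 1 / (p : ℝ)) ^ k := by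
      apply one_add_mul_le_pow
      have : (0 : ℝ) ≤ 1 / (p : ℝ) := by positivity
      linarith
    calc 1 + (k : ℝ) / (p : ℝ) = 1 + (k : ℝ) * (1 / (p : ℝ)) := by ring
      _ ≤ (1 + 1 / (p : ℝ)) ^ k := h3
      _ ≤ ((1 - 1 / (p : ℝ))⁻¹) ^ k := by
          apply pow_le_pow_left₀ _ (hfac p (hPP p hp).1).2.2
          positivity
  rw [prod_pow] at h2
  refine h2.trans ?_
  apply pow_le_pow_left₀ (prod_nonneg fun p hp => (inv_nonneg.2 (hfac p (hPP p hp).1).1.le))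
  have hsub : PP z R ⊆ (Icc 1 X).filter Nat.Prime := by
    intro p hp
    rw [mem_filter, mem_Icc]
    exact ⟨⟨(hPP p hp).1.one_le, (hPP p hp).2.trans hR⟩, (hPP p hp).1⟩
  have h5 : ∏ p ∈ PP z R, (1 - 1 / (p : ℝ))⁻¹ ≤ ∏ p ∈ (Icc 1 X).filter Nat.Prime,
      (1 - 1 / (p : ℝ))⁻¹ :=
    prod_le_prod_of_subset_of_one_le hsub
      (fun p hp => inv_nonneg.2 (hfac p (hPP p hp).1).1.le)
      (fun p hp _ => (hfac p (mem_filter.1 hp).2).2.1)
  refine h5.trans ((hM X (by omega)).trans (mul_le_mul_of_nonneg_right (le_max_left _ _) ?_))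
  apply Real.log_nonneg
  have : (3 : ℝ) ≤ X := by exact_mod_cast hX
  linarith

variable {P : Finset ℕ} {ι : Type} [Fintype ι] [DecidableEq ι]

theorem layA_sum (hP : ∀ p ∈ P, 1 ≤ p) (L : Col P ι → ℝ) (M : ℝ)
    (hM : M = ∏ p : {p : ℕ // p ∈ P}, (1 + (Fintype.card ι : ℝ) / ((p : ℕ) : ℝ)))
    (hL : ∀ σ, |L σ| ≤ M) (Q : ℕ) (hQ : ∀ σ, L σ ≠ 0 → tot σ ≤ Q) :
    ∑ σ, |L σ| ≤ Q * M ^ 2 := by
  have hM0 : 0 ≤ M := (abs_nonneg _).trans (hL fun _ => none)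
  have h1 : ∑ σ, |L σ| ≤ ∑ σ ∈ univ.filter (fun σ : Col P ι => tot σ ≤ Q), M := by
    rw [sum_filter]
    refine sum_le_sum fun σ _ => ?_
    split_ifs with h
    · exact hL σ
    · have h2 : L σ = 0 := by
        by_contra hcon
        exact h (hQ σ hcon)
      rw [h2, abs_zero]
  rw [sum_const, nsmul_eq_mul] at h1
  have h2 := card_tot_le (ι := ι) hP Q
  rw [← hM] at h2
  calc ∑ σ, |L σ| ≤ ((univ.filter (fun σ : Col P ι => tot σ ≤ Q)).card : ℝ) * M := h1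
    _ ≤ (Q * M) * M := mul_le_mul_of_nonneg_right h2 hM0
    _ = Q * M ^ 2 := by ring

omit [DecidableEq ι] in
private theorem layA_prod_sum (f : {p : ℕ // p ∈ P} → Option ι → ℝ) :
    ∑ σ : Col P ι, ∏ p : {p : ℕ // p ∈ P}, f p (σ p) =
      ∏ p : {p : ℕ // p ∈ P}, ∑ s : Option ι, f p s := by
  rw [Finset.prod_univ_sum, Fintype.piFinset_univ]

omit [Fintype ι] in
private theorem layA_K_nonneg (q : ι → ℝ) (hq : ∀ i, 0 ≤ q i) (a b : Option ι) :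
    0 ≤ Kmat q a b := by
  cases a with
  | none =>
    cases b with
    | none => exact zero_le_one
    | some j => exact hq j
  | some i =>
    cases b with
    | none => exact hq i
    | some j =>
      show (0 : ℝ) ≤ if i = j then q i else 0
      split_ifs
      · exact hq i
      · exact le_rfl

private theorem layA_K_sum (q : ι → ℝ) :
    ∑ s : Option ι, ∑ t : Option ι, Kmat q s t = 1 + 3 * ∑ i, q i := by
  rw [Fintype.sum_option, Fintype.sum_option]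
  have h1 : ∀ i : ι, ∑ t : Option ι, Kmat q (some i) t = 2 * q i := by
    intro i
    rw [Fintype.sum_option]
    simp only [Kmat]
    rw [Finset.sum_ite_eq univ i (fun _ => q i), if_pos (mem_univ i)]
    ring
  simp only [h1]
  rw [← mul_sum]
  simp only [Kmat]
  ring

theorem layA_Qf (q : {p : ℕ // p ∈ P} → ι → ℝ) (hq : ∀ p i, 0 ≤ q p i) (L : Col P ι → ℝ) (M : ℝ)
    (hL : ∀ σ, |L σ| ≤ M) :
    |Qf q L| ≤ M ^ 2 * ∏ p : {p : ℕ // p ∈ P}, (1 + 3 * ∑ i, q p i) := by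
  have hM0 : 0 ≤ M := (abs_nonneg _).trans (hL fun _ => none)
  have h1 : ∏ p : {p : ℕ // p ∈ P}, (1 + 3 * ∑ i, q p i) =
      ∑ σ : Col P ι, ∑ τ : Col P ι, ∏ p : {p : ℕ // p ∈ P}, Kmat (q p) (σ p) (τ p) := by
    have h2 : ∀ σ : Col P ι, ∑ τ : Col P ι, ∏ p : {p : ℕ // p ∈ P}, Kmat (q p) (σ p) (τ p) =
        ∏ p : {p : ℕ // p ∈ P}, ∑ t : Option ι, Kmat (q p) (σ p) t := fun σ =>
      layA_prod_sum (fun p t => Kmat (q p) (σ p) t)
    simp only [h2]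
    rw [layA_prod_sum (fun p s => ∑ t : Option ι, Kmat (q p) s t)]
    exact prod_congr rfl fun p _ => (layA_K_sum (q p)).symm
  rw [h1]
  unfold Qf
  calc |∑ σ : Col P ι, ∑ τ : Col P ι, (∏ p : {p : ℕ // p ∈ P}, Kmat (q p) (σ p) (τ p)) *
        (L σ * L τ)|
      ≤ ∑ σ : Col P ι, |∑ τ : Col P ι, (∏ p : {p : ℕ // p ∈ P}, Kmat (q p) (σ p) (τ p)) *
        (L σ * L τ)| := abs_sum_le_sum_abs _ _
    _ ≤ ∑ σ : Col P ι, ∑ τ : Col P ι, |(∏ p : {p : ℕ // p ∈ P}, Kmat (q p) (σ p) (τ p)) *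
        (L σ * L τ)| := sum_le_sum fun σ _ => abs_sum_le_sum_abs _ _
    _ ≤ ∑ σ : Col P ι, ∑ τ : Col P ι, M ^ 2 *
        ∏ p : {p : ℕ // p ∈ P}, Kmat (q p) (σ p) (τ p) := by
        refine sum_le_sum fun σ _ => sum_le_sum fun τ _ => ?_
        have h3 : 0 ≤ ∏ p : {p : ℕ // p ∈ P}, Kmat (q p) (σ p) (τ p) :=
          prod_nonneg fun p _ => layA_K_nonneg (q p) (hq p) _ _
        rw [abs_mul, abs_of_nonneg h3, abs_mul, mul_comm]
        refine mul_le_mul_of_nonneg_right ?_ h3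
        rw [sq]
        exact mul_le_mul (hL σ) (hL τ) (abs_nonneg _) hM0
    _ = M ^ 2 * ∑ σ : Col P ι, ∑ τ : Col P ι, ∏ p : {p : ℕ // p ∈ P},
        Kmat (q p) (σ p) (τ p) := by
        simp only [mul_sum]

end Pool.Agent.Lib.MT
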