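import Pool.Agent.Lib.MT.Defs

/-!
# MT-GSum: the step function `gg` and its sums

PROOF. Let i ≤ J be the least j with r ≤ exp(2^j ℓ) (if any); then gg J ℓ r = 2^(-i) (geometric sum), else 0. `gg_sq`: gg^2 = 4^(-i) is one of the terms of the right side. `gg_log`: gg^2 log r ≤ 4^(-i) 2^i ℓ
= 2^(-i) ℓ, again one of the terms (all terms are ≥ 0; r ≥ 1). AA: ∑_s gg/pr s = ∑_{j<J} 2^(-j-1) DD (exp(2^j ℓ)) + 2^(-J) DD(exp(2^J ℓ)) ≥ ∑_{j<J} 2^(-j-1) κ/2 2^j ℓ = J κ ℓ/4.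
BB ≤ ∑_{j≤J} 4^(-j) DD(exp(2^j ℓ)) ≤ ∑_j 4^(-j) C κ 2^j ℓ ≤ 2 C κ ℓ. BL ≤ ∑_{j≤J} 2^(-j) ℓ DD(exp(2^j ℓ)) ≤ (J+1) C κ ℓ². BB_lower: gg = 1 for r ≤ exp ℓ. BB_one: the term s = ∅.
-/

set_option autoImplicit false

open Finset

namespace Pool.Agent.Lib.MT

variable (J : ℕ) (ℓ : ℝ)

private theorem GSum_thr (hℓ : 0 ≤ ℓ) {i j : ℕ} (h : i ≤ j) : Real.exp (2 ^ i * ℓ) ≤ Real.exp (2 ^ j * ℓ) := by
  refine Real.exp_le_exp.mpr (mul_le_mul_of_nonneg_right ?_ hℓ)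
  exact pow_le_pow_right₀ (by norm_num) h

private theorem GSum_tel (i : ℕ) : ∀ J : ℕ, i ≤ J →
    ∑ j ∈ range J, (if i ≤ j then (1 / 2 : ℝ) ^ (j + 1) else 0) + (1 / 2 : ℝ) ^ J = (1 / 2 : ℝ) ^ i := by
  intro J hJ
  induction J, hJ using Nat.le_induction with
  | base =>
    have h1 : ∑ j ∈ range i, (if i ≤ j then (1 / 2 : ℝ) ^ (j + 1) else 0) = 0 := by
      refine Finset.sum_eq_zero (fun j hj => ?_)
      rw [if_neg (not_le.mpr (Finset.mem_range.mp hj))]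
    rw [h1, zero_add]
  | succ J hJ ih =>
    rw [Finset.sum_range_succ, if_pos hJ, ← ih, pow_succ]
    ring

private theorem GSum_val (hℓ : 0 ≤ ℓ) (r : ℕ) :
    (gg J ℓ r = 0 ∧ ∀ j ≤ J, ¬ (r : ℝ) ≤ Real.exp (2 ^ j * ℓ)) ∨
    ∃ i ≤ J, (r : ℝ) ≤ Real.exp (2 ^ i * ℓ) ∧ (∀ j < i, ¬ (r : ℝ) ≤ Real.exp (2 ^ j * ℓ)) ∧
      gg J ℓ r = (1 / 2 : ℝ) ^ i := by
  classical
  by_cases hJ : (r : ℝ) ≤ Real.exp (2 ^ J * ℓ)
  · right
    have hex : ∃ j, (r : ℝ) ≤ Real.exp (2 ^ j * ℓ) := ⟨J, hJ⟩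
    refine ⟨Nat.find hex, Nat.find_min' hex hJ, Nat.find_spec hex, fun j hj => Nat.find_min hex hj, ?_⟩
    rw [← GSum_tel (Nat.find hex) J (Nat.find_min' hex hJ)]
    unfold gg
    rw [if_pos hJ]
    congr 1
    refine Finset.sum_congr rfl (fun j _ => ?_)
    by_cases hj : Nat.find hex ≤ j
    · rw [if_pos hj, if_pos (le_trans (Nat.find_spec hex) (GSum_thr ℓ hℓ hj))]
    · rw [if_neg hj, if_neg (Nat.find_min hex (not_le.mp hj))]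
  · left
    have h1 : ∀ j ≤ J, ¬ (r : ℝ) ≤ Real.exp (2 ^ j * ℓ) := fun j hj h => hJ (le_trans h (GSum_thr ℓ hℓ hj))
    refine ⟨?_, h1⟩
    unfold gg
    rw [if_neg hJ, add_zero]
    refine Finset.sum_eq_zero (fun j hj => ?_)
    rw [if_neg (h1 j (Finset.mem_range.mp hj).le)]

theorem gg_nonneg (r : ℕ) : 0 ≤ gg J ℓ r := by
  unfold gg
  refine add_nonneg (Finset.sum_nonneg (fun j _ => ?_)) ?_
  · split_ifs <;> positivity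
  · split_ifs <;> positivity

theorem gg_anti (hℓ : 0 ≤ ℓ) (a b : ℕ) (h : a ≤ b) : gg J ℓ b ≤ gg J ℓ a := by
  have _ := hℓ
  have hab : (a : ℝ) ≤ (b : ℝ) := by exact_mod_cast h
  unfold gg
  refine add_le_add (Finset.sum_le_sum (fun j _ => ?_)) ?_
  · by_cases hb : (b : ℝ) ≤ Real.exp (2 ^ j * ℓ)
    · rw [if_pos hb, if_pos (le_trans hab hb)]
    · rw [if_neg hb]
      split_ifs <;> positivity
  · by_cases hb : (b : ℝ) ≤ Real.exp (2 ^ J * ℓ)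
    · rw [if_pos hb, if_pos (le_trans hab hb)]
    · rw [if_neg hb]
      split_ifs <;> positivity

theorem gg_le_one (r : ℕ) : gg J ℓ r ≤ 1 := by
  have h1 := GSum_tel 0 J (Nat.zero_le _)
  rw [pow_zero] at h1
  rw [← h1]
  unfold gg
  refine add_le_add (Finset.sum_le_sum (fun j _ => ?_)) ?_
  · rw [if_pos (Nat.zero_le j)]
    split_ifs
    · exact le_refl _
    · positivity
  · split_ifs
    · exact le_refl _
    · positivity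

theorem gg_supp (hℓ : 0 ≤ ℓ) (r : ℕ) (h : gg J ℓ r ≠ 0) : (r : ℝ) ≤ Real.exp (2 ^ J * ℓ) := by
  rcases GSum_val J ℓ hℓ r with ⟨h1, _⟩ | ⟨i, hi, h2, _, _⟩
  · exact absurd h1 h
  · exact le_trans h2 (GSum_thr ℓ hℓ hi)

theorem gg_sq (hℓ : 0 ≤ ℓ) (r : ℕ) : gg J ℓ r ^ 2 ≤
    ∑ j ∈ range (J + 1), if (r : ℝ) ≤ Real.exp (2 ^ j * ℓ) then (1 / 4 : ℝ) ^ j else 0 := by
  have hnn : ∀ j ∈ range (J + 1), (0 : ℝ) ≤ if (r : ℝ) ≤ Real.exp (2 ^ j * ℓ) then (1 / 4 : ℝ) ^ j else 0 := by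
    intro j _
    split_ifs <;> positivity
  rcases GSum_val J ℓ hℓ r with ⟨h1, _⟩ | ⟨i, hi, h2, _, h3⟩
  · rw [h1]
    refine le_trans (le_of_eq ?_) (Finset.sum_nonneg hnn)
    norm_num
  · refine le_trans (le_of_eq ?_) (Finset.single_le_sum hnn (Finset.mem_range.mpr (Nat.lt_succ_of_le hi)))
    rw [if_pos h2, h3, ← pow_mul, mul_comm i 2, pow_mul]
    norm_num

theorem gg_log (hℓ : 0 ≤ ℓ) (r : ℕ) (hr : 1 ≤ r) : gg J ℓ r ^ 2 * Real.log r ≤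
    ∑ j ∈ range (J + 1), if (r : ℝ) ≤ Real.exp (2 ^ j * ℓ) then (1 / 2 : ℝ) ^ j * ℓ else 0 := by
  have hnn : ∀ j ∈ range (J + 1), (0 : ℝ) ≤ if (r : ℝ) ≤ Real.exp (2 ^ j * ℓ) then (1 / 2 : ℝ) ^ j * ℓ else 0 := by
    intro j _
    split_ifs <;> positivity
  have hr0 : (0 : ℝ) < (r : ℝ) := by exact_mod_cast hr
  rcases GSum_val J ℓ hℓ r with ⟨h1, _⟩ | ⟨i, hi, h2, _, h3⟩
  · rw [h1]
    refine le_trans (le_of_eq ?_) (Finset.sum_nonneg hnn)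
    norm_num
  · refine le_trans ?_ (Finset.single_le_sum hnn (Finset.mem_range.mpr (Nat.lt_succ_of_le hi)))
    rw [if_pos h2, h3]
    have h4 : Real.log r ≤ 2 ^ i * ℓ := by
      rw [Real.log_le_iff_le_exp hr0]
      exact h2
    have h5 : ((1 / 2 : ℝ) ^ i) ^ 2 * Real.log r ≤ ((1 / 2 : ℝ) ^ i) ^ 2 * (2 ^ i * ℓ) :=
      mul_le_mul_of_nonneg_left h4 (by positivity)
    refine le_trans h5 (le_of_eq ?_)
    have h6 : (1 / 2 : ℝ) ^ i * 2 ^ i = 1 := by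
      rw [← mul_pow]
      norm_num
    calc ((1 / 2 : ℝ) ^ i) ^ 2 * (2 ^ i * ℓ) = (1 / 2 : ℝ) ^ i * ((1 / 2 : ℝ) ^ i * 2 ^ i) * ℓ := by ring
      _ = (1 / 2 : ℝ) ^ i * ℓ := by rw [h6, mul_one]

private theorem GSum_step (P : Finset ℕ) (x c : ℝ) :
    ∑ s ∈ P.powerset, (if (pr s : ℝ) ≤ x then c else 0) / (pr s : ℝ) = c * DD P x := by
  unfold DD
  rw [Finset.sum_filter, Finset.mul_sum]
  refine Finset.sum_congr rfl (fun s _ => ?_)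
  split_ifs
  · rw [mul_one_div]
  · rw [zero_div, mul_zero]

private theorem GSum_DD_nonneg (P : Finset ℕ) (x : ℝ) : 0 ≤ DD P x := by
  unfold DD
  exact Finset.sum_nonneg (fun s _ => by positivity)

theorem AA_lower (hℓ : 0 ≤ ℓ) (P : Finset ℕ) (κ : ℝ)
    (h : ∀ j < J, κ / 2 * (2 ^ j * ℓ) ≤ DD P (Real.exp (2 ^ j * ℓ))) :
    J * κ * ℓ / 4 ≤ AA P (gg J ℓ) := by
  have _ := hℓ
  have h1 : AA P (gg J ℓ) = ∑ j ∈ range J, (1 / 2 : ℝ) ^ (j + 1) * DD P (Real.exp (2 ^ j * ℓ)) +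
      (1 / 2 : ℝ) ^ J * DD P (Real.exp (2 ^ J * ℓ)) := by
    unfold AA gg
    rw [← GSum_step P (Real.exp (2 ^ J * ℓ)) ((1 / 2 : ℝ) ^ J),
      Finset.sum_congr rfl (fun j _ => (GSum_step P (Real.exp (2 ^ j * ℓ)) ((1 / 2 : ℝ) ^ (j + 1))).symm),
      Finset.sum_comm, ← Finset.sum_add_distrib]
    refine Finset.sum_congr rfl (fun s _ => ?_)
    rw [add_div, Finset.sum_div]
  rw [h1]
  have h2 : ∑ j ∈ range J, (1 / 2 : ℝ) ^ (j + 1) * (κ / 2 * (2 ^ j * ℓ)) ≤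
      ∑ j ∈ range J, (1 / 2 : ℝ) ^ (j + 1) * DD P (Real.exp (2 ^ j * ℓ)) := by
    refine Finset.sum_le_sum (fun j hj => ?_)
    exact mul_le_mul_of_nonneg_left (h j (Finset.mem_range.mp hj)) (by positivity)
  have h3 : ∑ j ∈ range J, (1 / 2 : ℝ) ^ (j + 1) * (κ / 2 * (2 ^ j * ℓ)) = J * κ * ℓ / 4 := by
    have h4 : ∀ j ∈ range J, (1 / 2 : ℝ) ^ (j + 1) * (κ / 2 * (2 ^ j * ℓ)) = κ * ℓ / 4 := by
      intro j _
      have h6 : (1 / 2 : ℝ) ^ j * 2 ^ j = 1 := by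
        rw [← mul_pow]
        norm_num
      calc (1 / 2 : ℝ) ^ (j + 1) * (κ / 2 * (2 ^ j * ℓ)) = ((1 / 2 : ℝ) ^ j * 2 ^ j) * (κ * ℓ / 4) := by
            rw [pow_succ]; ring
        _ = κ * ℓ / 4 := by rw [h6, one_mul]
    rw [Finset.sum_congr rfl h4, Finset.sum_const, Finset.card_range, nsmul_eq_mul]
    ring
  have h5 : 0 ≤ (1 / 2 : ℝ) ^ J * DD P (Real.exp (2 ^ J * ℓ)) :=
    mul_nonneg (by positivity) (GSum_DD_nonneg P _)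
  linarith

private theorem GSum_double (P : Finset ℕ) (a b : ℕ → ℝ)
    (f : ℕ → ℝ) (hf : ∀ s ∈ P.powerset, f (pr s) ≤ ∑ j ∈ range (J + 1), if (pr s : ℝ) ≤ b j then a j else 0) :
    ∑ s ∈ P.powerset, f (pr s) / (pr s : ℝ) ≤ ∑ j ∈ range (J + 1), a j * DD P (b j) := by
  rw [Finset.sum_congr rfl (fun j _ => (GSum_step P (b j) (a j)).symm), Finset.sum_comm]
  refine Finset.sum_le_sum (fun s hs => ?_)
  rw [← Finset.sum_div]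
  exact div_le_div_of_nonneg_right (hf s hs) (Nat.cast_nonneg _)

private theorem GSum_geom (J : ℕ) : ∑ j ∈ range (J + 1), (1 / 2 : ℝ) ^ j ≤ 2 := by
  have h1 : ∀ n : ℕ, ∑ j ∈ range n, (1 / 2 : ℝ) ^ j = 2 - 2 * (1 / 2 : ℝ) ^ n := by
    intro n
    induction n with
    | zero => norm_num
    | succ n ih => rw [Finset.sum_range_succ, ih, pow_succ]; ring
  rw [h1]
  have : (0 : ℝ) ≤ (1 / 2 : ℝ) ^ (J + 1) := by positivity
  linarith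

theorem BB_upper (hℓ : 0 ≤ ℓ) (P : Finset ℕ) (κ C : ℝ) (hκ : 0 ≤ κ) (hC : 0 ≤ C)
    (h : ∀ j ≤ J, DD P (Real.exp (2 ^ j * ℓ)) ≤ C * κ * (2 ^ j * ℓ)) :
    BB P (gg J ℓ) ≤ 2 * C * κ * ℓ := by
  have h1 : BB P (gg J ℓ) ≤ ∑ j ∈ range (J + 1), (1 / 4 : ℝ) ^ j * DD P (Real.exp (2 ^ j * ℓ)) := by
    unfold BB
    exact GSum_double J P (fun j => (1 / 4 : ℝ) ^ j) (fun j => Real.exp (2 ^ j * ℓ)) (fun r => gg J ℓ r ^ 2)
      (fun s _ => gg_sq J ℓ hℓ (pr s))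
  refine le_trans h1 ?_
  have h2 : ∑ j ∈ range (J + 1), (1 / 4 : ℝ) ^ j * DD P (Real.exp (2 ^ j * ℓ)) ≤
      ∑ j ∈ range (J + 1), (1 / 2 : ℝ) ^ j * (C * κ * ℓ) := by
    refine Finset.sum_le_sum (fun j hj => ?_)
    refine le_trans (mul_le_mul_of_nonneg_left (h j (Nat.lt_succ_iff.mp (Finset.mem_range.mp hj))) (by positivity))
      (le_of_eq ?_)
    have h6 : (1 / 4 : ℝ) ^ j * 2 ^ j = (1 / 2 : ℝ) ^ j := by
      rw [← mul_pow]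
      norm_num
    calc (1 / 4 : ℝ) ^ j * (C * κ * (2 ^ j * ℓ)) = ((1 / 4 : ℝ) ^ j * 2 ^ j) * (C * κ * ℓ) := by ring
      _ = _ := by rw [h6]
  refine le_trans h2 ?_
  rw [← Finset.sum_mul]
  have h3 : 0 ≤ C * κ * ℓ := by positivity
  have h4 := mul_le_mul_of_nonneg_right (GSum_geom J) h3
  linarith

theorem BL_upper (hℓ : 0 ≤ ℓ) (P : Finset ℕ) (hP : ∀ p ∈ P, 1 ≤ p) (κ C : ℝ) (hκ : 0 ≤ κ)
    (hC : 0 ≤ C) (h : ∀ j ≤ J, DD P (Real.exp (2 ^ j * ℓ)) ≤ C * κ * (2 ^ j * ℓ)) :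
    BL P (gg J ℓ) ≤ (J + 1) * C * κ * ℓ ^ 2 := by
  have _ := hκ
  have _ := hC
  have hpr : ∀ s ∈ P.powerset, 1 ≤ pr s := by
    intro s hs
    unfold pr
    exact Finset.one_le_prod' (fun p hp => hP p (Finset.mem_powerset.mp hs hp))
  have h1 : BL P (gg J ℓ) ≤ ∑ j ∈ range (J + 1), ((1 / 2 : ℝ) ^ j * ℓ) * DD P (Real.exp (2 ^ j * ℓ)) := by
    unfold BL
    exact GSum_double J P (fun j => (1 / 2 : ℝ) ^ j * ℓ) (fun j => Real.exp (2 ^ j * ℓ))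
      (fun r => gg J ℓ r ^ 2 * Real.log r) (fun s hs => gg_log J ℓ hℓ (pr s) (hpr s hs))
  refine le_trans h1 ?_
  have h2 : ∑ j ∈ range (J + 1), ((1 / 2 : ℝ) ^ j * ℓ) * DD P (Real.exp (2 ^ j * ℓ)) ≤
      ∑ _j ∈ range (J + 1), C * κ * ℓ ^ 2 := by
    refine Finset.sum_le_sum (fun j hj => ?_)
    refine le_trans (mul_le_mul_of_nonneg_left (h j (Nat.lt_succ_iff.mp (Finset.mem_range.mp hj))) (by positivity))
      (le_of_eq ?_)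
    have h6 : (1 / 2 : ℝ) ^ j * 2 ^ j = 1 := by
      rw [← mul_pow]
      norm_num
    calc ((1 / 2 : ℝ) ^ j * ℓ) * (C * κ * (2 ^ j * ℓ)) = ((1 / 2 : ℝ) ^ j * 2 ^ j) * (C * κ * ℓ ^ 2) := by ring
      _ = _ := by rw [h6, one_mul]
  refine le_trans h2 (le_of_eq ?_)
  rw [Finset.sum_const, Finset.card_range, nsmul_eq_mul]
  push_cast
  ring

private theorem GSum_one (hℓ : 0 ≤ ℓ) (r : ℕ) (hr : (r : ℝ) ≤ Real.exp ℓ) : gg J ℓ r = 1 := by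
  have hr0 : (r : ℝ) ≤ Real.exp (2 ^ 0 * ℓ) := by
    rw [pow_zero, one_mul]
    exact hr
  rcases GSum_val J ℓ hℓ r with ⟨_, h1⟩ | ⟨i, hi, h2, h3, h4⟩
  · exact absurd hr0 (h1 0 (Nat.zero_le _))
  · have h5 : i = 0 := by
      by_contra hne
      exact h3 0 (Nat.pos_of_ne_zero hne) hr0
    rw [h4, h5, pow_zero]

theorem BB_lower (hℓ : 0 ≤ ℓ) (P : Finset ℕ) (κ : ℝ) (h : κ / 2 * ℓ ≤ DD P (Real.exp ℓ)) :
    κ / 2 * ℓ ≤ BB P (gg J ℓ) := by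
  refine le_trans h ?_
  unfold DD BB
  rw [Finset.sum_filter]
  refine Finset.sum_le_sum (fun s _ => ?_)
  split_ifs with hs
  · rw [GSum_one J ℓ hℓ (pr s) hs, one_pow]
  · positivity

theorem BB_one (hℓ : 0 ≤ ℓ) (P : Finset ℕ) : 1 ≤ BB P (gg J ℓ) := by
  unfold BB
  have h1 : gg J ℓ (pr ∅) ^ 2 / (pr ∅ : ℝ) = 1 := by
    have h2 : pr ∅ = 1 := Finset.prod_empty
    rw [h2, GSum_one J ℓ hℓ 1 (by
      rw [Nat.cast_one]
      exact Real.one_le_exp hℓ)]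
    norm_num
  refine le_trans (le_of_eq h1.symm) ?_
  exact Finset.single_le_sum (f := fun s => gg J ℓ (pr s) ^ 2 / (pr s : ℝ)) (fun s _ => by positivity)
    (Finset.empty_mem_powerset P)

end Pool.Agent.Lib.MT
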