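import Pool.Agent.Lib.MT.Defs
import Pool.Agent.Lib.Sieve.Mertens

/-!
# MT-OneDim: one-dimensional sums

PROOF. `DD_lower`: every n ≤ x is uniquely n = b c² r with b composed of primes ≤ w, c composed of primes > w and r squarefree composed of primes > w, all ≤ x ≤ R. So
log x ≤ ∑_{n ≤ x} 1/n ≤ (∑_b 1/b) (∑_c 1/c²) DD x, ∑_b 1/b = ∏_{p≤w} (1 - 1/p)^(-1) = 1/kap w (finite version: b | N^e), ∑_c 1/c² ≤ 2. (Alternative: Nat.sq_mul_squarefree, then
split the squarefree part n' = b' r with b' | primorial w: log x ≤ 2 ∏_{p ≤ w}(1 + 1/p) DD x and ∏ (1 + 1/p) ≤ 1/kap w. This needs no infinite sums except ∑ 1/c² ≤ 2.)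
`DD_upper`: DD x ≤ ∏_{w < p ≤ x} (1 + 1/p) ≤ ∏_{w<p≤x} (1 - 1/p)^(-1) = kap w ∏_{p≤x} (1 - 1/p)^(-1) ≤ C kap w log x (`Sieve.mertens_product_upper` for ⌊x⌋).
`kap_low`: 1/kap z ≤ C log z ≤ C B loglog X ≤ √(log X).
`prod_col_le`: ∏_{p ∈ PP w R} (1 + k/p) ≤ ∏_{p ≤ R} (1 - 1/p)^(-k) ≤ (C log R)^k.
-/

set_option autoImplicit false

open Finset

namespace Pool.Agent.Lib.MT

private theorem OneDim_mem {w R p : ℕ} : p ∈ PP w R ↔ p ≤ R ∧ p.Prime ∧ w < p := by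
  unfold PP
  rw [mem_filter, mem_range, Nat.lt_succ_iff]

private theorem OneDim_two {w R p : ℕ} (hp : p ∈ PP w R) : (2 : ℝ) ≤ p := by
  have h := (OneDim_mem.1 hp).2.1.two_le
  exact_mod_cast h

private theorem OneDim_fac {w R p : ℕ} (hp : p ∈ PP w R) : 0 < 1 - 1 / (p : ℝ) := by
  have h2 := OneDim_two hp
  have h3 : 1 / (p : ℝ) ≤ 1 / 2 := one_div_le_one_div_of_le (by norm_num) h2
  linarith

private theorem OneDim_fac_le {w R p : ℕ} (hp : p ∈ PP w R) : 1 - 1 / (p : ℝ) ≤ 1 := by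
  have h2 := OneDim_two hp
  have h3 : 0 ≤ 1 / (p : ℝ) := by positivity
  linarith

private theorem OneDim_one_le {w R p : ℕ} (hp : p ∈ PP w R) : 1 ≤ (1 - 1 / (p : ℝ))⁻¹ :=
  (one_le_inv₀ (OneDim_fac hp)).2 (OneDim_fac_le hp)

private theorem OneDim_plus {w R p : ℕ} (hp : p ∈ PP w R) :
    1 + 1 / (p : ℝ) ≤ (1 - 1 / (p : ℝ))⁻¹ := by
  have h1 := OneDim_fac hp
  rw [← one_div, le_div_iff₀ h1]
  have h3 : 0 ≤ (1 / (p : ℝ)) ^ 2 := by positivity
  nlinarith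

private theorem OneDim_sub_Icc (w R : ℕ) : PP w R ⊆ (Icc 1 R).filter Nat.Prime := by
  intro p hp
  have h := OneDim_mem.1 hp
  rw [mem_filter, mem_Icc]
  exact ⟨⟨h.2.1.one_le, h.1⟩, h.2.1⟩

private theorem OneDim_Icc (R : ℕ) : (Icc 1 R).filter Nat.Prime = PP 0 R := by
  ext p
  rw [OneDim_mem, mem_filter, mem_Icc]
  constructor
  · rintro ⟨⟨h1, h2⟩, h3⟩
    exact ⟨h2, h3, h3.pos⟩
  · rintro ⟨h1, h2, h3⟩
    exact ⟨⟨h3, h1⟩, h2⟩

/-- Mertens for the set `PP 0 R` -/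
private theorem OneDim_mertens : ∃ C : ℝ, 1 ≤ C ∧ ∀ z : ℕ, 2 ≤ z →
    ∏ p ∈ PP 0 z, (1 - 1 / (p : ℝ))⁻¹ ≤ C * Real.log z := by
  obtain ⟨C, hC, h⟩ := Pool.Agent.Lib.Sieve.mertens_product_upper
  refine ⟨max C 1, le_max_right _ _, fun z hz => ?_⟩
  have h1 := h z hz
  rw [OneDim_Icc] at h1
  refine h1.trans (mul_le_mul_of_nonneg_right (le_max_left _ _) ?_)
  apply Real.log_nonneg
  have : (2 : ℝ) ≤ z := by exact_mod_cast hz
  linarith

private theorem OneDim_powerset (P : Finset ℕ) :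
    ∑ s ∈ P.powerset, 1 / (pr s : ℝ) = ∏ p ∈ P, (1 + 1 / (p : ℝ)) := by
  rw [Finset.prod_one_add]
  refine sum_congr rfl fun s _ => ?_
  unfold pr
  push_cast
  simp

theorem kap_pos (w : ℕ) : 0 < kap w := by
  unfold kap
  exact prod_pos fun p hp => OneDim_fac hp

private theorem OneDim_kap_le (w : ℕ) : kap w ≤ 1 := by
  unfold kap
  exact prod_le_one (fun p hp => (OneDim_fac hp).le) fun p hp => OneDim_fac_le hp

private theorem OneDim_kap_inv (w : ℕ) :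
    ∏ p ∈ PP 0 w, (1 - 1 / (p : ℝ))⁻¹ = (kap w)⁻¹ := by
  unfold kap
  rw [Finset.prod_inv_distrib]

private theorem OneDim_prod_le_kap (w : ℕ) :
    ∏ p ∈ PP 0 w, (1 + 1 / (p : ℝ)) ≤ (kap w)⁻¹ := by
  rw [← OneDim_kap_inv]
  refine prod_le_prod (fun p hp => ?_) fun p hp => OneDim_plus hp
  have := OneDim_two hp
  positivity

/-- comparison of a sum with the sum over a set that is mapped onto it -/
private theorem OneDim_surj {α β : Type} [DecidableEq α] [DecidableEq β] (A : Finset α)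
    (T : Finset β) (φ : β → α) (f : α → ℝ) (hf : ∀ t ∈ T, 0 ≤ f (φ t))
    (h : ∀ a ∈ A, ∃ t ∈ T, φ t = a) : ∑ a ∈ A, f a ≤ ∑ t ∈ T, f (φ t) := by
  classical
  rcases A.eq_empty_or_nonempty with hA | hA
  · rw [hA, sum_empty]
    exact sum_nonneg hf
  obtain ⟨a₀, ha₀⟩ := hA
  obtain ⟨t₀, _, _⟩ := h a₀ ha₀
  have : Nonempty β := ⟨t₀⟩
  choose! ψ hψ using h
  have h1 : ∑ a ∈ A, f a = ∑ t ∈ A.image ψ, f (φ t) := by
    rw [sum_image]
    · exact sum_congr rfl fun a ha => by rw [(hψ a ha).2]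
    · intro a ha b hb hab
      have e1 := (hψ a ha).2
      have e2 := (hψ b hb).2
      rw [← e1, ← e2]
      exact congrArg φ hab
  rw [h1]
  refine sum_le_sum_of_subset_of_nonneg ?_ fun t ht _ => hf t ht
  intro t ht
  obtain ⟨a, ha, rfl⟩ := mem_image.1 ht
  exact (hψ a ha).1

private theorem OneDim_sq (N : ℕ) : ∑ c ∈ Icc 1 N, 1 / (c : ℝ) ^ 2 ≤ 2 := by
  have key : ∀ N : ℕ, 1 ≤ N → ∑ c ∈ Icc 1 N, 1 / (c : ℝ) ^ 2 ≤ 2 - 1 / (N : ℝ) := by
    intro N hN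
    induction N, hN using Nat.le_induction with
    | base => norm_num
    | succ n hn ih =>
      rw [Finset.sum_Icc_succ_top (by omega)]
      have hn' : (0 : ℝ) < n := by exact_mod_cast hn
      have h1 : 1 / ((n : ℝ) + 1) ^ 2 ≤ 1 / (n : ℝ) - 1 / ((n : ℝ) + 1) := by
        rw [div_sub_div _ _ hn'.ne' (by positivity), div_le_div_iff₀ (by positivity) (by positivity)]
        nlinarith
      push_cast
      linarith
  rcases Nat.eq_zero_or_pos N with rfl | hN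
  · norm_num
  · have h1 := key N hN
    have h2 : (0 : ℝ) ≤ 1 / (N : ℝ) := by positivity
    linarith

private theorem OneDim_log_le (x : ℝ) (hx : 1 ≤ x) :
    Real.log x ≤ ∑ n ∈ Icc 1 ⌊x⌋₊, 1 / (n : ℝ) := by
  have h1 := log_le_harmonic_floor x (by linarith)
  rw [harmonic_eq_sum_Icc] at h1
  refine h1.trans (le_of_eq ?_)
  push_cast
  exact sum_congr rfl fun n _ => by rw [one_div]

/-- the map `(c, s₁, s₂) ↦ c² pr s₁ pr s₂` is onto -/
private theorem OneDim_onto (w R : ℕ) (x : ℝ) (hxR : x ≤ R) (n : ℕ) (hn : n ∈ Icc 1 ⌊x⌋₊)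
    (hx : 0 ≤ x) :
    ∃ t ∈ (Icc 1 ⌊x⌋₊) ×ˢ ((PP 0 w).powerset ×ˢ
      ((PP w R).powerset.filter (fun s => (pr s : ℝ) ≤ x))),
      t.1 ^ 2 * (pr t.2.1 * pr t.2.2) = n := by
  classical
  rw [mem_Icc] at hn
  have hnx : (n : ℝ) ≤ x := (Nat.le_floor_iff hx).1 hn.2
  obtain ⟨a, b, hab, ha⟩ := Nat.sq_mul_squarefree n
  have hn0 : n ≠ 0 := by omega
  have hb0 : b ≠ 0 := by
    rintro rfl
    apply hn0
    rw [← hab]
    ring
  have ha0 : a ≠ 0 := ha.ne_zero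
  have hsplit : pr (a.primeFactors.filter (fun p => p ≤ w)) *
      pr (a.primeFactors.filter (fun p => ¬ p ≤ w)) = a := by
    unfold pr
    rw [prod_filter_mul_prod_filter_not]
    exact Nat.prod_primeFactors_of_squarefree ha
  have hb1 : b ≤ n := by
    rw [← hab]
    calc b = b * 1 := (mul_one b).symm
      _ ≤ b * b := Nat.mul_le_mul_left b (Nat.pos_of_ne_zero hb0)
      _ = b ^ 2 * 1 := by ring
      _ ≤ b ^ 2 * a := Nat.mul_le_mul_left _ (Nat.pos_of_ne_zero ha0)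
  have ha1 : a ≤ n := by
    rw [← hab]
    calc a = 1 * a := (one_mul a).symm
      _ ≤ b ^ 2 * a := Nat.mul_le_mul_right a (Nat.pos_of_ne_zero (pow_ne_zero 2 hb0))
  have hdiv : pr (a.primeFactors.filter (fun p => ¬ p ≤ w)) ≤ a := by
    apply Nat.le_of_dvd (Nat.pos_of_ne_zero ha0)
    exact Dvd.intro_left _ hsplit
  refine ⟨(b, (a.primeFactors.filter (fun p => p ≤ w), a.primeFactors.filter (fun p => ¬ p ≤ w))),
    ?_, ?_⟩
  · rw [mem_product, mem_product, mem_filter, mem_powerset, mem_powerset, mem_Icc]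
    refine ⟨⟨Nat.pos_of_ne_zero hb0, hb1.trans hn.2⟩, ?_, ?_, ?_⟩
    · intro p hp
      rw [mem_filter] at hp
      have hpp := Nat.prime_of_mem_primeFactors hp.1
      exact OneDim_mem.2 ⟨hp.2, hpp, hpp.pos⟩
    · intro p hp
      rw [mem_filter] at hp
      have hpp := Nat.prime_of_mem_primeFactors hp.1
      have hpa : p ≤ a := Nat.le_of_mem_primeFactors hp.1
      refine OneDim_mem.2 ⟨?_, hpp, by omega⟩
      have h1 : (p : ℝ) ≤ R := by
        have h2 : (p : ℝ) ≤ n := by exact_mod_cast hpa.trans ha1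
        linarith
      exact_mod_cast h1
    · have h2 : (pr (a.primeFactors.filter (fun p => ¬ p ≤ w)) : ℝ) ≤ n := by
        exact_mod_cast hdiv.trans ha1
      linarith
  · show b ^ 2 * (pr (a.primeFactors.filter (fun p => p ≤ w)) *
      pr (a.primeFactors.filter (fun p => ¬ p ≤ w))) = n
    rw [hsplit]
    exact hab

private theorem OneDim_pr_pos {w R : ℕ} {s : Finset ℕ} (hs : s ⊆ PP w R) : 0 < pr s := by
  unfold pr
  exact prod_pos fun p hp => (OneDim_mem.1 (hs hp)).2.1.pos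

theorem DD_lower (w R : ℕ) (x : ℝ) (hx : 1 ≤ x) (hxR : x ≤ R) :
    kap w / 2 * Real.log x ≤ DD (PP w R) x := by
  classical
  have hkap := kap_pos w
  have h1 := OneDim_log_le x hx
  have h2 : ∑ n ∈ Icc 1 ⌊x⌋₊, 1 / (n : ℝ) ≤
      ∑ t ∈ (Icc 1 ⌊x⌋₊) ×ˢ ((PP 0 w).powerset ×ˢ
        ((PP w R).powerset.filter (fun s => (pr s : ℝ) ≤ x))),
        1 / ((t.1 ^ 2 * (pr t.2.1 * pr t.2.2) : ℕ) : ℝ) := by
    refine OneDim_surj (Icc 1 ⌊x⌋₊) _ (fun t : ℕ × Finset ℕ × Finset ℕ =>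
      t.1 ^ 2 * (pr t.2.1 * pr t.2.2)) (fun n : ℕ => 1 / (n : ℝ)) ?_ ?_
    · intro t _
      positivity
    · intro n hn
      exact OneDim_onto w R x hxR n hn (by linarith)
  have h3 : ∑ t ∈ (Icc 1 ⌊x⌋₊) ×ˢ ((PP 0 w).powerset ×ˢ
        ((PP w R).powerset.filter (fun s => (pr s : ℝ) ≤ x))),
        1 / ((t.1 ^ 2 * (pr t.2.1 * pr t.2.2) : ℕ) : ℝ) =
      (∑ c ∈ Icc 1 ⌊x⌋₊, 1 / (c : ℝ) ^ 2) * ((∑ s ∈ (PP 0 w).powerset, 1 / (pr s : ℝ)) *
        DD (PP w R) x) := by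
    unfold DD
    rw [sum_product, sum_mul]
    refine sum_congr rfl fun c _ => ?_
    rw [sum_product, sum_mul, mul_sum]
    refine sum_congr rfl fun s _ => ?_
    rw [mul_sum, mul_sum]
    refine sum_congr rfl fun s' _ => ?_
    push_cast
    rw [one_div_mul_one_div, one_div_mul_one_div]
  have hDD : 0 ≤ DD (PP w R) x := by
    unfold DD
    exact sum_nonneg fun s _ => by positivity
  have h4 := OneDim_sq ⌊x⌋₊
  have h5 := OneDim_prod_le_kap w
  rw [← OneDim_powerset] at h5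
  have h6 : (∑ s ∈ (PP 0 w).powerset, 1 / (pr s : ℝ)) * DD (PP w R) x ≤
      (kap w)⁻¹ * DD (PP w R) x := mul_le_mul_of_nonneg_right h5 hDD
  have h7 : 0 ≤ (kap w)⁻¹ * DD (PP w R) x := mul_nonneg (inv_nonneg.2 hkap.le) hDD
  have h8 : (∑ c ∈ Icc 1 ⌊x⌋₊, 1 / (c : ℝ) ^ 2) * ((∑ s ∈ (PP 0 w).powerset, 1 / (pr s : ℝ)) *
        DD (PP w R) x) ≤ 2 * ((kap w)⁻¹ * DD (PP w R) x) :=
    mul_le_mul h4 h6 (mul_nonneg (sum_nonneg fun s _ => by positivity) hDD) (by norm_num)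
  have h9 : Real.log x ≤ 2 * ((kap w)⁻¹ * DD (PP w R) x) := by
    rw [h3] at h2
    linarith
  calc kap w / 2 * Real.log x ≤ kap w / 2 * (2 * ((kap w)⁻¹ * DD (PP w R) x)) :=
        mul_le_mul_of_nonneg_left h9 (by positivity)
    _ = DD (PP w R) x := by
        field_simp

theorem DD_upper : ∃ C : ℝ, 1 ≤ C ∧ ∀ (w R : ℕ) (x : ℝ), 2 ≤ x → (w : ℝ) ≤ x →
    DD (PP w R) x ≤ C * kap w * Real.log x := by
  classical
  obtain ⟨C, hC, hM⟩ := OneDim_mertens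
  refine ⟨C, hC, fun w R x hx hwx => ?_⟩
  set z : ℕ := ⌊x⌋₊ with hz
  have hz2 : 2 ≤ z := Nat.le_floor (by exact_mod_cast hx)
  have hwz : w ≤ z := Nat.le_floor hwx
  have hzx : (z : ℝ) ≤ x := Nat.floor_le (by linarith)
  have h1 : DD (PP w R) x ≤ ∑ s ∈ (PP w z).powerset, 1 / (pr s : ℝ) := by
    unfold DD
    refine sum_le_sum_of_subset_of_nonneg ?_ fun s _ _ => by positivity
    intro s hs
    rw [mem_filter, mem_powerset] at hs
    rw [mem_powerset]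
    intro p hp
    have hpm := OneDim_mem.1 (hs.1 hp)
    refine OneDim_mem.2 ⟨?_, hpm.2.1, hpm.2.2⟩
    apply Nat.le_floor
    have hdvd : p ∣ pr s := dvd_prod_of_mem _ hp
    have hle : p ≤ pr s := Nat.le_of_dvd (OneDim_pr_pos hs.1) hdvd
    have hle' : (p : ℝ) ≤ pr s := by exact_mod_cast hle
    linarith [hs.2]
  rw [OneDim_powerset] at h1
  have h2 : ∏ p ∈ PP w z, (1 + 1 / (p : ℝ)) ≤ ∏ p ∈ PP w z, (1 - 1 / (p : ℝ))⁻¹ := by
    refine prod_le_prod (fun p hp => ?_) fun p hp => OneDim_plus hp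
    have := OneDim_two hp
    positivity
  have hunion : PP 0 z = PP 0 w ∪ PP w z := by
    ext p
    rw [mem_union, OneDim_mem, OneDim_mem, OneDim_mem]
    constructor
    · rintro ⟨h1, h2, h3⟩
      by_cases hpw : p ≤ w
      · exact Or.inl ⟨hpw, h2, h3⟩
      · exact Or.inr ⟨h1, h2, by omega⟩
    · rintro (⟨h1, h2, h3⟩ | ⟨h1, h2, h3⟩)
      · exact ⟨h1.trans hwz, h2, h3⟩
      · exact ⟨h1, h2, h2.pos⟩
  have hdisj : Disjoint (PP 0 w) (PP w z) := by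
    rw [disjoint_left]
    intro p hp hp'
    have e1 := (OneDim_mem.1 hp).1
    have e2 := (OneDim_mem.1 hp').2.2
    omega
  have h3 := hM z hz2
  rw [hunion, prod_union hdisj, OneDim_kap_inv] at h3
  have hkap := kap_pos w
  have h4 : ∏ p ∈ PP w z, (1 - 1 / (p : ℝ))⁻¹ ≤ kap w * (C * Real.log z) := by
    calc ∏ p ∈ PP w z, (1 - 1 / (p : ℝ))⁻¹
        = kap w * ((kap w)⁻¹ * ∏ p ∈ PP w z, (1 - 1 / (p : ℝ))⁻¹) := by
          rw [← mul_assoc, mul_inv_cancel₀ hkap.ne', one_mul]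
      _ ≤ kap w * (C * Real.log z) := mul_le_mul_of_nonneg_left h3 hkap.le
  have h5 : Real.log z ≤ Real.log x := by
    apply Real.log_le_log _ hzx
    have : (2 : ℝ) ≤ z := by exact_mod_cast hz2
    linarith
  calc DD (PP w R) x ≤ kap w * (C * Real.log z) := h1.trans (h2.trans h4)
    _ ≤ kap w * (C * Real.log x) :=
        mul_le_mul_of_nonneg_left (mul_le_mul_of_nonneg_left h5 (by linarith)) hkap.le
    _ = C * kap w * Real.log x := by ring

private theorem OneDim_log_large (A : ℝ) : ∃ X₀ : ℕ, ∀ X : ℕ, X₀ ≤ X → A ≤ Real.log X := by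
  have h := Real.tendsto_log_atTop.comp tendsto_natCast_atTop_atTop
  obtain ⟨X₀, hX₀⟩ := Filter.eventually_atTop.1 (h.eventually_ge_atTop A)
  exact ⟨X₀, fun X hX => hX₀ X hX⟩

theorem prod_col_le (k : ℕ) : ∃ C : ℕ, ∃ X₀ : ℕ, ∀ X : ℕ, X₀ ≤ X → ∀ w R : ℕ, R ≤ X →
    ∏ p : {p : ℕ // p ∈ PP w R}, (1 + (k : ℝ) / ((p : ℕ) : ℝ)) ≤ (Real.log X) ^ C := by
  classical
  obtain ⟨C, hC, hM⟩ := OneDim_mertens
  obtain ⟨X₀, hX₀⟩ := OneDim_log_large C
  refine ⟨2 * k, X₀, fun X hX w R hR => ?_⟩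
  have hlog : C ≤ Real.log X := hX₀ X hX
  have hlog1 : 1 ≤ Real.log X := hC.trans hlog
  have h1 : ∏ p : {p : ℕ // p ∈ PP w R}, (1 + (k : ℝ) / ((p : ℕ) : ℝ)) =
      ∏ p ∈ PP w R, (1 + (k : ℝ) / (p : ℝ)) :=
    Finset.prod_coe_sort (PP w R) (fun p => 1 + (k : ℝ) / (p : ℝ))
  rw [h1]
  have h2 : ∏ p ∈ PP w R, (1 + (k : ℝ) / (p : ℝ)) ≤ ∏ p ∈ PP w R, ((1 - 1 / (p : ℝ))⁻¹) ^ k := by
    refine prod_le_prod (fun p hp => ?_) fun p hp => ?_
    · have := OneDim_two hp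
      positivity
    · have h3 : 1 + (k : ℝ) * (1 / (p : ℝ)) ≤ (1 + 1 / (p : ℝ)) ^ k := by
        apply one_add_mul_le_pow
        have : (0 : ℝ) ≤ 1 / (p : ℝ) := by positivity
        linarith
      calc 1 + (k : ℝ) / (p : ℝ) = 1 + (k : ℝ) * (1 / (p : ℝ)) := by ring
        _ ≤ (1 + 1 / (p : ℝ)) ^ k := h3
        _ ≤ ((1 - 1 / (p : ℝ))⁻¹) ^ k := by
            apply pow_le_pow_left₀ _ (OneDim_plus hp)
            positivity
  rw [prod_pow] at h2
  refine h2.trans ?_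
  have h4 : ∏ p ∈ PP w R, (1 - 1 / (p : ℝ))⁻¹ ≤ (Real.log X) ^ 2 := by
    by_cases hR2 : 2 ≤ R
    · have hsub : PP w R ⊆ PP 0 R := by
        intro p hp
        have h := OneDim_mem.1 hp
        exact OneDim_mem.2 ⟨h.1, h.2.1, h.2.1.pos⟩
      have h5 : ∏ p ∈ PP w R, (1 - 1 / (p : ℝ))⁻¹ ≤ ∏ p ∈ PP 0 R, (1 - 1 / (p : ℝ))⁻¹ := by
        refine prod_le_prod_of_subset_of_one_le hsub (fun p hp => ?_) fun p hp _ => OneDim_one_le hp
        exact inv_nonneg.2 (OneDim_fac hp).le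
      have h6 := hM R hR2
      have hR0 : (0 : ℝ) < R := by
        have : (2 : ℝ) ≤ R := by exact_mod_cast hR2
        linarith
      have h7 : Real.log R ≤ Real.log X := Real.log_le_log hR0 (by exact_mod_cast hR)
      have h8 : 0 ≤ Real.log R := Real.log_nonneg (by
        have : (2 : ℝ) ≤ R := by exact_mod_cast hR2
        linarith)
      calc ∏ p ∈ PP w R, (1 - 1 / (p : ℝ))⁻¹ ≤ C * Real.log R := h5.trans h6
        _ ≤ Real.log X * Real.log X := mul_le_mul hlog h7 h8 (by linarith)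
        _ = (Real.log X) ^ 2 := by ring
    · have hemp : PP w R = ∅ := by
        rw [eq_empty_iff_forall_notMem]
        intro p hp
        have h := OneDim_mem.1 hp
        have := h.2.1.two_le
        omega
      rw [hemp, prod_empty]
      exact one_le_pow₀ hlog1
  calc (∏ p ∈ PP w R, (1 - 1 / (p : ℝ))⁻¹) ^ k ≤ ((Real.log X) ^ 2) ^ k := by
        apply pow_le_pow_left₀ _ h4
        exact prod_nonneg fun p hp => (inv_nonneg.2 (OneDim_fac hp).le)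
    _ = (Real.log X) ^ (2 * k) := by rw [← pow_mul]

theorem kap_low (B : ℕ) : ∃ X₀ : ℕ, ∀ X z : ℕ, X₀ ≤ X → (z : ℝ) ≤ (Real.log X) ^ B →
    1 / (Real.log X) ^ (1 / 2 : ℝ) ≤ kap z := by
  obtain ⟨C, hC, hM⟩ := OneDim_mertens
  have hT : Filter.Tendsto (fun y : ℝ => Real.log y / y ^ (1 / 2 : ℝ)) Filter.atTop (nhds 0) :=
    (isLittleO_log_rpow_atTop (by norm_num : (0 : ℝ) < 1 / 2)).tendsto_div_nhds_zero
  have hpos : (0 : ℝ) < 1 / (C * (B + 1)) := by positivity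
  obtain ⟨Y, hY⟩ := Filter.eventually_atTop.1 (hT.eventually (gt_mem_nhds hpos))
  obtain ⟨X₀, hX₀⟩ := OneDim_log_large (max Y 1)
  refine ⟨X₀, fun X z hX hz => ?_⟩
  have hl := hX₀ X hX
  have hl1 : 1 ≤ Real.log X := (le_max_right _ _).trans hl
  have hlY : Y ≤ Real.log X := (le_max_left _ _).trans hl
  have hq0 : 0 < (Real.log X) ^ (1 / 2 : ℝ) := Real.rpow_pos_of_pos (by linarith) _
  have hq1 : 1 ≤ (Real.log X) ^ (1 / 2 : ℝ) := Real.one_le_rpow hl1 (by norm_num)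
  have hkap := kap_pos z
  by_cases hz2 : 2 ≤ z
  · have h1 := hM z hz2
    rw [OneDim_kap_inv] at h1
    have hz0 : (0 : ℝ) < z := by
      have : (2 : ℝ) ≤ z := by exact_mod_cast hz2
      linarith
    have h2 : Real.log z ≤ B * Real.log (Real.log X) := by
      rw [← Real.log_pow]
      exact Real.log_le_log hz0 hz
    have h3 := hY (Real.log X) hlY
    rw [div_lt_iff₀ hq0] at h3
    have hll : 0 ≤ Real.log (Real.log X) := Real.log_nonneg hl1
    have h4 : (kap z)⁻¹ ≤ (Real.log X) ^ (1 / 2 : ℝ) := by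
      have hCB : 0 < C * ((B : ℝ) + 1) := by positivity
      calc (kap z)⁻¹ ≤ C * Real.log z := h1
        _ ≤ C * (B * Real.log (Real.log X)) := mul_le_mul_of_nonneg_left h2 (by linarith)
        _ ≤ C * ((B + 1) * Real.log (Real.log X)) := by
            apply mul_le_mul_of_nonneg_left _ (by linarith)
            apply mul_le_mul_of_nonneg_right _ hll
            linarith
        _ = (C * (B + 1)) * Real.log (Real.log X) := by ring
        _ ≤ (C * (B + 1)) * (1 / (C * (B + 1)) * (Real.log X) ^ (1 / 2 : ℝ)) :=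
            mul_le_mul_of_nonneg_left h3.le hCB.le
        _ = (Real.log X) ^ (1 / 2 : ℝ) := by
            field_simp
    rw [div_le_iff₀ hq0]
    calc (1 : ℝ) = kap z * (kap z)⁻¹ := (mul_inv_cancel₀ hkap.ne').symm
      _ ≤ kap z * (Real.log X) ^ (1 / 2 : ℝ) := mul_le_mul_of_nonneg_left h4 hkap.le
  · have hk : kap z = 1 := by
      unfold kap
      apply prod_eq_one
      intro p hp
      have h := OneDim_mem.1 hp
      have := h.2.1.two_le
      omega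
    rw [hk]
    rw [div_le_one hq0]
    exact hq1

end Pool.Agent.Lib.MT
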