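import Pool.Agent.Lib.MT.Part

/-!
# MT-YLow: lower bound for `YY`

PROOF. The extensions τ of ρ by primes of colour m correspond to the subsets u ⊆ P disjoint from supp ρ = {p : ρ p ≠ none}: tot τ = tot ρ * pr u, prt m τ = pr u, prt i τ = prt i ρ for i ≠ m, and the product of the
Amat is 1/pr u (all other τ give 0). If g (pr u) ≠ 0 then (pr u)^2 ≤ R, so (tot ρ * pr u)^2 ≤ R^2 and the condition tot τ ≤ R holds. Hence YY = (∏_{i ≠ m} g (prt i ρ)) ∑_{u ⊆ P \ supp ρ} g (pr u)/pr u.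
And AA P g = ∑_{s ⊆ P} g(pr s)/pr s = ∑_{e ⊆ supp ρ} ∑_{u ⊆ P \ supp ρ} g(pr e pr u)/(pr e pr u) ≤ (∑_{e ⊆ supp ρ} 1/pr e) ∑_u g(pr u)/pr u (g antitone, pr e ≥ 1), and ∑_e 1/pr e = ∏_{p ∈ supp ρ} (1 + 1/p)
(`Finset.prod_one_add` or `Finset.prod_add_one`). `Finset.powerset_union`/`Finset.sum_powerset` product structure: s ↔ (s ∩ supp, s \ supp).
-/

set_option autoImplicit false

open Finset

namespace Pool.Agent.Lib.MT

variable {P : Finset ℕ} {ι : Type} [Fintype ι] [DecidableEq ι]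

private theorem YLow_pr (u : Finset ℕ) (hu : u ⊆ P) :
    ∏ p : {p : ℕ // p ∈ P}, (if (p : ℕ) ∈ u then (p : ℕ) else 1) = pr u := by
  classical
  rw [Finset.prod_coe_sort P (fun p => if p ∈ u then p else 1), Finset.prod_ite_mem,
    inter_eq_right.2 hu]
  rfl

private theorem YLow_pr_real (u : Finset ℕ) (hu : u ⊆ P) :
    ∏ p : {p : ℕ // p ∈ P}, (if (p : ℕ) ∈ u then 1 / ((p : ℕ) : ℝ) else 1) = 1 / (pr u : ℝ) := by
  classical
  rw [Finset.prod_coe_sort P (fun p => if p ∈ u then 1 / (p : ℝ) else 1), Finset.prod_ite_mem,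
    inter_eq_right.2 hu]
  unfold pr
  push_cast
  simp

private theorem YLow_pr_pos (hP : ∀ p ∈ P, p.Prime) (u : Finset ℕ) (hu : u ⊆ P) : 0 < pr u := by
  unfold pr
  exact prod_pos fun p hp => (hP p (hu hp)).pos

/-- the support of a colouring -/
private def YLow_supp (ρ : Col P ι) : Finset ℕ :=
  (univ.filter (fun p : {p : ℕ // p ∈ P} => ρ p ≠ none)).image (fun p : {p : ℕ // p ∈ P} => (p : ℕ))

omit [Fintype ι] in
private theorem YLow_mem_supp (ρ : Col P ι) (p : {p : ℕ // p ∈ P}) :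
    (p : ℕ) ∈ YLow_supp ρ ↔ ρ p ≠ none := by
  unfold YLow_supp
  rw [mem_image]
  constructor
  · rintro ⟨q, hq, hqp⟩
    have hq' : q = p := Subtype.ext hqp
    rw [← hq']
    exact (mem_filter.1 hq).2
  · intro h
    exact ⟨p, mem_filter.2 ⟨mem_univ _, h⟩, rfl⟩

omit [Fintype ι] in
private theorem YLow_supp_sub (ρ : Col P ι) : YLow_supp ρ ⊆ P := by
  intro p hp
  unfold YLow_supp at hp
  obtain ⟨q, _, rfl⟩ := mem_image.1 hp
  exact q.2

/-- the extension of `ρ` by the primes of `u` with colour `m` -/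
private def YLow_ext (m : ι) (ρ : Col P ι) (u : Finset ℕ) : Col P ι :=
  fun p => if (p : ℕ) ∈ u then some m else ρ p

omit [Fintype ι] in
private theorem YLow_none (ρ : Col P ι) (u : Finset ℕ) (hu : u ⊆ P \ YLow_supp ρ)
    (p : {p : ℕ // p ∈ P}) (hp : (p : ℕ) ∈ u) : ρ p = none := by
  have h := (mem_sdiff.1 (hu hp)).2
  rw [YLow_mem_supp] at h
  exact not_not.1 h

omit [Fintype ι] in
private theorem YLow_tot (m : ι) (ρ : Col P ι) (u : Finset ℕ) (hu : u ⊆ P \ YLow_supp ρ) :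
    tot (YLow_ext m ρ u) = tot ρ * pr u := by
  rw [← YLow_pr u (hu.trans sdiff_subset)]
  unfold tot
  rw [← prod_mul_distrib]
  refine prod_congr rfl fun p _ => ?_
  unfold YLow_ext
  by_cases hp : (p : ℕ) ∈ u
  · rw [if_pos hp, if_pos hp, if_neg (Option.some_ne_none m), if_pos (YLow_none ρ u hu p hp), one_mul]
  · rw [if_neg hp, if_neg hp, mul_one]

omit [Fintype ι] in
private theorem YLow_prt_m (m : ι) (ρ : Col P ι) (hρ : ∀ p, ρ p ≠ some m) (u : Finset ℕ)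
    (hu : u ⊆ P \ YLow_supp ρ) : prt m (YLow_ext m ρ u) = pr u := by
  rw [← YLow_pr u (hu.trans sdiff_subset)]
  unfold prt
  refine prod_congr rfl fun p _ => ?_
  unfold YLow_ext
  by_cases hp : (p : ℕ) ∈ u
  · rw [if_pos hp, if_pos rfl, if_pos hp]
  · rw [if_neg hp, if_neg (hρ p), if_neg hp]

omit [Fintype ι] in
private theorem YLow_prt_ne (m i : ι) (him : i ≠ m) (ρ : Col P ι) (u : Finset ℕ)
    (hu : u ⊆ P \ YLow_supp ρ) : prt i (YLow_ext m ρ u) = prt i ρ := by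
  unfold prt
  refine prod_congr rfl fun p _ => ?_
  unfold YLow_ext
  by_cases hp : (p : ℕ) ∈ u
  · have h1 : (some m : Option ι) ≠ some i := fun h => him (Option.some.inj h).symm
    have h2 : ρ p ≠ some i := by
      rw [YLow_none ρ u hu p hp]
      exact (Option.some_ne_none i).symm
    rw [if_pos hp, if_neg h1, if_neg h2]
  · rw [if_neg hp]

omit [Fintype ι] in
private theorem YLow_Amat_self (c : ι → ℝ) (a : Option ι) : Amat c a a = 1 := by
  cases a with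
  | none => rfl
  | some i => simp [Amat]

omit [Fintype ι] in
private theorem YLow_coef (m : ι) (ρ : Col P ι) (u : Finset ℕ) (hu : u ⊆ P \ YLow_supp ρ) :
    (∏ p : {p : ℕ // p ∈ P}, Amat (fun j => if j = m then 1 / ((p : ℕ) : ℝ) else 0) (ρ p)
      (YLow_ext m ρ u p)) = 1 / (pr u : ℝ) := by
  rw [← YLow_pr_real u (hu.trans sdiff_subset)]
  refine prod_congr rfl fun p _ => ?_
  unfold YLow_ext
  by_cases hp : (p : ℕ) ∈ u
  · rw [if_pos hp, if_pos hp, YLow_none ρ u hu p hp]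
    simp [Amat]
  · rw [if_neg hp, if_neg hp, YLow_Amat_self]

omit [Fintype ι] in
private theorem YLow_Amat_nonneg (c : ι → ℝ) (hc : ∀ j, 0 ≤ c j) (a b : Option ι) :
    0 ≤ Amat c a b := by
  cases a with
  | none =>
    cases b with
    | none => exact zero_le_one
    | some j => exact hc j
  | some i =>
    cases b with
    | none => exact le_rfl
    | some j =>
      show (0 : ℝ) ≤ if i = j then 1 else 0
      split_ifs
      · exact zero_le_one
      · exact le_rfl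

private theorem YLow_yy_nonneg (g : ℕ → ℝ) (hg0 : ∀ n, 0 ≤ g n) (R : ℕ) (τ : Col P ι) :
    0 ≤ yy g R τ := by
  unfold yy
  split_ifs
  · exact prod_nonneg fun i _ => hg0 _
  · exact le_rfl

omit [Fintype ι] in
private theorem YLow_inj (m : ι) (ρ : Col P ι) (u v : Finset ℕ) (hu : u ⊆ P \ YLow_supp ρ)
    (hv : v ⊆ P \ YLow_supp ρ) (h : YLow_ext m ρ u = YLow_ext m ρ v) : u = v := by
  have key : ∀ u v : Finset ℕ, u ⊆ P \ YLow_supp ρ → YLow_ext m ρ u = YLow_ext m ρ v → u ⊆ v := by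
    intro u v hu h p hp
    have hpP : p ∈ P := (mem_sdiff.1 (hu hp)).1
    have h1 : YLow_ext m ρ u ⟨p, hpP⟩ = YLow_ext m ρ v ⟨p, hpP⟩ := by rw [h]
    by_contra hpv
    have h2 : YLow_ext m ρ u ⟨p, hpP⟩ = some m := if_pos hp
    have h3 : YLow_ext m ρ v ⟨p, hpP⟩ = ρ ⟨p, hpP⟩ := if_neg hpv
    rw [h2, h3, YLow_none ρ u hu ⟨p, hpP⟩ hp] at h1
    exact Option.some_ne_none m h1
  exact Subset.antisymm (key u v hu h) (key v u hv h.symm)

/-- the sum over the extensions is at most `YY` -/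
private theorem YLow_sum_le (hP : ∀ p ∈ P, p.Prime) (R : ℕ) (m : ι) (g : ℕ → ℝ)
    (hg0 : ∀ n, 0 ≤ g n) (hgR : ∀ n, g n ≠ 0 → n ^ 2 ≤ R)
    (ρ : Col P ι) (hρ : ∀ p, ρ p ≠ some m) (hρR : tot ρ ^ 2 ≤ R) :
    (∏ i ∈ univ.erase m, g (prt i ρ)) * ∑ u ∈ (P \ YLow_supp ρ).powerset, g (pr u) / (pr u : ℝ) ≤
      YY m g R ρ := by
  classical
  unfold YY
  have h1 : ∑ τ ∈ ((P \ YLow_supp ρ).powerset).image (YLow_ext m ρ),
      (∏ p : {p : ℕ // p ∈ P}, Amat (fun j => if j = m then 1 / ((p : ℕ) : ℝ) else 0)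
        (ρ p) (τ p)) * yy g R τ ≤
      ∑ τ : Col P ι, (∏ p : {p : ℕ // p ∈ P},
        Amat (fun j => if j = m then 1 / ((p : ℕ) : ℝ) else 0) (ρ p) (τ p)) * yy g R τ := by
    refine sum_le_sum_of_subset_of_nonneg (subset_univ _) fun τ _ _ => ?_
    refine mul_nonneg (prod_nonneg fun p _ => YLow_Amat_nonneg _ (fun j => ?_) _ _)
      (YLow_yy_nonneg g hg0 R τ)
    split_ifs
    · positivity
    · exact le_rfl
  refine le_trans ?_ h1
  rw [sum_image fun u hu v hv huv => YLow_inj m ρ u v (mem_powerset.1 hu) (mem_powerset.1 hv) huv,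
    mul_sum]
  refine sum_le_sum fun u hu => ?_
  have hu' := mem_powerset.1 hu
  have hpos := YLow_pr_pos hP u (hu'.trans sdiff_subset)
  rw [YLow_coef m ρ u hu']
  by_cases hgu : g (pr u) = 0
  · rw [hgu, zero_div, mul_zero]
    exact mul_nonneg (by positivity) (YLow_yy_nonneg g hg0 R _)
  · have h2 : tot (YLow_ext m ρ u) ≤ R := by
      rw [YLow_tot m ρ u hu']
      have h3 := hgR _ hgu
      have h4 : (tot ρ * pr u) ^ 2 ≤ R ^ 2 := by
        calc (tot ρ * pr u) ^ 2 = tot ρ ^ 2 * pr u ^ 2 := by ring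
          _ ≤ R * R := Nat.mul_le_mul hρR h3
          _ = R ^ 2 := by ring
      exact (Nat.pow_le_pow_iff_left two_ne_zero).1 h4
    unfold yy
    rw [if_pos h2, ← mul_prod_erase univ _ (mem_univ m), YLow_prt_m m ρ hρ u hu']
    have h5 : ∏ i ∈ univ.erase m, g (prt i (YLow_ext m ρ u)) = ∏ i ∈ univ.erase m, g (prt i ρ) :=
      prod_congr rfl fun i hi => by rw [YLow_prt_ne m i (ne_of_mem_erase hi) ρ u hu']
    rw [h5]
    apply le_of_eq
    ring

/-- the sum over all sets of primes splits -/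
private theorem YLow_AA (hP : ∀ p ∈ P, p.Prime) (g : ℕ → ℝ)
    (hg0 : ∀ n, 0 ≤ g n) (hg1 : ∀ a b, a ≤ b → g b ≤ g a) (S : Finset ℕ) (hS : S ⊆ P) :
    AA P g ≤ (∏ p ∈ S, (1 + 1 / (p : ℝ))) * ∑ u ∈ (P \ S).powerset, g (pr u) / (pr u : ℝ) := by
  classical
  have h0 : ∏ p ∈ S, (1 + 1 / (p : ℝ)) = ∑ e ∈ S.powerset, 1 / (pr e : ℝ) := by
    rw [Finset.prod_one_add]
    refine sum_congr rfl fun s _ => ?_
    unfold pr
    push_cast
    simp
  rw [h0, sum_mul_sum, ← sum_product']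
  unfold AA
  have h1 : ∀ s ∈ P.powerset, g (pr s) / (pr s : ℝ) ≤
      1 / (pr (s ∩ S) : ℝ) * (g (pr (s \ S)) / (pr (s \ S) : ℝ)) := by
    intro s hs
    have hs' := mem_powerset.1 hs
    have h2 : pr s = pr (s ∩ S) * pr (s \ S) := by
      unfold pr
      rw [Finset.prod_inter_mul_prod_sdiff]
    have hp1 := YLow_pr_pos hP (s ∩ S) (inter_subset_left.trans hs')
    have hp2 := YLow_pr_pos hP (s \ S) (sdiff_subset.trans hs')
    have h3 : pr (s \ S) ≤ pr s := by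
      rw [h2]
      exact Nat.le_mul_of_pos_left _ hp1
    have h4 : g (pr s) ≤ g (pr (s \ S)) := hg1 _ _ h3
    have hp1' : (0 : ℝ) < pr (s ∩ S) := by exact_mod_cast hp1
    have hp2' : (0 : ℝ) < pr (s \ S) := by exact_mod_cast hp2
    have h5 : (pr s : ℝ) = pr (s ∩ S) * pr (s \ S) := by
      rw [h2]
      push_cast
      ring
    rw [h5, one_div_mul_eq_div, div_div, mul_comm (pr (s \ S) : ℝ)]
    exact div_le_div_of_nonneg_right h4 (by positivity)
  refine (sum_le_sum h1).trans ?_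
  have h6 : ∑ s ∈ P.powerset, 1 / (pr (s ∩ S) : ℝ) * (g (pr (s \ S)) / (pr (s \ S) : ℝ)) =
      ∑ t ∈ P.powerset.image (fun s => (s ∩ S, s \ S)),
        1 / (pr t.1 : ℝ) * (g (pr t.2) / (pr t.2 : ℝ)) := by
    rw [sum_image]
    intro s _ s' _ h
    have e1 : s ∩ S = s' ∩ S := congrArg Prod.fst h
    have e2 : s \ S = s' \ S := congrArg Prod.snd h
    rw [← sdiff_union_inter s S, ← sdiff_union_inter s' S, e1, e2]
  rw [h6]
  refine sum_le_sum_of_subset_of_nonneg ?_ fun t _ _ => ?_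
  · intro t ht
    obtain ⟨s, hs, rfl⟩ := mem_image.1 ht
    have hs' := mem_powerset.1 hs
    rw [mem_product, mem_powerset, mem_powerset]
    exact ⟨inter_subset_right, sdiff_subset_sdiff hs' le_rfl⟩
  · have := hg0 (pr t.2)
    positivity

theorem YY_lower (hP : ∀ p ∈ P, p.Prime) (R : ℕ) (m : ι) (g : ℕ → ℝ)
    (hg0 : ∀ n, 0 ≤ g n) (hg1 : ∀ a b, a ≤ b → g b ≤ g a) (hgR : ∀ n, g n ≠ 0 → n ^ 2 ≤ R)
    (ρ : Col P ι) (hρ : ∀ p, ρ p ≠ some m) (hρR : tot ρ ^ 2 ≤ R) :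
    (∏ i ∈ univ.erase m, g (prt i ρ)) * AA P g *
        ∏ p : {p : ℕ // p ∈ P}, (if ρ p = none then (1 : ℝ) else (1 + 1 / ((p : ℕ) : ℝ))⁻¹) ≤
      YY m g R ρ := by
  classical
  have h1 := YLow_sum_le hP R m g hg0 hgR ρ hρ hρR
  have hS := YLow_supp_sub ρ
  have h2 := YLow_AA hP g hg0 hg1 (YLow_supp ρ) hS
  have hpos : 0 < ∏ p ∈ YLow_supp ρ, (1 + 1 / (p : ℝ)) := prod_pos fun p _ => by positivity
  have h3 : ∏ p : {p : ℕ // p ∈ P}, (if ρ p = none then (1 : ℝ) else (1 + 1 / ((p : ℕ) : ℝ))⁻¹) =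
      (∏ p ∈ YLow_supp ρ, (1 + 1 / (p : ℝ)))⁻¹ := by
    rw [← Finset.prod_inv_distrib]
    have h4 : ∏ p : {p : ℕ // p ∈ P}, (if ρ p = none then (1 : ℝ) else (1 + 1 / ((p : ℕ) : ℝ))⁻¹) =
        ∏ p : {p : ℕ // p ∈ P},
          (if (p : ℕ) ∈ YLow_supp ρ then (1 + 1 / ((p : ℕ) : ℝ))⁻¹ else 1) := by
      refine prod_congr rfl fun p _ => ?_
      by_cases hp : ρ p = none
      · have hp' : (p : ℕ) ∉ YLow_supp ρ := by
          rw [YLow_mem_supp]
          exact not_not.2 hp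
        rw [if_pos hp, if_neg hp']
      · rw [if_neg hp, if_pos ((YLow_mem_supp ρ p).2 hp)]
    rw [h4, Finset.prod_coe_sort P (fun p => if p ∈ YLow_supp ρ then (1 + 1 / (p : ℝ))⁻¹ else 1),
      Finset.prod_ite_mem, inter_eq_right.2 hS]
  rw [h3]
  have h5 : 0 ≤ ∏ i ∈ univ.erase m, g (prt i ρ) := prod_nonneg fun i _ => hg0 _
  refine le_trans ?_ h1
  rw [mul_assoc]
  refine mul_le_mul_of_nonneg_left ?_ h5
  rw [← div_eq_mul_inv, div_le_iff₀ hpos, mul_comm]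
  exact h2

end Pool.Agent.Lib.MT
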