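import Pool.Agent.Lib.MT.Tens

/-!
# MT-Quad: upper and lower bound of the quadratic form `Qf`

PROOF. Gram form of `Kmat`: with the weights `Pw none = 1 - ∑ q i`, `Pw (some i) = q i` on `Option ι` and `E s none = 1`, `E s (some i) = [s = some i]`:
`Kmat q i j = ∑_s Pw s * E s i * E s j`. So (expand the square, exchange the sums, `Finset.prod_univ_sum` / `Fintype.piFinset`: a sum over functions
of a product over the sites is the product of the sums) `Qf q L = ∑_{s} (∏ Pw) (∑_σ (∏ E) L σ)^2`.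
One site, upper: with v₀ = v none, S = ∑ q j v_j: ∑_s Pw s (∑_i E s i v i)^2 = v₀² + 2 v₀ S + ∑ q j v_j² ≤ (v₀ + S)² + ∑ q j v_j² =
∑_t Dm q 1 t (∑_i Amat q t i v i)^2.
Lower: (v₀ + S)² + (1 - s) ∑ q_j v_j² ≤ v₀² + 2 v₀ S + ∑ q_j v_j², s = ∑ q_j, since S² ≤ s ∑ q_j v_j² (Cauchy-Schwarz, `Finset.sum_mul_sq_le_sq_mul_sq` or
`inner_mul_le_norm_mul_norm`). Then `tensor_le` with (Pw, E) and (D, A) resp. exchanged.
-/

set_option autoImplicit false

open Finset

namespace Pool.Agent.Lib.MT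

variable {P : Finset ℕ} {ι : Type} [Fintype ι] [DecidableEq ι]

/-- the weights of the Gram form -/
private def gw (q : ι → ℝ) : Option ι → ℝ
  | none => 1 - ∑ i, q i
  | some i => q i

/-- the vectors of the Gram form -/
private def ge : Option ι → Option ι → ℝ
  | _, none => 1
  | none, some _ => 0
  | some s, some i => if s = i then 1 else 0

private theorem gw_nonneg {q : ι → ℝ} (hq : ∀ i, 0 ≤ q i) (hs : ∑ i, q i ≤ 1) (s : Option ι) :
    0 ≤ gw q s := by
  cases s with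
  | none => exact sub_nonneg.mpr hs
  | some i => exact hq i

private theorem kmat_gram (q : ι → ℝ) (i j : Option ι) :
    Kmat q i j = ∑ s, gw q s * (ge s i * ge s j) := by
  rw [Fintype.sum_option]
  cases i with
  | none =>
    cases j with
    | none => simp [Kmat, gw, ge]
    | some j => simp [Kmat, gw, ge]
  | some i =>
    cases j with
    | none => simp [Kmat, gw, ge]
    | some j =>
      simp only [Kmat, gw, ge]
      by_cases h : i = j
      · subst h
        simp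
      · rw [if_neg h]
        have : ∀ s : ι, (if s = i then (1 : ℝ) else 0) * (if s = j then (1 : ℝ) else 0) = 0 := by
          intro s
          by_cases h1 : s = i
          · rw [if_neg (fun h2 => h (h1.symm.trans h2)), mul_zero]
          · rw [if_neg h1, zero_mul]
        simp [this]

private theorem qf_gram (q : {p : ℕ // p ∈ P} → ι → ℝ) (L : Col P ι → ℝ) :
    Qf q L = ∑ s : Col P ι, (∏ p : {p : ℕ // p ∈ P}, gw (q p) (s p)) *
      (∑ σ : Col P ι, (∏ p : {p : ℕ // p ∈ P}, ge (s p) (σ p)) * L σ) ^ 2 := by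
  unfold Qf
  have h1 : ∀ σ τ : Col P ι, ∏ p : {p : ℕ // p ∈ P}, Kmat (q p) (σ p) (τ p) =
      ∑ s : Col P ι, (∏ p : {p : ℕ // p ∈ P}, gw (q p) (s p)) *
        ((∏ p : {p : ℕ // p ∈ P}, ge (s p) (σ p)) * ∏ p : {p : ℕ // p ∈ P}, ge (s p) (τ p)) := by
    intro σ τ
    rw [prod_congr rfl fun p _ => kmat_gram (q p) (σ p) (τ p), prod_univ_sum,
      Fintype.piFinset_univ]
    refine sum_congr rfl fun s _ => ?_
    rw [prod_mul_distrib, prod_mul_distrib]
  rw [sum_congr rfl fun σ _ => sum_congr rfl fun τ _ => by rw [h1 σ τ]]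
  simp only [sum_mul, pow_two, mul_sum]
  rw [sum_congr rfl fun σ _ => sum_comm, sum_comm]
  refine sum_congr rfl fun s _ => ?_
  rw [sum_comm]
  refine sum_congr rfl fun σ _ => sum_congr rfl fun τ _ => ?_
  ring

private theorem site_gram (q : ι → ℝ) (v : Option ι → ℝ) :
    ∑ s, gw q s * (∑ i, ge s i * v i) ^ 2 =
      v none ^ 2 + 2 * v none * (∑ j, q j * v (some j)) + ∑ j, q j * v (some j) ^ 2 := by
  rw [Fintype.sum_option]
  have h0 : ∑ i, ge (none : Option ι) i * v i = v none := by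
    rw [Fintype.sum_option]
    simp [ge]
  have h1 : ∀ s : ι, ∑ i, ge (some s) i * v i = v none + v (some s) := by
    intro s
    rw [Fintype.sum_option]
    simp [ge]
  rw [h0, sum_congr rfl fun s _ => by rw [h1 s]]
  simp only [gw]
  rw [sub_mul, one_mul, sum_mul]
  have h2 : ∑ s, q s * (v none + v (some s)) ^ 2 = ∑ s, q s * v none ^ 2 +
      2 * v none * (∑ j, q j * v (some j)) + ∑ j, q j * v (some j) ^ 2 := by
    rw [mul_sum, ← sum_add_distrib, ← sum_add_distrib]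
    refine sum_congr rfl fun s _ => ?_
    ring
  rw [h2]
  ring

private theorem site_diag (q : ι → ℝ) (c : ℝ) (v : Option ι → ℝ) :
    ∑ t, Dm q c t * (∑ i, Amat q t i * v i) ^ 2 =
      (v none + ∑ j, q j * v (some j)) ^ 2 + c * ∑ j, q j * v (some j) ^ 2 := by
  rw [Fintype.sum_option]
  have h0 : ∑ i, Amat q none i * v i = v none + ∑ j, q j * v (some j) := by
    rw [Fintype.sum_option]
    simp [Amat]
  have h1 : ∀ s : ι, ∑ i, Amat q (some s) i * v i = v (some s) := by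
    intro s
    rw [Fintype.sum_option]
    simp [Amat]
  rw [h0]
  simp only [h1, Dm]
  rw [one_mul, mul_sum]
  congr 1
  refine sum_congr rfl fun s _ => ?_
  ring

private theorem dm_nonneg {q : ι → ℝ} (hq : ∀ i, 0 ≤ q i) {c : ℝ} (hc : 0 ≤ c) (t : Option ι) :
    0 ≤ Dm q c t := by
  cases t with
  | none => exact zero_le_one
  | some i => exact mul_nonneg hc (hq i)

theorem Qf_le (q : {p : ℕ // p ∈ P} → ι → ℝ) (hq : ∀ p i, 0 ≤ q p i) (hs : ∀ p, ∑ i, q p i ≤ 1)
    (L : Col P ι → ℝ) : Qf q L ≤ ∑ ρ : Col P ι, (∏ p : {p : ℕ // p ∈ P}, Dm (q p) 1 (ρ p)) *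
      (∑ σ : Col P ι, (∏ p : {p : ℕ // p ∈ P}, Amat (q p) (ρ p) (σ p)) * L σ) ^ 2 := by
  rw [qf_gram]
  refine tensor_le (fun p => gw (q p)) (fun _ => ge) (fun p => Dm (q p) 1) (fun p => Amat (q p))
    (fun p s => gw_nonneg (hq p) (hs p) s) (fun p t => dm_nonneg (hq p) zero_le_one t)
    (fun p v => ?_) L
  rw [site_gram, site_diag]
  nlinarith [sq_nonneg (∑ j, q p j * v (some j))]

theorem le_Qf (q : {p : ℕ // p ∈ P} → ι → ℝ) (hq : ∀ p i, 0 ≤ q p i) (hs : ∀ p, ∑ i, q p i ≤ 1)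
    (L : Col P ι → ℝ) : ∑ ρ : Col P ι, (∏ p : {p : ℕ // p ∈ P}, Dm (q p) (1 - ∑ i, q p i) (ρ p)) *
      (∑ σ : Col P ι, (∏ p : {p : ℕ // p ∈ P}, Amat (q p) (ρ p) (σ p)) * L σ) ^ 2 ≤ Qf q L := by
  rw [qf_gram]
  refine tensor_le (fun p => Dm (q p) (1 - ∑ i, q p i)) (fun p => Amat (q p)) (fun p => gw (q p))
    (fun _ => ge) (fun p t => dm_nonneg (hq p) (sub_nonneg.mpr (hs p)) t)
    (fun p s => gw_nonneg (hq p) (hs p) s) (fun p v => ?_) L
  rw [site_gram, site_diag]
  have h1 : (∑ j, q p j * v (some j)) ^ 2 ≤ (∑ j, q p j) * ∑ j, q p j * v (some j) ^ 2 := by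
    refine sum_sq_le_sum_mul_sum_of_sq_le_mul _ (fun j _ => hq p j)
      (fun j _ => mul_nonneg (hq p j) (sq_nonneg _)) (fun j _ => le_of_eq ?_)
    ring
  nlinarith [h1]

end Pool.Agent.Lib.MT
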