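import Pool.Agent.Lib.MT.Part

/-!
# MT-S1main: the main term of the first sum

PROOF. zz^2 = yy^2 (mu = ±1) ≤ ∏_i g(prt i ρ)^2 and tot ρ = ∏ prt i ρ (`tot_eq`), so the sum is ≤ ∑_ρ ∏_i F(part i ρ), F s = g(pr s)^2/pr s (`prt_eq`), `col_sum_le`.
Second: with F s = g(pr s)^2/pr s * ∏_{p ∈ s} (1 + 1/p) (`prod_col`); ∑_{s ⊆ P} F s ≤ BB ∏_{p ∈ P} (1 + 1/p²) by induction over P
(f(insert p v) ≤ f(v)/p: g antitone), and ∏_{p ∈ P} (1 + 1/p²)^k ≤ exp(k ∑_{n>w} 1/n²) ≤ exp(k/w) ≤ 2 as k ≤ w/2.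
-/

set_option autoImplicit false

open Finset

namespace Pool.Agent.Lib.MT

variable {ι : Type} [Fintype ι] [DecidableEq ι]

private theorem S1main_mu {P : Finset ℕ} (ρ : Col P ι) : mu ρ ^ 2 = 1 := by
  unfold mu
  rw [← prod_pow]
  refine prod_eq_one (fun p _ => ?_)
  split_ifs <;> norm_num

private theorem S1main_term {P : Finset ℕ} (R : ℕ) (g : ℕ → ℝ) (ρ : Col P ι) :
    yy g R ρ ^ 2 / (tot ρ : ℝ) ≤ ∏ i, (g (pr (part i ρ)) ^ 2 / (pr (part i ρ) : ℝ)) := by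
  rw [prod_div_distrib, tot_eq, Nat.cast_prod]
  have h1 : ∀ i, prt i ρ = pr (part i ρ) := fun i => prt_eq i ρ
  simp only [h1]
  refine div_le_div_of_nonneg_right ?_ (prod_nonneg (fun i _ => Nat.cast_nonneg _))
  unfold yy
  split_ifs
  · rw [← prod_pow]
    simp only [h1]
    exact le_refl _
  · rw [zero_pow two_ne_zero]
    exact prod_nonneg (fun i _ => sq_nonneg _)

theorem S1_main {P : Finset ℕ} (hP : ∀ p ∈ P, 1 ≤ p) (R : ℕ) (g : ℕ → ℝ) (hg0 : ∀ n, 0 ≤ g n) :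
    ∑ ρ : Col P ι, zz g R ρ ^ 2 / (tot ρ : ℝ) ≤ (BB P g) ^ Fintype.card ι := by
  have _ := hP
  have _ := hg0
  unfold BB
  refine le_trans (sum_le_sum (fun ρ _ => ?_))
    (col_sum_le (P := P) (ι := ι) (fun s => g (pr s) ^ 2 / (pr s : ℝ)) (fun s => by positivity))
  unfold zz
  rw [mul_pow, S1main_mu, one_mul]
  exact S1main_term R g ρ

private theorem S1main_ind (P : Finset ℕ) (hP : ∀ p ∈ P, 1 ≤ p) : ∀ f : Finset ℕ → ℝ, (∀ s, 0 ≤ f s) →
    (∀ p ∈ P, ∀ s, p ∉ s → f (insert p s) ≤ f s / p) →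
    ∑ s ∈ P.powerset, f s * ∏ p ∈ s, (1 + 1 / (p : ℝ)) ≤
      (∏ p ∈ P, (1 + 1 / (p : ℝ) ^ 2)) * ∑ s ∈ P.powerset, f s := by
  induction P using Finset.induction_on with
  | empty =>
    intro f _ _
    simp
  | insert a P ha ih =>
    intro f hf0 hf
    have hsub : ∀ s ∈ P.powerset, a ∉ s := fun s hs h => ha (mem_powerset.mp hs h)
    have ha1 : (1 : ℝ) ≤ (a : ℝ) := by exact_mod_cast hP a (mem_insert_self a P)
    have ha0 : (0 : ℝ) < (a : ℝ) := by linarith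
    rw [sum_powerset_insert ha, sum_powerset_insert ha, prod_insert ha]
    have h1 : ∑ s ∈ P.powerset, f s * ∏ p ∈ s, (1 + 1 / (p : ℝ)) +
        ∑ s ∈ P.powerset, f (insert a s) * ∏ p ∈ insert a s, (1 + 1 / (p : ℝ)) =
        ∑ s ∈ P.powerset, (f s + f (insert a s) * (1 + 1 / (a : ℝ))) * ∏ p ∈ s, (1 + 1 / (p : ℝ)) := by
      rw [← sum_add_distrib]
      refine sum_congr rfl (fun s hs => ?_)
      rw [prod_insert (hsub s hs)]
      ring
    rw [h1]
    have h2 := ih (fun p hp => hP p (mem_insert_of_mem hp))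
      (fun s => f s + f (insert a s) * (1 + 1 / (a : ℝ)))
      (fun s => add_nonneg (hf0 s) (mul_nonneg (hf0 _) (by positivity)))
      (by
        intro p hp s hps
        have hpa : p ≠ a := fun h => ha (h ▸ hp)
        have e1 := hf p (mem_insert_of_mem hp) s hps
        have e2 := hf p (mem_insert_of_mem hp) (insert a s) (by
          rw [mem_insert]
          rintro (h | h)
          · exact hpa h
          · exact hps h)
        rw [Finset.insert_comm a p s, add_div, mul_div_right_comm]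
        exact add_le_add e1 (mul_le_mul_of_nonneg_right e2 (by positivity)))
    refine le_trans h2 ?_
    have h3 : ∑ s ∈ P.powerset, (f s + f (insert a s) * (1 + 1 / (a : ℝ))) ≤
        (1 + 1 / (a : ℝ) ^ 2) * (∑ s ∈ P.powerset, f s + ∑ s ∈ P.powerset, f (insert a s)) := by
      rw [← sum_add_distrib, mul_sum]
      refine sum_le_sum (fun s hs => ?_)
      have e1 := hf a (mem_insert_self a P) s (hsub s hs)
      have e2 := hf0 (insert a s)
      have e3 : f (insert a s) * (1 / (a : ℝ)) ≤ f s / a * (1 / (a : ℝ)) :=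
        mul_le_mul_of_nonneg_right e1 (by positivity)
      have e4 : f s / a * (1 / (a : ℝ)) = f s * (1 / (a : ℝ) ^ 2) := by
        field_simp
      have e5 : 0 ≤ f (insert a s) * (1 / (a : ℝ) ^ 2) := by positivity
      nlinarith
    have h4 : 0 ≤ ∏ p ∈ P, (1 + 1 / (p : ℝ) ^ 2) := prod_nonneg (fun p _ => by positivity)
    refine le_trans (mul_le_mul_of_nonneg_left h3 h4) (le_of_eq ?_)
    ring

private theorem S1main_tail (w R : ℕ) (hw1 : 1 ≤ w) : ∑ p ∈ PP w R, 1 / (p : ℝ) ^ 2 ≤ 1 / (w : ℝ) := by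
  by_cases hwR : w ≤ R
  · have h1 : ∑ p ∈ PP w R, 1 / (p : ℝ) ^ 2 ≤ ∑ i ∈ Ioc w R, ((i : ℝ) ^ 2)⁻¹ := by
      have h2 : PP w R ⊆ Ioc w R := by
        intro p hp
        unfold PP at hp
        rw [mem_filter, mem_range] at hp
        rw [mem_Ioc]
        exact ⟨hp.2.2, Nat.lt_succ_iff.mp hp.1⟩
      refine le_trans (sum_le_sum_of_subset_of_nonneg h2 (fun i _ _ => by positivity)) (le_of_eq ?_)
      exact sum_congr rfl (fun i _ => one_div _)
    have h3 := sum_Ioc_inv_sq_le_sub (α := ℝ) (Nat.pos_iff_ne_zero.mp hw1) hwR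
    have h4 : (0 : ℝ) ≤ ((R : ℝ))⁻¹ := by positivity
    rw [one_div]
    linarith
  · have h1 : PP w R = ∅ := by
      refine filter_eq_empty_iff.mpr (fun p hp h => ?_)
      rw [mem_range] at hp
      omega
    rw [h1, sum_empty]
    positivity

theorem S1_main' (w R : ℕ) (hw : 2 * Fintype.card ι ≤ w) (hw1 : 1 ≤ w) (g : ℕ → ℝ)
    (hg0 : ∀ n, 0 ≤ g n) (hg1 : ∀ a b, a ≤ b → g b ≤ g a) :
    ∑ ρ : Col (PP w R) ι, yy g R ρ ^ 2 / (tot ρ : ℝ) *
        ∏ p : {p : ℕ // p ∈ PP w R}, (if ρ p = none then (1 : ℝ) else (1 + 1 / ((p : ℕ) : ℝ))) ≤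
      2 * (BB (PP w R) g) ^ Fintype.card ι := by
  have hP : ∀ p ∈ PP w R, 1 ≤ p := by
    intro p hp
    unfold PP at hp
    exact (mem_filter.mp hp).2.1.one_le
  have hF0 : ∀ s : Finset ℕ, 0 ≤ g (pr s) ^ 2 / (pr s : ℝ) * ∏ p ∈ s, (1 + 1 / (p : ℝ)) := fun s =>
    mul_nonneg (by positivity) (prod_nonneg (fun p _ => by positivity))
  have h1 : ∑ ρ : Col (PP w R) ι, yy g R ρ ^ 2 / (tot ρ : ℝ) *
        ∏ p : {p : ℕ // p ∈ PP w R}, (if ρ p = none then (1 : ℝ) else (1 + 1 / ((p : ℕ) : ℝ))) ≤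
      (∑ s ∈ (PP w R).powerset, g (pr s) ^ 2 / (pr s : ℝ) * ∏ p ∈ s, (1 + 1 / (p : ℝ))) ^
        Fintype.card ι := by
    refine le_trans (sum_le_sum (fun ρ _ => ?_)) (col_sum_le (P := PP w R) (ι := ι)
      (fun s => g (pr s) ^ 2 / (pr s : ℝ) * ∏ p ∈ s, (1 + 1 / (p : ℝ))) hF0)
    rw [prod_mul_distrib, prod_col (fun p => 1 + 1 / (p : ℝ)) ρ]
    refine mul_le_mul_of_nonneg_right (S1main_term R g ρ) ?_
    exact prod_nonneg (fun i _ => prod_nonneg (fun p _ => by positivity))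
  refine le_trans h1 ?_
  have h2 := S1main_ind (PP w R) hP (fun s => g (pr s) ^ 2 / (pr s : ℝ)) (fun s => by positivity)
    (by
      intro p hp s hps
      have hp1 : 1 ≤ p := hP p hp
      have e1 : pr (insert p s) = p * pr s := by
        unfold pr
        rw [prod_insert hps]
      rw [e1, Nat.cast_mul, div_div, mul_comm (p : ℝ) (pr s : ℝ)]
      refine div_le_div_of_nonneg_right ?_ (by positivity)
      exact pow_le_pow_left₀ (hg0 _) (hg1 _ _ (Nat.le_mul_of_pos_left _ hp1)) 2)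
  have h3 : ∏ p ∈ PP w R, (1 + 1 / (p : ℝ) ^ 2) ≤ Real.exp (1 / (w : ℝ)) := by
    refine le_trans (prod_le_prod (fun p _ => by positivity) (fun p _ => ?_))
      (le_of_eq_of_le (Real.exp_sum _ _).symm (Real.exp_le_exp.mpr (S1main_tail w R hw1)))
    have := Real.add_one_le_exp (1 / (p : ℝ) ^ 2)
    linarith
  have hB0 : 0 ≤ BB (PP w R) g := by
    unfold BB
    exact sum_nonneg (fun s _ => by positivity)
  have h4 : ∑ s ∈ (PP w R).powerset, g (pr s) ^ 2 / (pr s : ℝ) * ∏ p ∈ s, (1 + 1 / (p : ℝ)) ≤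
      Real.exp (1 / (w : ℝ)) * BB (PP w R) g := by
    refine le_trans h2 ?_
    exact mul_le_mul_of_nonneg_right h3 hB0
  refine le_trans (pow_le_pow_left₀ (sum_nonneg (fun s _ => hF0 s)) h4 _) ?_
  rw [mul_pow]
  refine mul_le_mul_of_nonneg_right ?_ (pow_nonneg hB0 _)
  rw [← Real.exp_nat_mul]
  have hw0 : (0 : ℝ) < (w : ℝ) := by exact_mod_cast hw1
  have h5 : (Fintype.card ι : ℝ) * (1 / (w : ℝ)) ≤ 1 / 2 := by
    have h6 : (2 : ℝ) * (Fintype.card ι : ℝ) ≤ (w : ℝ) := by exact_mod_cast hw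
    rw [mul_one_div, div_le_iff₀ hw0]
    linarith
  refine le_trans (Real.exp_le_exp.mpr h5) ?_
  have h6 : Real.exp (1 / 2) ^ 2 ≤ 2 ^ 2 := by
    rw [← Real.exp_nat_mul]
    norm_num
    have := Real.exp_one_lt_d9
    linarith
  exact (sq_le_sq₀ (Real.exp_pos _).le (by norm_num)).mp h6

end Pool.Agent.Lib.MT
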