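import Pool.Agent.Lib.MT.OneDim

/-!
# MT-Vlow: the classes Om2 and the products V1, V2 for the tuple hh

PROOF. `Om2_lt`, `Om2_card` (≤ 2 card ι: c is determined by i and the alternative). `hh_ok`: p > z ≥ 2k divides no (i - j) primorial(2k), |i - j| < k. `V1_eq`: for p ≤ z, Om2 p contains exactly one class c with p | c + h m,
so the filtered set has |Om2| - 1 elements and (1 - 1/p)(1 - (ν-1)/(p-1)) = 1 - ν/p.
`V1_low`: for p ≤ 2k: hh i ≡ 0 mod p, Om2 = {0, N mod p}, ν ≤ 2, ν = 1 if p = 2 (N even): 1 - ν/p ≥ 1/(2p)... ≥ 1/(4k). For p > 2k: ν ≤ 2k, 1 - 2k/p ≥ (1 - 1/p)^(4k²)-type bound: for p ≥ 2k + 1,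
1 - 2k/p ≥ 1/p.. simple: 1 - 2k/p ≥ (1 - 1/p)^(4k) for p ≥ 8k (Bernoulli-type: (1-1/p)^(4k) ≤ exp(-4k/p) ≤ 1 - 2k/p for 4k/p ≤ 1), and ≥ 1/(8k) for 2k < p < 8k. So V1 ≥ c_k kap(z)^(4k) and kap z ≥ c/log z
(`mertens_product_upper`) ≥ c/(B loglog X): V1 ≥ 1/log X for large X.
-/

set_option autoImplicit false

open Finset

namespace Pool.Agent.Lib.MT

private theorem vlow_mem {ι : Type} [Fintype ι] (h : ι → ℕ) (N p c : ℕ) :
    c ∈ Om2 h N p ↔ c < p ∧ ∃ i, p ∣ c + h i ∨ c + h i ≡ N [MOD p] := by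
  constructor
  · intro hc
    have := (@Finset.mem_filter _ _ (_) _ _).mp hc
    exact ⟨mem_range.mp this.1, this.2⟩
  · intro hc
    exact (@Finset.mem_filter _ _ (_) _ _).mpr ⟨mem_range.mpr hc.1, hc.2⟩

private theorem vlow_PP (z p : ℕ) (h : p ∈ PP 0 z) : p.Prime ∧ p ≤ z := by
  unfold PP at h
  rw [mem_filter, mem_range] at h
  exact ⟨h.2.1, by omega⟩

theorem Om2_lt {ι : Type} [Fintype ι] (h : ι → ℕ) (N p : ℕ) : ∀ c ∈ Om2 h N p, c < p := by
  intro c hc
  exact ((vlow_mem h N p c).mp hc).1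

theorem Om2_card {ι : Type} [Fintype ι] [DecidableEq ι] (h : ι → ℕ) (N p : ℕ) :
    (Om2 h N p).card ≤ 2 * Fintype.card ι := by
  classical
  have hsub : Om2 h N p ⊆ (univ : Finset ι).biUnion (fun i =>
      ((range p).filter (fun c => p ∣ c + h i)) ∪
        ((range p).filter (fun c => c + h i ≡ N [MOD p]))) := by
    intro c hc
    obtain ⟨hcp, i, hi⟩ := (vlow_mem h N p c).mp hc
    rw [mem_biUnion]
    refine ⟨i, mem_univ _, ?_⟩
    rw [mem_union, mem_filter, mem_filter, mem_range]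
    rcases hi with hi | hi
    · exact Or.inl ⟨hcp, hi⟩
    · exact Or.inr ⟨hcp, hi⟩
  refine (card_le_card hsub).trans ?_
  refine (card_biUnion_le_card_mul univ _ 2 ?_).trans (by rw [card_univ, mul_comm])
  intro i _
  refine (card_union_le _ _).trans ?_
  have h1 : ((range p).filter (fun c => p ∣ c + h i)).card ≤ 1 := by
    rw [card_le_one]
    intro a ha b hb
    rw [mem_filter, mem_range] at ha hb
    have hab : a + h i ≡ b + h i [MOD p] :=
      ((Nat.modEq_zero_iff_dvd.mpr ha.2).trans (Nat.modEq_zero_iff_dvd.mpr hb.2).symm)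
    exact Nat.ModEq.eq_of_lt_of_lt (Nat.ModEq.add_right_cancel' _ hab) ha.1 hb.1
  have h2 : ((range p).filter (fun c => c + h i ≡ N [MOD p])).card ≤ 1 := by
    rw [card_le_one]
    intro a ha b hb
    rw [mem_filter, mem_range] at ha hb
    have hab : a + h i ≡ b + h i [MOD p] := ha.2.trans hb.2.symm
    exact Nat.ModEq.eq_of_lt_of_lt (Nat.ModEq.add_right_cancel' _ hab) ha.1 hb.1
  omega

theorem hh_ok (k z p : ℕ) (hz : 2 * k ≤ z) (hp : p.Prime) (hzp : z < p) (i j : Fin k) (hij : i ≠ j) :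
    ¬ hh k i ≡ hh k j [MOD p] := by
  intro h
  unfold hh at h
  have hcop : Nat.gcd p (primorial (2 * k)) = 1 := by
    rw [← Nat.coprime_iff_gcd_eq_one, Nat.Prime.coprime_iff_not_dvd hp]
    intro hd
    unfold primorial at hd
    rw [Prime.dvd_finsetProd_iff hp.prime] at hd
    obtain ⟨q, hq, hpq⟩ := hd
    rw [mem_filter, mem_range] at hq
    have := Nat.le_of_dvd hq.2.pos hpq
    omega
  have h2 := Nat.ModEq.cancel_right_of_coprime hcop h
  have hi := i.2
  have hj := j.2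
  have h3 := Nat.ModEq.eq_of_lt_of_lt h2 (by omega) (by omega)
  exact hij (Fin.ext (by omega))

/-- a prime `p > z > k * primorial (2k)` does not divide the difference of `t ≤ k * primorial (2k)` and `hh k i` -/
theorem hh_ok' (k z p t : ℕ) (hz : k * primorial (2 * k) ≤ z) (hp : p.Prime) (hzp : z < p)
    (ht : t ≤ k * primorial (2 * k)) (i : Fin k) (hti : t ≠ hh k i) : ¬ t ≡ hh k i [MOD p] := by
  intro h
  apply hti
  have h1 : hh k i ≤ k * primorial (2 * k) := by
    unfold hh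
    exact Nat.mul_le_mul_right _ i.2
  exact Nat.ModEq.eq_of_lt_of_lt h (by omega) (by omega)

theorem V1_eq {ι : Type} [Fintype ι] [DecidableEq ι] (h : ι → ℕ) (N z : ℕ) (m : ι) :
    V1 (Om2 h N) z = kap z * V2 (Om2 h N) (h m) z := by
  classical
  unfold V1 kap V2
  rw [← prod_mul_distrib]
  apply prod_congr rfl
  intro p hp
  obtain ⟨hpp, -⟩ := vlow_PP z p hp
  have hp2 : 2 ≤ p := hpp.two_le
  -- the class of - h m
  have hone : ((Om2 h N p).filter (fun c => p ∣ c + h m)).card = 1 := by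
    rw [card_eq_one]
    refine ⟨(p - h m % p) % p, ?_⟩
    ext c
    rw [mem_filter, mem_singleton, vlow_mem]
    have hlt : h m % p < p := Nat.mod_lt _ hpp.pos
    have hdvd : p ∣ (p - h m % p) % p + h m := by
      have h1 : (p - h m % p) % p + h m ≡ (p - h m % p) + h m % p [MOD p] :=
        Nat.ModEq.add (Nat.mod_modEq _ _) (Nat.mod_modEq _ _).symm
      rw [Nat.sub_add_cancel hlt.le] at h1
      exact (Nat.modEq_zero_iff_dvd.mp (h1.trans (Nat.modEq_zero_iff_dvd.mpr dvd_rfl)))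
    constructor
    · rintro ⟨⟨hc, -⟩, hd⟩
      have h2 : c + h m ≡ (p - h m % p) % p + h m [MOD p] :=
        (Nat.modEq_zero_iff_dvd.mpr hd).trans (Nat.modEq_zero_iff_dvd.mpr hdvd).symm
      exact Nat.ModEq.eq_of_lt_of_lt (Nat.ModEq.add_right_cancel' _ h2) hc (Nat.mod_lt _ hpp.pos)
    · rintro rfl
      exact ⟨⟨Nat.mod_lt _ hpp.pos, m, Or.inl hdvd⟩, hdvd⟩
  have hsum := card_filter_add_card_filter_not (s := Om2 h N p) (fun c => p ∣ c + h m)
  rw [hone] at hsum
  have hsumR : (1 : ℝ) + (((Om2 h N p).filter (fun c => ¬ p ∣ c + h m)).card : ℝ) =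
      ((Om2 h N p).card : ℝ) := by exact_mod_cast hsum
  rw [← hsumR]
  have hp0 : (p : ℝ) ≠ 0 := by
    have : (2 : ℝ) ≤ p := by exact_mod_cast hp2
    linarith
  have hp1 : (p : ℝ) - 1 ≠ 0 := by
    have : (2 : ℝ) ≤ p := by exact_mod_cast hp2
    linarith
  field_simp
  ring

private theorem vlow_pow (K p : ℕ) (hK : K ≤ p) (hp : 0 < p) :
    (1 - 1 / (p : ℝ)) ^ K ≤ 1 - ((K : ℝ) / 2) / p := by
  have hp' : (0 : ℝ) < p := by exact_mod_cast hp
  have hp1 : (1 : ℝ) ≤ p := by exact_mod_cast hp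
  set x : ℝ := 1 / (p : ℝ) with hx
  have hx0 : 0 ≤ x := by positivity
  have hx1 : x ≤ 1 := by rw [hx, div_le_one hp']; exact hp1
  have hKx : (K : ℝ) * x ≤ 1 := by
    rw [hx, mul_one_div, div_le_one hp']
    exact_mod_cast hK
  have hKx0 : 0 ≤ (K : ℝ) * x := by positivity
  have h1 : (1 - x) ^ K * (1 + x) ^ K ≤ 1 := by
    rw [← mul_pow]
    apply pow_le_one₀
    · nlinarith
    · nlinarith
  have h2 : 1 + (K : ℝ) * x ≤ (1 + x) ^ K := one_add_mul_le_pow (by linarith) K
  have h3 : 0 ≤ (1 - x) ^ K := pow_nonneg (by linarith) K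
  have h4 : (1 - x) ^ K * (1 + (K : ℝ) * x) ≤ 1 :=
    le_trans (mul_le_mul_of_nonneg_left h2 h3) h1
  have h5 : (K : ℝ) / 2 / p = (K : ℝ) * x / 2 := by rw [hx]; ring
  rw [h5]
  by_contra hcon
  push Not at hcon
  nlinarith

private theorem vlow_card_lt (k N p : ℕ) (hN : Even N) (hp : p.Prime) :
    (Om2 (hh k) N p).card < p := by
  classical
  rcases lt_or_ge (2 * k) p with h | h
  · have := Om2_card (hh k) N p
    rw [Fintype.card_fin] at this
    omega
  · have hdvd : ∀ i : Fin k, p ∣ hh k i := by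
      intro i
      unfold hh
      apply Dvd.dvd.mul_left
      unfold primorial
      apply dvd_prod_of_mem
      rw [mem_filter, mem_range]
      exact ⟨by omega, hp⟩
    have hsub : Om2 (hh k) N p ⊆ {0, N % p} := by
      intro c hc
      obtain ⟨hcp, i, hi⟩ := (vlow_mem _ N p c).mp hc
      rw [mem_insert, mem_singleton]
      rcases hi with hi | hi
      · left
        have := (Nat.dvd_add_left (hdvd i)).mp hi
        exact Nat.eq_zero_of_dvd_of_lt this hcp
      · right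
        have h1 : c + hh k i ≡ c + 0 [MOD p] :=
          Nat.ModEq.add_left _ (Nat.modEq_zero_iff_dvd.mpr (hdvd i))
        have h2 : c ≡ N [MOD p] := h1.symm.trans hi
        have h3 : c % p = N % p := h2
        rw [Nat.mod_eq_of_lt hcp] at h3
        exact h3
    rcases eq_or_ne p 2 with rfl | hp2
    · have h4 : N % 2 = 0 := Nat.even_iff.mp hN
      rw [h4] at hsub
      have := card_le_card hsub
      simp at this
      omega
    · have h5 : 2 < p := lt_of_le_of_ne hp.two_le (Ne.symm hp2)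
      exact lt_of_le_of_lt ((card_le_card hsub).trans card_le_two) h5

private theorem vlow_factor (k N p : ℕ) (hN : Even N) (hp : p.Prime) :
    (if p < 4 * (k + 1) then 1 / ((4 * (k + 1) : ℕ) : ℝ) else 1) *
      (1 - 1 / (p : ℝ)) ^ (4 * (k + 1)) ≤ 1 - ((Om2 (hh k) N p).card : ℝ) / p := by
  have hp0 : (0 : ℝ) < p := by exact_mod_cast hp.pos
  have hp1 : (1 : ℝ) ≤ p := by exact_mod_cast hp.one_le
  have hlt := vlow_card_lt k N p hN hp
  have hx : 0 ≤ 1 - 1 / (p : ℝ) := by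
    rw [sub_nonneg, div_le_one hp0]
    exact hp1
  have hx1 : 1 - 1 / (p : ℝ) ≤ 1 := by
    have : 0 ≤ 1 / (p : ℝ) := by positivity
    linarith
  split_ifs with hc
  · have h1 : (1 - 1 / (p : ℝ)) ^ (4 * (k + 1)) ≤ 1 := pow_le_one₀ hx hx1
    have h2 : 1 / ((4 * (k + 1) : ℕ) : ℝ) ≤ 1 / (p : ℝ) :=
      one_div_le_one_div_of_le hp0 (by exact_mod_cast hc.le)
    have h3 : 1 / (p : ℝ) ≤ 1 - ((Om2 (hh k) N p).card : ℝ) / p := by
      rw [le_sub_iff_add_le, ← add_div, div_le_one hp0]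
      have : (1 : ℝ) + ((Om2 (hh k) N p).card : ℝ) ≤ (p : ℝ) := by exact_mod_cast (by omega)
      exact this
    have h4 : 0 ≤ 1 / ((4 * (k + 1) : ℕ) : ℝ) := by positivity
    calc _ ≤ 1 / ((4 * (k + 1) : ℕ) : ℝ) * 1 := mul_le_mul_of_nonneg_left h1 h4
      _ ≤ _ := by linarith
  · push Not at hc
    rw [one_mul]
    refine (vlow_pow (4 * (k + 1)) p hc hp.pos).trans ?_
    have h1 := Om2_card (hh k) N p
    rw [Fintype.card_fin] at h1
    have h2 : ((Om2 (hh k) N p).card : ℝ) ≤ ((4 * (k + 1) : ℕ) : ℝ) / 2 := by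
      have : ((Om2 (hh k) N p).card : ℝ) ≤ ((2 * k : ℕ) : ℝ) := by exact_mod_cast h1
      push_cast at this ⊢
      linarith
    have h3 : ((Om2 (hh k) N p).card : ℝ) / p ≤ ((4 * (k + 1) : ℕ) : ℝ) / 2 / p := by
      gcongr
    linarith

private theorem vlow_V1 (k N z : ℕ) (hN : Even N) :
    (1 / ((4 * (k + 1) : ℕ) : ℝ)) ^ (4 * (k + 1)) * kap z ^ (4 * (k + 1)) ≤
      V1 (Om2 (hh k) N) z := by
  classical
  unfold V1 kap
  have h1 : ∏ p ∈ PP 0 z, ((if p < 4 * (k + 1) then 1 / ((4 * (k + 1) : ℕ) : ℝ) else 1) *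
      (1 - 1 / (p : ℝ)) ^ (4 * (k + 1))) ≤ ∏ p ∈ PP 0 z, (1 - ((Om2 (hh k) N p).card : ℝ) / p) := by
    apply prod_le_prod
    · intro p hp
      obtain ⟨hpp, -⟩ := vlow_PP z p hp
      have hp0 : (0 : ℝ) < p := by exact_mod_cast hpp.pos
      have hx : 0 ≤ 1 - 1 / (p : ℝ) := by
        rw [sub_nonneg, div_le_one hp0]
        exact_mod_cast hpp.one_le
      apply mul_nonneg
      · split_ifs <;> positivity
      · positivity
    · intro p hp
      exact vlow_factor k N p hN (vlow_PP z p hp).1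
  refine le_trans ?_ h1
  rw [prod_mul_distrib, prod_pow]
  have hkap : 0 ≤ ∏ p ∈ PP 0 z, (1 - 1 / (p : ℝ)) := by
    apply prod_nonneg
    intro p hp
    obtain ⟨hpp, -⟩ := vlow_PP z p hp
    have hp0 : (0 : ℝ) < p := by exact_mod_cast hpp.pos
    rw [sub_nonneg, div_le_one hp0]
    exact_mod_cast hpp.one_le
  apply mul_le_mul_of_nonneg_right _ (pow_nonneg hkap _)
  rw [prod_ite, prod_const_one, mul_one, prod_const]
  apply pow_le_pow_of_le_one (by positivity)
  · rw [div_le_one (by positivity)]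
    exact_mod_cast (by omega : 1 ≤ 4 * (k + 1))
  · calc ((PP 0 z).filter (fun p => p < 4 * (k + 1))).card ≤ (range (4 * (k + 1))).card := by
          apply card_le_card
          intro p hp
          rw [mem_filter] at hp
          rw [mem_range]
          exact hp.2
      _ = 4 * (k + 1) := card_range _

private theorem vlow_kap (B : ℕ) : ∃ C : ℝ, 0 < C ∧ ∀ X z : ℕ, Real.exp 1 ≤ Real.log X →
    (z : ℝ) ≤ (Real.log X) ^ B → 1 / (C * Real.log (Real.log X)) ≤ kap z := by
  obtain ⟨C, hC, h⟩ := Sieve.mertens_product_upper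
  refine ⟨1 + C * B, by positivity, fun X z hX hz => ?_⟩
  have hl1 : 1 ≤ Real.log (Real.log X) := by
    rw [Real.le_log_iff_exp_le (lt_of_lt_of_le (Real.exp_pos _) hX)]
    exact hX
  have hlX : 0 < Real.log X := lt_of_lt_of_le (Real.exp_pos _) hX
  rcases lt_or_ge z 2 with hz2 | hz2
  · have h0 : PP 0 z = ∅ := by
      rw [eq_empty_iff_forall_notMem]
      intro p hp
      obtain ⟨hpp, hpz⟩ := vlow_PP z p hp
      have := hpp.two_le
      omega
    unfold kap
    rw [h0, prod_empty, div_le_one (by positivity)]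
    have : 0 ≤ C * B := by positivity
    nlinarith
  · have h1 := h z hz2
    have hset : (Finset.Icc 1 z).filter Nat.Prime = PP 0 z := by
      unfold PP
      ext p
      rw [mem_filter, mem_filter, mem_Icc, mem_range]
      constructor
      · rintro ⟨⟨a, b⟩, c⟩
        exact ⟨by omega, c, by omega⟩
      · rintro ⟨a, b, c⟩
        exact ⟨⟨by omega, by omega⟩, b⟩
    rw [hset, prod_inv_distrib] at h1
    have hkap : 0 < ∏ p ∈ PP 0 z, (1 - 1 / (p : ℝ)) := by
      apply prod_pos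
      intro p hp
      obtain ⟨hpp, -⟩ := vlow_PP z p hp
      have hp0 : (0 : ℝ) < p := by exact_mod_cast hpp.pos
      rw [sub_pos, div_lt_one hp0]
      exact_mod_cast hpp.one_lt
    unfold kap
    have hz0 : (0 : ℝ) < z := by exact_mod_cast (by omega : 0 < z)
    have h2 : Real.log z ≤ B * Real.log (Real.log X) := by
      have := Real.log_le_log hz0 hz
      rwa [Real.log_pow] at this
    have h3 : (∏ p ∈ PP 0 z, (1 - 1 / (p : ℝ)))⁻¹ ≤ (1 + C * B) * Real.log (Real.log X) := by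
      refine h1.trans ?_
      have := mul_le_mul_of_nonneg_left h2 hC.le
      nlinarith
    rw [one_div]
    exact inv_le_of_inv_le₀ hkap h3

theorem V1_low (k B : ℕ) : ∃ X₀ : ℕ, ∀ X z N : ℕ, X₀ ≤ X → (z : ℝ) ≤ (Real.log X) ^ B → Even N →
    1 / Real.log X ≤ V1 (Om2 (hh k) N) z := by
  obtain ⟨C, hC, h⟩ := vlow_kap B
  set K : ℕ := 4 * (k + 1) with hK
  have hK0 : (0 : ℝ) < (K : ℝ) := by exact_mod_cast (by omega : 0 < K)
  have hc0 : (0 : ℝ) < ((K : ℝ) * (C + 1)) ^ K := by positivity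
  have hlim := (Real.isLittleO_pow_log_id_atTop (n := K)).def (inv_pos.mpr hc0)
  obtain ⟨L₀, hL₀⟩ := Filter.eventually_atTop.mp hlim
  refine ⟨⌈Real.exp (max L₀ (Real.exp 1))⌉₊, fun X z N hX hz hN => ?_⟩
  have hX1 : Real.exp (max L₀ (Real.exp 1)) ≤ X :=
    le_trans (Nat.le_ceil _) (by exact_mod_cast hX)
  have hX0 : (0 : ℝ) < X := lt_of_lt_of_le (Real.exp_pos _) hX1
  have hL : max L₀ (Real.exp 1) ≤ Real.log X := by
    rw [Real.le_log_iff_exp_le hX0]
    exact hX1
  have he : Real.exp 1 ≤ Real.log X := le_trans (le_max_right _ _) hL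
  have hlX : 0 < Real.log X := lt_of_lt_of_le (Real.exp_pos _) he
  have hl1 : 1 ≤ Real.log (Real.log X) := by
    rw [Real.le_log_iff_exp_le hlX]
    exact he
  have h1 := h X z he hz
  have h2 := hL₀ (Real.log X) (le_trans (le_max_left _ _) hL)
  rw [Real.norm_of_nonneg (by positivity), id, Real.norm_of_nonneg hlX.le] at h2
  refine le_trans ?_ (vlow_V1 k N z hN)
  rw [← mul_pow]
  have h3 : 1 / ((K : ℝ) * ((C + 1) * Real.log (Real.log X))) ≤ 1 / (K : ℝ) * kap z := by
    have h4 : 1 / ((C + 1) * Real.log (Real.log X)) ≤ kap z := by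
      refine le_trans ?_ h1
      apply one_div_le_one_div_of_le (by positivity)
      nlinarith
    calc 1 / ((K : ℝ) * ((C + 1) * Real.log (Real.log X)))
        = 1 / (K : ℝ) * (1 / ((C + 1) * Real.log (Real.log X))) := by
          field_simp
      _ ≤ _ := mul_le_mul_of_nonneg_left h4 (by positivity)
  have h6 : 1 / Real.log X ≤ (1 / ((K : ℝ) * ((C + 1) * Real.log (Real.log X)))) ^ K := by
    rw [div_pow, one_pow]
    apply one_div_le_one_div_of_le (by positivity)
    rw [← mul_assoc, mul_pow]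
    rw [inv_mul_eq_div, le_div_iff₀ hc0] at h2
    linarith
  exact h6.trans (pow_le_pow_left₀ (by positivity) h3 K)

end Pool.Agent.Lib.MT
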