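import Pool.Agent.Lib.MT.Defs

/-!
# MT-Crt: the x which fit two colourings

PROOF. Let U be the set of primes coloured by σ or τ, c p the colour (of σ if coloured, else of τ; by `hc` both agree if both are there). x fits both iff p | x + h (c p) for all
p ∈ U. By the Chinese remainder theorem (`Nat.chineseRemainderOfFinset`; or induction; compare P3/B4 `crt_shift`) there is b with: x fits both iff x ≡ b [MOD mod2 σ τ].
`kmat_q1`: every factor is 1 (both none) or 1/p. `kmat_conf`: the factor at p is 0. `kmat_q2`: factor 1 or 1/(p-1). `kmat_q2_zero`: Kmat (q2 m p) (some m) _ = 0.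
`not_fit`: p would divide x + h i and x + h j.
-/

set_option autoImplicit false

open Finset

namespace Pool.Agent.Lib.MT

variable {P : Finset ℕ} {ι : Type} [Fintype ι] [DecidableEq ι]

private theorem crt_res {p x a : ℕ} (hp : 1 ≤ p) : p ∣ x + a ↔ x ≡ (p - 1) * a [MOD p] := by
  have h1 : (p - 1) * a + a = p * a := by
    obtain ⟨q, rfl⟩ := Nat.exists_eq_add_of_le hp
    rw [Nat.add_sub_cancel_left]
    ring
  constructor
  · intro h
    have h2 : x + a ≡ (p - 1) * a + a [MOD p] := by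
      rw [h1]
      exact ((Nat.modEq_zero_iff_dvd).mpr h).trans
        ((Nat.modEq_zero_iff_dvd).mpr (dvd_mul_right p a)).symm
    exact Nat.ModEq.add_right_cancel' a h2
  · intro h
    have h2 : x + a ≡ (p - 1) * a + a [MOD p] := h.add_right a
    rw [h1] at h2
    exact (Nat.modEq_zero_iff_dvd).mp
      (h2.trans ((Nat.modEq_zero_iff_dvd).mpr (dvd_mul_right p a)))

private theorem crt_mod2 (σ τ : Col P ι) : mod2 σ τ =
    ∏ p ∈ univ.filter (fun p : {p : ℕ // p ∈ P} => ¬ (σ p = none ∧ τ p = none)), (p : ℕ) := by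
  unfold mod2
  rw [prod_filter]
  refine prod_congr rfl fun p _ => ?_
  by_cases h : σ p = none ∧ τ p = none
  · rw [if_pos h, if_neg (not_not.mpr h)]
  · rw [if_neg h, if_pos h]

private theorem crt_cop (hP : ∀ p ∈ P, p.Prime) (p q : {p : ℕ // p ∈ P}) (h : p ≠ q) :
    Nat.Coprime (p : ℕ) (q : ℕ) :=
  (Nat.coprime_primes (hP _ p.2) (hP _ q.2)).mpr fun h2 => h (Subtype.ext h2)

/-- the residue class of `x` modulo `p` -/
private def crt_r (h : ι → ℕ) (σ τ : Col P ι) (p : {p : ℕ // p ∈ P}) : ℕ :=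
  match σ p, τ p with
  | some i, _ => ((p : ℕ) - 1) * h i
  | none, some j => ((p : ℕ) - 1) * h j
  | none, none => 0

theorem crt_pair (hP : ∀ p ∈ P, p.Prime) (h : ι → ℕ) (σ τ : Col P ι)
    (hc : ∀ p i j, σ p = some i → τ p = some j → i = j) :
    ∃ b : ℕ, ∀ x : ℕ, (Fit h x σ ∧ Fit h x τ) ↔ x ≡ b [MOD mod2 σ τ] := by
  set U := univ.filter (fun p : {p : ℕ // p ∈ P} => ¬ (σ p = none ∧ τ p = none)) with hU
  obtain ⟨b, hb⟩ := Nat.chineseRemainderOfFinset (crt_r h σ τ) (fun p => (p : ℕ)) U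
    (fun p _ => (hP _ p.2).ne_zero) (fun p _ q _ hpq => crt_cop hP p q hpq)
  refine ⟨b, fun x => ?_⟩
  have key : (Fit h x σ ∧ Fit h x τ) ↔ ∀ p ∈ U, x ≡ crt_r h σ τ p [MOD (p : ℕ)] := by
    constructor
    · rintro ⟨h1, h2⟩ p _
      unfold crt_r
      rcases hs : σ p with _ | i
      · rcases ht : τ p with _ | j
        · simp_all
        · exact (crt_res (hP _ p.2).one_le).mp (h2 p j ht)
      · exact (crt_res (hP _ p.2).one_le).mp (h1 p i hs)
    · intro h3
      have h4 : ∀ p i, (σ p = some i ∨ τ p = some i) → (p : ℕ) ∣ x + h i := by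
        intro p i hi
        have hpU : p ∈ U := by
          rw [hU, mem_filter]
          refine ⟨mem_univ _, ?_⟩
          rintro ⟨e1, e2⟩
          rcases hi with hi | hi
          · rw [e1] at hi; exact absurd hi (by simp)
          · rw [e2] at hi; exact absurd hi (by simp)
        rw [crt_res (hP _ p.2).one_le]
        have h5 := h3 p hpU
        unfold crt_r at h5
        rcases hs : σ p with _ | i'
        · rcases ht : τ p with _ | j
          · simp_all
          · simp only [hs, ht] at h5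
            rcases hi with hi | hi
            · rw [hs] at hi; exact absurd hi (by simp)
            · rw [ht] at hi
              rw [Option.some.inj hi] at h5
              exact h5
        · simp only [hs] at h5
          rcases hi with hi | hi
          · rw [hs] at hi
            rw [Option.some.inj hi] at h5
            exact h5
          · rw [hc p i' i hs hi] at h5
            exact h5
      exact ⟨fun p i hi => h4 p i (Or.inl hi), fun p i hi => h4 p i (Or.inr hi)⟩
  rw [key, crt_mod2]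
  constructor
  · intro h3
    rw [Nat.modEq_iff_dvd, Nat.cast_prod]
    refine Finset.prod_dvd_of_coprime ?_ ?_
    · intro p _ q _ hpq
      exact Nat.isCoprime_iff_coprime.mpr (crt_cop hP p q hpq)
    · intro p hp
      rw [← Nat.modEq_iff_dvd]
      exact (h3 p hp).trans (hb p hp).symm
  · intro h3 p hp
    refine Nat.ModEq.trans (h3.of_dvd (Finset.dvd_prod_of_mem _ hp)) (hb p hp)

theorem kmat_q1 (σ τ : Col P ι) (hc : ∀ p i j, σ p = some i → τ p = some j → i = j) :
    ∏ p : {p : ℕ // p ∈ P}, Kmat (q1 p) (σ p) (τ p) = 1 / (mod2 σ τ : ℝ) := by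
  unfold mod2
  rw [Nat.cast_prod, one_div, ← Finset.prod_inv_distrib]
  refine prod_congr rfl fun p _ => ?_
  rcases hs : σ p with _ | i
  · rcases ht : τ p with _ | j
    · simp [Kmat]
    · simp [Kmat, q1]
  · rcases ht : τ p with _ | j
    · simp [Kmat, q1]
    · have := hc p i j hs ht
      subst this
      simp [Kmat, q1]

theorem kmat_conf (q : {p : ℕ // p ∈ P} → ι → ℝ) (σ τ : Col P ι) (p : {p : ℕ // p ∈ P}) (i j : ι)
    (hσ : σ p = some i) (hτ : τ p = some j) (hij : i ≠ j) :
    ∏ p : {p : ℕ // p ∈ P}, Kmat (q p) (σ p) (τ p) = 0 := by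
  refine prod_eq_zero (mem_univ p) ?_
  rw [hσ, hτ]
  simp [Kmat, hij]

private theorem crt_tot (hP : ∀ p ∈ P, p.Prime) (U : Finset {p : ℕ // p ∈ P}) :
    (∏ p ∈ U, (p : ℕ)).totient = ∏ p ∈ U, ((p : ℕ) - 1) := by
  classical
  induction U using Finset.induction_on with
  | empty => simp
  | insert p U hp ih =>
    rw [prod_insert hp, prod_insert hp, Nat.totient_mul, ih, Nat.totient_prime (hP _ p.2)]
    refine Nat.Coprime.prod_right fun q hq => ?_
    refine crt_cop hP p q ?_
    rintro rfl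
    exact hp hq

theorem kmat_q2 (hP : ∀ p ∈ P, p.Prime) (m : ι) (σ τ : Col P ι)
    (hc : ∀ p i j, σ p = some i → τ p = some j → i = j) (hσ : ∀ p, σ p ≠ some m)
    (hτ : ∀ p, τ p ≠ some m) :
    ∏ p : {p : ℕ // p ∈ P}, Kmat (q2 m p) (σ p) (τ p) = 1 / ((mod2 σ τ).totient : ℝ) := by
  rw [crt_mod2, crt_tot hP, Nat.cast_prod, one_div, ← Finset.prod_inv_distrib, prod_filter]
  refine prod_congr rfl fun p _ => ?_
  have hp1 : 1 ≤ (p : ℕ) := (hP _ p.2).one_le
  have hcast : (((p : ℕ) - 1 : ℕ) : ℝ) = ((p : ℕ) : ℝ) - 1 := by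
    rw [Nat.cast_sub hp1, Nat.cast_one]
  rcases hs : σ p with _ | i
  · rcases ht : τ p with _ | j
    · simp [Kmat]
    · have hj : j ≠ m := fun h => hτ p (by rw [ht, h])
      simp [Kmat, q2, hj, hcast]
  · have hi : i ≠ m := fun h => hσ p (by rw [hs, h])
    rcases ht : τ p with _ | j
    · simp [Kmat, q2, hi, hcast]
    · have := hc p i j hs ht
      subst this
      simp [Kmat, q2, hi, hcast]

theorem kmat_q2_zero (m : ι) (σ τ : Col P ι) (p : {p : ℕ // p ∈ P})
    (h : σ p = some m ∨ τ p = some m) :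
    ∏ p : {p : ℕ // p ∈ P}, Kmat (q2 m p) (σ p) (τ p) = 0 := by
  refine prod_eq_zero (mem_univ p) ?_
  rcases h with h | h
  · rw [h]
    rcases ht : τ p with _ | j
    · simp [Kmat, q2]
    · simp [Kmat, q2]
  · rw [h]
    rcases hs : σ p with _ | i
    · simp [Kmat, q2]
    · by_cases hi : i = m
      · simp [Kmat, q2, hi]
      · simp [Kmat, hi]

theorem not_fit (h : ι → ℕ) (x : ℕ) (σ τ : Col P ι) (p : {p : ℕ // p ∈ P}) (i j : ι)
    (hσ : σ p = some i) (hτ : τ p = some j) (hij : ¬ h i ≡ h j [MOD (p : ℕ)]) :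
    ¬ (Fit h x σ ∧ Fit h x τ) := by
  rintro ⟨h1, h2⟩
  have a1 := (Nat.modEq_zero_iff_dvd).mpr (h1 p i hσ)
  have a2 := (Nat.modEq_zero_iff_dvd).mpr (h2 p j hτ)
  exact hij (Nat.ModEq.add_left_cancel' x (a1.trans a2.symm))

end Pool.Agent.Lib.MT
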