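import Mathlib

/-!
# MT: a soft Maynard-Tao sieve. Definitions

`P` is a finite set of primes `> w`, `ι` the set of colours (one colour for each form `x + h i`).
A colouring `σ : Col P ι` gives every prime of `P` a colour or none; it stands for the tuple of
pairwise coprime squarefree numbers `(prt i σ)_i`, `tot σ` is their product. `Fit h x σ`: every prime
of colour `i` divides `x + h i`. The weight of the sieve is `(FF h L x)^2`, `FF h L x = ∑ L σ` over the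
`σ` that fit `x`.
-/

set_option autoImplicit false

open Finset

namespace Pool.Agent.Lib.MT

/-- the primes `p` with `w < p ≤ R` -/
def PP (w R : ℕ) : Finset ℕ := (range (R + 1)).filter (fun p => p.Prime ∧ w < p)

/-- `∏_{p ≤ w} (1 - 1/p)` -/
noncomputable def kap (w : ℕ) : ℝ := ∏ p ∈ PP 0 w, (1 - 1 / (p : ℝ))

/-- colourings of the primes of `P` -/
abbrev Col (P : Finset ℕ) (ι : Type) : Type := {p : ℕ // p ∈ P} → Option ι

section

variable {P : Finset ℕ} {ι : Type} [Fintype ι] [DecidableEq ι]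

/-- the product of the coloured primes -/
def tot (σ : Col P ι) : ℕ := ∏ p : {p : ℕ // p ∈ P}, if σ p = none then 1 else (p : ℕ)

/-- the product of the primes of colour `i` -/
def prt (i : ι) (σ : Col P ι) : ℕ :=
  ∏ p : {p : ℕ // p ∈ P}, if σ p = some i then (p : ℕ) else 1

/-- the product of the primes coloured by `σ` or by `τ` -/
def mod2 (σ τ : Col P ι) : ℕ :=
  ∏ p : {p : ℕ // p ∈ P}, if σ p = none ∧ τ p = none then 1 else (p : ℕ)

/-- `(-1)` to the number of coloured primes -/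
noncomputable def mu (σ : Col P ι) : ℝ := ∏ p : {p : ℕ // p ∈ P}, if σ p = none then 1 else (-1 : ℝ)

/-- every prime of colour `i` divides `x + h i` -/
def Fit (h : ι → ℕ) (x : ℕ) (σ : Col P ι) : Prop := ∀ p i, σ p = some i → (p : ℕ) ∣ x + h i

open Classical in
/-- the sum of `L σ` over the `σ` that fit `x` -/
noncomputable def FF (h : ι → ℕ) (L : Col P ι → ℝ) (x : ℕ) : ℝ :=
  ∑ σ ∈ univ.filter (fun σ : Col P ι => Fit h x σ), L σ

/-- the matrix with `none none ↦ 1`, `none (some j) ↦ c j`, `(some i) (some j) ↦ δ_ij`, `(some i) none ↦ 0` -/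
def Amat (c : ι → ℝ) : Option ι → Option ι → ℝ
  | none, none => 1
  | none, some j => c j
  | some _, none => 0
  | some i, some j => if i = j then 1 else 0

/-- the matrix with `none none ↦ 1`, `none (some j), (some j) none ↦ q j`, `(some i) (some j) ↦ δ_ij q i` -/
def Kmat (q : ι → ℝ) : Option ι → Option ι → ℝ
  | none, none => 1
  | none, some j => q j
  | some i, none => q i
  | some i, some j => if i = j then q i else 0

/-- the weights `none ↦ 1`, `some i ↦ c * q i` -/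
def Dm (q : ι → ℝ) (c : ℝ) : Option ι → ℝ
  | none => 1
  | some i => c * q i

/-- the quadratic form `∑_{σ,τ} (∏_p Kmat (q p) (σ p) (τ p)) L σ L τ` -/
noncomputable def Qf (q : {p : ℕ // p ∈ P} → ι → ℝ) (L : Col P ι → ℝ) : ℝ :=
  ∑ σ : Col P ι, ∑ τ : Col P ι, (∏ p : {p : ℕ // p ∈ P}, Kmat (q p) (σ p) (τ p)) * (L σ * L τ)

/-- the coefficients `L` from the variables `z` -/
noncomputable def lam (z : Col P ι → ℝ) (σ : Col P ι) : ℝ :=
  ∑ τ : Col P ι, (∏ p : {p : ℕ // p ∈ P}, Amat (fun _ => -(1 / ((p : ℕ) : ℝ))) (σ p) (τ p)) * z τ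

/-- `q p j = 1/p` -/
noncomputable def q1 (p : {p : ℕ // p ∈ P}) (_ : ι) : ℝ := 1 / ((p : ℕ) : ℝ)

/-- `q p j = 1/(p-1)` for `j ≠ m`, `q p m = 0` -/
noncomputable def q2 (m : ι) (p : {p : ℕ // p ∈ P}) (j : ι) : ℝ :=
  if j = m then 0 else 1 / (((p : ℕ) : ℝ) - 1)

end

/-! ### one-dimensional sums -/

/-- the product of the elements of `s` -/
def pr (s : Finset ℕ) : ℕ := ∏ p ∈ s, p

/-- `∑ 1/r` over the squarefree `r ≤ x` composed of primes of `P` -/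
noncomputable def DD (P : Finset ℕ) (x : ℝ) : ℝ :=
  ∑ s ∈ P.powerset.filter (fun s => (pr s : ℝ) ≤ x), 1 / (pr s : ℝ)

/-- the step function: `1` for `r ≤ exp ℓ`, `2^(-j)` for `exp (2^(j-1) ℓ) < r ≤ exp (2^j ℓ)`,
`1 ≤ j ≤ J`, `0` for `r > exp (2^J ℓ)` -/
noncomputable def gg (J : ℕ) (ℓ : ℝ) (r : ℕ) : ℝ :=
  ∑ j ∈ range J, (if (r : ℝ) ≤ Real.exp (2 ^ j * ℓ) then (1 / 2 : ℝ) ^ (j + 1) else 0) +
    if (r : ℝ) ≤ Real.exp (2 ^ J * ℓ) then (1 / 2 : ℝ) ^ J else 0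

/-- `∑ g(r)/r` -/
noncomputable def AA (P : Finset ℕ) (g : ℕ → ℝ) : ℝ := ∑ s ∈ P.powerset, g (pr s) / (pr s : ℝ)

/-- `∑ g(r)^2/r` -/
noncomputable def BB (P : Finset ℕ) (g : ℕ → ℝ) : ℝ := ∑ s ∈ P.powerset, g (pr s) ^ 2 / (pr s : ℝ)

/-- `∑ g(r)^2 log r/r` -/
noncomputable def BL (P : Finset ℕ) (g : ℕ → ℝ) : ℝ :=
  ∑ s ∈ P.powerset, g (pr s) ^ 2 * Real.log (pr s) / (pr s : ℝ)

section

variable {P : Finset ℕ} {ι : Type} [Fintype ι] [DecidableEq ι]

/-- `y ρ = ∏_i g(r_i)` if the product of the `r_i` is at most `R` -/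
noncomputable def yy (g : ℕ → ℝ) (R : ℕ) (ρ : Col P ι) : ℝ :=
  if tot ρ ≤ R then ∏ i, g (prt i ρ) else 0

/-- the variables `z ρ = μ(ρ) y ρ` -/
noncomputable def zz (g : ℕ → ℝ) (R : ℕ) (ρ : Col P ι) : ℝ := mu ρ * yy g R ρ

/-- `Y ρ`: the sum of `y τ/∏` over the extensions `τ` of `ρ` by primes of colour `m` -/
noncomputable def YY (m : ι) (g : ℕ → ℝ) (R : ℕ) (ρ : Col P ι) : ℝ :=
  ∑ τ : Col P ι, (∏ p : {p : ℕ // p ∈ P},
    Amat (fun j => if j = m then 1 / ((p : ℕ) : ℝ) else 0) (ρ p) (τ p)) * yy g R τ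

end

/-! ### the presieve -/

/-- the `x ∈ (X, 2X]` with `x % p ∉ Ω p` for all primes `p ≤ z` -/
def Pre (Ω : ℕ → Finset ℕ) (z X : ℕ) : Finset ℕ :=
  (Ioc X (2 * X)).filter (fun x => ∀ p ∈ PP 0 z, x % p ∉ Ω p)

/-- `∏_{p ≤ z} (1 - |Ω p|/p)` -/
noncomputable def V1 (Ω : ℕ → Finset ℕ) (z : ℕ) : ℝ := ∏ p ∈ PP 0 z, (1 - ((Ω p).card : ℝ) / p)

/-- `∏_{p ≤ z} (1 - |Ω p without the class of -a|/(p-1))` -/
noncomputable def V2 (Ω : ℕ → Finset ℕ) (a z : ℕ) : ℝ :=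
  ∏ p ∈ PP 0 z, (1 - (((Ω p).filter (fun c => ¬ p ∣ c + a)).card : ℝ) / ((p : ℝ) - 1))

/-- the classes `c` mod `p` with `c + h i ≡ 0` or `c + h i ≡ N` for some `i` -/
def Om2 {ι : Type} [Fintype ι] (h : ι → ℕ) (N p : ℕ) : Finset ℕ :=
  (range p).filter (fun c => ∃ i, p ∣ c + h i ∨ c + h i ≡ N [MOD p])

/-- the tuple `h i = (i + 1) ∏_{p ≤ 2k} p` -/
def hh (k : ℕ) (i : Fin k) : ℕ := ((i : ℕ) + 1) * primorial (2 * k)

end Pool.Agent.Lib.MT
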