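import Pool.Agent.Lib.MT.Crt
import Pool.Agent.Lib.MP_092512_nt.P3.B5

/-!
# MT-LayC: expansion of the square; the sum for fixed `d`, all integers

The square of `FF` is opened (`layC_exp`); for a fixed set `d` of small primes the pairs of colourings without
conflict give one residue class (`crt_pair`), counted by `count_int` of P3/B5 with one form.
-/

set_option autoImplicit false

open Finset Pool.Agent.Lib.SW Pool.Agent.Lib.MP_092512_nt.P3.B

namespace Pool.Agent.Lib.MT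

variable {P : Finset ℕ} {ι : Type} [Fintype ι] [DecidableEq ι]

open Classical in
theorem layC_exp (s : Finset ℕ) (u : ℕ → ℝ) (h : ι → ℕ) (L : Col P ι → ℝ) :
    ∑ x ∈ s, u x * (FF h L x) ^ 2 =
      ∑ σ : Col P ι, ∑ τ : Col P ι, L σ * L τ * ∑ x ∈ s.filter (fun x => Fit h x σ ∧ Fit h x τ), u x := by
  have h1 : ∀ x, u x * (FF h L x) ^ 2 = ∑ σ : Col P ι, ∑ τ : Col P ι,
      (if Fit h x σ ∧ Fit h x τ then u x * (L σ * L τ) else 0) := by
    intro x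
    unfold FF
    rw [sq, sum_filter, sum_mul_sum, mul_sum]
    refine sum_congr rfl fun σ _ => ?_
    rw [mul_sum]
    refine sum_congr rfl fun τ _ => ?_
    by_cases h1 : Fit h x σ
    · by_cases h2 : Fit h x τ
      · rw [if_pos h1, if_pos h2, if_pos ⟨h1, h2⟩]
      · rw [if_neg h2, if_neg (fun h' : Fit h x σ ∧ Fit h x τ => h2 h'.2), mul_zero, mul_zero]
    · rw [if_neg h1, if_neg (fun h' : Fit h x σ ∧ Fit h x τ => h1 h'.1), zero_mul, mul_zero]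
  rw [sum_congr rfl fun x _ => h1 x, sum_comm]
  refine sum_congr rfl fun σ _ => ?_
  rw [sum_comm]
  refine sum_congr rfl fun τ _ => ?_
  rw [mul_sum, sum_filter]
  refine sum_congr rfl fun x _ => ?_
  split_ifs <;> ring

theorem layC_shift (M b x : ℕ) (hM : 0 < M) : x ≡ b [MOD M] ↔ M ∣ x + (M - b % M) := by
  have hb : b % M < M := Nat.mod_lt b hM
  have hb' : b % M + (M - b % M) = M := Nat.add_sub_cancel' hb.le
  have h0 : (0 : ℕ) ≡ M [MOD M] := by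
    unfold Nat.ModEq
    rw [Nat.mod_self, Nat.zero_mod]
  rw [← Nat.modEq_zero_iff_dvd]
  constructor
  · intro h
    have h1 : x + (M - b % M) ≡ b % M + (M - b % M) [MOD M] :=
      Nat.ModEq.add_right _ (h.trans (Nat.mod_modEq b M).symm)
    rw [hb'] at h1
    exact h1.trans h0.symm
  · intro h
    have h1 : x + (M - b % M) ≡ b % M + (M - b % M) [MOD M] := by
      rw [hb']
      exact h.trans h0
    exact (Nat.ModEq.add_right_cancel' _ h1).trans (Nat.mod_modEq b M)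

theorem layC_mod2_pos (hP : ∀ p ∈ P, p.Prime) (σ τ : Col P ι) : 0 < mod2 σ τ := by
  unfold mod2
  refine prod_pos fun p _ => ?_
  split_ifs
  · exact one_pos
  · exact (hP p p.2).pos

/-- a prime `≤ z` is coprime to `mod2` -/
theorem layC_cop (hP : ∀ p ∈ P, p.Prime) {z : ℕ} (hz : ∀ p ∈ P, z < p) (σ τ : Col P ι) {p : ℕ}
    (hp : p ∈ PP 0 z) : Nat.Coprime p (mod2 σ τ) := by
  unfold PP at hp
  rw [mem_filter, mem_range] at hp
  unfold mod2
  refine Nat.Coprime.prod_right fun q _ => ?_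
  split_ifs
  · exact Nat.coprime_one_right p
  · refine (Nat.coprime_primes hp.2.1 (hP q q.2)).2 ?_
    have := hz q q.2
    omega

open Classical in
theorem layC_one (hP : ∀ p ∈ P, p.Prime) (z X : ℕ) (hz : ∀ p ∈ P, z < p) (h : ι → ℕ)
    (Ω : ℕ → Finset ℕ) (hΩ : ∀ p ∈ PP 0 z, ∀ c ∈ Ω p, c < p) (d : Finset ℕ) (hd : d ⊆ PP 0 z)
    (σ τ : Col P ι) (hc : ∀ p i j, σ p = some i → τ p = some j → i = j) :
    |((((Ioc X (2 * X)).filter (fun x => ∀ p ∈ d, x % p ∈ Ω p)).filter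
          (fun x => Fit h x σ ∧ Fit h x τ)).card : ℝ) -
        X * ((∏ p ∈ d, ((Ω p).card : ℝ) / p) * (1 / (mod2 σ τ : ℝ)))| ≤ ∏ p ∈ d, ((Ω p).card : ℝ) := by
  obtain ⟨b, hb⟩ := crt_pair hP h σ τ hc
  have hM := layC_mod2_pos hP σ τ
  have hdp : ∀ p ∈ d, p.Prime := fun p hp => (mem_filter.1 (hd hp)).2.1
  have h1 := count_int (k := 1) (fun _ => mod2 σ τ - b % mod2 σ τ) (fun _ => mod2 σ τ) (fun _ => hM)
    (fun i j hij => absurd (Subsingleton.elim i j) hij) d hdp Ω (fun p hp => hΩ p (hd hp))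
    (fun p hp _ => layC_cop hP hz σ τ (hd hp)) X
  rw [Fin.prod_univ_one] at h1
  have h2 : ((Ioc X (2 * X)).filter (fun x => ∀ p ∈ d, x % p ∈ Ω p)).filter
      (fun x => Fit h x σ ∧ Fit h x τ) = (Ioc X (2 * X)).filter (fun n => (∀ p ∈ d, n % p ∈ Ω p) ∧
        ∀ _i : Fin 1, mod2 σ τ ∣ n + (mod2 σ τ - b % mod2 σ τ)) := by
    rw [filter_filter]
    refine filter_congr fun x _ => ?_
    rw [hb x, layC_shift _ b x hM]
    exact ⟨fun h => ⟨h.1, fun _ => h.2⟩, fun h => ⟨h.1, h.2 0⟩⟩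
  rw [h2]
  exact h1

theorem layC_int (hP : ∀ p ∈ P, p.Prime) (z X : ℕ) (hz : ∀ p ∈ P, z < p) (h : ι → ℕ) (L : Col P ι → ℝ)
    (hL : ∀ σ τ, L σ ≠ 0 → L τ ≠ 0 → ∀ p i j, σ p = some i → τ p = some j → i ≠ j →
      ¬ h i ≡ h j [MOD (p : ℕ)])
    (Ω : ℕ → Finset ℕ) (hΩ : ∀ p ∈ PP 0 z, ∀ c ∈ Ω p, c < p) (d : Finset ℕ) (hd : d ⊆ PP 0 z) :
    |∑ x ∈ (Ioc X (2 * X)).filter (fun x => ∀ p ∈ d, x % p ∈ Ω p), (FF h L x) ^ 2 -
        X * (∏ p ∈ d, ((Ω p).card : ℝ) / p) * Qf (q1 (ι := ι)) L| ≤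
      (∏ p ∈ d, ((Ω p).card : ℝ)) * (∑ σ, |L σ|) ^ 2 := by
  classical
  have hC0 : 0 ≤ ∏ p ∈ d, ((Ω p).card : ℝ) := prod_nonneg fun p _ => Nat.cast_nonneg _
  have e1 := layC_exp ((Ioc X (2 * X)).filter (fun x => ∀ p ∈ d, x % p ∈ Ω p)) (fun _ => (1 : ℝ)) h L
  simp only [one_mul] at e1
  have e2 : X * (∏ p ∈ d, ((Ω p).card : ℝ) / p) * Qf (q1 (ι := ι)) L =
      ∑ σ : Col P ι, ∑ τ : Col P ι, L σ * L τ * (X * ((∏ p ∈ d, ((Ω p).card : ℝ) / p) *
        ∏ p : {p : ℕ // p ∈ P}, Kmat (q1 p) (σ p) (τ p))) := by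
    unfold Qf
    rw [mul_sum]
    refine sum_congr rfl fun σ _ => ?_
    rw [mul_sum]
    refine sum_congr rfl fun τ _ => ?_
    ring
  have e3 : (∏ p ∈ d, ((Ω p).card : ℝ)) * (∑ σ, |L σ|) ^ 2 =
      ∑ σ : Col P ι, ∑ τ : Col P ι, |L σ| * |L τ| * ∏ p ∈ d, ((Ω p).card : ℝ) := by
    rw [sq, sum_mul_sum, mul_sum]
    refine sum_congr rfl fun σ _ => ?_
    rw [mul_sum]
    refine sum_congr rfl fun τ _ => ?_
    ring
  rw [e1, e2, e3, ← sum_sub_distrib]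
  refine (abs_sum_le_sum_abs _ _).trans (sum_le_sum fun σ _ => ?_)
  rw [← sum_sub_distrib]
  refine (abs_sum_le_sum_abs _ _).trans (sum_le_sum fun τ _ => ?_)
  rw [← mul_sub, abs_mul, abs_mul]
  by_cases hσ : L σ = 0
  · rw [hσ, abs_zero, zero_mul, zero_mul, zero_mul]
  by_cases hτ : L τ = 0
  · rw [hτ, abs_zero, mul_zero, zero_mul, zero_mul]
  refine mul_le_mul_of_nonneg_left ?_ (by positivity)
  rw [sum_const, nsmul_eq_mul, mul_one]
  by_cases hc : ∀ p i j, σ p = some i → τ p = some j → i = j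
  · rw [kmat_q1 σ τ hc]
    exact layC_one hP z X hz h Ω hΩ d hd σ τ hc
  · push Not at hc
    obtain ⟨p, i, j, h1, h2, h3⟩ := hc
    have h4 := hL σ τ hσ hτ p i j h1 h2 h3
    rw [kmat_conf _ σ τ p i j h1 h2 h3, mul_zero, mul_zero, sub_zero]
    have h5 : ((Ioc X (2 * X)).filter (fun x => ∀ p ∈ d, x % p ∈ Ω p)).filter
        (fun x => Fit h x σ ∧ Fit h x τ) = ∅ :=
      filter_eq_empty_iff.2 fun x _ => not_fit h x σ τ p i j h1 h2 h4
    rw [h5, card_empty, Nat.cast_zero, abs_zero]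
    exact hC0

end Pool.Agent.Lib.MT
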