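import Pool.Agent.Lib.MT.LayA
import Pool.Agent.Lib.MP_bc6037_nt.DivBound

/-!
# MT-LayG: number of fitting colourings, size of `FF`

PROOF of `layA_fits`: `σ ↦ (i ↦ prt i σ)` maps the fitting `σ` injectively into `Fintype.piFinset (fun i => (x + h i).divisors)`:
`prt i σ` is a product of distinct primes dividing `x + h i` (`Finset.prod_primes_dvd`-like; or induction), and
`(p : ℕ) ∣ prt i σ ↔ σ p = some i` for `p ∈ P` (all elements of `P` are primes), so `σ` is determined.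
PROOF of `layA_FF`: `|FF| ≤ (max |L|) #{σ fits} ≤ (C log X)^k ∏_i C' (x + h i)^δ'` (`card_divisors_le_rpow`,
`x + h i ≤ 3 X`), `δ' = δ/(2(k+1))`, logarithms `≤ X^(δ/4)` for large `X` (`isLittleO_log_rpow_atTop` or P3 `ev_pow`).
-/

set_option autoImplicit false

open Finset

namespace Pool.Agent.Lib.MT

section

variable {P : Finset ℕ} {ι : Type} [Fintype ι] [DecidableEq ι]

omit [Fintype ι] in
private theorem layG_dvd (hP : ∀ p ∈ P, p.Prime) (h : ι → ℕ) (x : ℕ) (σ : Col P ι)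
    (hσ : Fit h x σ) (i : ι) : prt i σ ∣ x + h i := by
  unfold prt
  refine Finset.prod_dvd_of_isRelPrime ?_ ?_
  · intro p _ q _ hpq
    show IsRelPrime (if σ p = some i then (p : ℕ) else 1) (if σ q = some i then (q : ℕ) else 1)
    rw [← Nat.coprime_iff_isRelPrime]
    split_ifs
    · exact (Nat.coprime_primes (hP _ p.2) (hP _ q.2)).mpr fun h2 => hpq (Subtype.ext h2)
    · exact Nat.coprime_one_right _
    · exact Nat.coprime_one_left _
    · exact Nat.coprime_one_left _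
  · intro p _
    split_ifs with hp
    · exact hσ p i hp
    · exact one_dvd _

omit [Fintype ι] in
private theorem layG_iff (hP : ∀ p ∈ P, p.Prime) (σ : Col P ι) (i : ι) (p : {p : ℕ // p ∈ P}) :
    (p : ℕ) ∣ prt i σ ↔ σ p = some i := by
  unfold prt
  rw [Prime.dvd_finset_prod_iff (hP _ p.2).prime]
  constructor
  · rintro ⟨q, _, hq⟩
    split_ifs at hq with h
    · have hpq : (p : ℕ) = (q : ℕ) := (Nat.prime_dvd_prime_iff_eq (hP _ p.2) (hP _ q.2)).1 hq
      have hpq' : p = q := Subtype.ext hpq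
      rw [hpq']
      exact h
    · exact absurd (Nat.dvd_one.1 hq) (hP _ p.2).one_lt.ne'
  · intro h
    exact ⟨p, mem_univ _, by rw [if_pos h]⟩

open Classical in
theorem layA_fits (hP : ∀ p ∈ P, p.Prime) (h : ι → ℕ) (x : ℕ) (hx : 1 ≤ x) :
    (univ.filter (fun σ : Col P ι => Fit h x σ)).card ≤ ∏ i, (x + h i).divisors.card := by
  rw [← Fintype.card_piFinset]
  refine card_le_card_of_injOn (fun σ => fun i => prt i σ) ?_ ?_
  · intro σ hσ
    have hσ' := (mem_filter.1 hσ).2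
    show (fun i => prt i σ) ∈ _
    rw [SetLike.mem_coe, Fintype.mem_piFinset]
    intro i
    rw [Nat.mem_divisors]
    exact ⟨layG_dvd hP h x σ hσ' i, by omega⟩
  · intro σ _ τ _ hστ
    funext p
    refine Option.ext fun i => ?_
    have h1 : prt i σ = prt i τ := congrFun hστ i
    have h2 := layG_iff hP σ i p
    have h3 := layG_iff hP τ i p
    rw [h1] at h2
    exact h2.symm.trans h3

end

theorem layA_FF (ι : Type) [Fintype ι] [DecidableEq ι] (δ : ℝ) (hδ : 0 < δ) : ∃ X₀ : ℕ,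
    ∀ X z R : ℕ, X₀ ≤ X → R ≤ X → ∀ h : ι → ℕ, (∀ i, h i ≤ X) → ∀ L : Col (PP z R) ι → ℝ,
    (∀ σ, |L σ| ≤ ∏ p : {p : ℕ // p ∈ PP z R}, (1 + (Fintype.card ι : ℝ) / ((p : ℕ) : ℝ))) →
    ∀ x ∈ Ioc X (2 * X), |FF h L x| ≤ (X : ℝ) ^ δ := by
  classical
  set k : ℕ := Fintype.card ι with hk
  set δ' : ℝ := δ / (2 * ((k : ℝ) + 1)) with hδ'
  have hδ'0 : 0 < δ' := by positivity
  obtain ⟨C, hC1, hC⟩ := layA_prod k
  obtain ⟨C', hC'1, hC'⟩ := Pool.Agent.Lib.MP_bc6037_nt.card_divisors_le_rpow hδ'0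
  have hlo := isLittleO_log_rpow_rpow_atTop (s := δ / 2) (k : ℝ) (by positivity)
  have hApos : 0 < C ^ k * (C' * (3 : ℝ) ^ δ') ^ k := by positivity
  have hev := hlo.bound (c := 1 / (C ^ k * (C' * (3 : ℝ) ^ δ') ^ k)) (by positivity)
  have hev2 := tendsto_natCast_atTop_atTop (R := ℝ) |>.eventually hev
  obtain ⟨X₁, hX₁⟩ := Filter.eventually_atTop.1 hev2
  refine ⟨max X₁ 3, fun X z R hX hR h hh L hL x hx => ?_⟩
  have hX3 : 3 ≤ X := (le_max_right _ _).trans hX
  have hXr : (3 : ℝ) ≤ X := by exact_mod_cast hX3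
  have hX0 : (0 : ℝ) < X := by linarith
  have hlog : 0 ≤ Real.log X := Real.log_nonneg (by linarith)
  have hb := hX₁ X ((le_max_left _ _).trans hX)
  rw [Real.norm_of_nonneg (Real.rpow_nonneg hlog _), Real.norm_of_nonneg (Real.rpow_nonneg hX0.le _),
    Real.rpow_natCast] at hb
  rw [mem_Ioc] at hx
  have hprime : ∀ p ∈ PP z R, p.Prime := by
    intro p hp
    unfold PP at hp
    exact (mem_filter.1 hp).2.1
  have hM := hC X z R hX3 hR
  have hfits := layA_fits (P := PP z R) hprime h x (by omega)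
  have h1 : |FF h L x| ≤ ∑ σ ∈ univ.filter (fun σ : Col (PP z R) ι => Fit h x σ),
      (C * Real.log X) ^ k := by
    unfold FF
    refine (abs_sum_le_sum_abs _ _).trans (sum_le_sum fun σ _ => ?_)
    exact (hL σ).trans hM
  rw [sum_const, nsmul_eq_mul] at h1
  have h2 : ((univ.filter (fun σ : Col (PP z R) ι => Fit h x σ)).card : ℝ) ≤
      (C' * ((3 : ℝ) ^ δ' * (X : ℝ) ^ δ')) ^ k := by
    have h3 : ((univ.filter (fun σ : Col (PP z R) ι => Fit h x σ)).card : ℝ) ≤
        ∏ i, ((x + h i).divisors.card : ℝ) := by exact_mod_cast hfits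
    refine h3.trans ?_
    have h4 : ∏ i, ((x + h i).divisors.card : ℝ) ≤
        ∏ _i : ι, (C' * ((3 : ℝ) ^ δ' * (X : ℝ) ^ δ')) := by
      refine prod_le_prod (fun i _ => Nat.cast_nonneg _) fun i _ => ?_
      refine (hC' (x + h i) (by omega)).trans (mul_le_mul_of_nonneg_left ?_ (by linarith))
      rw [← Real.mul_rpow (by norm_num) hX0.le]
      apply Real.rpow_le_rpow (Nat.cast_nonneg _) _ hδ'0.le
      have h5 := hh i
      have h6 : x + h i ≤ 3 * X := by omega
      exact_mod_cast h6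
    rw [prod_const, card_univ] at h4
    exact h4
  have hCl : 0 ≤ (C * Real.log X) ^ k := by positivity
  have hXd : ((X : ℝ) ^ δ') ^ k ≤ (X : ℝ) ^ (δ / 2) := by
    rw [← Real.rpow_natCast, ← Real.rpow_mul hX0.le]
    apply Real.rpow_le_rpow_of_exponent_le (by linarith)
    rw [hδ', div_mul_eq_mul_div, div_le_div_iff₀ (by positivity) (by norm_num)]
    nlinarith
  calc |FF h L x| ≤ ((univ.filter (fun σ : Col (PP z R) ι => Fit h x σ)).card : ℝ) *
        (C * Real.log X) ^ k := h1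
    _ ≤ (C' * ((3 : ℝ) ^ δ' * (X : ℝ) ^ δ')) ^ k * (C * Real.log X) ^ k :=
        mul_le_mul_of_nonneg_right h2 hCl
    _ = (C ^ k * (C' * (3 : ℝ) ^ δ') ^ k) * (Real.log X) ^ k * ((X : ℝ) ^ δ') ^ k := by
        rw [← mul_assoc C', mul_pow, mul_pow C]
        ring
    _ ≤ (C ^ k * (C' * (3 : ℝ) ^ δ') ^ k) * (1 / (C ^ k * (C' * (3 : ℝ) ^ δ') ^ k) *
        (X : ℝ) ^ (δ / 2)) * (X : ℝ) ^ (δ / 2) := by
        apply mul_le_mul _ hXd (by positivity) (by positivity)
        exact mul_le_mul_of_nonneg_left hb hApos.le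
    _ = (X : ℝ) ^ (δ / 2) * (X : ℝ) ^ (δ / 2) := by
        rw [← mul_assoc, mul_one_div_cancel hApos.ne', one_mul]
    _ = (X : ℝ) ^ δ := by
        rw [← Real.rpow_add hX0]
        congr 1
        ring

end Pool.Agent.Lib.MT
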