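import Pool.Agent.Lib.MT.LayC
import Pool.Agent.Lib.BV.Defs
import Pool.Agent.Lib.MP_092512_nt.P3.B15

/-!
# MT-LayD: the sum for fixed `d`, primes `x + h m`

For one pair of colourings without conflict, avoiding the colour `m`, the conditions on `x` are residue classes modulo
`q = ∏_{p ∈ d} p * mod2 σ τ`, and `x + h m` is coprime to `q` on them; the primes `> X ≥ q` are coprime to `q`.
-/

set_option autoImplicit false

open Finset Pool.Agent.Lib.SW Pool.Agent.Lib.MP_092512_nt.P3.B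

namespace Pool.Agent.Lib.MT

/-- the sum over `(A, B]` from the sums up to `A` and `B` -/
theorem layD_diff (f : ℕ → ℝ) (A B : ℕ) (hAB : A ≤ B) :
    ∑ n ∈ Ioc A B, f n = ∑ n ∈ Icc 1 B, f n - ∑ n ∈ Icc 1 A, f n := by
  have h1 : Icc 1 B = Icc 1 A ∪ Ioc A B := by
    ext n
    simp only [mem_union, mem_Icc, mem_Ioc]
    omega
  have h2 : Disjoint (Icc 1 A) (Ioc A B) := by
    rw [disjoint_left]
    intro n hn hn'
    rw [mem_Icc] at hn
    rw [mem_Ioc] at hn'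
    omega
  rw [h1, sum_union h2]
  ring

/-- one residue class -/
theorem layD_class (X a q c : ℕ) (hq1 : 1 ≤ q) (hq : q ≤ X) (E : ℝ)
    (hE : |BV.EE BV.th (2 * X + a) q c| + |BV.EE BV.th (X + a) q c| ≤ E) :
    |∑ n ∈ (Ioc (X + a) (2 * X + a)).filter (fun n => n ≡ c [MOD q]), BV.th n -
        (1 / (q.totient : ℝ)) * ∑ n ∈ Ioc (X + a) (2 * X + a), BV.th n| ≤ E := by
  have h1 : ∑ n ∈ (Ioc (X + a) (2 * X + a)).filter (fun n => n ≡ c [MOD q]), BV.th n =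
      ∑ n ∈ (Icc 1 (2 * X + a)).filter (fun n => n ≡ c [MOD q]), BV.th n -
        ∑ n ∈ (Icc 1 (X + a)).filter (fun n => n ≡ c [MOD q]), BV.th n := by
    rw [sum_filter, sum_filter, sum_filter]
    exact layD_diff _ (X + a) (2 * X + a) (by omega)
  have h2 : ∑ n ∈ Ioc (X + a) (2 * X + a), BV.th n =
      ∑ n ∈ (Icc 1 (2 * X + a)).filter (fun n => n.Coprime q), BV.th n -
        ∑ n ∈ (Icc 1 (X + a)).filter (fun n => n.Coprime q), BV.th n := by
    rw [sum_filter, sum_filter, ← layD_diff _ (X + a) (2 * X + a) (by omega)]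
    refine sum_congr rfl fun n hn => ?_
    rw [mem_Ioc] at hn
    by_cases hp : n.Prime
    · rw [if_pos]
      refine (hp.coprime_iff_not_dvd).2 fun hd => ?_
      have := Nat.le_of_dvd hq1 hd
      omega
    · have h3 : BV.th n = 0 := by
        unfold BV.th
        rw [if_neg hp]
      rw [h3, ite_self]
  have h3 : ∑ n ∈ (Ioc (X + a) (2 * X + a)).filter (fun n => n ≡ c [MOD q]), BV.th n -
        (1 / (q.totient : ℝ)) * ∑ n ∈ Ioc (X + a) (2 * X + a), BV.th n =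
      BV.EE BV.th (2 * X + a) q c - BV.EE BV.th (X + a) q c := by
    rw [h1, h2]
    unfold BV.EE
    ring
  rw [h3]
  exact (abs_sub _ _).trans hE

theorem layD_shift (X a q c : ℕ) (hc : c < q) (f : ℕ → ℝ) :
    ∑ x ∈ (Ioc X (2 * X)).filter (fun x => x % q = c), f (x + a) =
      ∑ n ∈ (Ioc (X + a) (2 * X + a)).filter (fun n => n ≡ c + a [MOD q]), f n := by
  refine sum_bij (fun x _ => x + a) ?_ ?_ ?_ ?_
  · intro x hx
    rw [mem_filter, mem_Ioc] at hx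
    rw [mem_filter, mem_Ioc]
    refine ⟨⟨by omega, by omega⟩, ?_⟩
    refine Nat.ModEq.add_right a ?_
    unfold Nat.ModEq
    rw [hx.2, Nat.mod_eq_of_lt hc]
  · intro x _ y _ hxy
    exact Nat.add_right_cancel hxy
  · intro n hn
    rw [mem_filter, mem_Ioc] at hn
    refine ⟨n - a, ?_, Nat.sub_add_cancel (by omega)⟩
    rw [mem_filter, mem_Ioc]
    refine ⟨⟨by omega, by omega⟩, ?_⟩
    have h1 : (n - a) + a ≡ c + a [MOD q] := by
      rw [Nat.sub_add_cancel (by omega)]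
      exact hn.2
    have h2 := Nat.ModEq.add_right_cancel' a h1
    unfold Nat.ModEq at h2
    rw [h2, Nat.mod_eq_of_lt hc]
  · intro x _
    rfl

variable {P : Finset ℕ} {ι : Type} [Fintype ι] [DecidableEq ι]

/-- `x + h m` is coprime to the modulus on the classes -/
theorem layD_cop (hP : ∀ p ∈ P, p.Prime) (z : ℕ) (h : ι → ℕ) (m : ι)
    (hij : ∀ p ∈ P, ∀ i j, i ≠ j → ¬ h i ≡ h j [MOD p])
    (Ω : ℕ → Finset ℕ) (hΩ : ∀ p ∈ PP 0 z, ∀ c ∈ Ω p, c < p ∧ ¬ p ∣ c + h m) (d : Finset ℕ)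
    (hd : d ⊆ PP 0 z) (σ τ : Col P ι) (hσ : ∀ p, σ p ≠ some m) (hτ : ∀ p, τ p ≠ some m) (c : ℕ)
    (h1 : ∀ p ∈ d, c % p ∈ Ω p) (h2 : Fit h c σ) (h3 : Fit h c τ) :
    Nat.Coprime (c + h m) ((∏ p ∈ d, p) * mod2 σ τ) := by
  refine Nat.Coprime.mul_right (Nat.Coprime.prod_right fun p hp => ?_) ?_
  · have hpp : p.Prime := (mem_filter.1 (hd hp)).2.1
    refine Nat.Coprime.symm ((hpp.coprime_iff_not_dvd).2 fun hdvd => ?_)
    refine (hΩ p (hd hp) (c % p) (h1 p hp)).2 ?_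
    rw [← Nat.modEq_zero_iff_dvd] at hdvd ⊢
    exact (Nat.ModEq.add_right _ (Nat.mod_modEq c p)).trans hdvd
  · unfold mod2
    refine Nat.Coprime.prod_right fun p _ => ?_
    split_ifs with hn
    · exact Nat.coprime_one_right _
    · refine Nat.Coprime.symm (((hP p p.2).coprime_iff_not_dvd).2 fun hdvd => ?_)
      have key : ∀ i, i ≠ m → (p : ℕ) ∣ c + h i → False := by
        intro i him hi
        refine hij p p.2 i m him ?_
        refine Nat.ModEq.add_left_cancel' c ?_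
        exact ((Nat.modEq_zero_iff_dvd).2 hi).trans ((Nat.modEq_zero_iff_dvd).2 hdvd).symm
      rcases hs : σ p with _ | i
      · rcases ht : τ p with _ | j
        · exact hn ⟨hs, ht⟩
        · exact key j (fun hj => hτ p (by rw [ht, hj])) (h3 p j ht)
      · exact key i (fun hi => hσ p (by rw [hs, hi])) (h2 p i hs)

open Classical in
/-- one pair of colourings -/
theorem layD_one (hP : ∀ p ∈ P, p.Prime) (z X : ℕ) (hz : ∀ p ∈ P, z < p) (h : ι → ℕ) (m : ι)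
    (hij : ∀ p ∈ P, ∀ i j, i ≠ j → ¬ h i ≡ h j [MOD p])
    (Ω : ℕ → Finset ℕ) (hΩ : ∀ p ∈ PP 0 z, ∀ c ∈ Ω p, c < p ∧ ¬ p ∣ c + h m) (d : Finset ℕ)
    (hd : d ⊆ PP 0 z) (σ τ : Col P ι)
    (hc : ∀ p i j, σ p = some i → τ p = some j → i = j) (hσ : ∀ p, σ p ≠ some m)
    (hτ : ∀ p, τ p ≠ some m) (hq : (∏ p ∈ d, p) * mod2 σ τ ≤ X)
    (E : ℕ → ℝ)
    (hE : ∀ q c, 1 ≤ q → Nat.Coprime c q →
      |BV.EE BV.th (2 * X + h m) q c| + |BV.EE BV.th (X + h m) q c| ≤ E q) :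
    |∑ x ∈ ((Ioc X (2 * X)).filter (fun x => ∀ p ∈ d, x % p ∈ Ω p)).filter
          (fun x => Fit h x σ ∧ Fit h x τ), BV.th (x + h m) -
        (∑ n ∈ Ioc (X + h m) (2 * X + h m), BV.th n) * (∏ p ∈ d, ((Ω p).card : ℝ) / ((p : ℝ) - 1)) *
          (1 / ((mod2 σ τ).totient : ℝ))| ≤
      (∏ p ∈ d, ((Ω p).card : ℝ)) * E ((∏ p ∈ d, p) * mod2 σ τ) := by
  obtain ⟨b, hb⟩ := crt_pair hP h σ τ hc
  have hM := layC_mod2_pos hP σ τ
  have hdp : ∀ p ∈ d, p.Prime := fun p hp => (mem_filter.1 (hd hp)).2.1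
  have hdpz : d ⊆ pz z := by
    intro p hp
    have h1 := mem_filter.1 (hd hp)
    rw [mem_range] at h1
    exact mem_pz.2 ⟨h1.2.1, by omega⟩
  have hcop : ∀ p ∈ d, Nat.Coprime p (mod2 σ τ) := fun p hp => layC_cop hP hz σ τ (hd hp)
  obtain ⟨C, hC1, hC2, hC3⟩ := crt_classes d hdp Ω (fun p hp c hc => (hΩ p (hd hp) c hc).1)
    (mod2 σ τ) (b % mod2 σ τ) hM (Nat.mod_lt b hM) hcop
  set q := (∏ p ∈ d, p) * mod2 σ τ with hqdef
  have hq1 : 1 ≤ q := Nat.mul_pos (prod_pos fun p hp => (hdp p hp).pos) hM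
  have hset : ((Ioc X (2 * X)).filter (fun x => ∀ p ∈ d, x % p ∈ Ω p)).filter
      (fun x => Fit h x σ ∧ Fit h x τ) = (Ioc X (2 * X)).filter (fun x => x % q ∈ C) := by
    rw [filter_filter]
    refine filter_congr fun x _ => ?_
    rw [hb x]
    exact hC3 x
  have hcopC : ∀ c ∈ C, Nat.Coprime (c + h m) q := by
    intro c hcC
    have hlt : c < q := mem_range.1 (hC1 hcC)
    have h1 := (hC3 c).2 (by rw [Nat.mod_eq_of_lt hlt]; exact hcC)
    have h2 := (hb c).2 h1.2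
    exact layD_cop hP z h m hij Ω hΩ d hd σ τ hσ hτ c h1.1 h2.1 h2.2
  obtain ⟨Θ, hΘ⟩ : ∃ Θ : ℝ, Θ = ∑ n ∈ Ioc (X + h m) (2 * X + h m), BV.th n := ⟨_, rfl⟩
  have hsum : ∑ x ∈ (Ioc X (2 * X)).filter (fun x => x % q ∈ C), BV.th (x + h m) =
      ∑ c ∈ C, ∑ n ∈ (Ioc (X + h m) (2 * X + h m)).filter (fun n => n ≡ c + h m [MOD q]), BV.th n := by
    rw [← sum_fiberwise_of_maps_to (t := C) (g := fun x => x % q) (fun x hx => (mem_filter.1 hx).2)]
    refine sum_congr rfl fun c hcC => ?_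
    rw [← layD_shift X (h m) q c (mem_range.1 (hC1 hcC)), filter_filter]
    refine sum_congr (filter_congr fun x _ => ?_) fun _ _ => rfl
    exact ⟨fun h' => h'.2, fun h' => ⟨by rw [h']; exact hcC, h'⟩⟩
  have htot : ((q.totient : ℕ) : ℝ) = (∏ p ∈ d, ((p : ℝ) - 1)) * ((mod2 σ τ).totient : ℝ) := by
    rw [hqdef, Nat.totient_mul (Nat.Coprime.prod_left hcop), (b15_d hdpz).2.2]
    push_cast
    congr 1
    refine prod_congr rfl fun p hp => ?_
    have := (hdp p hp).one_le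
    push_cast [Nat.cast_sub this]
    rfl
  have hmain : Θ * (∏ p ∈ d, ((Ω p).card : ℝ) / ((p : ℝ) - 1)) * (1 / ((mod2 σ τ).totient : ℝ)) =
      ∑ _c ∈ C, (1 / (q.totient : ℝ)) * Θ := by
    rw [sum_const, nsmul_eq_mul, hC2, htot, prod_div_distrib]
    push_cast
    simp only [div_eq_mul_inv, mul_inv]
    ring
  rw [hset, hsum, ← hΘ, hmain, ← sum_sub_distrib]
  refine (abs_sum_le_sum_abs _ _).trans ?_
  calc ∑ c ∈ C, |∑ n ∈ (Ioc (X + h m) (2 * X + h m)).filter (fun n => n ≡ c + h m [MOD q]), BV.th n -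
        (1 / (q.totient : ℝ)) * Θ| ≤ ∑ _c ∈ C, E q := by
        refine sum_le_sum fun c hcC => ?_
        rw [hΘ]
        exact layD_class X (h m) q (c + h m) hq1 hq (E q) (hE q (c + h m) hq1 (hcopC c hcC))
    _ = (∏ p ∈ d, ((Ω p).card : ℝ)) * E q := by
        rw [sum_const, nsmul_eq_mul, hC2]
        push_cast
        rfl

end Pool.Agent.Lib.MT
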