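import Pool.Agent.Lib.MT.Defs

/-!
# MT-LayE: each modulus comes from few triples `(d, σ, τ)`

PROOF of `mod2_facts`: `mod2 σ τ = ∏ p ∈ U, p` with `U ⊆ P` the set of the primes coloured by `σ` or `τ`; squarefree, prime factors = `U`
(`Nat.primeFactors_prod`).  `mod2_le`: factor by factor `[σ p = none ∧ τ p = none] ≤ [σ p = none] * [τ p = none]`.
PROOF of `layE_fibre`: sum over the triples `(d, (σ, τ))` by the value `q = (∏ d) * mod2 σ τ` (`Finset.sum_fiberwise_of_maps_to`,
`q ∈ Icc 1 Q`).  For given `q`: `d = q.primeFactors.filter (· ≤ z)` (all elements of `d` are `≤ z`, the primes of `P`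
are `> z`), and `U = q.primeFactors.filter (z < ·)`.  The map `(σ, τ) ↦ (p ↦ (σ p, τ p))` restricted to `p ∈ U` is
injective on the fibre (outside `U` both are `none`), so the number of `(σ, τ)` is at most
`((card ι + 1)^2)^(U.card)` (functions `U → Option ι × Option ι`; `Fintype.card_option`).  Weighted by `K^d.card`:
`K^d.card * ((card ι + 1)^2)^U.card ≤ (K + (card ι + 1)^2)^ω(q)` (`d.card + U.card = ω(q)`).
-/

set_option autoImplicit false

open Finset

namespace Pool.Agent.Lib.MT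

variable {P : Finset ℕ} {ι : Type} [Fintype ι] [DecidableEq ι]

theorem mod2_pos (hP : ∀ p ∈ P, p.Prime) (σ τ : Col P ι) : 1 ≤ mod2 σ τ := by
  unfold mod2
  refine Nat.succ_le_of_lt (prod_pos fun p _ => ?_)
  split_ifs
  · exact one_pos
  · exact (hP _ p.2).pos

theorem mod2_le (hP : ∀ p ∈ P, p.Prime) (σ τ : Col P ι) : mod2 σ τ ≤ tot σ * tot τ := by
  unfold mod2 tot
  rw [← prod_mul_distrib]
  refine prod_le_prod' fun p _ => ?_
  have hp : 1 ≤ (p : ℕ) := (hP _ p.2).one_le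
  by_cases h1 : σ p = none
  · by_cases h2 : τ p = none
    · rw [if_pos ⟨h1, h2⟩, if_pos h1, if_pos h2, one_mul]
    · rw [if_neg fun h => h2 h.2, if_pos h1, if_neg h2, one_mul]
  · rw [if_neg fun h => h1 h.1, if_neg h1]
    refine Nat.le_mul_of_pos_right _ ?_
    split_ifs
    · exact one_pos
    · exact hp

/-- the set of the primes coloured by `σ` or `τ` -/
private def layE_U (σ τ : Col P ι) : Finset ℕ :=
  (univ.filter (fun p : {p : ℕ // p ∈ P} => ¬ (σ p = none ∧ τ p = none))).image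
    (fun p : {p : ℕ // p ∈ P} => (p : ℕ))

omit [Fintype ι] [DecidableEq ι] in
private theorem layE_mem (σ τ : Col P ι) (p : {p : ℕ // p ∈ P}) :
    (p : ℕ) ∈ layE_U σ τ ↔ ¬ (σ p = none ∧ τ p = none) := by
  unfold layE_U
  rw [mem_image]
  constructor
  · rintro ⟨q, hq, hqp⟩
    have hq' : q = p := Subtype.ext hqp
    rw [← hq']
    exact (mem_filter.1 hq).2
  · intro h
    exact ⟨p, mem_filter.2 ⟨mem_univ _, h⟩, rfl⟩

omit [Fintype ι] [DecidableEq ι] in
private theorem layE_sub (σ τ : Col P ι) : layE_U σ τ ⊆ P := by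
  intro p hp
  unfold layE_U at hp
  obtain ⟨q, _, rfl⟩ := mem_image.1 hp
  exact q.2

omit [Fintype ι] [DecidableEq ι] in
private theorem layE_mod2 (σ τ : Col P ι) : mod2 σ τ = ∏ p ∈ layE_U σ τ, p := by
  unfold layE_U
  rw [prod_image fun a _ b _ h => Subtype.ext h, prod_filter]
  unfold mod2
  refine prod_congr rfl fun p _ => ?_
  by_cases h : σ p = none ∧ τ p = none
  · rw [if_pos h, if_neg (not_not.mpr h)]
  · rw [if_neg h, if_pos h]

private theorem layE_prime {z p : ℕ} (hp : p ∈ PP 0 z) : p.Prime ∧ p ≤ z := by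
  unfold PP at hp
  rw [mem_filter, mem_range] at hp
  exact ⟨hp.2.1, by omega⟩

omit [Fintype ι] [DecidableEq ι] in
private theorem layE_pf (hP : ∀ p ∈ P, p.Prime) (z : ℕ) (hz : ∀ p ∈ P, z < p) (σ τ : Col P ι)
    (d : Finset ℕ) (hd : d ⊆ PP 0 z) :
    ((∏ p ∈ d, p) * mod2 σ τ).primeFactors = d ∪ layE_U σ τ := by
  have hdisj : Disjoint d (layE_U σ τ) := by
    rw [disjoint_left]
    intro p hp hp'
    have h1 := (layE_prime (hd hp)).2
    have h2 := hz p (layE_sub σ τ hp')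
    omega
  rw [layE_mod2, ← prod_union hdisj]
  apply Nat.primeFactors_prod
  intro p hp
  rcases mem_union.1 hp with h | h
  · exact (layE_prime (hd h)).1
  · exact hP p (layE_sub σ τ h)

open Classical in
/-- the number of pairs with a given set `U` -/
private theorem layE_card (U : Finset ℕ) (S : Finset (Col P ι × Col P ι))
    (hS : ∀ s ∈ S, layE_U s.1 s.2 = U) : S.card ≤ ((Fintype.card ι + 1) ^ 2) ^ U.card := by
  have h1 : (univ : Finset ({p : ℕ // p ∈ U} → Option ι × Option ι)).card =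
      ((Fintype.card ι + 1) ^ 2) ^ U.card := by
    rw [card_univ, Fintype.card_fun, Fintype.card_prod, Fintype.card_option, Fintype.card_coe, sq]
  rw [← h1]
  refine card_le_card_of_injOn (fun s => fun p : {p : ℕ // p ∈ U} =>
    if hp : (p : ℕ) ∈ P then (s.1 ⟨p, hp⟩, s.2 ⟨p, hp⟩) else (none, none))
    (fun s _ => mem_univ _) ?_
  intro s hs t ht hst
  have key : ∀ p : {p : ℕ // p ∈ P}, (s.1 p, s.2 p) = (t.1 p, t.2 p) := by
    intro p
    by_cases hp : (p : ℕ) ∈ U
    · have h2 := congrFun hst ⟨(p : ℕ), hp⟩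
      simp only [p.2, dif_pos] at h2
      exact h2
    · have h3 : s.1 p = none ∧ s.2 p = none := by
        by_contra hcon
        exact hp (hS s hs ▸ (layE_mem s.1 s.2 p).2 hcon)
      have h4 : t.1 p = none ∧ t.2 p = none := by
        by_contra hcon
        exact hp (hS t ht ▸ (layE_mem t.1 t.2 p).2 hcon)
      rw [h3.1, h3.2, h4.1, h4.2]
  refine Prod.ext ?_ ?_
  · funext p
    exact congrArg Prod.fst (key p)
  · funext p
    exact congrArg Prod.snd (key p)

open Classical in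
/-- `S`: any set of pairs of colourings -/
theorem layE_fibre (hP : ∀ p ∈ P, p.Prime) (z m K Q : ℕ) (hz : ∀ p ∈ P, z < p)
    (S : Finset (Col P ι × Col P ι))
    (hQ : ∀ d ⊆ PP 0 z, d.card ≤ m → ∀ s ∈ S, (∏ p ∈ d, p) * mod2 s.1 s.2 ≤ Q)
    (G : ℕ → ℝ) (hG : ∀ q, 0 ≤ G q) :
    ∑ d ∈ (PP 0 z).powerset with d.card ≤ m, ∑ s ∈ S,
        (K : ℝ) ^ d.card * G ((∏ p ∈ d, p) * mod2 s.1 s.2) ≤
      ∑ q ∈ Icc 1 Q, ((K + (Fintype.card ι + 1) ^ 2 : ℕ) : ℝ) ^ q.primeFactors.card * G q := by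
  rw [← sum_product']
  set T : Finset (Finset ℕ × (Col P ι × Col P ι)) :=
    ((PP 0 z).powerset.filter (fun d => d.card ≤ m)) ×ˢ S with hT
  have hmaps : ∀ t ∈ T, (∏ p ∈ t.1, p) * mod2 t.2.1 t.2.2 ∈ Icc 1 Q := by
    intro t ht
    rw [hT, mem_product, mem_filter, mem_powerset] at ht
    rw [mem_Icc]
    refine ⟨?_, hQ t.1 ht.1.1 ht.1.2 t.2 ht.2⟩
    have h1 : 0 < ∏ p ∈ t.1, p := prod_pos fun p hp => (layE_prime (ht.1.1 hp)).1.pos
    have h2 := mod2_pos hP t.2.1 t.2.2
    exact Nat.succ_le_of_lt (Nat.mul_pos h1 h2)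
  rw [← sum_fiberwise_of_maps_to hmaps]
  refine sum_le_sum fun q _ => ?_
  have h1 : ∑ t ∈ T.filter (fun t => (∏ p ∈ t.1, p) * mod2 t.2.1 t.2.2 = q),
      (K : ℝ) ^ t.1.card * G ((∏ p ∈ t.1, p) * mod2 t.2.1 t.2.2) =
      (∑ t ∈ T.filter (fun t => (∏ p ∈ t.1, p) * mod2 t.2.1 t.2.2 = q),
        (K : ℝ) ^ t.1.card) * G q := by
    rw [sum_mul]
    refine sum_congr rfl fun t ht => ?_
    rw [(mem_filter.1 ht).2]
  rw [h1]
  refine mul_le_mul_of_nonneg_right ?_ (hG q)
  have hfib : ∀ t ∈ T.filter (fun t => (∏ p ∈ t.1, p) * mod2 t.2.1 t.2.2 = q),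
      t.1 = q.primeFactors.filter (fun p => p ≤ z) ∧
      layE_U t.2.1 t.2.2 = q.primeFactors.filter (fun p => ¬ p ≤ z) := by
    intro t ht
    rw [mem_filter, hT, mem_product, mem_filter, mem_powerset] at ht
    have hpf := layE_pf hP z hz t.2.1 t.2.2 t.1 ht.1.1.1
    rw [ht.2] at hpf
    constructor
    · ext p
      rw [mem_filter, hpf, mem_union]
      constructor
      · intro hp
        exact ⟨Or.inl hp, (layE_prime (ht.1.1.1 hp)).2⟩
      · rintro ⟨hp | hp, hpz⟩
        · exact hp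
        · exact absurd hpz (not_le.2 (hz p (layE_sub _ _ hp)))
    · ext p
      rw [mem_filter, hpf, mem_union]
      constructor
      · intro hp
        exact ⟨Or.inr hp, not_le.2 (hz p (layE_sub _ _ hp))⟩
      · rintro ⟨hp | hp, hpz⟩
        · exact absurd (layE_prime (ht.1.1.1 hp)).2 hpz
        · exact hp
  have h2 : ∑ t ∈ T.filter (fun t => (∏ p ∈ t.1, p) * mod2 t.2.1 t.2.2 = q),
        (K : ℝ) ^ t.1.card =
      ((T.filter (fun t => (∏ p ∈ t.1, p) * mod2 t.2.1 t.2.2 = q)).card : ℝ) *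
        (K : ℝ) ^ (q.primeFactors.filter (fun p => p ≤ z)).card := by
    rw [← nsmul_eq_mul, ← sum_const]
    refine sum_congr rfl fun t ht => ?_
    rw [(hfib t ht).1]
  rw [h2]
  have h3 : (T.filter (fun t => (∏ p ∈ t.1, p) * mod2 t.2.1 t.2.2 = q)).card ≤
      ((Fintype.card ι + 1) ^ 2) ^ (q.primeFactors.filter (fun p => ¬ p ≤ z)).card := by
    have h4 : (T.filter (fun t => (∏ p ∈ t.1, p) * mod2 t.2.1 t.2.2 = q)).card =
        ((T.filter (fun t => (∏ p ∈ t.1, p) * mod2 t.2.1 t.2.2 = q)).image Prod.snd).card := by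
      rw [card_image_of_injOn]
      intro t ht u hu htu
      refine Prod.ext ?_ htu
      rw [(hfib t ht).1, (hfib u hu).1]
    rw [h4]
    refine layE_card _ _ fun s hs => ?_
    obtain ⟨t, ht, rfl⟩ := mem_image.1 hs
    exact (hfib t ht).2
  have h5 : (q.primeFactors.filter (fun p => p ≤ z)).card +
      (q.primeFactors.filter (fun p => ¬ p ≤ z)).card = q.primeFactors.card :=
    card_filter_add_card_filter_not _
  have h6 : (T.filter (fun t => (∏ p ∈ t.1, p) * mod2 t.2.1 t.2.2 = q)).card *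
      K ^ (q.primeFactors.filter (fun p => p ≤ z)).card ≤
      (K + (Fintype.card ι + 1) ^ 2) ^ q.primeFactors.card := by
    rw [← h5, pow_add, mul_comm]
    refine Nat.mul_le_mul (Nat.pow_le_pow_left (Nat.le_add_right _ _) _) (h3.trans ?_)
    exact Nat.pow_le_pow_left (Nat.le_add_left _ _) _
  exact_mod_cast h6

end Pool.Agent.Lib.MT
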