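import Pool.Agent.Lib.BV.Main

/-!
# MT-LayF: Bombieri-Vinogradov with the worst reduced class, at `X + a` and `2X + a`

PROOF. `worst_th`: for every `q ≥ 1` choose a reduced class `l q` (among the `c ∈ range (q+1)` coprime to `q`) with the largest
`|EE th Y q c|` (`Finset.exists_max_image`; `EE th Y q c = EE th Y q (c % q)`); `l q = 0` else.  `E q = |EE th (2X+a) q (l q)| +
|EE th (X+a) q (l' q)|` for the two worst systems.  `BV.bvp (A+1) K (1/20)` for `Y = 2X + a ≤ 3X` and for `Y = X + a ≥ X`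
(`Q ≤ X^(9/20) ≤ Y^(1/2 - 1/20)`): the sum is at most `3X/(log X)^(A+1) + 2X/(log X)^(A+1)` and `5 ≤ log X`.
-/

set_option autoImplicit false

open Finset

namespace Pool.Agent.Lib.MT

private theorem layF_mod (Y q c : ℕ) : BV.EE BV.th Y q c = BV.EE BV.th Y q (c % q) := by
  unfold BV.EE
  have h1 : (Icc 1 Y).filter (fun n => n ≡ c [MOD q]) = (Icc 1 Y).filter (fun n => n ≡ c % q [MOD q]) := by
    refine filter_congr (fun n _ => ?_)
    have h2 : c % q ≡ c [MOD q] := Nat.mod_modEq c q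
    exact ⟨fun h => h.trans h2.symm, fun h => h.trans h2⟩
  rw [h1]

private theorem layF_worst (Y q : ℕ) : ∃ l : ℕ, 1 ≤ q →
    (l.Coprime q ∧ ∀ c : ℕ, c.Coprime q → |BV.EE BV.th Y q c| ≤ |BV.EE BV.th Y q l|) := by
  by_cases hq : 1 ≤ q
  · have hne : ((range q).filter (fun c => c.Coprime q)).Nonempty := by
      refine ⟨1 % q, ?_⟩
      rw [mem_filter, mem_range]
      refine ⟨Nat.mod_lt _ hq, ?_⟩
      have : Nat.Coprime 1 q := Nat.coprime_one_left q
      rw [Nat.Coprime, ← Nat.gcd_rec, Nat.gcd_comm]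
      exact this
    obtain ⟨l, hl, hmax⟩ := exists_max_image _ (fun c => |BV.EE BV.th Y q c|) hne
    refine ⟨l, fun _ => ⟨(mem_filter.mp hl).2, fun c hc => ?_⟩⟩
    rw [layF_mod Y q c]
    refine hmax (c % q) ?_
    rw [mem_filter, mem_range]
    refine ⟨Nat.mod_lt _ hq, ?_⟩
    rw [Nat.Coprime, ← Nat.gcd_rec, Nat.gcd_comm]
    exact hc
  · exact ⟨0, fun h => absurd h hq⟩

theorem layF_bv (A K : ℕ) : ∃ X₀ : ℕ, ∀ X : ℕ, X₀ ≤ X → ∀ a : ℕ, a ≤ X →
    ∃ E : ℕ → ℝ, (∀ q, 0 ≤ E q) ∧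
      (∀ q c, 1 ≤ q → Nat.Coprime c q →
        |BV.EE BV.th (2 * X + a) q c| + |BV.EE BV.th (X + a) q c| ≤ E q) ∧
      ∀ Q : ℕ, (Q : ℝ) ≤ (X : ℝ) ^ (9 / 20 : ℝ) →
        ∑ q ∈ Icc 1 Q, (K : ℝ) ^ q.primeFactors.card * E q ≤ X / (Real.log X) ^ A := by
  obtain ⟨X₁, h1⟩ := BV.bvp (A + 1) K (1 / 20) (by norm_num)
  obtain ⟨X₂, h2⟩ : ∃ X₂ : ℕ, ∀ X : ℕ, X₂ ≤ X → 5 ≤ Real.log X := by
    have h3 : Filter.Tendsto (fun X : ℕ => Real.log (X : ℝ)) Filter.atTop Filter.atTop :=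
      Real.tendsto_log_atTop.comp tendsto_natCast_atTop_atTop
    exact Filter.eventually_atTop.mp (h3.eventually_ge_atTop 5)
  refine ⟨X₁ + X₂ + 1, fun X hX a ha => ?_⟩
  have hl5 := h2 X (by omega)
  have hX1 : 1 ≤ X := by omega
  have hX0 : (0 : ℝ) < (X : ℝ) := by exact_mod_cast hX1
  choose l hl using layF_worst
  refine ⟨fun q => |BV.EE BV.th (2 * X + a) q (l (2 * X + a) q)| +
    |BV.EE BV.th (X + a) q (l (X + a) q)|, fun q => by positivity, fun q c hq hc => ?_, fun Q hQ => ?_⟩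
  · exact add_le_add ((hl (2 * X + a) q hq).2 c hc) ((hl (X + a) q hq).2 c hc)
  · have key : ∀ Y : ℕ, X ≤ Y → ∀ t : ℝ, (Y : ℝ) ≤ t * X →
        ∑ q ∈ Icc 1 Q, (K : ℝ) ^ q.primeFactors.card * |BV.EE BV.th Y q (l Y q)| ≤
          t * X / (Real.log X) ^ (A + 1) := by
      intro Y hY t ht
      have hYr : (X : ℝ) ≤ (Y : ℝ) := by exact_mod_cast hY
      have e1 : (Q : ℝ) ≤ (Y : ℝ) ^ (1 / 2 - 1 / 20 : ℝ) := by
        refine le_trans hQ ?_
        norm_num
        exact Real.rpow_le_rpow hX0.le hYr (by norm_num)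
      have e2 := h1 Y (by omega) Q e1 (l Y) (fun q hq => (hl Y q (mem_Icc.mp hq).1).1)
      refine le_trans e2 ?_
      have e3 : Real.log X ≤ Real.log Y := Real.log_le_log hX0 hYr
      have e4 : 0 < Real.log X := by linarith
      refine div_le_div₀ (le_trans (Nat.cast_nonneg _) ht) ht (by positivity) ?_
      exact pow_le_pow_left₀ e4.le e3 _
    have har : (a : ℝ) ≤ (X : ℝ) := by exact_mod_cast ha
    have k1 := key (2 * X + a) (by omega) 3 (by push_cast; linarith)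
    have k2 := key (X + a) (by omega) 2 (by push_cast; linarith)
    have e5 : ∑ q ∈ Icc 1 Q, (K : ℝ) ^ q.primeFactors.card *
        (|BV.EE BV.th (2 * X + a) q (l (2 * X + a) q)| + |BV.EE BV.th (X + a) q (l (X + a) q)|) =
        ∑ q ∈ Icc 1 Q, (K : ℝ) ^ q.primeFactors.card * |BV.EE BV.th (2 * X + a) q (l (2 * X + a) q)| +
        ∑ q ∈ Icc 1 Q, (K : ℝ) ^ q.primeFactors.card * |BV.EE BV.th (X + a) q (l (X + a) q)| := by
      rw [← sum_add_distrib]
      exact sum_congr rfl (fun q _ => mul_add _ _ _)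
    refine le_trans (le_of_eq e5) (le_trans (add_le_add k1 k2) ?_)
    have e4 : 0 < Real.log X := by linarith
    rw [← add_div, div_le_div_iff₀ (by positivity) (by positivity), pow_succ]
    have e6 : 0 < (Real.log X) ^ A := by positivity
    have e7 : (3 * (X : ℝ) + 2 * X) * (Real.log X) ^ A = X * ((Real.log X) ^ A * 5) := by ring
    rw [e7]
    exact mul_le_mul_of_nonneg_left (mul_le_mul_of_nonneg_left hl5 e6.le) hX0.le

end Pool.Agent.Lib.MT
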