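import Pool.Agent.Lib.MT.Lay1
import Pool.Agent.Lib.MT.LayD
import Pool.Agent.Lib.MT.LayE
import Pool.Agent.Lib.MT.LayF

/-!
# MT-Lay2: primes x + h m weighted by the sieve over the presieved x

The class of `-h m` is dropped from the presieve (`lay2_pre`), truncated inclusion-exclusion (`layB_trunc`), the sum for fixed `d`
(`lay2_fix`, from `layD_one`), the sum of the errors over all moduli (`layE_fibre`, `layF_bv`), the truncated product (`layB_V`).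
-/

set_option autoImplicit false

open Finset

namespace Pool.Agent.Lib.MT

/-- the presieve without the class of `-a` -/
def Oa (Ω : ℕ → Finset ℕ) (a p : ℕ) : Finset ℕ := (Ω p).filter (fun c => ¬ p ∣ c + a)

theorem lay2_Oa_card {Ω : ℕ → Finset ℕ} {K : ℕ} (hK : ∀ p, (Ω p).card ≤ K) (a p : ℕ) :
    (Oa Ω a p).card ≤ K := (card_le_card (filter_subset _ _)).trans (hK p)

theorem lay2_Oa_lt {Ω : ℕ → Finset ℕ} {z : ℕ} (hΩ : ∀ p ∈ PP 0 z, ∀ c ∈ Ω p, c < p) (a : ℕ) :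
    ∀ p ∈ PP 0 z, ∀ c ∈ Oa Ω a p, c < p ∧ ¬ p ∣ c + a := fun p hp c hc => by
  unfold Oa at hc
  rw [mem_filter] at hc
  exact ⟨hΩ p hp c hc.1, hc.2⟩

theorem lay2_th0 {n : ℕ} (h : ¬ n.Prime) : BV.th n = 0 := by
  unfold BV.th
  rw [if_neg h]

/-- the class of `-a` is excluded by the primality of `x + a` -/
theorem lay2_pre (Ω : ℕ → Finset ℕ) (a z X : ℕ) (hz : z ≤ X) (w : ℕ → ℝ) :
    ∑ x ∈ Pre Ω z X, BV.th (x + a) * w x = ∑ x ∈ Pre (Oa Ω a) z X, BV.th (x + a) * w x := by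
  unfold Pre
  rw [sum_filter, sum_filter]
  refine sum_congr rfl fun x hx => ?_
  rw [mem_Ioc] at hx
  by_cases hp : (x + a).Prime
  · refine if_congr ?_ rfl rfl
    refine forall₂_congr fun p hpz => ?_
    rw [PP, mem_filter, mem_range] at hpz
    have hnd : ¬ p ∣ x % p + a := by
      intro hd
      have h1 : p ∣ x + a := by
        rw [← Nat.modEq_zero_iff_dvd] at hd ⊢
        exact (Nat.ModEq.add_right _ (Nat.mod_modEq x p)).symm.trans hd
      have h2 := (Nat.prime_dvd_prime_iff_eq hpz.2.1 hp).1 h1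
      omega
    unfold Oa
    rw [mem_filter]
    exact not_congr ⟨fun h => ⟨h, hnd⟩, fun h => h.1⟩
  · rw [lay2_th0 hp, zero_mul, ite_self, ite_self]

section

variable {ι : Type} [Fintype ι] [DecidableEq ι]

open Classical in
/-- the pairs of colourings which count -/
noncomputable def GP {P : Finset ℕ} (L : Col P ι → ℝ) (m : ι) : Finset (Col P ι × Col P ι) :=
  univ.filter (fun s => L s.1 ≠ 0 ∧ L s.2 ≠ 0 ∧ (∀ p i j, s.1 p = some i → s.2 p = some j → i = j) ∧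
    (∀ p, s.1 p ≠ some m) ∧ ∀ p, s.2 p ≠ some m)

/-- the sum for fixed `d` -/
theorem lay2_fix (z X R : ℕ) (hRX : R ≤ X) (h : ι → ℕ) (m : ι)
    (hij : ∀ p ∈ PP z R, ∀ i j, i ≠ j → ¬ h i ≡ h j [MOD p])
    (Ω : ℕ → Finset ℕ) (hΩ : ∀ p ∈ PP 0 z, ∀ c ∈ Ω p, c < p ∧ ¬ p ∣ c + h m) (L : Col (PP z R) ι → ℝ)
    (M : ℝ) (hM : ∀ σ, |L σ| ≤ M) (d : Finset ℕ) (hd : d ⊆ PP 0 z)
    (hq : ∀ s ∈ GP L m, (∏ p ∈ d, p) * mod2 s.1 s.2 ≤ X) (E : ℕ → ℝ)
    (hE : ∀ q c, 1 ≤ q → Nat.Coprime c q →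
      |BV.EE BV.th (2 * X + h m) q c| + |BV.EE BV.th (X + h m) q c| ≤ E q) :
    |∑ x ∈ (Ioc X (2 * X)).filter (fun x => ∀ p ∈ d, x % p ∈ Ω p), BV.th (x + h m) * (FF h L x) ^ 2 -
        (∑ n ∈ Ioc (X + h m) (2 * X + h m), BV.th n) * Qf (q2 m) L *
          (∏ p ∈ d, ((Ω p).card : ℝ) / ((p : ℝ) - 1))| ≤
      M ^ 2 * ∑ s ∈ GP L m, (∏ p ∈ d, ((Ω p).card : ℝ)) * E ((∏ p ∈ d, p) * mod2 s.1 s.2) := by
  classical
  have hM0 : 0 ≤ M := (abs_nonneg _).trans (hM fun _ => none)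
  have hC0 : 0 ≤ ∏ p ∈ d, ((Ω p).card : ℝ) := prod_nonneg fun p _ => Nat.cast_nonneg _
  obtain ⟨Θ, hΘ⟩ : ∃ Θ : ℝ, Θ = ∑ n ∈ Ioc (X + h m) (2 * X + h m), BV.th n := ⟨_, rfl⟩
  rw [← hΘ]
  have e1 := layC_exp ((Ioc X (2 * X)).filter (fun x => ∀ p ∈ d, x % p ∈ Ω p))
    (fun x => BV.th (x + h m)) h L
  have e2 : Θ * Qf (q2 m) L * (∏ p ∈ d, ((Ω p).card : ℝ) / ((p : ℝ) - 1)) =
      ∑ σ : Col (PP z R) ι, ∑ τ : Col (PP z R) ι, L σ * L τ *
        (Θ * (∏ p ∈ d, ((Ω p).card : ℝ) / ((p : ℝ) - 1)) *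
          ∏ p : {p : ℕ // p ∈ PP z R}, Kmat (q2 m p) (σ p) (τ p)) := by
    unfold Qf
    rw [mul_sum, sum_mul]
    refine sum_congr rfl fun σ _ => ?_
    rw [mul_sum, sum_mul]
    refine sum_congr rfl fun τ _ => ?_
    ring
  have e3 : M ^ 2 * ∑ s ∈ GP L m, (∏ p ∈ d, ((Ω p).card : ℝ)) * E ((∏ p ∈ d, p) * mod2 s.1 s.2) =
      ∑ σ : Col (PP z R) ι, ∑ τ : Col (PP z R) ι, if (σ, τ) ∈ GP L m then
        M ^ 2 * ((∏ p ∈ d, ((Ω p).card : ℝ)) * E ((∏ p ∈ d, p) * mod2 σ τ)) else 0 := by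
    rw [← sum_product' (s := (univ : Finset (Col (PP z R) ι))) (t := (univ : Finset (Col (PP z R) ι)))
      (f := fun σ τ => if (σ, τ) ∈ GP L m then
        M ^ 2 * ((∏ p ∈ d, ((Ω p).card : ℝ)) * E ((∏ p ∈ d, p) * mod2 σ τ)) else 0),
      univ_product_univ, ← sum_filter, mul_sum]
    refine sum_congr ?_ fun s _ => rfl
    ext s
    simp only [mem_filter, mem_univ, true_and, Prod.mk.eta]
  rw [e1, e2, e3, ← sum_sub_distrib]
  refine (abs_sum_le_sum_abs _ _).trans (sum_le_sum fun σ _ => ?_)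
  rw [← sum_sub_distrib]
  refine (abs_sum_le_sum_abs _ _).trans (sum_le_sum fun τ _ => ?_)
  rw [← mul_sub, abs_mul, abs_mul]
  by_cases hs : (σ, τ) ∈ GP L m
  · rw [if_pos hs]
    have hs' := hs
    unfold GP at hs'
    rw [mem_filter] at hs'
    obtain ⟨-, -, -, h3, h4, h5⟩ := hs'
    have key := layD_one (lay_prime (z := z) (R := R)) z X lay_gt h m hij Ω hΩ d hd σ τ h3 h4 h5
      (hq (σ, τ) hs) E hE
    rw [← hΘ] at key
    rw [kmat_q2 lay_prime m σ τ h3 h4 h5, sq]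
    exact mul_le_mul (mul_le_mul (hM σ) (hM τ) (abs_nonneg _) hM0) key (abs_nonneg _) (by positivity)
  · rw [if_neg hs]
    refine le_of_eq ?_
    by_cases hσ : L σ = 0
    · rw [hσ, abs_zero, zero_mul, zero_mul]
    by_cases hτ : L τ = 0
    · rw [hτ, abs_zero, mul_zero, zero_mul]
    have hz2 : ∑ x ∈ ((Ioc X (2 * X)).filter (fun x => ∀ p ∈ d, x % p ∈ Ω p)).filter
          (fun x => Fit h x σ ∧ Fit h x τ), BV.th (x + h m) = 0 ∧
        ∏ p : {p : ℕ // p ∈ PP z R}, Kmat (q2 m p) (σ p) (τ p) = 0 := by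
      by_cases hc : ∀ p i j, σ p = some i → τ p = some j → i = j
      · have hm' : ∃ p, σ p = some m ∨ τ p = some m := by
          by_contra hcon
          push Not at hcon
          refine hs ?_
          unfold GP
          rw [mem_filter]
          exact ⟨mem_univ _, hσ, hτ, hc, fun p => (hcon p).1, fun p => (hcon p).2⟩
        obtain ⟨p, hp⟩ := hm'
        refine ⟨sum_eq_zero fun x hx => ?_, kmat_q2_zero m σ τ p hp⟩
        rw [mem_filter, mem_filter, mem_Ioc] at hx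
        refine lay2_th0 fun hpr => ?_
        have hdvd : (p : ℕ) ∣ x + h m := by
          rcases hp with hp | hp
          · exact hx.2.1 p m hp
          · exact hx.2.2 p m hp
        have hp1 := lay_prime (p : ℕ) p.2
        have h6 := (Nat.prime_dvd_prime_iff_eq hp1 hpr).1 hdvd
        have h7 : (p : ℕ) < R + 1 := mem_range.1 (mem_filter.1 p.2).1
        omega
      · push Not at hc
        obtain ⟨p, i, j, h1, h2, h3⟩ := hc
        refine ⟨?_, kmat_conf _ σ τ p i j h1 h2 h3⟩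
        have h5 : ((Ioc X (2 * X)).filter (fun x => ∀ p ∈ d, x % p ∈ Ω p)).filter
            (fun x => Fit h x σ ∧ Fit h x τ) = ∅ :=
          filter_eq_empty_iff.2 fun x _ => not_fit h x σ τ p i j h1 h2 (hij p p.2 i j h3)
        rw [h5, sum_empty]
    rw [hz2.1, hz2.2, mul_zero, sub_zero, abs_zero, mul_zero]

end

theorem layer2 (ι : Type) [Fintype ι] [DecidableEq ι] (K B A : ℕ) : ∃ X₀ : ℕ,
    ∀ X z R : ℕ, X₀ ≤ X → (z : ℝ) ≤ (Real.log X) ^ B → (R : ℝ) ≤ (X : ℝ) ^ (1 / 5 : ℝ) →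
    ∀ Ω : ℕ → Finset ℕ, (∀ p, (Ω p).card ≤ K) → (∀ p ∈ PP 0 z, ∀ c ∈ Ω p, c < p) →
    ∀ h : ι → ℕ, (∀ i, (h i : ℝ) ≤ (X : ℝ) ^ (1 / 2 : ℝ)) → ∀ m : ι,
    (∀ p ∈ PP z R, ∀ i j, i ≠ j → ¬ h i ≡ h j [MOD p]) → ∀ L : Col (PP z R) ι → ℝ,
    (∀ σ, |L σ| ≤ ∏ p : {p : ℕ // p ∈ PP z R}, (1 + (Fintype.card ι : ℝ) / ((p : ℕ) : ℝ))) →
    (∀ σ, L σ ≠ 0 → tot σ ≤ R) →
    |∑ x ∈ Pre Ω z X, BV.th (x + h m) * (FF h L x) ^ 2 -
        (∑ n ∈ Ioc (X + h m) (2 * X + h m), BV.th n) * V2 Ω (h m) z * Qf (q2 m) L| ≤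
      X / (Real.log X) ^ A := by
  classical
  set k := Fintype.card ι with hk
  obtain ⟨c0, hc0, X1, h1⟩ := layB_param K B (1 / 20) (by norm_num)
  obtain ⟨C, hC, hprod⟩ := layA_prod k
  obtain ⟨C6, hC6, hprod6⟩ := layA_prod (6 * k)
  obtain ⟨X2, h2⟩ := layA_FF ι (c0 / 8) (by positivity)
  obtain ⟨X3, h3⟩ := layF_bv (A + 2 * k + 2) (K + (k + 1) ^ 2)
  obtain ⟨X4, h4⟩ := Pool.Agent.Lib.MP_092512_nt.P3.B.ev_pow 24 (c0 / 2) (by positivity) (A + 1)
  obtain ⟨X5, h5⟩ := Pool.Agent.Lib.MP_092512_nt.P3.B.ev_pow (12 * (C ^ (2 * k) * C6 ^ (6 * k))) c0 hc0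
    (A + 1 + 8 * k)
  obtain ⟨X6, h6⟩ : ∃ X6 : ℕ, ∀ X : ℕ, X6 ≤ X → max 1 (3 * C ^ (2 * k)) ≤ Real.log X :=
    Filter.eventually_atTop.1 ((Real.tendsto_log_atTop.comp tendsto_natCast_atTop_atTop).eventually_ge_atTop _)
  refine ⟨X1 + X2 + X3 + X4 + X5 + X6 + 3, fun X z R hX hz hR Ω hK hΩ h hh m hij L hL hLR => ?_⟩
  have hX3 : 3 ≤ X := by omega
  have hX1 : (1 : ℝ) ≤ X := by
    have : 1 ≤ X := by omega
    exact_mod_cast this
  have hX0 : (0 : ℝ) < X := by linarith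
  have hlog1 : 1 ≤ Real.log X := le_trans (le_max_left _ _) (h6 X (by omega))
  have hlogC : 3 * C ^ (2 * k) ≤ Real.log X := le_trans (le_max_right _ _) (h6 X (by omega))
  have hpw : ∀ t : ℝ, t ≤ 1 → (X : ℝ) ^ t ≤ X := fun t ht => by
    calc (X : ℝ) ^ t ≤ (X : ℝ) ^ (1 : ℝ) := Real.rpow_le_rpow_of_exponent_le hX1 ht
      _ = X := Real.rpow_one _
  have hRX : R ≤ X := by exact_mod_cast hR.trans (hpw _ (by norm_num))
  have hhX : ∀ i, h i ≤ X := fun i => by exact_mod_cast (hh i).trans (hpw _ (by norm_num))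
  obtain ⟨mm, hm⟩ := h1 X z (by omega) hz
  have hzm : (((z : ℝ) + 1) ^ mm) ≤ (X : ℝ) ^ (1 / 20 : ℝ) ∧ (z : ℝ) ≤ (X : ℝ) ^ (1 / 20 : ℝ) := by
    have hz0 : (0 : ℝ) ≤ (z : ℝ) := Nat.cast_nonneg z
    have hK0 : (0 : ℝ) ≤ (K : ℝ) := Nat.cast_nonneg K
    have hb1 : (1 : ℝ) ≤ ((K : ℝ) + 2) * (z + 1) := by nlinarith
    have hb2 : (z : ℝ) ≤ ((K : ℝ) + 2) * (z + 1) := by nlinarith
    have hb4 : (z : ℝ) + 1 ≤ ((K : ℝ) + 2) * (z + 1) := by nlinarith
    have hb3 := hm.2.1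
    constructor
    · refine le_trans ?_ hb3
      exact (pow_le_pow_left₀ (by linarith) hb4 mm).trans (pow_le_pow_right₀ hb1 (by omega))
    · refine le_trans (hb2.trans ?_) hb3
      calc ((K : ℝ) + 2) * (z + 1) = (((K : ℝ) + 2) * (z + 1)) ^ 1 := (pow_one _).symm
        _ ≤ (((K : ℝ) + 2) * (z + 1)) ^ (mm + 1) := pow_le_pow_right₀ hb1 (by omega)
  have hzX : z ≤ X := by exact_mod_cast hzm.2.trans (hpw _ (by norm_num))
  obtain ⟨M0, hM0⟩ : ∃ M0 : ℝ, M0 = ∏ p : {p : ℕ // p ∈ PP z R}, (1 + (k : ℝ) / ((p : ℕ) : ℝ)) :=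
    ⟨_, rfl⟩
  have hL' : ∀ σ, |L σ| ≤ M0 := by
    rw [hM0]
    exact hL
  have hM00 : 0 ≤ M0 := (abs_nonneg _).trans (hL' fun _ => none)
  have hM0C : M0 ≤ (C * Real.log X) ^ k := by
    rw [hM0]
    exact hprod X z R hX3 hRX
  rw [lay2_pre Ω (h m) z X hzX (fun x => (FF h L x) ^ 2)]
  have hK' := lay2_Oa_card hK (h m)
  have hΩ' := lay2_Oa_lt hΩ (h m)
  -- truncation
  have hthb : ∀ x ∈ Ioc X (2 * X), |BV.th (x + h m)| ≤ 2 * (1 + Real.log X) := by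
    intro x hx
    rw [mem_Ioc] at hx
    have hxr : (0 : ℝ) < ((x + h m : ℕ) : ℝ) := by
      have : 0 < x + h m := by omega
      exact_mod_cast this
    have h7 : Real.log ((x + h m : ℕ) : ℝ) ≤ Real.log (3 * X) := by
      refine Real.log_le_log hxr ?_
      have := hhX m
      have h8 : x + h m ≤ 3 * X := by omega
      exact_mod_cast h8
    have h8 : Real.log (3 * X) ≤ 2 * (1 + Real.log X) := by
      rw [Real.log_mul (by norm_num) hX0.ne']
      have h9 : Real.log 3 ≤ 2 := by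
        have := Real.log_le_sub_one_of_pos (show (0 : ℝ) < 3 by norm_num)
        linarith
      linarith
    unfold BV.th
    split_ifs
    · rw [abs_of_nonneg (Real.log_natCast_nonneg _)]
      exact h7.trans h8
    · rw [abs_zero]
      linarith
  have hw : ∀ x ∈ Ioc X (2 * X), |BV.th (x + h m) * (FF h L x) ^ 2| ≤
      2 * (1 + Real.log X) * (X : ℝ) ^ (c0 / 4) := by
    intro x hx
    have h7 := h2 X z R (by omega) hRX h hhX L hL x hx
    rw [abs_mul, abs_pow]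
    refine mul_le_mul (hthb x hx) ?_ (by positivity) (by linarith)
    calc |FF h L x| ^ 2 ≤ ((X : ℝ) ^ (c0 / 8)) ^ 2 := pow_le_pow_left₀ (abs_nonneg _) h7 2
      _ = (X : ℝ) ^ (c0 / 4) := by
          rw [← Real.rpow_natCast, ← Real.rpow_mul hX0.le]
          congr 1
          push_cast
          ring
  have t1 := layB_trunc (by omega) (by norm_num) hm (Oa Ω (h m)) hK' (fun p hp c hc => (hΩ' p hp c hc).1)
    (fun x => BV.th (x + h m) * (FF h L x) ^ 2) (2 * (1 + Real.log X) * (X : ℝ) ^ (c0 / 4))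
    (by positivity) hw
  -- fixed d
  obtain ⟨E, hE0, hE1, hE2⟩ := h3 X (by omega) (h m) (hhX m)
  obtain ⟨Q, hQ⟩ : ∃ Q : ℕ, Q = ⌊(X : ℝ) ^ (9 / 20 : ℝ)⌋₊ := ⟨_, rfl⟩
  have hQr : (Q : ℝ) ≤ (X : ℝ) ^ (9 / 20 : ℝ) := by
    rw [hQ]
    exact Nat.floor_le (by positivity)
  have hqQ : ∀ d ⊆ PP 0 z, d.card ≤ mm → ∀ s ∈ GP L m, (∏ p ∈ d, p) * mod2 s.1 s.2 ≤ Q := by
    intro d hd hdm s hs
    unfold GP at hs
    rw [mem_filter] at hs
    have h7 := mod2_le lay_prime s.1 s.2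
    have h8 := hLR s.1 hs.2.1
    have h9 := hLR s.2 hs.2.2.1
    rw [hQ]
    refine Nat.le_floor ?_
    have hprodd : (∏ p ∈ d, p) ≤ (z + 1) ^ mm := by
      calc ∏ p ∈ d, p ≤ ∏ _p ∈ d, (z + 1) := prod_le_prod' fun p hp => by
            have h10 := mem_range.1 (mem_filter.1 (hd hp)).1
            omega
        _ = (z + 1) ^ d.card := by rw [prod_const]
        _ ≤ (z + 1) ^ mm := Nat.pow_le_pow_right (by omega) hdm
    have h10 : (((∏ p ∈ d, p) * mod2 s.1 s.2 : ℕ) : ℝ) ≤ ((z : ℝ) + 1) ^ mm * ((R : ℝ) * R) := by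
      have h11 : (∏ p ∈ d, p) * mod2 s.1 s.2 ≤ (z + 1) ^ mm * (R * R) :=
        Nat.mul_le_mul hprodd (h7.trans (Nat.mul_le_mul h8 h9))
      exact_mod_cast h11
    refine h10.trans ?_
    calc ((z : ℝ) + 1) ^ mm * ((R : ℝ) * R) ≤
        (X : ℝ) ^ (1 / 20 : ℝ) * ((X : ℝ) ^ (1 / 5 : ℝ) * (X : ℝ) ^ (1 / 5 : ℝ)) := by
          have hR0 : (0 : ℝ) ≤ (R : ℝ) := Nat.cast_nonneg R
          exact mul_le_mul hzm.1 (mul_le_mul hR hR hR0 (by positivity)) (by positivity) (by positivity)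
      _ = (X : ℝ) ^ (9 / 20 : ℝ) := by
          rw [← Real.rpow_add hX0, ← Real.rpow_add hX0]
          norm_num
  have hQX : Q ≤ X := by exact_mod_cast hQr.trans (hpw _ (by norm_num))
  obtain ⟨Θ, hΘ⟩ : ∃ Θ : ℝ, Θ = ∑ n ∈ Ioc (X + h m) (2 * X + h m), BV.th n := ⟨_, rfl⟩
  have t2 := lay_sumd (D := (PP 0 z).powerset.filter (fun d => d.card ≤ mm))
    (fun d => ∑ x ∈ (Ioc X (2 * X)).filter (fun x => ∀ p ∈ d, x % p ∈ Oa Ω (h m) p),
      BV.th (x + h m) * (FF h L x) ^ 2)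
    (fun d => ∏ p ∈ d, ((Oa Ω (h m) p).card : ℝ) / ((p : ℝ) - 1))
    (fun d => M0 ^ 2 * ∑ s ∈ GP L m, (∏ p ∈ d, ((Oa Ω (h m) p).card : ℝ)) *
      E ((∏ p ∈ d, p) * mod2 s.1 s.2)) (Θ * Qf (q2 m) L)
    (fun d hd => by
      have hdz := mem_powerset.1 (mem_filter.1 hd).1
      have h7 := lay2_fix z X R hRX h m hij (Oa Ω (h m)) hΩ' L M0 hL' d hdz
        (fun s hs => (hqQ d hdz (mem_filter.1 hd).2 s hs).trans hQX) E hE1
      rw [← hΘ] at h7
      exact h7)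
  have t2' : ∑ d ∈ (PP 0 z).powerset.filter (fun d => d.card ≤ mm),
      M0 ^ 2 * ∑ s ∈ GP L m, (∏ p ∈ d, ((Oa Ω (h m) p).card : ℝ)) *
        E ((∏ p ∈ d, p) * mod2 s.1 s.2) ≤ M0 ^ 2 * (X / (Real.log X) ^ (A + 2 * k + 2)) := by
    rw [← mul_sum]
    refine mul_le_mul_of_nonneg_left ?_ (by positivity)
    refine le_trans ?_ (hE2 Q hQr)
    refine le_trans ?_ (layE_fibre lay_prime z mm K Q lay_gt (GP L m) hqQ E hE0)
    refine sum_le_sum fun d _ => sum_le_sum fun s _ => ?_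
    refine mul_le_mul_of_nonneg_right ?_ (hE0 _)
    rw [← prod_const]
    exact prod_le_prod (fun p _ => Nat.cast_nonneg _) fun p _ => by exact_mod_cast hK' p
  have t3 := (layB_V hm (Oa Ω (h m)) hK').2
  have hVeq : V2 Ω (h m) z = ∏ p ∈ PP 0 z, (1 - ((Oa Ω (h m) p).card : ℝ) / ((p : ℝ) - 1)) := rfl
  rw [← hVeq] at t3
  have t5 : ∀ a b c : ℝ, a * b * c = a * c * b := fun a b c => by ring
  rw [t5 Θ (Qf (q2 m) L)] at t2
  have hth0 : ∀ n, 0 ≤ BV.th n := fun n => by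
    unfold BV.th
    split_ifs
    · exact Real.log_natCast_nonneg n
    · exact le_refl 0
  have hΘ0 : 0 ≤ Θ := by
    rw [hΘ]
    exact sum_nonneg fun n _ => hth0 n
  have hΘX : Θ ≤ 2 * (1 + Real.log X) * X := by
    have e : Θ = ∑ x ∈ Ioc X (2 * X), BV.th (x + h m) := by
      rw [hΘ]
      refine (sum_bij (fun x _ => x + h m) ?_ ?_ ?_ ?_).symm
      · intro x hx
        rw [mem_Ioc] at hx ⊢
        omega
      · intro x _ y _ hxy
        exact Nat.add_right_cancel hxy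
      · intro n hn
        rw [mem_Ioc] at hn
        exact ⟨n - h m, by rw [mem_Ioc]; omega, Nat.sub_add_cancel (by omega)⟩
      · intro x _
        rfl
    rw [e]
    calc ∑ x ∈ Ioc X (2 * X), BV.th (x + h m) ≤ ∑ _x ∈ Ioc X (2 * X), 2 * (1 + Real.log X) :=
          sum_le_sum fun x hx => (le_abs_self _).trans (hthb x hx)
      _ = 2 * (1 + Real.log X) * X := by
          rw [sum_const, Nat.card_Ioc, nsmul_eq_mul]
          have e2 : 2 * X - X = X := by omega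
          rw [e2]
          ring
  have hQf := layA_Qf (q2 (P := PP z R) m) (fun p i => by
    unfold q2
    split_ifs
    · exact le_refl 0
    · have h7 : (1 : ℝ) ≤ ((p : ℕ) : ℝ) := by exact_mod_cast (lay_prime (p : ℕ) p.2).one_le
      exact div_nonneg zero_le_one (by linarith)) L M0 hL'
  have hq2 : ∀ p : {p : ℕ // p ∈ PP z R}, 0 ≤ ∑ i, q2 m p i ∧
      ∑ i, q2 m p i ≤ 2 * (k : ℝ) / ((p : ℕ) : ℝ) := by
    intro p
    have hp2 : (2 : ℝ) ≤ ((p : ℕ) : ℝ) := by exact_mod_cast (lay_prime (p : ℕ) p.2).two_le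
    have h7 : ∀ i : ι, 0 ≤ q2 m p i ∧ q2 m p i ≤ 2 / ((p : ℕ) : ℝ) := by
      intro i
      unfold q2
      split_ifs
      · exact ⟨le_refl 0, by positivity⟩
      · refine ⟨div_nonneg zero_le_one (by linarith), ?_⟩
        rw [div_le_div_iff₀ (by linarith) (by linarith)]
        linarith
    refine ⟨sum_nonneg fun i _ => (h7 i).1, (sum_le_sum fun i _ => (h7 i).2).trans (le_of_eq ?_)⟩
    rw [sum_const, card_univ, nsmul_eq_mul]
    ring
  have hp6 : ∏ p : {p : ℕ // p ∈ PP z R}, (1 + 3 * ∑ i, q2 m p i) ≤ (C6 * Real.log X) ^ (6 * k) := by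
    refine le_trans (prod_le_prod (fun p _ => ?_) fun p _ => ?_) (hprod6 X z R hX3 hRX)
    · linarith [(hq2 p).1]
    · have h7 := (hq2 p).2
      push_cast
      have h8 : 6 * (k : ℝ) / ((p : ℕ) : ℝ) = 3 * (2 * (k : ℝ) / ((p : ℕ) : ℝ)) := by ring
      rw [h8]
      linarith
  have hL0 : 0 ≤ Real.log X := by linarith
  have hQf' : |Qf (q2 m) L| ≤ ((C * Real.log X) ^ k) ^ 2 * (C6 * Real.log X) ^ (6 * k) := by
    refine hQf.trans (mul_le_mul (pow_le_pow_left₀ hM00 hM0C 2) hp6 ?_ (by positivity))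
    exact prod_nonneg fun p _ => by linarith [(hq2 p).1]
  rw [← hΘ]
  refine (lay_tri t1 (t2.trans t2') t3 hΘ0).trans ?_
  -- numbers
  have hLA : 0 < Real.log X ^ A := by positivity
  have n1 : 2 * (2 * (1 + Real.log X) * (X : ℝ) ^ (c0 / 4)) * X * (X : ℝ) ^ (-c0) ≤
      X / (3 * (Real.log X) ^ A) := by
    rw [le_div_iff₀ (by positivity)]
    have h7 := h4 X (by omega)
    have h8 : (Real.log X) ^ A ≤ (1 + Real.log X) ^ A := pow_le_pow_left₀ hL0 (by linarith) A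
    have h9 : 2 * (2 * (1 + Real.log X) * (X : ℝ) ^ (c0 / 4)) * X * (X : ℝ) ^ (-c0) *
        (3 * (Real.log X) ^ A) ≤ (12 * (1 + Real.log X) ^ (A + 1)) * (X : ℝ) ^ (c0 / 4 + 1 + -c0) := by
      rw [Real.rpow_add hX0, Real.rpow_add hX0, Real.rpow_one, pow_succ]
      have h10 : 0 ≤ (X : ℝ) ^ (c0 / 4) * X * (X : ℝ) ^ (-c0) * (1 + Real.log X) := by positivity
      nlinarith [mul_le_mul_of_nonneg_left h8 h10]
    refine h9.trans ?_
    have h10 : 12 * (1 + Real.log X) ^ (A + 1) ≤ (X : ℝ) ^ (c0 / 2) := by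
      refine le_trans ?_ h7
      have : 0 ≤ (1 + Real.log X) ^ (A + 1) := by positivity
      linarith
    calc 12 * (1 + Real.log X) ^ (A + 1) * (X : ℝ) ^ (c0 / 4 + 1 + -c0)
        ≤ (X : ℝ) ^ (c0 / 2) * (X : ℝ) ^ (c0 / 4 + 1 + -c0) :=
          mul_le_mul_of_nonneg_right h10 (by positivity)
      _ = (X : ℝ) ^ (c0 / 2 + (c0 / 4 + 1 + -c0)) := by rw [← Real.rpow_add hX0]
      _ ≤ X := hpw _ (by linarith)
  have n2 : M0 ^ 2 * (X / (Real.log X) ^ (A + 2 * k + 2)) ≤ X / (3 * (Real.log X) ^ A) := by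
    have h7 : M0 ^ 2 ≤ C ^ (2 * k) * (Real.log X) ^ (2 * k) := by
      refine (pow_le_pow_left₀ hM00 hM0C 2).trans (le_of_eq ?_)
      rw [← pow_mul, mul_pow, mul_comm k 2]
    rw [mul_div_assoc', div_le_div_iff₀ (by positivity) (by positivity)]
    have h8 : C ^ (2 * k) * 3 ≤ (Real.log X) ^ 2 := by nlinarith
    calc M0 ^ 2 * X * (3 * (Real.log X) ^ A)
        ≤ C ^ (2 * k) * (Real.log X) ^ (2 * k) * X * (3 * (Real.log X) ^ A) := by gcongr
      _ = (C ^ (2 * k) * 3) * (X * (Real.log X) ^ (A + 2 * k)) := by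
          rw [pow_add]
          ring
      _ ≤ (Real.log X) ^ 2 * (X * (Real.log X) ^ (A + 2 * k)) :=
          mul_le_mul_of_nonneg_right h8 (by positivity)
      _ = X * (Real.log X) ^ (A + 2 * k + 2) := by
          rw [pow_add _ (A + 2 * k) 2]
          ring
  have n3 : Θ * (X : ℝ) ^ (-c0) * |Qf (q2 m) L| ≤ X / (3 * (Real.log X) ^ A) := by
    rw [le_div_iff₀ (by positivity)]
    have h7 := h5 X (by omega)
    have hC0 : (0 : ℝ) ≤ C ^ (2 * k) * C6 ^ (6 * k) := by positivity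
    have h8 : ((C * Real.log X) ^ k) ^ 2 * (C6 * Real.log X) ^ (6 * k) * (Real.log X) ^ A ≤
        C ^ (2 * k) * C6 ^ (6 * k) * (1 + Real.log X) ^ (A + 8 * k) := by
      have e : ((C * Real.log X) ^ k) ^ 2 * (C6 * Real.log X) ^ (6 * k) * (Real.log X) ^ A =
          C ^ (2 * k) * C6 ^ (6 * k) * (Real.log X) ^ (A + 8 * k) := by
        have e1 : A + 8 * k = A + (2 * k + 6 * k) := by ring
        rw [← pow_mul, mul_pow, mul_pow, mul_comm k 2, e1, pow_add, pow_add]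
        ring
      rw [e]
      exact mul_le_mul_of_nonneg_left (pow_le_pow_left₀ hL0 (by linarith) _) hC0
    calc Θ * (X : ℝ) ^ (-c0) * |Qf (q2 m) L| * (3 * (Real.log X) ^ A)
        ≤ (2 * (1 + Real.log X) * X) * (X : ℝ) ^ (-c0) *
            (((C * Real.log X) ^ k) ^ 2 * (C6 * Real.log X) ^ (6 * k)) * (3 * (Real.log X) ^ A) := by
          gcongr
      _ = 6 * (1 + Real.log X) * (X * (X : ℝ) ^ (-c0)) *
            (((C * Real.log X) ^ k) ^ 2 * (C6 * Real.log X) ^ (6 * k) * (Real.log X) ^ A) := by ring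
      _ ≤ 6 * (1 + Real.log X) * (X * (X : ℝ) ^ (-c0)) *
            (C ^ (2 * k) * C6 ^ (6 * k) * (1 + Real.log X) ^ (A + 8 * k)) :=
          mul_le_mul_of_nonneg_left h8 (by positivity)
      _ = (6 * (C ^ (2 * k) * C6 ^ (6 * k)) * (1 + Real.log X) ^ (A + 1 + 8 * k)) *
            (X * (X : ℝ) ^ (-c0)) := by
          have e1 : A + 1 + 8 * k = A + 8 * k + 1 := by ring
          rw [e1, pow_succ]
          ring
      _ ≤ (X : ℝ) ^ c0 * (X * (X : ℝ) ^ (-c0)) := by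
          refine mul_le_mul_of_nonneg_right (le_trans ?_ h7) (by positivity)
          gcongr
          norm_num
      _ = X := by
          rw [mul_left_comm, ← Real.rpow_add hX0, add_neg_cancel, Real.rpow_zero, mul_one]
  have n4 : X / (3 * (Real.log X) ^ A) + X / (3 * (Real.log X) ^ A) + X / (3 * (Real.log X) ^ A) =
      X / (Real.log X) ^ A := by
    field_simp
    ring
  linarith

end Pool.Agent.Lib.MT
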