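import Pool.Agent.Lib.MT.Defs
import Pool.Agent.Lib.MP_092512_nt.P3.B9
import Pool.Agent.Lib.MP_092512_nt.P3.B2
import Pool.Agent.Lib.MP_092512_nt.P3.B3

/-!
# MT-LayB: truncation parameters for any `z ≤ (log X)^B`

PROOF. `PP_pz`: membership (`PP 0 z` is a filter of `range (z+1)`, `pz z` of `Icc 1 z`).  `layB_param`: `P3.B.param K B ε`;
`z ≤ zB B X = ⌊(log X)^B⌋₊` (`Nat.le_floor`), everything is monotone in `z` (`log 0 = 0`).
`layB_trunc`: `stepA` (module P3/B3) for `P = PP 0 z`, with `∏_{p ∈ d} p ≤ z^(m+1) ≤ ((K+2)(z+1))^(m+1) ≤ X^ε ≤ X`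
(`ε ≤ 1`), `G = 2K(1 + log z)` (`B2_card` in P3/B2), giving `2 M X X^(-c)`.
`layB_V`: `trunc_prod` (P3/B2).  `layB_low`: `sum_low` (P3/B2; `z = 0`: `PP 0 0 = ∅`, the sum is 1).
-/

set_option autoImplicit false

open Finset Pool.Agent.Lib.SW Pool.Agent.Lib.MP_092512_nt.P3.B

namespace Pool.Agent.Lib.MT

theorem PP_pz (z : ℕ) : PP 0 z = pz z := by
  ext p
  rw [mem_pz]
  unfold PP
  rw [mem_filter, mem_range]
  constructor
  · rintro ⟨h1, h2, _⟩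
    exact ⟨h2, Nat.lt_succ_iff.mp h1⟩
  · rintro ⟨h1, h2⟩
    exact ⟨Nat.lt_succ_of_le h2, h1, h1.pos⟩

/-- the truncation parameter `m` for given `X`, `z`, `K` -/
def Tr (K : ℕ) (ε c : ℝ) (X z m : ℕ) : Prop :=
  Even m ∧ (((K : ℝ) + 2) * (z + 1)) ^ (m + 1) ≤ (X : ℝ) ^ ε ∧
    ∃ T : ℝ, 1 ≤ T ∧ Real.exp (T * (2 * K * (1 + Real.log z))) / T ^ (m + 1) ≤ (X : ℝ) ^ (-c)

private theorem layB_prime (z : ℕ) : ∀ p ∈ PP 0 z, p.Prime := by
  intro p hp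
  unfold PP at hp
  exact (mem_filter.mp hp).2.1

private theorem layB_logmono (z y : ℕ) (h : z ≤ y) : Real.log z ≤ Real.log y := by
  rcases Nat.eq_zero_or_pos z with h0 | h0
  · rw [h0, Nat.cast_zero, Real.log_zero]
    exact Real.log_natCast_nonneg y
  · exact Real.log_le_log (by exact_mod_cast h0) (by exact_mod_cast h)

theorem layB_param (K B : ℕ) (ε : ℝ) (hε : 0 < ε) : ∃ c : ℝ, 0 < c ∧ ∃ X₀ : ℕ, ∀ X z : ℕ, X₀ ≤ X →
    (z : ℝ) ≤ (Real.log X) ^ B → ∃ m : ℕ, Tr K ε c X z m := by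
  obtain ⟨c, hc, x₀, h⟩ := param K B ε hε
  refine ⟨c, hc, x₀, fun X z hX hz => ?_⟩
  obtain ⟨m, hm, h1, T, hT, h2⟩ := h X hX
  have hzz : z ≤ zB B X := by
    unfold zB
    exact Nat.le_floor hz
  have hzr : (z : ℝ) ≤ (zB B X : ℝ) := by exact_mod_cast hzz
  have hK0 : (0 : ℝ) ≤ (K : ℝ) := Nat.cast_nonneg K
  have hz0 : (0 : ℝ) ≤ (z : ℝ) := Nat.cast_nonneg z
  have hT0 : (0 : ℝ) < T := by linarith
  refine ⟨m, hm, le_trans (pow_le_pow_left₀ (by positivity) ?_ _) h1, T, hT, le_trans ?_ h2⟩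
  · exact mul_le_mul_of_nonneg_left (by linarith) (by positivity)
  · refine div_le_div_of_nonneg_right (Real.exp_le_exp.mpr ?_) (by positivity)
    refine mul_le_mul_of_nonneg_left (mul_le_mul_of_nonneg_left ?_ (by positivity)) hT0.le
    have := layB_logmono z (zB B X) hzz
    linarith

theorem layB_trunc {K : ℕ} {ε c : ℝ} {X z m : ℕ} (hX : 1 ≤ X) (hε : ε ≤ 1) (hT : Tr K ε c X z m)
    (Ω : ℕ → Finset ℕ) (hK : ∀ p, (Ω p).card ≤ K) (hΩ : ∀ p ∈ PP 0 z, ∀ c ∈ Ω p, c < p)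
    (w : ℕ → ℝ) (M : ℝ) (hM : 0 ≤ M) (hw : ∀ n ∈ Ioc X (2 * X), |w n| ≤ M) :
    |∑ x ∈ Pre Ω z X, w x -
        ∑ d ∈ (PP 0 z).powerset with d.card ≤ m, ((-1 : ℝ) ^ d.card *
          ∑ x ∈ (Ioc X (2 * X)).filter (fun x => ∀ p ∈ d, x % p ∈ Ω p), w x)| ≤
      2 * M * X * (X : ℝ) ^ (-c) := by
  obtain ⟨hm, h1, T, hT1, h2⟩ := hT
  have hXr : (1 : ℝ) ≤ (X : ℝ) := by exact_mod_cast hX
  have hprod : ∀ d ⊆ PP 0 z, d.card = m + 1 → ∏ p ∈ d, p ≤ X := by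
    intro d hd hcard
    have e1 : ∏ p ∈ d, p ≤ z ^ (m + 1) := by
      rw [← hcard]
      refine prod_le_pow_card _ _ _ (fun p hp => ?_)
      have := hd hp
      unfold PP at this
      rw [mem_filter, mem_range] at this
      exact Nat.lt_succ_iff.mp this.1
    have e2 : ((∏ p ∈ d, p : ℕ) : ℝ) ≤ (z : ℝ) ^ (m + 1) := by exact_mod_cast e1
    have hK0 : (0 : ℝ) ≤ (K : ℝ) := Nat.cast_nonneg K
    have hz0 : (0 : ℝ) ≤ (z : ℝ) := Nat.cast_nonneg z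
    have e3 : (z : ℝ) ^ (m + 1) ≤ (((K : ℝ) + 2) * (z + 1)) ^ (m + 1) := by
      refine pow_le_pow_left₀ hz0 ?_ _
      nlinarith
    have e4 : (X : ℝ) ^ ε ≤ (X : ℝ) := by
      calc (X : ℝ) ^ ε ≤ (X : ℝ) ^ (1 : ℝ) := Real.rpow_le_rpow_of_exponent_le hXr hε
        _ = X := Real.rpow_one _
    have e5 : ((∏ p ∈ d, p : ℕ) : ℝ) ≤ (X : ℝ) := le_trans e2 (le_trans e3 (le_trans h1 e4))
    exact_mod_cast e5
  have hG : ∑ p ∈ PP 0 z, ((Ω p).card : ℝ) / p ≤ 2 * K * (1 + Real.log z) := by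
    rw [PP_pz]
    exact (B2_card K z (fun p => (Ω p).card) hK).2
  have h3 := stepA (PP 0 z) (layB_prime z) Ω hΩ X m hm hprod w M hM hw _ T hG hT1
  unfold Pre
  refine le_trans h3 ?_
  exact mul_le_mul_of_nonneg_left h2 (by positivity)

theorem layB_V {K : ℕ} {ε c : ℝ} {X z m : ℕ} (hT : Tr K ε c X z m)
    (Ω : ℕ → Finset ℕ) (hK : ∀ p, (Ω p).card ≤ K) :
    |∑ d ∈ (PP 0 z).powerset with d.card ≤ m, ((-1 : ℝ) ^ d.card * ∏ p ∈ d, ((Ω p).card : ℝ) / p) -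
        V1 Ω z| ≤ (X : ℝ) ^ (-c) ∧
    |∑ d ∈ (PP 0 z).powerset with d.card ≤ m,
          ((-1 : ℝ) ^ d.card * ∏ p ∈ d, ((Ω p).card : ℝ) / ((p : ℝ) - 1)) -
        ∏ p ∈ PP 0 z, (1 - ((Ω p).card : ℝ) / ((p : ℝ) - 1))| ≤ (X : ℝ) ^ (-c) := by
  obtain ⟨hm, h1, T, hT1, h2⟩ := hT
  constructor
  · have hG : ∑ p ∈ PP 0 z, ((Ω p).card : ℝ) / p ≤ 2 * K * (1 + Real.log z) := by
      rw [PP_pz]
      exact (B2_card K z (fun p => (Ω p).card) hK).2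
    unfold V1
    exact le_trans (trunc_prod (PP 0 z) (fun p => ((Ω p).card : ℝ) / p)
      (fun p _ => by positivity) _ T hG hT1 m) h2
  · have hG : ∑ p ∈ PP 0 z, ((Ω p).card : ℝ) / ((p : ℝ) - 1) ≤ 2 * K * (1 + Real.log z) := by
      rw [PP_pz]
      exact (B2_card K z (fun p => (Ω p).card) hK).1
    exact le_trans (trunc_prod (PP 0 z) (fun p => ((Ω p).card : ℝ) / ((p : ℝ) - 1))
      (fun p hp => by
        have h3 : (2 : ℝ) ≤ p := by exact_mod_cast (layB_prime z p hp).two_le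
        exact div_nonneg (Nat.cast_nonneg _) (by linarith)) _ T hG hT1 m) h2

theorem layB_low {K : ℕ} {ε c : ℝ} {X z m : ℕ} (hX : 1 ≤ X) (hT : Tr K ε c X z m)
    (Ω : ℕ → Finset ℕ) (hK : ∀ p, (Ω p).card ≤ K) :
    ∑ d ∈ (PP 0 z).powerset with d.card ≤ m, ∏ p ∈ d, ((Ω p).card : ℝ) ≤ (X : ℝ) ^ ε := by
  have _ := hX
  obtain ⟨hm, h1, T, hT1, h2⟩ := hT
  refine le_trans ?_ h1
  have hK0 : (0 : ℝ) ≤ (K : ℝ) := Nat.cast_nonneg K
  rcases Nat.eq_zero_or_pos z with h0 | h0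
  · have e1 : PP 0 z = ∅ := by
      refine eq_empty_of_forall_notMem (fun p hp => ?_)
      have e2 := (layB_prime z p hp).two_le
      unfold PP at hp
      rw [mem_filter, mem_range] at hp
      omega
    rw [e1, powerset_empty, h0]
    have e2 : ({∅} : Finset (Finset ℕ)).filter (fun d => d.card ≤ m) = {∅} := by
      rw [filter_singleton, if_pos (by rw [card_empty]; exact Nat.zero_le _)]
    rw [e2, sum_singleton, prod_empty]
    refine one_le_pow₀ ?_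
    push_cast
    linarith
  · rw [PP_pz]
    exact sum_low K z m h0 (fun p => ((Ω p).card : ℝ))
      (fun p _ => ⟨Nat.cast_nonneg _, by exact_mod_cast hK p⟩)

end Pool.Agent.Lib.MT
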