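import Pool.Agent.Lib.MT.Runs
import Pool.Agent.Lib.SW.LG4
import Pool.Agent.Lib.SW.GL.GL1

/-!
# MT-Main: Goldbach with a condition on the index

PROOF. `runs m` gives C₁, H. K := A + C₁ + 6, `SW.log_power K` gives B₀; B := B₀ + 1, z := SW.zB B X = ⌊(log X)^B⌋. Let P = the primes p ≤ X with S (π p) (a Finset). For all but X/(log X)^K of the N ≤ X:
|actual P N - expected z P N| ≤ X/(log X)^K. Let N be even, N ≥ X/(log X)^(A+1), X₁ = N/8. `runs` at X₁ (z ≤ (log X₁)^(B+1)): at least X₁/(log X₁)^C₁ primes p ∈ (X₁, 2 X₁ + H], p < N/2, with S (π p) and N - p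
coprime to all primes ≤ z, so expected ≥ (their number) * 1/log X (1/(V z) ≥ 1, log(N - p) ≤ log X) ≥ X/(log X)^(A + C₁ + 3). So actual ≥ X/(log X)^(A + C₁ + 4) =: X/(log X)^C. Exceptional N: X/(log X)^K + X/(log X)^(A+1) + 1.
-/

set_option autoImplicit false

open Finset Filter

namespace Pool.Agent.Lib.MT

private theorem Main_ev (A B X₂ H : ℕ) (z₀ : ℕ) : ∃ X₀ : ℕ, ∀ X : ℕ, X₀ ≤ X →
    16 ≤ Real.log X ∧ (z₀ : ℝ) ≤ Real.log X ∧
      (∀ N : ℕ, X / (Real.log X) ^ (A + 1) ≤ (N : ℝ) → N ≤ X →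
        X₂ ≤ N / 8 ∧ H + 2 ≤ N / 8 ∧ (Real.log X) ^ B ≤ (Real.log ((N / 8 : ℕ) : ℝ)) ^ (B + 1) ∧
        0 < Real.log ((N / 8 : ℕ) : ℝ) ∧
        X / (Real.log X) ^ (A + 2) ≤ ((N / 8 : ℕ) : ℝ)) ∧
      1 ≤ X / (Real.log X) ^ (A + 2) := by
  have t1 : Tendsto (fun X : ℕ => Real.log (X : ℝ)) atTop atTop :=
    Real.tendsto_log_atTop.comp tendsto_natCast_atTop_atTop
  have hpow : ∀ (C : ℝ) (n : ℕ), ∀ᶠ X : ℕ in atTop, C * (Real.log X) ^ n ≤ (X : ℝ) ^ (1 / 2 : ℝ) := by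
    intro C n
    have h1 : ∀ᶠ x : ℝ in atTop, C * (Real.log x) ^ n ≤ x ^ (1 / 2 : ℝ) := by
      have h := isLittleO_log_rpow_rpow_atTop (n : ℝ) (show (0 : ℝ) < 1 / 2 by norm_num)
      have h2 := h.bound (show 0 < 1 / (|C| + 1) by positivity)
      filter_upwards [h2, eventually_ge_atTop 1] with x h3 h4
      have h5 : 0 ≤ Real.log x := Real.log_nonneg h4
      rw [Real.rpow_natCast, Real.norm_of_nonneg (by positivity),
        Real.norm_of_nonneg (by positivity)] at h3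
      have h6 : 0 ≤ (Real.log x) ^ n := by positivity
      calc C * (Real.log x) ^ n ≤ (|C| + 1) * (Real.log x) ^ n := by
            apply mul_le_mul_of_nonneg_right _ h6
            linarith [le_abs_self C]
        _ ≤ (|C| + 1) * (1 / (|C| + 1) * x ^ (1 / 2 : ℝ)) := by gcongr
        _ = x ^ (1 / 2 : ℝ) := by field_simp
    exact tendsto_natCast_atTop_atTop.eventually h1
  have e1 := t1.eventually_ge_atTop ((2 : ℝ) ^ (B + 2) * 16)
  have e2 := t1.eventually_ge_atTop (z₀ : ℝ)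
  have e3 := hpow 1 (A + 2)
  have e4 : ∀ᶠ X : ℕ in atTop, ((8 * (X₂ + H + 3) : ℕ) : ℝ) ≤ (X : ℝ) ^ (1 / 2 : ℝ) :=
    ((tendsto_rpow_atTop (show (0 : ℝ) < 1 / 2 by norm_num)).comp
      tendsto_natCast_atTop_atTop).eventually_ge_atTop _
  obtain ⟨X₀, hX₀⟩ := eventually_atTop.mp (e1.and (e2.and (e3.and e4)))
  refine ⟨max X₀ 1, fun X hX => ?_⟩
  obtain ⟨h1, h2, h3, h4⟩ := hX₀ X (le_trans (le_max_left _ _) hX)
  have hX1 : (1 : ℝ) ≤ X := by exact_mod_cast le_trans (le_max_right _ _) hX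
  have hX0 : (0 : ℝ) < X := by linarith
  obtain ⟨L, hL⟩ : ∃ L : ℝ, L = Real.log X := ⟨_, rfl⟩
  rw [← hL] at h1 h2 h3 ⊢
  have h2pow : (4 : ℝ) ≤ 2 ^ (B + 2) := by
    have : (1 : ℝ) ≤ 2 ^ B := one_le_pow₀ (by norm_num)
    rw [pow_add]
    linarith
  have hL16 : 16 ≤ L := by nlinarith
  have hL0 : 0 < L := by linarith
  have hsq : (X : ℝ) ^ (1 / 2 : ℝ) * (X : ℝ) ^ (1 / 2 : ℝ) = X := by
    rw [← Real.rpow_add hX0]
    norm_num
  have hs0 : 0 < (X : ℝ) ^ (1 / 2 : ℝ) := Real.rpow_pos_of_pos hX0 _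
  rw [one_mul] at h3
  have hbase : (X : ℝ) ^ (1 / 2 : ℝ) ≤ X / L ^ (A + 2) := by
    rw [le_div_iff₀ (by positivity)]
    calc (X : ℝ) ^ (1 / 2 : ℝ) * L ^ (A + 2) ≤ (X : ℝ) ^ (1 / 2 : ℝ) * (X : ℝ) ^ (1 / 2 : ℝ) := by
          gcongr
      _ = X := hsq
  have hle2 : X / L ^ (A + 2) * L = X / L ^ (A + 1) := by
    rw [pow_succ L (A + 1)]
    field_simp
  refine ⟨hL16, h2, fun N hN hNX => ?_, ?_⟩
  · have hNs : (X : ℝ) ^ (1 / 2 : ℝ) * 16 ≤ N := by
      rw [← hle2] at hN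
      have : (X : ℝ) ^ (1 / 2 : ℝ) * 16 ≤ X / L ^ (A + 2) * L := by gcongr
      linarith
    have hN8 : 8 * (X₂ + H + 3) ≤ N := by
      have : ((8 * (X₂ + H + 3) : ℕ) : ℝ) ≤ N := by linarith
      exact_mod_cast this
    have hdiv : X₂ + H + 3 ≤ N / 8 := by
      rw [Nat.le_div_iff_mul_le (by norm_num)]
      omega
    have hN16 : (N : ℝ) ≤ 16 * ((N / 8 : ℕ) : ℝ) := by
      have : N ≤ 16 * (N / 8) := by omega
      exact_mod_cast this
    have hMs : (X : ℝ) ^ (1 / 2 : ℝ) ≤ ((N / 8 : ℕ) : ℝ) := by linarith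
    have hlog : L / 2 ≤ Real.log ((N / 8 : ℕ) : ℝ) := by
      have := Real.log_le_log hs0 hMs
      rw [Real.log_rpow hX0, ← hL] at this
      linarith
    refine ⟨by omega, by omega, ?_, by linarith, ?_⟩
    · calc L ^ B = L ^ B * 1 := by ring
        _ ≤ L ^ B * (L / 2 ^ (B + 1)) := by
            have : 1 ≤ L / 2 ^ (B + 1) := by
              rw [le_div_iff₀ (by positivity)]
              have h9 : (2 : ℝ) ^ (B + 2) = 2 ^ (B + 1) * 2 := pow_succ _ _
              have h10 : (0 : ℝ) < 2 ^ (B + 1) := by positivity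
              nlinarith
            gcongr
        _ = (L / 2) ^ (B + 1) := by
            rw [div_pow, pow_succ L B]
            ring
        _ ≤ (Real.log ((N / 8 : ℕ) : ℝ)) ^ (B + 1) := by gcongr
    · rw [← hle2] at hN
      have h0 : 0 ≤ X / L ^ (A + 2) := by positivity
      nlinarith
  · refine le_trans ?_ hbase
    exact Real.one_le_rpow hX1 (by norm_num)

open Classical in
theorem goldbach_index (m : ℕ) (hm : 1 ≤ m) (A : ℕ) : ∃ C X₀ : ℕ, ∀ X : ℕ, X₀ ≤ X →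
    ∀ S : ℕ → Prop, (∀ n ≤ X, ∃ b, n < b ∧ b ≤ n + m ∧ S b) →
    (((Icc 1 X).filter (fun N => Even N ∧
      (((range N).filter (fun p => p.Prime ∧ S (Nat.primeCounting p) ∧ (N - p).Prime)).card : ℝ) <
        X / (Real.log X) ^ C)).card : ℝ) ≤ X / (Real.log X) ^ A := by
  obtain ⟨C₁, H, hruns⟩ := runs m hm
  obtain ⟨K, hK⟩ : ∃ K : ℕ, K = A + C₁ + 6 := ⟨_, rfl⟩
  obtain ⟨B₀, hlp⟩ := SW.log_power K
  obtain ⟨X₁, h1⟩ := hlp (B₀ + 1) (Nat.le_succ _)
  obtain ⟨z₀, X₂, h2⟩ := hruns (B₀ + 2)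
  obtain ⟨X₃, h3⟩ := Main_ev A (B₀ + 1) X₂ H (z₀ + 1)
  refine ⟨A + C₁ + 4, max X₁ X₃, fun X hX S hS => ?_⟩
  have hX1 := le_trans (le_max_left _ _) hX
  obtain ⟨hL16, hLz, hev, hone⟩ := h3 X (le_trans (le_max_right _ _) hX)
  obtain ⟨L, hL⟩ : ∃ L : ℝ, L = Real.log X := ⟨_, rfl⟩
  obtain ⟨z, hz⟩ : ∃ z : ℕ, z = SW.zB (B₀ + 1) X := ⟨_, rfl⟩
  obtain ⟨P, hP⟩ : ∃ P : Finset ℕ,
    P = (Icc 1 X).filter (fun p => p.Prime ∧ S (Nat.primeCounting p)) := ⟨_, rfl⟩
  have hmain := h1 X hX1 P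
  rw [← hz] at hmain
  have hzle : (z : ℝ) ≤ (Real.log X) ^ (B₀ + 1) := by
    rw [hz]
    unfold SW.zB
    exact Nat.floor_le (by positivity)
  have hz₀ : z₀ ≤ z := by
    rw [hz]
    unfold SW.zB
    apply Nat.le_floor
    have a1 : Real.log X ≤ (Real.log X) ^ (B₀ + 1) := by
      calc Real.log X = (Real.log X) ^ 1 := (pow_one _).symm
        _ ≤ (Real.log X) ^ (B₀ + 1) := pow_le_pow_right₀ (by linarith) (by omega)
    push_cast at hLz
    linarith
  rw [← hL] at hL16 hLz hev hone hmain hzle ⊢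
  have hL0 : 0 < L := by linarith
  have hX0 : (0 : ℝ) ≤ X := Nat.cast_nonneg X
  -- every even N which is large and not exceptional has many representations
  have key : ∀ N : ℕ, 1 ≤ N → N ≤ X → Even N → X / L ^ (A + 1) ≤ (N : ℝ) →
      ¬ (X / L ^ K < |(SW.actual P N : ℝ) - SW.expected z P N|) →
      X / L ^ (A + C₁ + 4) ≤
        (((range N).filter (fun p => p.Prime ∧ S (Nat.primeCounting p) ∧ (N - p).Prime)).card : ℝ) := by
    intro N hN1 hNX hNe hNl hex
    obtain ⟨g1, g2, g3, g4, g5⟩ := hev N hNl hNX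
    obtain ⟨M, hM⟩ : ∃ M : ℕ, M = N / 8 := ⟨_, rfl⟩
    rw [← hM] at g1 g2 g3 g4 g5
    have hM8 : 8 * M ≤ N := by
      rw [hM]
      exact Nat.mul_div_le N 8
    have hr := h2 M z N g1 hz₀ (hzle.trans g3) hNe S (fun n hn => hS n (by omega))
    obtain ⟨Q, hQ⟩ : ∃ Q : Finset ℕ, Q = (Ioc M (2 * M + H)).filter (fun p => p.Prime ∧
        S (Nat.primeCounting p) ∧ ∀ q ∈ PP 0 z, ¬ p ≡ N [MOD q]) := ⟨_, rfl⟩
    rw [← hQ] at hr
    have hMX : Real.log M ≤ L := by
      rw [hL]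
      apply Real.log_le_log
      · have : 0 < M := by omega
        exact_mod_cast this
      · exact_mod_cast (by omega : M ≤ X)
    have hQc : X / L ^ (A + C₁ + 2) ≤ (Q.card : ℝ) := by
      refine le_trans ?_ hr
      have a1 : X / L ^ (A + C₁ + 2) = (X / L ^ (A + 2)) / L ^ C₁ := by
        rw [div_div, ← pow_add]
        congr 2
        omega
      rw [a1]
      have h0 : 0 ≤ X / L ^ (A + 2) := by positivity
      gcongr
    -- expected
    have hexp : (Q.card : ℝ) * (1 / L) ≤ SW.expected z P N := by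
      unfold SW.expected
      have hsub : Q ⊆ P.filter (fun s => 0 < s ∧ s + 2 ≤ N ∧ Nat.Coprime (N - s) (primorial z)) := by
        intro p hp
        rw [hQ, mem_filter, mem_Ioc] at hp
        obtain ⟨⟨p1, p2⟩, p3, p4, p5⟩ := hp
        rw [hP, mem_filter, mem_filter, mem_Icc]
        refine ⟨⟨⟨p3.one_lt.le, by omega⟩, p3, p4⟩, p3.pos, by omega, ?_⟩
        by_contra hc
        obtain ⟨q, hq, hq1, hq2⟩ := Nat.Prime.not_coprime_iff_dvd.mp hc
        have hqz : q ≤ z := (hq.dvd_primorial_iff).mp hq2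
        refine p5 q ?_ ?_
        · unfold PP
          rw [mem_filter, mem_range]
          exact ⟨by omega, hq, hq.pos⟩
        · exact (Nat.modEq_iff_dvd' (by omega)).mpr hq1
      have hterm : ∀ s ∈ P.filter (fun s => 0 < s ∧ s + 2 ≤ N ∧
          Nat.Coprime (N - s) (primorial z)), 1 / L ≤ 1 / (SW.Vz z * Real.log ((N - s : ℕ) : ℝ)) := by
        intro s hs
        rw [mem_filter] at hs
        obtain ⟨-, s1, s2, s3⟩ := hs
        have b1 : (2 : ℝ) ≤ ((N - s : ℕ) : ℝ) := by exact_mod_cast (by omega : 2 ≤ N - s)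
        have b2 : 0 < Real.log ((N - s : ℕ) : ℝ) := Real.log_pos (by linarith)
        have b3 : Real.log ((N - s : ℕ) : ℝ) ≤ L := by
          rw [hL]
          apply Real.log_le_log (by linarith)
          exact_mod_cast (by omega : N - s ≤ X)
        have b4 := SW.TS5_Vz_pos z
        have b5 : SW.Vz z ≤ 1 := by
          unfold SW.Vz
          rw [div_le_one (by exact_mod_cast primorial_pos z)]
          exact_mod_cast Nat.totient_le _
        apply one_div_le_one_div_of_le (by positivity)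
        calc SW.Vz z * Real.log ((N - s : ℕ) : ℝ) ≤ 1 * L := by gcongr
          _ = L := one_mul L
      calc (Q.card : ℝ) * (1 / L) = ∑ s ∈ Q, 1 / L := by rw [sum_const, nsmul_eq_mul]
        _ ≤ ∑ s ∈ Q, 1 / (SW.Vz z * Real.log ((N - s : ℕ) : ℝ)) :=
            sum_le_sum fun s hs => hterm s (hsub hs)
        _ ≤ ∑ s ∈ P.filter (fun s => 0 < s ∧ s + 2 ≤ N ∧ Nat.Coprime (N - s) (primorial z)),
            1 / (SW.Vz z * Real.log ((N - s : ℕ) : ℝ)) := by
            apply sum_le_sum_of_subset_of_nonneg hsub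
            intro s hs _
            exact le_trans (by positivity) (hterm s hs)
    have hact : (SW.actual P N : ℝ) =
        (((range N).filter (fun p => p.Prime ∧ S (Nat.primeCounting p) ∧ (N - p).Prime)).card : ℝ) := by
      unfold SW.actual
      congr 2
      ext p
      rw [hP, mem_filter, mem_filter, mem_filter, mem_range, mem_Icc]
      constructor
      · rintro ⟨⟨-, p1, p2⟩, -, p3, p4⟩
        exact ⟨p3, p1, p2, p4⟩
      · rintro ⟨p1, p2, p3, p4⟩
        exact ⟨⟨⟨p2.one_lt.le, by omega⟩, p2, p3⟩, p2.pos, p1, p4⟩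
    rw [← hact]
    rw [not_lt] at hex
    have c1 := (abs_le.mp hex).1
    have c2 : X / L ^ (A + C₁ + 3) ≤ SW.expected z P N := by
      refine le_trans (le_of_eq ?_) ((mul_le_mul_of_nonneg_right hQc
        (by positivity : (0 : ℝ) ≤ 1 / L)).trans hexp)
      rw [pow_succ L (A + C₁ + 2)]
      field_simp
    have c3 : X / L ^ K ≤ X / L ^ (A + C₁ + 4) := by
      apply div_le_div_of_nonneg_left hX0 (by positivity)
      exact pow_le_pow_right₀ (by linarith) (by omega)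
    have c4 : X / L ^ (A + C₁ + 3) = X / L ^ (A + C₁ + 4) * L := by
      rw [pow_succ L (A + C₁ + 3)]
      field_simp
    rw [c4] at c2
    have c5 : 0 ≤ X / L ^ (A + C₁ + 4) := by positivity
    nlinarith
  -- count
  have hsub : (Icc 1 X).filter (fun N => Even N ∧
      (((range N).filter (fun p => p.Prime ∧ S (Nat.primeCounting p) ∧ (N - p).Prime)).card : ℝ) <
        X / L ^ (A + C₁ + 4)) ⊆
      (range (⌊X / L ^ (A + 1)⌋₊ + 1)) ∪ (Icc 1 X).filter (fun N => X / L ^ K <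
        |(SW.actual P N : ℝ) - SW.expected z P N|) := by
    intro N hN
    rw [mem_filter, mem_Icc] at hN
    obtain ⟨⟨n1, n2⟩, n3, n4⟩ := hN
    rw [mem_union, mem_range, mem_filter, mem_Icc]
    by_cases hc : (N : ℝ) < X / L ^ (A + 1)
    · left
      exact Nat.lt_succ_of_le (Nat.le_floor hc.le)
    · right
      refine ⟨⟨n1, n2⟩, ?_⟩
      by_contra hc2
      have := key N n1 n2 n3 (not_lt.mp hc) hc2
      linarith
  have hcard := card_le_card hsub
  have hcard2 : (((Icc 1 X).filter (fun N => Even N ∧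
      (((range N).filter (fun p => p.Prime ∧ S (Nat.primeCounting p) ∧ (N - p).Prime)).card : ℝ) <
        X / L ^ (A + C₁ + 4))).card : ℝ) ≤ (X / L ^ (A + 1) + 1) + X / L ^ K := by
    have d1 := hcard.trans (card_union_le _ _)
    rw [card_range] at d1
    have d2 : ((⌊X / L ^ (A + 1)⌋₊ : ℕ) : ℝ) ≤ X / L ^ (A + 1) := Nat.floor_le (by positivity)
    have d3 : (((Icc 1 X).filter (fun N => Even N ∧
      (((range N).filter (fun p => p.Prime ∧ S (Nat.primeCounting p) ∧ (N - p).Prime)).card : ℝ) <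
        X / L ^ (A + C₁ + 4))).card : ℝ) ≤ ((⌊X / L ^ (A + 1)⌋₊ + 1 : ℕ) : ℝ) +
        (((Icc 1 X).filter (fun N => X / L ^ K <
        |(SW.actual P N : ℝ) - SW.expected z P N|)).card : ℝ) := by exact_mod_cast d1
    push_cast at d3
    linarith
  refine hcard2.trans ?_
  have f1 : X / L ^ (A + 1) = X / L ^ (A + 2) * L := by
    rw [pow_succ L (A + 1)]
    field_simp
  have f2 : X / L ^ A = X / L ^ (A + 2) * L ^ 2 := by
    rw [pow_add]
    field_simp
  have f3 : X / L ^ K ≤ X / L ^ (A + 2) := by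
    apply div_le_div_of_nonneg_left hX0 (by positivity)
    exact pow_le_pow_right₀ (by linarith) (by omega)
  rw [f1, f2]
  have f4 : 0 ≤ X / L ^ (A + 2) := by positivity
  nlinarith

end Pool.Agent.Lib.MT
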