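import Pool.Agent.Lib.MT.Defs

/-!
# MT-Part: colourings and tuples of sets of primes

`part i ρ` is the set of primes of colour `i`.
PROOF. `prt_eq`, `tot_eq`: products over the subtype. `col_sum_le`: ρ ↦ (part i ρ)_i is injective from the colourings into the functions ι → P.powerset
(ρ p = some i iff p ∈ part i ρ), and ∑ over all functions of ∏_i F(s i) = (∑_{s ∈ P.powerset} F s)^card ι (`Finset.prod_univ_sum`, `Finset.sum_pow'`, `Fintype.piFinset`).
`col_sum_ge`: the image of this map is the set of pairwise disjoint tuples: given one, put ρ p = some i iff p ∈ s i.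
(`disj_sum`: the sum over the pairwise disjoint tuples with s m = ∅ equals the sum over the colourings avoiding m.)
-/

set_option autoImplicit false

open Finset

namespace Pool.Agent.Lib.MT

variable {P : Finset ℕ} {ι : Type} [Fintype ι] [DecidableEq ι]

/-- the set of primes of colour `i` -/
def part (i : ι) (ρ : Col P ι) : Finset ℕ :=
  (univ.filter (fun p : {p : ℕ // p ∈ P} => ρ p = some i)).image (fun p : {p : ℕ // p ∈ P} => (p : ℕ))

theorem mem_part (i : ι) (ρ : Col P ι) (p : ℕ) : p ∈ part i ρ ↔ ∃ hp : p ∈ P, ρ ⟨p, hp⟩ = some i := by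
  unfold part
  simp only [mem_image, mem_filter, mem_univ, true_and]
  constructor
  · rintro ⟨⟨a, ha⟩, h1, rfl⟩
    exact ⟨ha, h1⟩
  · rintro ⟨hp, h⟩
    exact ⟨⟨p, hp⟩, h, rfl⟩

theorem part_subset (i : ι) (ρ : Col P ι) : part i ρ ⊆ P := by
  intro p hp
  exact ((mem_part i ρ p).mp hp).1

private theorem prod_part {M : Type} [CommMonoid M] (f : ℕ → M) (i : ι) (ρ : Col P ι) :
    ∏ p ∈ part i ρ, f p = ∏ p : {p : ℕ // p ∈ P}, if ρ p = some i then f p else 1 := by
  unfold part
  rw [prod_image (fun a _ b _ h => Subtype.ext h), prod_filter]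

private theorem prod_colours {M : Type} [CommMonoid M] (x : M) (o : Option ι) :
    ∏ i, (if o = some i then x else 1) = if o = none then 1 else x := by
  cases o with
  | none => simp
  | some j => simp

theorem prt_eq (i : ι) (ρ : Col P ι) : prt i ρ = pr (part i ρ) := by
  unfold prt pr
  exact (prod_part (fun p => p) i ρ).symm

theorem tot_eq (ρ : Col P ι) : tot ρ = ∏ i, prt i ρ := by
  unfold tot prt
  rw [prod_comm]
  exact prod_congr rfl fun p _ => (prod_colours (p : ℕ) (ρ p)).symm

/-- a product over the coloured primes -/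
theorem prod_col (f : ℕ → ℝ) (ρ : Col P ι) :
    ∏ p : {p : ℕ // p ∈ P}, (if ρ p = none then (1 : ℝ) else f p) = ∏ i, ∏ p ∈ part i ρ, f p := by
  rw [prod_congr rfl fun i _ => prod_part f i ρ, prod_comm]
  exact prod_congr rfl fun p _ => (prod_colours (f p) (ρ p)).symm

private theorem part_inj {ρ ρ' : Col P ι} (h : (fun i => part i ρ) = fun i => part i ρ') :
    ρ = ρ' := by
  funext p
  ext i
  have h1 : (p : ℕ) ∈ part i ρ ↔ (p : ℕ) ∈ part i ρ' := by rw [congrFun h i]
  rw [mem_part, mem_part] at h1
  constructor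
  · intro h2
    exact (h1.mp ⟨p.2, h2⟩).2
  · intro h2
    exact (h1.mpr ⟨p.2, h2⟩).2

theorem col_sum_le (F : Finset ℕ → ℝ) (hF : ∀ s, 0 ≤ F s) :
    ∑ ρ : Col P ι, ∏ i, F (part i ρ) ≤ (∑ s ∈ P.powerset, F s) ^ Fintype.card ι := by
  classical
  have h1 : (∑ s ∈ P.powerset, F s) ^ Fintype.card ι =
      ∑ s ∈ Fintype.piFinset (fun _ : ι => P.powerset), ∏ i, F (s i) := by
    rw [← prod_univ_sum, prod_const, card_univ]
  rw [h1]
  have h2 : ∑ ρ : Col P ι, ∏ i, F (part i ρ) =
      ∑ s ∈ (univ : Finset (Col P ι)).image (fun ρ => fun i => part i ρ), ∏ i, F (s i) := by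
    rw [sum_image]
    intro a _ b _ h
    exact part_inj h
  rw [h2]
  refine sum_le_sum_of_subset_of_nonneg ?_ fun s _ _ => prod_nonneg fun i _ => hF _
  intro s hs
  rw [mem_image] at hs
  obtain ⟨ρ, _, rfl⟩ := hs
  rw [Fintype.mem_piFinset]
  intro i
  rw [mem_powerset]
  exact part_subset i ρ

/-- the sum over the colourings avoiding `m` is the sum over the pairwise disjoint tuples `s` with `s m = ∅` -/
theorem disj_sum (m : ι) (G : (ι → Finset ℕ) → ℝ) :
    ∑ ρ ∈ univ.filter (fun ρ : Col P ι => ∀ p, ρ p ≠ some m), G (fun i => part i ρ) =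
      ∑ s ∈ (Fintype.piFinset (fun i => if i = m then {∅} else P.powerset)).filter
        (fun s => ∀ i j, i ≠ j → Disjoint (s i) (s j)), G s := by
  classical
  refine sum_bij (fun ρ _ => fun i => part i ρ) ?_ (fun a _ b _ h => part_inj h) ?_
    (fun _ _ => rfl)
  · intro ρ hρ
    rw [mem_filter] at hρ ⊢
    refine ⟨?_, ?_⟩
    · rw [Fintype.mem_piFinset]
      intro i
      by_cases hi : i = m
      · rw [if_pos hi, mem_singleton, eq_empty_iff_forall_notMem]
        intro p hp
        obtain ⟨hp1, hp2⟩ := (mem_part i ρ p).mp hp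
        rw [hi] at hp2
        exact hρ.2 _ hp2
      · rw [if_neg hi, mem_powerset]
        exact part_subset i ρ
    · intro i j hij
      rw [disjoint_left]
      intro p hp hp'
      obtain ⟨h1, h2⟩ := (mem_part i ρ p).mp hp
      obtain ⟨h3, h4⟩ := (mem_part j ρ p).mp hp'
      exact hij (Option.some.inj (h2.symm.trans h4))
  · intro s hs
    rw [mem_filter, Fintype.mem_piFinset] at hs
    obtain ⟨hs1, hs2⟩ := hs
    have hsm : s m = ∅ := by
      have := hs1 m
      rwa [if_pos rfl, mem_singleton] at this
    have hsP : ∀ i, s i ⊆ P := by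
      intro i
      by_cases hi : i = m
      · rw [hi, hsm]
        exact empty_subset _
      · have := hs1 i
        rwa [if_neg hi, mem_powerset] at this
    obtain ⟨R, hR⟩ : ∃ R : Col P ι, ∀ p i, R p = some i ↔ (p : ℕ) ∈ s i := by
      refine ⟨fun p => if h : ∃ i, (p : ℕ) ∈ s i then some h.choose else none, fun p i => ?_⟩
      by_cases h : ∃ i, (p : ℕ) ∈ s i
      · have h3 : (if h : ∃ i, (p : ℕ) ∈ s i then some h.choose else none) = some h.choose :=
          dif_pos h
        show (if h : ∃ i, (p : ℕ) ∈ s i then some h.choose else none) = some i ↔ _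
        rw [h3]
        constructor
        · intro h4
          rw [← Option.some.inj h4]
          exact h.choose_spec
        · intro h4
          congr 1
          by_contra hne
          exact (disjoint_left.mp (hs2 _ _ hne)) h.choose_spec h4
      · have h3 : (if h : ∃ i, (p : ℕ) ∈ s i then some h.choose else none) = none := dif_neg h
        show (if h : ∃ i, (p : ℕ) ∈ s i then some h.choose else none) = some i ↔ _
        rw [h3]
        constructor
        · intro h4
          exact absurd h4 (by simp)
        · intro h4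
          exact absurd ⟨i, h4⟩ h
    refine ⟨R, ?_, ?_⟩
    · rw [mem_filter]
      refine ⟨mem_univ _, fun p hp => ?_⟩
      have h1 := (hR p m).mp hp
      rw [hsm] at h1
      exact notMem_empty _ h1
    · funext i
      ext p
      rw [mem_part]
      constructor
      · rintro ⟨hp, h2⟩
        exact (hR _ _).mp h2
      · intro hp
        exact ⟨hsP i hp, (hR _ _).mpr hp⟩

end Pool.Agent.Lib.MT
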