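import Pool.Agent.Lib.MT.Quad
import Pool.Agent.Lib.MT.Lay2

/-!
# MT-S2low: lower bound for the weighted number of primes x + h m

PROOF. `layer2` for L = lam u (as in S1up), `le_Qf` with q = q2 m (∑_j q2 = (card ι - 1)/(p - 1) ≤ 1 as card ι ≤ z < p) and `sum_lam` with c = q2 m. Θ V2 ≥ 0 (|Ω p without a class c with p | c + h m| ≤ p - 1 since such a class
exists in range p; th ≥ 0).
-/

set_option autoImplicit false

open Finset

namespace Pool.Agent.Lib.MT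

private theorem mem_PP_low {w R p : ℕ} (h : p ∈ PP w R) : p.Prime ∧ w < p := by
  unfold PP at h
  exact (mem_filter.mp h).2

private theorem q2_nonneg {P : Finset ℕ} {ι : Type} [DecidableEq ι] (m : ι)
    (p : {p : ℕ // p ∈ P}) (hp : (p : ℕ).Prime) (j : ι) : 0 ≤ q2 m p j := by
  unfold q2
  split_ifs
  · exact le_rfl
  · have h1 : (1 : ℝ) < ((p : ℕ) : ℝ) := by exact_mod_cast hp.one_lt
    have h2 : (0 : ℝ) < ((p : ℕ) : ℝ) - 1 := by linarith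
    positivity

private theorem q2_sum {P : Finset ℕ} {ι : Type} [Fintype ι] [DecidableEq ι] (m : ι)
    (p : {p : ℕ // p ∈ P}) (hp : (p : ℕ).Prime) (h : Fintype.card ι ≤ (p : ℕ)) :
    ∑ j, q2 m p j ≤ 1 := by
  have h1 : (1 : ℝ) < ((p : ℕ) : ℝ) := by exact_mod_cast hp.one_lt
  have h2 : (0 : ℝ) < ((p : ℕ) : ℝ) - 1 := by linarith
  have h3 : ∑ j, q2 m p j = ((Fintype.card ι : ℝ) - 1) * (1 / (((p : ℕ) : ℝ) - 1)) := by
    unfold q2
    rw [← add_sum_erase univ _ (mem_univ m), if_pos rfl, zero_add,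
      sum_congr rfl (g := fun _ => 1 / (((p : ℕ) : ℝ) - 1)) (fun j hj => if_neg (ne_of_mem_erase hj)),
      sum_const, card_erase_of_mem (mem_univ m), card_univ, nsmul_eq_mul]
    have h4 : 1 ≤ Fintype.card ι := Fintype.card_pos_iff.mpr ⟨m⟩
    rw [Nat.cast_sub h4, Nat.cast_one]
  rw [h3, mul_one_div, div_le_one h2]
  have h5 : (Fintype.card ι : ℝ) ≤ ((p : ℕ) : ℝ) := by exact_mod_cast h
  linarith

private theorem V2_nonneg (Ω : ℕ → Finset ℕ) (a z : ℕ) (hΩ : ∀ p ∈ PP 0 z, ∀ c ∈ Ω p, c < p) :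
    0 ≤ V2 Ω a z := by
  unfold V2
  refine prod_nonneg fun p hp => ?_
  have hpp := (mem_PP_low hp).1
  have h1 : (1 : ℝ) < (p : ℝ) := by exact_mod_cast hpp.one_lt
  have h2 : (0 : ℝ) < (p : ℝ) - 1 := by linarith
  have h3 : ((Ω p).filter (fun c => ¬ p ∣ c + a)).card ≤ p - 1 := by
    have h4 : (Ω p).filter (fun c => ¬ p ∣ c + a) ⊆ (range p).erase ((p - a % p) % p) := by
      intro c hc
      rw [mem_filter] at hc
      rw [mem_erase]
      refine ⟨?_, mem_range.mpr (hΩ p hp c hc.1)⟩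
      rintro rfl
      apply hc.2
      have h5 : a % p < p := Nat.mod_lt _ hpp.pos
      rw [Nat.dvd_iff_mod_eq_zero, Nat.add_mod, Nat.mod_mod, ← Nat.add_mod]
      rw [Nat.add_mod, Nat.mod_eq_zero_of_dvd (n := ((p - a % p) % p + a % p))]
      have h6 : ((p - a % p) % p + a % p) % p = 0 := by
        rw [Nat.mod_add_mod, Nat.sub_add_cancel h5.le, Nat.mod_self]
      exact Nat.dvd_of_mod_eq_zero h6
    calc ((Ω p).filter (fun c => ¬ p ∣ c + a)).card ≤ ((range p).erase ((p - a % p) % p)).card :=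
        card_le_card h4
      _ = p - 1 := by
        rw [card_erase_of_mem (mem_range.mpr (Nat.mod_lt _ hpp.pos)), card_range]
  have h7 : (((Ω p).filter (fun c => ¬ p ∣ c + a)).card : ℝ) / ((p : ℝ) - 1) ≤ 1 := by
    rw [div_le_one h2]
    have h8 : (((Ω p).filter (fun c => ¬ p ∣ c + a)).card : ℝ) ≤ ((p - 1 : ℕ) : ℝ) := by
      exact_mod_cast h3
    rw [Nat.cast_sub hpp.one_lt.le, Nat.cast_one] at h8
    exact h8
  linarith

theorem S2_lower (ι : Type) [Fintype ι] [DecidableEq ι] (K B A : ℕ) : ∃ X₀ : ℕ,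
    ∀ X z R : ℕ, X₀ ≤ X → Fintype.card ι ≤ z → (z : ℝ) ≤ (Real.log X) ^ B →
    (R : ℝ) ≤ (X : ℝ) ^ (1 / 5 : ℝ) →
    ∀ Ω : ℕ → Finset ℕ, (∀ p, (Ω p).card ≤ K) → (∀ p ∈ PP 0 z, ∀ c ∈ Ω p, c < p) →
    ∀ h : ι → ℕ, (∀ i, (h i : ℝ) ≤ (X : ℝ) ^ (1 / 2 : ℝ)) → ∀ m : ι,
    (∀ p ∈ PP z R, ∀ i j, i ≠ j → ¬ h i ≡ h j [MOD p]) → ∀ u : Col (PP z R) ι → ℝ,
    (∀ σ, |u σ| ≤ 1) → (∀ σ, u σ ≠ 0 → tot σ ≤ R) →
    (∑ n ∈ Ioc (X + h m) (2 * X + h m), BV.th n) * V2 Ω (h m) z *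
        ∑ ρ : Col (PP z R) ι, (∏ p : {p : ℕ // p ∈ PP z R},
            Dm (q2 m p) (1 - ∑ i, q2 m p i) (ρ p)) *
          (∑ τ : Col (PP z R) ι, (∏ p : {p : ℕ // p ∈ PP z R},
            Amat (fun j => q2 m p j - 1 / ((p : ℕ) : ℝ)) (ρ p) (τ p)) * u τ) ^ 2 -
      X / (Real.log X) ^ A ≤
    ∑ x ∈ Pre Ω z X, BV.th (x + h m) * (FF h (lam u) x) ^ 2 := by
  obtain ⟨X₀, hlay⟩ := layer2 ι K B A
  refine ⟨X₀, ?_⟩
  intro X z R hX hι hz hR Ω hK hΩ h hh m hij u hu htot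
  have h1 := hlay X z R hX hz hR Ω hK hΩ h hh m hij (lam u) (fun σ => abs_lam_le u hu σ)
    (fun σ hσ => by
      obtain ⟨τ, h2, h3⟩ := lam_ext u σ hσ
      exact (tot_le_of_ext (fun p hp => (mem_PP_low hp).1.one_lt.le) σ τ h3).trans (htot τ h2))
  have h4 := le_Qf (P := PP z R) (ι := ι) (q2 m) (fun p i => q2_nonneg m p (mem_PP_low p.2).1 i)
    (fun p => q2_sum m p (mem_PP_low p.2).1 (by
      have := (mem_PP_low p.2).2
      omega)) (lam u)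
  have h7 : ∀ ρ : Col (PP z R) ι, (∑ σ : Col (PP z R) ι,
      (∏ p : {p : ℕ // p ∈ PP z R}, Amat (q2 m p) (ρ p) (σ p)) * lam u σ) =
      ∑ τ : Col (PP z R) ι, (∏ p : {p : ℕ // p ∈ PP z R},
            Amat (fun j => q2 m p j - 1 / ((p : ℕ) : ℝ)) (ρ p) (τ p)) * u τ :=
    fun ρ => sum_lam (q2 m) u ρ
  simp only [h7] at h4
  have h8 : 0 ≤ (∑ n ∈ Ioc (X + h m) (2 * X + h m), BV.th n) * V2 Ω (h m) z :=
    mul_nonneg (sum_nonneg fun n _ => BV.th_nonneg n) (V2_nonneg Ω (h m) z hΩ)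
  have h13 := mul_le_mul_of_nonneg_left h4 h8
  have h14 := (abs_le.mp h1).1
  linarith

end Pool.Agent.Lib.MT
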