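import Pool.Agent.Lib.MT.Zm
import Pool.Agent.Lib.MT.YLow
import Pool.Agent.Lib.MT.Mass

/-!
# MT-S2main: the main term of the second sum

PROOF. All terms are ≥ 0 (Dm (q2 m p) (1 - ∑ q2) ≥ 0 since ∑_i q2 = (k-1)/(p-1) ≤ 1). Keep the ρ avoiding m with (tot ρ)^2 ≤ R. There the square is ≥ (9/16) YY^2 (`zm_lower`, YY ≥ 0) and
YY^2 ≥ (∏_{i≠m} g(prt i ρ)^2) AA^2 ∏_{p coloured} (1 + 1/p)^(-2) (`YY_lower`). For a coloured p: Dm (q2 m p) (1 - ∑ q2) (some i) = (1 - (k-1)/(p-1))/(p-1) = (p-k)/(p-1)^2, and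
(p-k)/(p-1)^2 * (1 + 1/p)^(-2) = (p-k) p^2/(p^2-1)^2 ≥ (p-k)/p^2 = (1/p)(1 - k/p). `mass_lower`: total ≥ (9/16) AA^2 (1/4) BB^(k-1) ≥ (1/8) AA^2 BB^(k-1).
-/

set_option autoImplicit false

open Finset

namespace Pool.Agent.Lib.MT

variable {ι : Type} [Fintype ι] [DecidableEq ι]

private theorem s2_sum (m : ι) (x : ℝ) :
    ∑ i : ι, (if i = m then (0 : ℝ) else x) = (Fintype.card ι - 1) * x := by
  have h1 : ∀ i : ι, (if i = m then (0 : ℝ) else x) = x - (if i = m then x else 0) := fun i => by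
    split_ifs <;> ring
  rw [Finset.sum_congr rfl (fun i _ => h1 i), Finset.sum_sub_distrib, Finset.sum_const,
    Finset.card_univ, nsmul_eq_mul, Finset.sum_ite_eq' univ m (fun _ => x), if_pos (Finset.mem_univ m)]
  ring

theorem S2_main (w R : ℕ) (hw : 16 * Fintype.card ι ^ 2 ≤ w) (hR : 2 ≤ R) (m : ι) (g : ℕ → ℝ)
    (hg0 : ∀ n, 0 ≤ g n) (hg1 : ∀ a b, a ≤ b → g b ≤ g a) (hgR : ∀ n, g n ≠ 0 → n ^ 2 ≤ R)
    (hF : Fintype.card ι * BL (PP w R) g ≤ BB (PP w R) g * Real.log R / 4) :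
    1 / 8 * (AA (PP w R) g) ^ 2 * (BB (PP w R) g) ^ (Fintype.card ι - 1) ≤
      ∑ ρ : Col (PP w R) ι, (∏ p : {p : ℕ // p ∈ PP w R}, Dm (q2 m p) (1 - ∑ i, q2 m p i) (ρ p)) *
        (∑ τ : Col (PP w R) ι, (∏ p : {p : ℕ // p ∈ PP w R},
          Amat (fun j => q2 m p j - 1 / ((p : ℕ) : ℝ)) (ρ p) (τ p)) * zz g R τ) ^ 2 := by
  classical
  have hk1 : 1 ≤ Fintype.card ι := Fintype.card_pos_iff.2 ⟨m⟩
  have hw1 : 1 ≤ w := by nlinarith
  have hkw : Fintype.card ι ≤ w := by nlinarith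
  have h8w : 8 * Fintype.card ι ≤ w := by nlinarith
  have hPprime : ∀ p ∈ PP w R, p.Prime := fun p hp => by
    unfold PP at hp; exact (Finset.mem_filter.1 hp).2.1
  have hPw : ∀ p : {p : ℕ // p ∈ PP w R}, w < (p : ℕ) := fun p => by
    have hp := p.2
    unfold PP at hp
    exact (Finset.mem_filter.1 hp).2.2
  have hp1 : ∀ p : {p : ℕ // p ∈ PP w R}, (1 : ℝ) < ((p : ℕ) : ℝ) := fun p => by
    have := hPw p
    exact_mod_cast (by omega : 1 < p.1)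
  have hpk : ∀ p : {p : ℕ // p ∈ PP w R}, ((Fintype.card ι : ℕ) : ℝ) ≤ ((p : ℕ) : ℝ) - 1 := fun p => by
    have := hPw p
    have h2 : Fintype.card ι + 1 ≤ (p : ℕ) := by omega
    have h3 : ((Fintype.card ι + 1 : ℕ) : ℝ) ≤ ((p : ℕ) : ℝ) := by exact_mod_cast h2
    push_cast at h3
    linarith
  have hk1r : (1 : ℝ) ≤ Fintype.card ι := by exact_mod_cast hk1
  have hq : ∀ p : {p : ℕ // p ∈ PP w R}, 1 - ∑ i, q2 m p i =
      1 - (Fintype.card ι - 1) * (1 / (((p : ℕ) : ℝ) - 1)) := fun p => by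
    unfold q2
    rw [s2_sum]
  have hq0 : ∀ p : {p : ℕ // p ∈ PP w R}, 0 ≤ 1 - ∑ i, q2 m p i := fun p => by
    rw [hq p]
    have h1 := hp1 p
    have h2 := hpk p
    have h3 : (0 : ℝ) < ((p : ℕ) : ℝ) - 1 := by linarith
    rw [mul_one_div, sub_nonneg, div_le_one h3]
    linarith
  have hD0 : ∀ (p : {p : ℕ // p ∈ PP w R}) (s : Option ι), 0 ≤ Dm (q2 m p) (1 - ∑ i, q2 m p i) s := by
    intro p s
    rcases s with _ | i
    · simp [Dm]
    · unfold Dm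
      refine mul_nonneg (hq0 p) ?_
      unfold q2
      have h1 := hp1 p
      have h3 : (0 : ℝ) < ((p : ℕ) : ℝ) - 1 := by linarith
      split_ifs
      · exact le_rfl
      · positivity
  have hmass := mass_lower w R hw hR m g hg0 hg1 hF
  have hA2 : 0 ≤ (AA (PP w R) g) ^ 2 := sq_nonneg _
  have step1 : 1 / 8 * (AA (PP w R) g) ^ 2 * (BB (PP w R) g) ^ (Fintype.card ι - 1) ≤
      9 / 16 * (AA (PP w R) g) ^ 2 *
      ∑ ρ ∈ univ.filter (fun ρ : Col (PP w R) ι => (∀ p, ρ p ≠ some m) ∧ tot ρ ^ 2 ≤ R),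
        (∏ i ∈ univ.erase m, g (prt i ρ) ^ 2) * ∏ p : {p : ℕ // p ∈ PP w R},
          (if ρ p = none then (1 : ℝ) else
            1 / ((p : ℕ) : ℝ) * (1 - Fintype.card ι / ((p : ℕ) : ℝ))) := by
    have hB0 : 0 ≤ (BB (PP w R) g) ^ (Fintype.card ι - 1) := by
      refine pow_nonneg ?_ _
      unfold BB
      exact Finset.sum_nonneg (fun s _ => by positivity)
    have h1 := mul_le_mul_of_nonneg_left hmass (mul_nonneg (by norm_num : (0 : ℝ) ≤ 9 / 16) hA2)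
    refine le_trans ?_ h1
    have : 0 ≤ (AA (PP w R) g) ^ 2 * (BB (PP w R) g) ^ (Fintype.card ι - 1) := mul_nonneg hA2 hB0
    nlinarith
  refine step1.trans ?_
  rw [Finset.mul_sum]
  refine le_trans (Finset.sum_le_sum (g := fun ρ : Col (PP w R) ι =>
      (∏ p : {p : ℕ // p ∈ PP w R}, Dm (q2 m p) (1 - ∑ i, q2 m p i) (ρ p)) *
        (∑ τ : Col (PP w R) ι, (∏ p : {p : ℕ // p ∈ PP w R},
          Amat (fun j => q2 m p j - 1 / ((p : ℕ) : ℝ)) (ρ p) (τ p)) * zz g R τ) ^ 2)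
      (fun ρ hρ => ?_)) (Finset.sum_le_sum_of_subset_of_nonneg (Finset.filter_subset _ _)
        (fun ρ _ _ => mul_nonneg (Finset.prod_nonneg (fun p _ => hD0 p _)) (sq_nonneg _)))
  rw [Finset.mem_filter] at hρ
  obtain ⟨-, hρm, hρR⟩ := hρ
  have hz := zm_lower w R h8w hw1 m g hg0 hg1 ρ hρm
  have hy := YY_lower hPprime R m g hg0 hg1 hgR ρ hρm hρR
  have hA0 : 0 ≤ AA (PP w R) g := by
    unfold AA
    exact Finset.sum_nonneg (fun s _ => div_nonneg (hg0 _) (by positivity))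
  have hy0 : 0 ≤ (∏ i ∈ univ.erase m, g (prt i ρ)) * AA (PP w R) g *
        ∏ p : {p : ℕ // p ∈ PP w R}, (if ρ p = none then (1 : ℝ) else (1 + 1 / ((p : ℕ) : ℝ))⁻¹) :=
    mul_nonneg (mul_nonneg (Finset.prod_nonneg (fun i _ => hg0 _)) hA0)
      (Finset.prod_nonneg (fun p _ => by split_ifs <;> positivity))
  have hsq : (3 / 4 * ((∏ i ∈ univ.erase m, g (prt i ρ)) * AA (PP w R) g *
        ∏ p : {p : ℕ // p ∈ PP w R}, (if ρ p = none then (1 : ℝ) else (1 + 1 / ((p : ℕ) : ℝ))⁻¹))) ^ 2 ≤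
      (∑ τ : Col (PP w R) ι, (∏ p : {p : ℕ // p ∈ PP w R},
          Amat (fun j => q2 m p j - 1 / ((p : ℕ) : ℝ)) (ρ p) (τ p)) * zz g R τ) ^ 2 := by
    rw [← sq_abs (∑ τ : Col (PP w R) ι, _)]
    refine pow_le_pow_left₀ (mul_nonneg (by norm_num) hy0) ?_ 2
    linarith
  refine le_trans ?_ (mul_le_mul_of_nonneg_left hsq (Finset.prod_nonneg (fun p _ => hD0 p (ρ p))))
  have hprod : ∏ p : {p : ℕ // p ∈ PP w R},
          (if ρ p = none then (1 : ℝ) else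
            1 / ((p : ℕ) : ℝ) * (1 - Fintype.card ι / ((p : ℕ) : ℝ))) ≤
      (∏ p : {p : ℕ // p ∈ PP w R}, Dm (q2 m p) (1 - ∑ i, q2 m p i) (ρ p)) *
      (∏ p : {p : ℕ // p ∈ PP w R}, (if ρ p = none then (1 : ℝ) else (1 + 1 / ((p : ℕ) : ℝ))⁻¹)) ^ 2 := by
    rw [← Finset.prod_pow, ← Finset.prod_mul_distrib]
    refine Finset.prod_le_prod (fun p _ => ?_) (fun p _ => ?_)
    · have h1 := hp1 p
      have h2 := hpk p
      have h3 : (0 : ℝ) < ((p : ℕ) : ℝ) := by linarith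
      split_ifs
      · norm_num
      · refine mul_nonneg (by positivity) ?_
        rw [sub_nonneg, div_le_one h3]
        linarith
    · have h1 := hp1 p
      have h2 := hpk p
      have h3 : (0 : ℝ) < ((p : ℕ) : ℝ) := by linarith
      have h4 : (0 : ℝ) < ((p : ℕ) : ℝ) - 1 := by linarith
      by_cases hn : ρ p = none
      · rw [if_pos hn, if_pos hn, hn]
        simp [Dm]
      · obtain ⟨i, hi⟩ := Option.ne_none_iff_exists'.1 hn
        have him : i ≠ m := fun h => hρm p (by rw [hi, h])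
        rw [if_neg hn, if_neg hn, hq p, hi]
        simp only [Dm, q2, if_neg him]
        set x : ℝ := ((p : ℕ) : ℝ)
        set c : ℝ := ((Fintype.card ι : ℕ) : ℝ)
        have e1 : (1 - (c - 1) * (1 / (x - 1))) * (1 / (x - 1)) * ((1 + 1 / x)⁻¹) ^ 2 =
            (x - c) * (x ^ 2 / (x ^ 2 - 1) ^ 2) := by
          have h5 : x + 1 ≠ 0 := by linarith
          have h6 : x ^ 2 - 1 ≠ 0 := by nlinarith
          field_simp
          ring
        rw [e1]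
        have e2 : 1 / x * (1 - c / x) = (x - c) * (1 / x ^ 2) := by
          field_simp
        rw [e2]
        refine mul_le_mul_of_nonneg_left ?_ (by linarith)
        have h7 : 0 < x ^ 2 - 1 := by nlinarith
        rw [div_le_div_iff₀ (by positivity) (by positivity)]
        nlinarith [sq_nonneg x]
  have hg2 : ∏ i ∈ univ.erase m, g (prt i ρ) ^ 2 = (∏ i ∈ univ.erase m, g (prt i ρ)) ^ 2 :=
    Finset.prod_pow _ _ _
  rw [hg2]
  have hc : 0 ≤ 9 / 16 * (AA (PP w R) g) ^ 2 * (∏ i ∈ univ.erase m, g (prt i ρ)) ^ 2 := by positivity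
  calc 9 / 16 * AA (PP w R) g ^ 2 * ((∏ i ∈ univ.erase m, g (prt i ρ)) ^ 2 *
        ∏ p : {p : ℕ // p ∈ PP w R}, (if ρ p = none then (1 : ℝ) else
            1 / ((p : ℕ) : ℝ) * (1 - Fintype.card ι / ((p : ℕ) : ℝ))))
      = 9 / 16 * AA (PP w R) g ^ 2 * (∏ i ∈ univ.erase m, g (prt i ρ)) ^ 2 *
        ∏ p : {p : ℕ // p ∈ PP w R}, (if ρ p = none then (1 : ℝ) else
            1 / ((p : ℕ) : ℝ) * (1 - Fintype.card ι / ((p : ℕ) : ℝ))) := by ring
    _ ≤ 9 / 16 * AA (PP w R) g ^ 2 * (∏ i ∈ univ.erase m, g (prt i ρ)) ^ 2 *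
        ((∏ p : {p : ℕ // p ∈ PP w R}, Dm (q2 m p) (1 - ∑ i, q2 m p i) (ρ p)) *
      (∏ p : {p : ℕ // p ∈ PP w R}, (if ρ p = none then (1 : ℝ) else (1 + 1 / ((p : ℕ) : ℝ))⁻¹)) ^ 2) :=
        mul_le_mul_of_nonneg_left hprod hc
    _ = _ := by ring

end Pool.Agent.Lib.MT
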