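import Pool.Agent.Lib.MT.Star
import Pool.Agent.Lib.MT.S1main
import Pool.Agent.Lib.MT.OneDim

/-!
# MT-S3main: the loss in the star weights

PROOF. A set s ⊆ P with pr s ≤ R is (s ∩ supp ρ) ∪ (s \ supp ρ), so DD P R = ∑_{s ⊆ P, pr s ≤ R} 1/pr s ≤ (∑_{e ⊆ supp ρ} 1/pr e) GG ρ = ∏_{p coloured} (1 + 1/p) GG ρ (`GG_ge`).
`S3_main`: yy^2/tot/GG ≤ (yy^2/tot) ∏ (1 + 1/p)/DD, `S1_main'`, and `DD_lower` with x = R.
-/

set_option autoImplicit false

open Finset

namespace Pool.Agent.Lib.MT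

variable {ι : Type} [Fintype ι] [DecidableEq ι]

theorem GG_ge {P : Finset ℕ} (hP : ∀ p ∈ P, p.Prime) (R : ℕ) (ρ : Col P ι) :
    DD P R ≤ (∏ p : {p : ℕ // p ∈ P}, (if ρ p = none then (1 : ℝ) else (1 + 1 / ((p : ℕ) : ℝ)))) *
      GG R ρ := by
  classical
  set U := P.filter (fun p => ∀ i, p ∉ part i ρ) with hU
  have hnone : ∀ p : {p : ℕ // p ∈ P}, ρ p = none ↔ (p : ℕ) ∈ U := by
    intro p
    rw [hU, mem_filter]
    constructor
    · intro h
      refine ⟨p.2, fun i hi => ?_⟩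
      rw [mem_part] at hi
      obtain ⟨_, h2⟩ := hi
      rw [h] at h2
      exact absurd h2 (by simp)
    · rintro ⟨_, h⟩
      rcases h2 : ρ p with _ | i
      · rfl
      · exact absurd ((mem_part i ρ p).2 ⟨p.2, h2⟩) (h i)
  have h1 : (∏ p : {p : ℕ // p ∈ P}, (if ρ p = none then (1 : ℝ) else (1 + 1 / ((p : ℕ) : ℝ)))) =
      ∑ e ∈ (P \ U).powerset, 1 / (pr e : ℝ) := by
    have h2 : (∏ p : {p : ℕ // p ∈ P}, (if ρ p = none then (1 : ℝ) else (1 + 1 / ((p : ℕ) : ℝ)))) =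
        ∏ p : {p : ℕ // p ∈ P}, (if (p : ℕ) ∈ U then (1 : ℝ) else (1 + 1 / ((p : ℕ) : ℝ))) := by
      refine Finset.prod_congr rfl fun p _ => ?_
      simp only [hnone]
    rw [h2, Finset.prod_coe_sort P (fun p => if p ∈ U then (1 : ℝ) else (1 + 1 / (p : ℝ)))]
    have h3 : ∏ p ∈ P, (if p ∈ U then (1 : ℝ) else (1 + 1 / (p : ℝ))) = ∏ p ∈ P \ U, (1 + 1 / (p : ℝ)) := by
      rw [Finset.prod_ite, Finset.prod_const_one, one_mul]
      refine Finset.prod_congr ?_ fun _ _ => rfl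
      ext p
      rw [mem_filter, mem_sdiff]
    rw [h3, Finset.prod_one_add]
    refine Finset.sum_congr rfl fun e _ => ?_
    rw [pr, Nat.cast_prod, one_div, ← Finset.prod_inv_distrib]
    simp
  rw [h1, GG, ← hU, Finset.sum_mul_sum, ← Finset.sum_product', DD]
  have hinj : ∀ s ∈ P.powerset.filter (fun s => (pr s : ℝ) ≤ (R : ℝ)), ∀ s' ∈ P.powerset.filter
      (fun s => (pr s : ℝ) ≤ (R : ℝ)), (s \ U, s ∩ U) = (s' \ U, s' ∩ U) → s = s' := by
    intro s _ s' _ h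
    rw [Prod.mk.injEq] at h
    rw [← Finset.sdiff_union_inter s U, ← Finset.sdiff_union_inter s' U, h.1, h.2]
  have h4 : ∑ s ∈ P.powerset.filter (fun s => (pr s : ℝ) ≤ (R : ℝ)), 1 / (pr s : ℝ) =
      ∑ q ∈ (P.powerset.filter (fun s => (pr s : ℝ) ≤ (R : ℝ))).image (fun s => (s \ U, s ∩ U)),
        1 / (pr q.1 : ℝ) * (1 / (pr q.2 : ℝ)) := by
    rw [Finset.sum_image hinj]
    refine Finset.sum_congr rfl fun s _ => ?_
    simp only
    rw [div_mul_div_comm, one_mul, ← Nat.cast_mul]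
    congr 2
    rw [pr, pr, pr, ← Finset.prod_union (Finset.disjoint_sdiff_inter s U), Finset.sdiff_union_inter]
  rw [h4]
  refine Finset.sum_le_sum_of_subset_of_nonneg ?_ (fun _ _ _ => by positivity)
  intro q hq
  rw [mem_image] at hq
  obtain ⟨s, hs, rfl⟩ := hq
  rw [mem_filter, mem_powerset] at hs
  rw [mem_product, mem_powerset, mem_filter, mem_powerset]
  refine ⟨Finset.sdiff_subset_sdiff hs.1 le_rfl, Finset.inter_subset_right, ?_⟩
  have h5 : pr (s ∩ U) ≤ pr s := by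
    rw [pr, pr]
    refine Finset.prod_le_prod_of_subset_of_one_le' Finset.inter_subset_left (fun p hp _ => ?_)
    exact (hP p (hs.1 hp)).one_lt.le
  have h6 : pr s ≤ R := by exact_mod_cast hs.2
  exact h5.trans h6

theorem S3_main (w R : ℕ) (hw : 2 * Fintype.card ι ≤ w) (hw1 : 1 ≤ w) (g : ℕ → ℝ)
    (hg0 : ∀ n, 0 ≤ g n) (hg1 : ∀ a b, a ≤ b → g b ≤ g a) (hR : 2 ≤ R) :
    ∑ ρ : Col (PP w R) ι, yy g R ρ ^ 2 / (tot ρ : ℝ) / GG R ρ ≤
      4 * (BB (PP w R) g) ^ Fintype.card ι / (kap w * Real.log R) := by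
  have hR2 : (2 : ℝ) ≤ R := by exact_mod_cast hR
  have hlog : 0 < Real.log R := Real.log_pos (by linarith)
  have hkap := kap_pos w
  have hD : 0 < kap w / 2 * Real.log R := by positivity
  have hP : ∀ p ∈ PP w R, p.Prime := by
    intro p hp
    rw [PP, mem_filter] at hp
    exact hp.2.1
  have hterm : ∀ ρ ∈ (univ : Finset (Col (PP w R) ι)), yy g R ρ ^ 2 / (tot ρ : ℝ) / GG R ρ ≤
      (yy g R ρ ^ 2 / (tot ρ : ℝ) *
        ∏ p : {p : ℕ // p ∈ PP w R}, (if ρ p = none then (1 : ℝ) else (1 + 1 / ((p : ℕ) : ℝ)))) /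
        (kap w / 2 * Real.log R) := by
    intro ρ _
    have h1 := (DD_lower w R R (by linarith) le_rfl).trans (GG_ge hP R ρ)
    have h2 : 0 < ∏ p : {p : ℕ // p ∈ PP w R}, (if ρ p = none then (1 : ℝ) else (1 + 1 / ((p : ℕ) : ℝ))) := by
      refine Finset.prod_pos fun p _ => ?_
      split_ifs <;> positivity
    have h3 : 0 < GG R ρ := by
      by_contra hc
      push Not at hc
      have := mul_nonpos_of_nonneg_of_nonpos h2.le hc
      linarith
    rw [div_le_div_iff₀ h3 hD, mul_assoc]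
    exact mul_le_mul_of_nonneg_left h1 (by positivity)
  refine (Finset.sum_le_sum hterm).trans ?_
  rw [← Finset.sum_div]
  have h5 := S1_main' (ι := ι) w R hw hw1 g hg0 hg1
  have h6 : 4 * (BB (PP w R) g) ^ Fintype.card ι / (kap w * Real.log R) =
      (2 * (BB (PP w R) g) ^ Fintype.card ι) / (kap w / 2 * Real.log R) := by
    rw [div_eq_div_iff (by positivity) (by positivity)]
    ring
  rw [h6]
  exact div_le_div_of_nonneg_right h5 hD.le

end Pool.Agent.Lib.MT
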