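import Pool.Agent.Lib.MT.S1up
import Pool.Agent.Lib.MT.S2low
import Pool.Agent.Lib.MT.S2main
import Pool.Agent.Lib.MT.S3main
import Pool.Agent.Lib.MT.GSum
import Pool.Agent.Lib.MT.Vlow
import Pool.Agent.Lib.MT.Theta
import Pool.Agent.Lib.MT.RNum

/-!
# MT-Ratio: the ratio of the two sums is at least c J (helper10)
-/

set_option autoImplicit false

open Finset

namespace Pool.Agent.Lib.MT

open Classical in
/-- the number of `t ∈ [1, k primorial(2k)]` not in the tuple with `x + t` prime -/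
noncomputable def bad (k x : ℕ) : ℕ :=
  ((Icc 1 (k * primorial (2 * k))).filter (fun t => (∀ i, t ≠ hh k i) ∧ (x + t).Prime)).card

/-- the number of primes in the tuple at `x` -/
def good (k x : ℕ) : ℕ := (univ.filter (fun i : Fin k => (x + hh k i).Prime)).card

private theorem Ratio_mu {P : Finset ℕ} {ι : Type} [Fintype ι] [DecidableEq ι] (σ : Col P ι) :
    |mu σ| = 1 := by
  unfold mu
  rw [abs_prod]
  refine prod_eq_one fun p _ => ?_
  split_ifs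
  · exact abs_one
  · rw [abs_neg, abs_one]

private theorem Ratio_zz {P : Finset ℕ} {ι : Type} [Fintype ι] [DecidableEq ι] (g : ℕ → ℝ)
    (hg0 : ∀ n, 0 ≤ g n) (hg1 : ∀ n, g n ≤ 1) (R : ℕ) (σ : Col P ι) : |zz g R σ| ≤ 1 := by
  unfold zz
  rw [abs_mul, Ratio_mu, one_mul]
  unfold yy
  split_ifs
  · rw [abs_of_nonneg (prod_nonneg fun i _ => hg0 _)]
    exact prod_le_one (fun i _ => hg0 _) fun i _ => hg1 _
  · rw [abs_zero]
    exact zero_le_one

private theorem Ratio_supp {P : Finset ℕ} {ι : Type} [Fintype ι] [DecidableEq ι] (g : ℕ → ℝ)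
    (R : ℕ) (σ : Col P ι) (h : zz g R σ ≠ 0) : tot σ ≤ R := by
  by_contra hc
  apply h
  unfold zz yy
  rw [if_neg hc, mul_zero]

private theorem Ratio_n1 (C J : ℝ) (hC : 1 ≤ C) (hJ : 1 ≤ J) : 16 ≤ 16 * C * J := by
  nlinarith

private theorem Ratio_n3 (C J l : ℝ) (hJ : J + 1 ≤ 2 * J) (h0 : 0 ≤ C * l) :
    2 * (J + 1) * C * l * 4 ≤ l * (16 * C * J) := by
  nlinarith

private theorem Ratio_n4 (C J m l y : ℝ) (hC : 1 ≤ C)
    (h : 49152 * C ^ 2 * (m + 1) * (y / 6) ≤ J * l) :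
    512 * C * (m + 1) * y * (16 * C) ≤ J * l := by
  nlinarith

private theorem Ratio_n8 (a y T m : ℝ) (h1 : 1 ≤ y) (h2 : 0 ≤ a) :
    y * (T * (m + 1) - a) ≤ T * (m + 1) * y - a := by
  nlinarith

private theorem Ratio_n9 (X l : ℝ) (hX : 0 < X) (hl : 2 ≤ l) : X / l ^ 2 ≤ (X / l) / 2 := by
  have h0 : 0 < l := by linarith
  rw [div_div]
  apply div_le_div_of_nonneg_left hX.le (by positivity)
  nlinarith

private theorem Ratio_n11 (m x y : ℝ) (h1 : 1 ≤ m) (hx : x ≤ y) (hy : 0 ≤ y) :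
    (m - 1) * x ≤ m * y := by
  nlinarith

/-- the contribution of one shift `t` outside the tuple -/
private theorem Ratio_S3 (k B : ℕ) : ∃ c : ℝ, 0 < c ∧ ∃ X₀ : ℕ, ∀ X z R N : ℕ, X₀ ≤ X →
    16 * k ^ 2 + k * primorial (2 * k) + 2 ≤ z → (z : ℝ) ≤ (Real.log X) ^ B →
    (R : ℝ) ≤ (X : ℝ) ^ (1 / 5 : ℝ) → ((R * R : ℕ) : ℝ) ≤ (X : ℝ) ^ (2 / 5 : ℝ) → 2 ≤ R → R ≤ X →
    k * primorial (2 * k) ≤ X →
    ∀ g : ℕ → ℝ, (∀ n, 0 ≤ g n) → (∀ n, g n ≤ 1) → (∀ a b, a ≤ b → g b ≤ g a) →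
    ∀ t ∈ Icc 1 (k * primorial (2 * k)), (∀ i, t ≠ hh k i) →
    ∑ x ∈ (Pre (Om2 (hh k) N) z X).filter (fun x => (x + t).Prime),
        (FF (hh k) (lam (zz g R : Col (PP z R) (Fin k) → ℝ)) x) ^ 2 ≤
      X * V1 (Om2 (hh k) N) z * (4 * (BB (PP z R) g) ^ k / (kap z * Real.log R)) +
        (X : ℝ) ^ (1 - c) := by
  obtain ⟨c, hc, X₁, hS⟩ := S1_upper (Option (Fin k)) (2 * k) B
  refine ⟨c, hc, X₁, fun X z R N hX hz hzB hR hRR hR2 hRX hHX g hg0 hg1 hg2 t ht hti => ?_⟩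
  rw [mem_Icc] at ht
  have hP : ∀ p ∈ PP z R, p.Prime := by
    intro p hp
    unfold PP at hp
    exact (mem_filter.mp hp).2.1
  have hPz : ∀ p ∈ PP z R, z < p := by
    intro p hp
    unfold PP at hp
    exact (mem_filter.mp hp).2.2
  have hPR : ∀ p ∈ PP z R, p ≤ R := by
    intro p hp
    unfold PP at hp
    have := (mem_filter.mp hp).1
    rw [mem_range] at this
    omega
  obtain ⟨u, hu1, hu2, hu3, hu4⟩ := star hP R t (by omega) (hh k) g hg0 hg1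
  have hkk : k ≤ k ^ 2 := by
    rcases Nat.eq_zero_or_pos k with h | h
    · rw [h]
      norm_num
    · nlinarith
  have h1 := hS X z R (R * R) hX (by
      rw [Fintype.card_option, Fintype.card_fin]
      omega) hzB hR hRR (Om2 (hh k) N)
    (fun p => by
      have := Om2_card (hh k) N p
      rwa [Fintype.card_fin] at this)
    (fun p _ => Om2_lt (hh k) N p) (fun o : Option (Fin k) => o.elim t (hh k))
    (fun o => by
      rcases o with _ | i
      · exact ht.2.trans hHX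
      · refine le_trans ?_ hHX
        show hh k i ≤ _
        unfold hh
        exact Nat.mul_le_mul_right _ i.2)
    u hu1 hu2 (fun p hp i j hij => by
      rcases i with _ | i <;> rcases j with _ | j
      · exact absurd rfl hij
      · exact hh_ok' k z p t (by omega) (hP p hp) (hPz p hp) ht.2 j (hti j)
      · intro h
        exact hh_ok' k z p t (by omega) (hP p hp) (hPz p hp) ht.2 i (hti i) h.symm
      · exact hh_ok k z p (by omega) (hP p hp) (hPz p hp) i j (fun h => hij (by rw [h])))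
  have h2 : ∑ τ : Col (PP z R) (Option (Fin k)), u τ ^ 2 / (tot τ : ℝ) ≤
      4 * (BB (PP z R) g) ^ k / (kap z * Real.log R) := by
    have := S3_main (ι := Fin k) z R (by rw [Fintype.card_fin]; omega) (by omega) g hg0 hg2 hR2
    rw [Fintype.card_fin] at this
    exact hu3.trans this
  have hV : 0 ≤ V1 (Om2 (hh k) N) z := by
    unfold V1
    refine prod_nonneg fun p hp => ?_
    have hp' : p.Prime := by
      unfold PP at hp
      exact (mem_filter.mp hp).2.1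
    have h3 : (Om2 (hh k) N p).card ≤ p :=
      (card_le_card (fun c hc => mem_range.2 (Om2_lt (hh k) N p c hc))).trans (card_range p).le
    have h4 : (0 : ℝ) < p := by exact_mod_cast hp'.pos
    have h5 : ((Om2 (hh k) N p).card : ℝ) / p ≤ 1 := by
      rw [div_le_one h4]
      exact_mod_cast h3
    linarith
  have h3 : ∑ x ∈ (Pre (Om2 (hh k) N) z X).filter (fun x => (x + t).Prime),
      (FF (hh k) (lam (zz g R : Col (PP z R) (Fin k) → ℝ)) x) ^ 2 ≤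
      ∑ x ∈ Pre (Om2 (hh k) N) z X, (FF (fun o : Option (Fin k) => o.elim t (hh k)) (lam u) x) ^ 2 := by
    have h8 : ∀ x ∈ (Pre (Om2 (hh k) N) z X).filter (fun x => (x + t).Prime),
        (FF (hh k) (lam (zz g R : Col (PP z R) (Fin k) → ℝ)) x) ^ 2 =
        (FF (fun o : Option (Fin k) => o.elim t (hh k)) (lam u) x) ^ 2 := by
      intro x hx
      rw [mem_filter] at hx
      obtain ⟨hx1, hx2⟩ := hx
      unfold Pre at hx1
      rw [mem_filter, mem_Ioc] at hx1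
      rw [hu4 x (fun p hp hd => ?_)]
      have h6 := (Nat.prime_dvd_prime_iff_eq (hP p hp) hx2).mp hd
      have h7 := hPR p hp
      omega
    rw [sum_congr rfl h8]
    exact sum_le_sum_of_subset_of_nonneg (filter_subset _ _) fun _ _ _ => sq_nonneg _
  refine h3.trans (h1.trans ?_)
  have h4 : (X : ℝ) * V1 (Om2 (hh k) N) z * ∑ τ : Col (PP z R) (Option (Fin k)), u τ ^ 2 / (tot τ : ℝ) ≤
      X * V1 (Om2 (hh k) N) z * (4 * (BB (PP z R) g) ^ k / (kap z * Real.log R)) := by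
    apply mul_le_mul_of_nonneg_left h2
    positivity
  linarith

theorem ratio (m : ℕ) (hm : 1 ≤ m) : ∃ k : ℕ, 1 ≤ k ∧ ∀ B : ℕ, ∃ z₀ X₀ : ℕ, ∀ X z N : ℕ,
    X₀ ≤ X → z₀ ≤ z → (z : ℝ) ≤ (Real.log X) ^ B → Even N →
    ∃ L : Col (PP z ⌊(X : ℝ) ^ (1 / 5 : ℝ)⌋₊) (Fin k) → ℝ,
      (∀ σ, |L σ| ≤ ∏ p : {p : ℕ // p ∈ PP z ⌊(X : ℝ) ^ (1 / 5 : ℝ)⌋₊}, (1 + (k : ℝ) / ((p : ℕ) : ℝ))) ∧
      X / (Real.log X) ^ 2 ≤ ∑ x ∈ Pre (Om2 (hh k) N) z X,
        ((good k x : ℝ) - (m - 1) - k * bad k x) * (FF (hh k) L x) ^ 2 := by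
  obtain ⟨C₁, hC₁, hDDu⟩ := DD_upper
  obtain ⟨J, hJ⟩ : ∃ J : ℕ, 49152 * C₁ ^ 2 * (m + 1) ≤ (J : ℝ) := exists_nat_ge _
  have hm0 : (0 : ℝ) ≤ m := Nat.cast_nonneg m
  have hJ1 : 1 ≤ J := by
    have h1 : (1 : ℝ) ≤ J := by
      refine le_trans ?_ hJ
      have : (1 : ℝ) ≤ C₁ ^ 2 := one_le_pow₀ hC₁
      nlinarith
    exact_mod_cast h1
  have hJR : (1 : ℝ) ≤ J := by exact_mod_cast hJ1
  obtain ⟨k, hk⟩ : ∃ k : ℕ, k = 2 ^ J := ⟨_, rfl⟩
  have hk1 : 1 ≤ k := by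
    rw [hk]
    exact Nat.one_le_two_pow
  have hkR : (1 : ℝ) ≤ k := by exact_mod_cast hk1
  have hk2 : (k : ℝ) = 2 ^ J := by
    rw [hk]
    push_cast
    rfl
  refine ⟨k, hk1, fun B => ?_⟩
  obtain ⟨c₁, hc₁, X₁, hS1⟩ := S1_upper (Fin k) (2 * k) B
  obtain ⟨c₃, hc₃, X₃, hS3⟩ := Ratio_S3 k B
  obtain ⟨X₂, hS2⟩ := S2_lower (Fin k) (2 * k) B 3
  obtain ⟨X₄, hVlow⟩ := V1_low k B
  obtain ⟨X₅, hκlow⟩ := kap_low B
  obtain ⟨X₆, hθ⟩ := theta_low
  obtain ⟨c, hc0, hcc1, hcc3⟩ : ∃ c : ℝ, 0 < c ∧ c ≤ c₁ ∧ c ≤ c₃ :=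
    ⟨min c₁ c₃, by positivity, min_le_left _ _, min_le_right _ _⟩
  obtain ⟨H, hH⟩ : ∃ H : ℕ, H = k * primorial (2 * k) := ⟨_, rfl⟩
  obtain ⟨X₇, hnum⟩ := rnum C₁ hC₁ J k H B m hJ1 hk1 c hc0
  refine ⟨16 * k ^ 2 + H + 2, max (max (max X₁ X₂) (max X₃ X₄)) (max (max X₅ X₆) X₇),
    fun X z N hX hz hzB hN => ?_⟩
  simp only [max_le_iff] at hX
  obtain ⟨⟨⟨hX1, hX2⟩, hX3, hX4⟩, ⟨hX5, hX6⟩, hX7⟩ := hX
  obtain ⟨R, hR⟩ : ∃ R : ℕ, R = ⌊(X : ℝ) ^ (1 / 5 : ℝ)⌋₊ := ⟨_, rfl⟩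
  obtain ⟨ℓ, hℓ⟩ : ∃ ℓ : ℝ, ℓ = Real.log R / (16 * C₁ * J * k) := ⟨_, rfl⟩
  obtain ⟨⟨n1, n2, n3, n4⟩, ⟨n5, n6, n7⟩, ⟨n8, n9⟩, ⟨n10, n11⟩, ⟨n12, n13, n14⟩⟩ :=
    hnum X hX7 R hR ℓ hℓ
  rw [← hR]
  have hkk : k ≤ k ^ 2 := by nlinarith
  have hz2k : 2 * k ≤ z := by omega
  have hlogR : 0 < Real.log R := by linarith
  have hCJk : (0 : ℝ) < 16 * C₁ * J * k := by positivity
  have hℓ0 : 0 ≤ ℓ := by
    rw [hℓ]
    positivity
  obtain ⟨κ, hκ⟩ : ∃ κ : ℝ, κ = kap z := ⟨_, rfl⟩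
  have hκ0 : 0 < κ := hκ ▸ kap_pos z
  have hJℓ : (2 : ℝ) ^ J * ℓ = Real.log R / (16 * C₁ * J) := by
    rw [← hk2, hℓ]
    field_simp
  have hpow : ∀ j ≤ J, (2 : ℝ) ^ j * ℓ ≤ Real.log R / 16 := by
    intro j hj
    have a1 : (2 : ℝ) ^ j ≤ 2 ^ J := pow_le_pow_right₀ (by norm_num) hj
    have a2 : (2 : ℝ) ^ j * ℓ ≤ 2 ^ J * ℓ := mul_le_mul_of_nonneg_right a1 hℓ0
    refine a2.trans ?_
    rw [hJℓ]
    exact div_le_div_of_nonneg_left hlogR.le (by norm_num) (Ratio_n1 C₁ J hC₁ hJR)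
  have hRpos : (0 : ℝ) < R := by
    have : 0 < R := by omega
    exact_mod_cast this
  have hexpR : ∀ j ≤ J, Real.exp (2 ^ j * ℓ) ≤ R := by
    intro j hj
    rw [← Real.exp_log hRpos, Real.exp_le_exp]
    have := hpow j hj
    linarith
  have hexp1 : ∀ j : ℕ, Real.exp ℓ ≤ Real.exp (2 ^ j * ℓ) := by
    intro j
    rw [Real.exp_le_exp]
    exact le_mul_of_one_le_left hℓ0 (one_le_pow₀ (by norm_num))
  have hDl : ∀ j ≤ J, κ / 2 * (2 ^ j * ℓ) ≤ DD (PP z R) (Real.exp (2 ^ j * ℓ)) := by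
    intro j hj
    have a1 := DD_lower z R (Real.exp (2 ^ j * ℓ)) (by
      rw [← Real.exp_zero, Real.exp_le_exp]
      positivity) (hexpR j hj)
    rwa [Real.log_exp, ← hκ] at a1
  have hDu : ∀ j ≤ J, DD (PP z R) (Real.exp (2 ^ j * ℓ)) ≤ C₁ * κ * (2 ^ j * ℓ) := by
    intro j hj
    have a1 := hDDu z R (Real.exp (2 ^ j * ℓ)) (n8.trans (hexp1 j)) ((hzB.trans n9).trans (hexp1 j))
    rwa [Real.log_exp, ← hκ] at a1
  obtain ⟨g, hg⟩ : ∃ g : ℕ → ℝ, g = gg J ℓ := ⟨_, rfl⟩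
  have hg0 : ∀ n, 0 ≤ g n := fun n => hg ▸ gg_nonneg J ℓ n
  have hg1 : ∀ n, g n ≤ 1 := fun n => hg ▸ gg_le_one J ℓ n
  have hg2 : ∀ a b, a ≤ b → g b ≤ g a := fun a b h => hg ▸ gg_anti J ℓ hℓ0 a b h
  have hAA := AA_lower J ℓ hℓ0 (PP z R) κ (fun j hj => hDl j hj.le)
  have hBBu := BB_upper J ℓ hℓ0 (PP z R) κ C₁ hκ0.le (by linarith) hDu
  have hP : ∀ p ∈ PP z R, p.Prime := by
    intro p hp
    unfold PP at hp
    exact (mem_filter.mp hp).2.1
  have hPz : ∀ p ∈ PP z R, z < p := by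
    intro p hp
    unfold PP at hp
    exact (mem_filter.mp hp).2.2
  have hBLu := BL_upper J ℓ hℓ0 (PP z R) (fun p hp => (hP p hp).one_lt.le) κ C₁ hκ0.le
    (by linarith) hDu
  have hBBl := BB_lower J ℓ hℓ0 (PP z R) κ (by
    have := hDl 0 (Nat.zero_le _)
    rwa [pow_zero, one_mul] at this)
  have hBB1 := BB_one J ℓ hℓ0 (PP z R)
  rw [← hg] at hAA hBBu hBLu hBBl hBB1
  obtain ⟨a, ha⟩ : ∃ a : ℝ, a = AA (PP z R) g := ⟨_, rfl⟩
  obtain ⟨b, hb⟩ : ∃ b : ℝ, b = BB (PP z R) g := ⟨_, rfl⟩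
  rw [← ha] at hAA
  rw [← hb] at hBBu hBBl hBB1
  have hb0 : 0 < b := by linarith
  have ha0 : 0 ≤ a := le_trans (by positivity) hAA
  have hF : (Fintype.card (Fin k) : ℝ) * BL (PP z R) g ≤ BB (PP z R) g * Real.log R / 4 := by
    rw [Fintype.card_fin, ← hb]
    have a1 : (k : ℝ) * BL (PP z R) g ≤ k * ((J + 1) * C₁ * κ * ℓ ^ 2) := by gcongr
    have a2 : (k : ℝ) * ((J + 1) * C₁ * κ * ℓ ^ 2) = (κ / 2 * ℓ) * (2 * (J + 1) * C₁ * (k * ℓ)) := by
      ring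
    have a3 : (k : ℝ) * ℓ = Real.log R / (16 * C₁ * J) := by rw [hk2, hJℓ]
    have a4 : 2 * (J + 1) * C₁ * (k * ℓ) ≤ Real.log R / 4 := by
      rw [a3, ← mul_div_assoc, div_le_div_iff₀ (by positivity) (by norm_num)]
      exact Ratio_n3 C₁ J (Real.log R) (by linarith) (by positivity)
    calc (k : ℝ) * BL (PP z R) g ≤ (κ / 2 * ℓ) * (2 * (J + 1) * C₁ * (k * ℓ)) := by
          rw [← a2]
          exact a1
      _ ≤ (κ / 2 * ℓ) * (Real.log R / 4) := by gcongr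
      _ ≤ b * (Real.log R / 4) := by gcongr
      _ = b * Real.log R / 4 := by ring
  have hgR : ∀ n, g n ≠ 0 → n ^ 2 ≤ R := by
    intro n hn
    rw [hg] at hn
    have a1 := gg_supp J ℓ hℓ0 n hn
    have a2 : (n : ℝ) ^ 2 ≤ R := by
      calc (n : ℝ) ^ 2 ≤ (Real.exp (2 ^ J * ℓ)) ^ 2 := by gcongr
        _ = Real.exp (2 * (2 ^ J * ℓ)) := by rw [← Real.exp_nat_mul]; norm_num
        _ ≤ Real.exp (Real.log R) := by
            rw [Real.exp_le_exp]
            have := hpow J le_rfl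
            linarith
        _ = R := Real.exp_log hRpos
    exact_mod_cast a2
  -- sieve data
  obtain ⟨V, hV⟩ : ∃ V : ℝ, V = V1 (Om2 (hh k) N) z := ⟨_, rfl⟩
  have hVl : 1 / Real.log X ≤ V := hV ▸ hVlow X z N hX4 hzB hN
  have hL0 : 0 < Real.log X := by linarith
  have hV0 : 0 < V := lt_of_lt_of_le (by positivity) hVl
  obtain ⟨L, hLdef⟩ : ∃ L : Col (PP z R) (Fin k) → ℝ, L = lam (zz g R) := ⟨_, rfl⟩
  have hOm : ∀ p, (Om2 (hh k) N p).card ≤ 2 * k := by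
    intro p
    have := Om2_card (hh k) N p
    rwa [Fintype.card_fin] at this
  have hhH : ∀ i : Fin k, hh k i ≤ H := by
    intro i
    unfold hh
    rw [hH]
    exact Nat.mul_le_mul_right _ i.2
  have hok : ∀ p ∈ PP z R, ∀ i j : Fin k, i ≠ j → ¬ hh k i ≡ hh k j [MOD p] :=
    fun p hp i j hij => hh_ok k z p hz2k (hP p hp) (hPz p hp) i j hij
  have hXX : (0 : ℝ) < X := by
    have h1 : (R : ℝ) ≤ X := by exact_mod_cast n4
    linarith
  obtain ⟨F2, hF2⟩ : ∃ F2 : ℕ → ℝ, F2 = fun x => (FF (hh k) L x) ^ 2 := ⟨_, rfl⟩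
  have hF20 : ∀ x, 0 ≤ F2 x := fun x => by
    rw [hF2]
    exact sq_nonneg _
  obtain ⟨T, hT⟩ : ∃ T : ℝ, T = X * V * b ^ k := ⟨_, rfl⟩
  have hTpos : X * V ≤ T := by
    rw [hT]
    exact le_mul_of_one_le_right (by positivity) (one_le_pow₀ hBB1)
  -- first sum
  have hs1 : ∑ x ∈ Pre (Om2 (hh k) N) z X, F2 x ≤ T + (X : ℝ) ^ (1 - c₁) := by
    have a1 := hS1 X z R R hX1 (by rw [Fintype.card_fin]; omega) hzB n2 (by
        refine n2.trans ?_
        apply Real.rpow_le_rpow_of_exponent_le _ (by norm_num)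
        have h1 : (R : ℝ) ≤ X := by exact_mod_cast n4
        have h2 : (2 : ℝ) ≤ R := by exact_mod_cast n1
        linarith) (Om2 (hh k) N) hOm (fun p _ => Om2_lt (hh k) N p) (hh k)
      (fun i => (hhH i).trans n11) (zz g R) (fun σ => Ratio_zz g hg0 hg1 R σ)
      (fun σ h => Ratio_supp g R σ h) hok
    have a2 := S1_main (ι := Fin k) (P := PP z R) (fun p hp => (hP p hp).one_lt.le) R g hg0
    rw [Fintype.card_fin, ← hb] at a2
    rw [← hV, ← hLdef] at a1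
    rw [hF2]
    refine a1.trans ?_
    rw [hT]
    have : (X : ℝ) * V * ∑ ρ : Col (PP z R) (Fin k), zz g R ρ ^ 2 / (tot ρ : ℝ) ≤ X * V * b ^ k := by
      gcongr
    linarith
  -- second sums
  have hs2 : ∀ i : Fin k, T * ((m + 1) / k) * Real.log (3 * X) - X / (Real.log X) ^ 3 ≤
      ∑ x ∈ Pre (Om2 (hh k) N) z X, BV.th (x + hh k i) * F2 x := by
    intro i
    have a1 := hS2 X z R hX2 (by rw [Fintype.card_fin]; omega) hzB n2 (Om2 (hh k) N) hOm
      (fun p _ => Om2_lt (hh k) N p) (hh k) (fun i => le_trans (by exact_mod_cast hhH i) n10) i hok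
      (zz g R) (fun σ => Ratio_zz g hg0 hg1 R σ) (fun σ h => Ratio_supp g R σ h)
    have a2 := S2_main (ι := Fin k) z R (by rw [Fintype.card_fin]; omega) n1 i g hg0 hg2 hgR hF
    rw [Fintype.card_fin, ← ha, ← hb] at a2
    rw [← hLdef] at a1
    obtain ⟨M, hM⟩ : ∃ M : ℝ, M = ∑ ρ : Col (PP z R) (Fin k), (∏ p : {p : ℕ // p ∈ PP z R},
            Dm (q2 i p) (1 - ∑ j, q2 i p j) (ρ p)) *
          (∑ τ : Col (PP z R) (Fin k), (∏ p : {p : ℕ // p ∈ PP z R},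
            Amat (fun j => q2 i p j - 1 / ((p : ℕ) : ℝ)) (ρ p) (τ p)) * zz g R τ) ^ 2 := ⟨_, rfl⟩
    rw [← hM] at a1 a2
    have a3 : V = κ * V2 (Om2 (hh k) N) (hh k i) z := by
      rw [hV, hκ]
      exact V1_eq (hh k) N z i
    obtain ⟨v, hv⟩ : ∃ v : ℝ, v = V2 (Om2 (hh k) N) (hh k i) z := ⟨_, rfl⟩
    rw [← hv] at a1 a3
    have hv0 : 0 < v := by
      have : 0 < κ * v := a3 ▸ hV0
      exact (pos_iff_pos_of_mul_pos this).mp hκ0
    have a4 := hθ X (hh k i) hX6 (le_trans (by exact_mod_cast hhH i) n10)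
    obtain ⟨Θ, hΘ⟩ : ∃ Θ : ℝ, Θ = ∑ n ∈ Ioc (X + hh k i) (2 * X + hh k i), BV.th n := ⟨_, rfl⟩
    rw [← hΘ] at a1 a4
    rw [hF2]
    refine le_trans ?_ a1
    have hM0 : 0 ≤ 1 / 8 * a ^ 2 * b ^ (k - 1) := by positivity
    have hΘ0 : 0 ≤ Θ := by linarith
    have a5 : (X / 2) * v * (1 / 8 * a ^ 2 * b ^ (k - 1)) ≤ Θ * v * M :=
      mul_le_mul (mul_le_mul_of_nonneg_right a4 hv0.le) a2 hM0 (mul_nonneg hΘ0 hv0.le)
    have a6 : T * ((m + 1) / k) * Real.log (3 * X) ≤ (X / 2) * v * (1 / 8 * a ^ 2 * b ^ (k - 1)) := by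
      have hbk : b ^ k = b ^ (k - 1) * b := by
        rw [← pow_succ]
        congr 1
        omega
      rw [hT, a3, hbk]
      have key : 16 * κ * b * ((m + 1) / k) * Real.log (3 * X) ≤ a ^ 2 := by
        have hkℓ : (k : ℝ) * ℓ = Real.log R / (16 * C₁ * J) := by rw [hk2, hJℓ]
        have h3X : 0 < Real.log (3 * X) := by linarith
        have c1 : 16 * κ * b * ((m + 1) / k) * Real.log (3 * X) ≤
            16 * κ * (2 * C₁ * κ * ℓ) * ((m + 1) / k) * Real.log (3 * X) := by gcongr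
        have c2 : (J * κ * ℓ / 4) ^ 2 ≤ a ^ 2 := by
          apply pow_le_pow_left₀ (by positivity) hAA
        refine c1.trans (le_trans ?_ c2)
        have c3 : 512 * C₁ * (m + 1) * Real.log (3 * X) ≤ J ^ 2 * (k * ℓ) := by
          rw [hkℓ]
          have c4 : (J : ℝ) ^ 2 * (Real.log R / (16 * C₁ * J)) = J * Real.log R / (16 * C₁) := by
            field_simp
          rw [c4, le_div_iff₀ (by positivity)]
          have c5 : 49152 * C₁ ^ 2 * (m + 1) * (Real.log (3 * X) / 6) ≤ J * Real.log R := by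
            gcongr
          exact Ratio_n4 C₁ J m (Real.log R) (Real.log (3 * X)) hC₁ c5
        have hk0 : (0 : ℝ) < k := by linarith
        have c6 : 16 * κ * (2 * C₁ * κ * ℓ) * ((m + 1) / k) * Real.log (3 * X) =
            κ ^ 2 * ℓ / (16 * k) * (512 * C₁ * (m + 1) * Real.log (3 * X)) := by
          field_simp
          ring
        have c7 : (J * κ * ℓ / 4) ^ 2 = κ ^ 2 * ℓ / (16 * k) * (J ^ 2 * (k * ℓ)) := by
          field_simp
          ring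
        rw [c6, c7]
        gcongr
      calc X * (κ * v) * (b ^ (k - 1) * b) * ((m + 1) / k) * Real.log (3 * X)
          = X * v * b ^ (k - 1) / 16 * (16 * κ * b * ((m + 1) / k) * Real.log (3 * X)) := by ring
        _ ≤ X * v * b ^ (k - 1) / 16 * a ^ 2 := by gcongr
        _ = (X / 2) * v * (1 / 8 * a ^ 2 * b ^ (k - 1)) := by ring
    linarith
  -- primes in the tuple
  have hgood : T * (m + 1) - k * (X / (Real.log X) ^ 3) ≤
      ∑ x ∈ Pre (Om2 (hh k) N) z X, (good k x : ℝ) * F2 x := by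
    have h3X : 0 < Real.log (3 * X) := by linarith
    have a1 : ∀ x ∈ Pre (Om2 (hh k) N) z X, ∀ i : Fin k, BV.th (x + hh k i) ≤
        Real.log (3 * X) * (if (x + hh k i).Prime then 1 else 0) := by
      intro x hx i
      unfold Pre at hx
      rw [mem_filter, mem_Ioc] at hx
      split_ifs with hp
      · rw [mul_one]
        refine (BV.th_le _).trans ?_
        apply Real.log_le_log
        · exact_mod_cast hp.pos
        · have := (hhH i).trans n11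
          have h2 : x + hh k i ≤ 3 * X := by omega
          exact_mod_cast h2
      · rw [mul_zero]
        unfold BV.th
        rw [if_neg hp]
    have a2 : ∑ i : Fin k, ∑ x ∈ Pre (Om2 (hh k) N) z X, BV.th (x + hh k i) * F2 x ≤
        Real.log (3 * X) * ∑ x ∈ Pre (Om2 (hh k) N) z X, (good k x : ℝ) * F2 x := by
      rw [sum_comm, mul_sum]
      refine sum_le_sum fun x hx => ?_
      rw [← sum_mul, ← mul_assoc]
      apply mul_le_mul_of_nonneg_right _ (hF20 x)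
      have a3 : (good k x : ℝ) = ∑ i : Fin k, (if (x + hh k i).Prime then (1 : ℝ) else 0) := by
        unfold good
        rw [sum_boole]
      rw [a3, mul_sum]
      exact sum_le_sum fun i _ => a1 x hx i
    have a4 : ∑ i : Fin k, (T * ((m + 1) / k) * Real.log (3 * X) - X / (Real.log X) ^ 3) ≤
        ∑ i : Fin k, ∑ x ∈ Pre (Om2 (hh k) N) z X, BV.th (x + hh k i) * F2 x :=
      sum_le_sum fun i _ => hs2 i
    rw [sum_const, card_univ, Fintype.card_fin, nsmul_eq_mul] at a4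
    have a5 : (k : ℝ) * (T * ((m + 1) / k) * Real.log (3 * X) - X / (Real.log X) ^ 3) =
        T * (m + 1) * Real.log (3 * X) - k * (X / (Real.log X) ^ 3) := by
      have hk0 : (k : ℝ) ≠ 0 := by linarith
      field_simp
    rw [a5] at a4
    have a6 : T * (m + 1) * Real.log (3 * X) - k * (X / (Real.log X) ^ 3) ≤
        Real.log (3 * X) * ∑ x ∈ Pre (Om2 (hh k) N) z X, (good k x : ℝ) * F2 x := a4.trans a2
    have a7 : 0 ≤ (k : ℝ) * (X / (Real.log X) ^ 3) := by positivity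
    have a8 : Real.log (3 * X) * (T * (m + 1) - k * (X / (Real.log X) ^ 3)) ≤
        T * (m + 1) * Real.log (3 * X) - k * (X / (Real.log X) ^ 3) :=
      Ratio_n8 _ _ _ _ n6 a7
    exact le_of_mul_le_mul_left (a8.trans a6) h3X
  -- other primes
  have hbad : k * ∑ x ∈ Pre (Om2 (hh k) N) z X, (bad k x : ℝ) * F2 x ≤
      T / 2 + k * H * (X : ℝ) ^ (1 - c₃) := by
    classical
    have a1 : ∑ x ∈ Pre (Om2 (hh k) N) z X, (bad k x : ℝ) * F2 x =
        ∑ t ∈ (Icc 1 H).filter (fun t => ∀ i, t ≠ hh k i),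
          ∑ x ∈ (Pre (Om2 (hh k) N) z X).filter (fun x => (x + t).Prime), F2 x := by
      have b1 : ∀ x, (bad k x : ℝ) = ∑ t ∈ (Icc 1 H).filter (fun t => ∀ i, t ≠ hh k i),
          (if (x + t).Prime then (1 : ℝ) else 0) := by
        intro x
        unfold bad
        rw [sum_boole, filter_filter, ← hH]
      rw [sum_congr rfl fun x _ => by rw [b1 x, sum_mul], sum_comm]
      refine sum_congr rfl fun t _ => ?_
      rw [sum_filter]
      refine sum_congr rfl fun x _ => ?_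
      split_ifs
      · rw [one_mul]
      · rw [zero_mul]
    have a2 : ∀ t ∈ (Icc 1 H).filter (fun t => ∀ i, t ≠ hh k i),
        ∑ x ∈ (Pre (Om2 (hh k) N) z X).filter (fun x => (x + t).Prime), F2 x ≤
          T * (4 / (κ * Real.log R)) + (X : ℝ) ^ (1 - c₃) := by
      intro t ht
      rw [mem_filter] at ht
      have b1 := hS3 X z R N hX3 (by omega) hzB n2 n3 n1 n4 (by omega) g hg0 hg1 hg2 t
        (by rw [← hH]; exact ht.1) ht.2
      rw [← hV, ← hb, ← hκ, ← hLdef] at b1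
      rw [hF2]
      refine b1.trans (le_of_eq ?_)
      rw [hT]
      ring
    have a3 : ∑ t ∈ (Icc 1 H).filter (fun t => ∀ i, t ≠ hh k i),
        ∑ x ∈ (Pre (Om2 (hh k) N) z X).filter (fun x => (x + t).Prime), F2 x ≤
          H * (T * (4 / (κ * Real.log R)) + (X : ℝ) ^ (1 - c₃)) := by
      refine (sum_le_sum a2).trans ?_
      rw [sum_const, nsmul_eq_mul]
      have b2 : (((Icc 1 H).filter (fun t => ∀ i, t ≠ hh k i)).card : ℝ) ≤ H := by
        have := card_filter_le (Icc 1 H) (fun t => ∀ i, t ≠ hh k i)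
        rw [Nat.card_Icc, Nat.add_sub_cancel] at this
        exact_mod_cast this
      have hTn : 0 ≤ T := le_trans (by positivity) hTpos
      gcongr
    rw [a1]
    have hTn : 0 ≤ T := le_trans (by positivity) hTpos
    have a4 : (k : ℝ) * H * (4 / (κ * Real.log R)) ≤ 1 / 2 := by
      have b3 := hκlow X z hX5 hzB
      rw [← hκ] at b3
      have b4 : 0 < (Real.log X) ^ (1 / 2 : ℝ) := Real.rpow_pos_of_pos hL0 _
      have b5 : 1 ≤ κ * (Real.log X) ^ (1 / 2 : ℝ) := by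
        rw [div_le_iff₀ b4] at b3
        exact b3
      rw [← mul_div_assoc, div_le_div_iff₀ (by positivity) (by norm_num)]
      calc (k : ℝ) * H * 4 * 2 = 8 * k * H * 1 := by ring
        _ ≤ 8 * k * H * (κ * (Real.log X) ^ (1 / 2 : ℝ)) := by gcongr
        _ = κ * (8 * k * H * (Real.log X) ^ (1 / 2 : ℝ)) := by ring
        _ ≤ κ * Real.log R := by gcongr
        _ = 1 * (κ * Real.log R) := by ring
    calc (k : ℝ) * ∑ t ∈ (Icc 1 H).filter (fun t => ∀ i, t ≠ hh k i),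
        ∑ x ∈ (Pre (Om2 (hh k) N) z X).filter (fun x => (x + t).Prime), F2 x
        ≤ k * (H * (T * (4 / (κ * Real.log R)) + (X : ℝ) ^ (1 - c₃))) := by gcongr
      _ = T * (k * H * (4 / (κ * Real.log R))) + k * H * (X : ℝ) ^ (1 - c₃) := by ring
      _ ≤ T * (1 / 2) + k * H * (X : ℝ) ^ (1 - c₃) := by gcongr
      _ = T / 2 + k * H * (X : ℝ) ^ (1 - c₃) := by ring
  refine ⟨L, fun σ => ?_, ?_⟩
  · rw [hLdef]
    have := abs_lam_le (zz g R : Col (PP z R) (Fin k) → ℝ) (fun τ => Ratio_zz g hg0 hg1 R τ) σ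
    rwa [Fintype.card_fin] at this
  · have e1 : ∑ x ∈ Pre (Om2 (hh k) N) z X,
        ((good k x : ℝ) - (m - 1) - k * bad k x) * (FF (hh k) L x) ^ 2 =
        ∑ x ∈ Pre (Om2 (hh k) N) z X, (good k x : ℝ) * F2 x -
          (m - 1) * ∑ x ∈ Pre (Om2 (hh k) N) z X, F2 x -
          k * ∑ x ∈ Pre (Om2 (hh k) N) z X, (bad k x : ℝ) * F2 x := by
      rw [mul_sum, mul_sum, ← sum_sub_distrib, ← sum_sub_distrib]
      refine sum_congr rfl fun x _ => ?_
      rw [hF2]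
      ring
    rw [e1]
    have hm1 : (0 : ℝ) ≤ m - 1 := by
      have : (1 : ℝ) ≤ m := by exact_mod_cast hm
      linarith
    have e2 : (m - 1 : ℝ) * ∑ x ∈ Pre (Om2 (hh k) N) z X, F2 x ≤ (m - 1) * (T + (X : ℝ) ^ (1 - c₁)) := by
      gcongr
    have hX1' : (1 : ℝ) ≤ X := by
      have h1 : (R : ℝ) ≤ X := by exact_mod_cast n4
      have h2 : (2 : ℝ) ≤ R := by exact_mod_cast n1
      linarith
    have e3 : (X : ℝ) ^ (1 - c₁) ≤ (X : ℝ) ^ (1 - c) :=
      Real.rpow_le_rpow_of_exponent_le hX1' (by linarith)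
    have e4 : (X : ℝ) ^ (1 - c₃) ≤ (X : ℝ) ^ (1 - c) :=
      Real.rpow_le_rpow_of_exponent_le hX1' (by linarith)
    have e5 : (m + k * H : ℝ) * (X : ℝ) ^ (1 - c) ≤ X / (4 * Real.log X) := by
      rw [le_div_iff₀ (by positivity)]
      have f1 : (X : ℝ) ^ (1 - c) * (X : ℝ) ^ c = X := by
        rw [← Real.rpow_add hXX]
        norm_num
      calc (m + k * H : ℝ) * (X : ℝ) ^ (1 - c) * (4 * Real.log X)
          = (X : ℝ) ^ (1 - c) * (4 * (m + k * H) * Real.log X) := by ring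
        _ ≤ (X : ℝ) ^ (1 - c) * (X : ℝ) ^ c := by gcongr
        _ = X := f1
    have e6 : (k : ℝ) * (X / (Real.log X) ^ 3) ≤ X / (4 * Real.log X) := by
      rw [← mul_div_assoc, div_le_div_iff₀ (by positivity) (by positivity)]
      calc (k : ℝ) * X * (4 * Real.log X) = X * Real.log X * (4 * k) := by ring
        _ ≤ X * Real.log X * (Real.log X) ^ 2 := by gcongr
        _ = X * (Real.log X) ^ 3 := by ring
    have e7 : X / Real.log X ≤ T := by
      refine le_trans ?_ hTpos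
      rw [div_eq_mul_one_div]
      gcongr
    have e8 : X / (4 * Real.log X) = (X / Real.log X) / 4 := by
      field_simp
    have e9 : X / (Real.log X) ^ 2 ≤ (X / Real.log X) / 2 := Ratio_n9 X (Real.log X) hXX n7
    have e10 : (k : ℝ) * H * (X : ℝ) ^ (1 - c₃) ≤ k * H * (X : ℝ) ^ (1 - c) := by gcongr
    have e11 : (m - 1 : ℝ) * (X : ℝ) ^ (1 - c₁) ≤ (m : ℝ) * (X : ℝ) ^ (1 - c) := by
      exact Ratio_n11 m _ _ (by linarith) e3 (by positivity)
    have e12 : (m + k * H : ℝ) * (X : ℝ) ^ (1 - c) =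
        m * (X : ℝ) ^ (1 - c) + k * H * (X : ℝ) ^ (1 - c) := by ring
    rw [e12] at e5
    rw [e8] at e5 e6
    have e13 : 0 ≤ X / Real.log X := by positivity
    have e14 : (m - 1 : ℝ) * (T + (X : ℝ) ^ (1 - c₁)) = m * T - T + (m - 1) * (X : ℝ) ^ (1 - c₁) := by
      ring
    have e15 : T * (m + 1) = m * T + T := by ring
    rw [e14] at e2
    rw [e15] at hgood
    clear hDDu hS1 hS2 hS3 hnum hAA hBBu hBLu hBBl hpow hDl hDu hs1 hs2
    linarith

end Pool.Agent.Lib.MT
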