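import Pool.Agent.Lib.MT.Strings

/-!
# MT-Runs: primes with index in a set with bounded gaps

PROOF. For a counted x (of `strings`) let n = π(x). There is b ∈ (n, n + m] with S b. Let p be the b-th prime (`Nat.nth Nat.Prime (b - 1)`): π(p) = b > n so p > x; the interval (x, x + H], H = k primorial(2k),
contains at least good k x ≥ m primes, so π(x + H) ≥ n + m ≥ b and p ≤ x + H. As bad k x = 0, p = x + hh k i for some i; so for every prime q ≤ z: x % q ∉ Om2 (hh k) N q gives ¬ p ≡ N [MOD q]. The map x ↦ p is at most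
H-to-one (x ∈ [p - H, p)). So the number of such p in (X, 2X + H] is ≥ X/(H (log X)^C) ≥ X/(log X)^(C+1).
-/

set_option autoImplicit false

open Finset

namespace Pool.Agent.Lib.MT

private theorem runs_pi_le (x : ℕ) : Nat.primeCounting x ≤ x := by
  rw [Nat.primeCounting, Nat.primeCounting', Nat.count_eq_card_filter_range]
  calc ((range (x + 1)).filter Nat.Prime).card ≤ (Ioc 0 x).card := by
        apply card_le_card
        intro p hp
        rw [mem_filter, mem_range] at hp
        rw [mem_Ioc]
        exact ⟨hp.2.pos, by omega⟩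
    _ = x := by simp

private theorem runs_hh_pos (k : ℕ) (i : Fin k) : 1 ≤ hh k i := by
  unfold hh
  exact Nat.mul_pos (Nat.succ_pos _) (primorial_pos _)

private theorem runs_hh_le (k : ℕ) (i : Fin k) : hh k i ≤ k * primorial (2 * k) := by
  unfold hh
  exact Nat.mul_le_mul_right _ i.2

private theorem runs_hh_inj (k : ℕ) (i j : Fin k) (h : hh k i = hh k j) : i = j := by
  unfold hh at h
  have := Nat.eq_of_mul_eq_mul_right (primorial_pos (2 * k)) h
  exact Fin.ext (by omega)

private theorem runs_good (k x : ℕ) :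
    Nat.primeCounting x + good k x ≤ Nat.primeCounting (x + k * primorial (2 * k)) := by
  classical
  unfold Nat.primeCounting Nat.primeCounting'
  rw [Nat.count_eq_card_filter_range, Nat.count_eq_card_filter_range, good]
  have h1 : (univ.filter (fun i : Fin k => (x + hh k i).Prime)).card =
      ((univ.filter (fun i : Fin k => (x + hh k i).Prime)).image (fun i => x + hh k i)).card := by
    rw [card_image_of_injOn]
    intro i _ j _ hij
    simp only [] at hij
    exact runs_hh_inj k i j (by omega)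
  rw [h1, ← card_union_of_disjoint]
  · apply card_le_card
    intro p hp
    rw [mem_union, mem_filter, mem_image, mem_range] at hp
    rw [mem_filter, mem_range]
    rcases hp with hp | ⟨i, hi, rfl⟩
    · exact ⟨by omega, hp.2⟩
    · rw [mem_filter] at hi
      have := runs_hh_le k i
      exact ⟨by omega, hi.2⟩
  · rw [disjoint_left]
    intro p hp hp'
    rw [mem_filter, mem_range] at hp
    rw [mem_image] at hp'
    obtain ⟨i, hi, rfl⟩ := hp'
    have := runs_hh_pos k i
    omega

open Classical in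
theorem runs (m : ℕ) (hm : 1 ≤ m) : ∃ C H : ℕ, ∀ B : ℕ, ∃ z₀ X₀ : ℕ, ∀ X z N : ℕ,
    X₀ ≤ X → z₀ ≤ z → (z : ℝ) ≤ (Real.log X) ^ B → Even N →
    ∀ S : ℕ → Prop, (∀ n ≤ 2 * X, ∃ b, n < b ∧ b ≤ n + m ∧ S b) →
    X / (Real.log X) ^ C ≤
      (((Ioc X (2 * X + H)).filter (fun p => p.Prime ∧ S (Nat.primeCounting p) ∧
        ∀ q ∈ PP 0 z, ¬ p ≡ N [MOD q])).card : ℝ) := by
  obtain ⟨k, hk, C, hC⟩ := strings m hm
  refine ⟨C + 1, k * primorial (2 * k), fun B => ?_⟩
  obtain ⟨z₀, X₀, h⟩ := hC B
  refine ⟨z₀, max X₀ ⌈Real.exp ((k * primorial (2 * k) : ℕ) : ℝ)⌉₊,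
    fun X z N hX hz hzX hN S hS => ?_⟩
  have h1 := h X z N (le_trans (le_max_left _ _) hX) hz hzX hN
  have hX2 : Real.exp ((k * primorial (2 * k) : ℕ) : ℝ) ≤ X :=
    le_trans (Nat.le_ceil _) (by exact_mod_cast le_trans (le_max_right _ _) hX)
  have hH1 : 1 ≤ k * primorial (2 * k) := Nat.mul_pos hk (primorial_pos _)
  have hXpos : (0 : ℝ) < X := lt_of_lt_of_le (Real.exp_pos _) hX2
  have hlog : ((k * primorial (2 * k) : ℕ) : ℝ) ≤ Real.log X := by
    rw [Real.le_log_iff_exp_le hXpos]
    exact hX2
  have key : ∀ x ∈ (Pre (Om2 (hh k) N) z X).filter (fun x => m ≤ good k x ∧ bad k x = 0),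
      ∃ p ∈ (Ioc X (2 * X + k * primorial (2 * k))).filter
        (fun p => p.Prime ∧ S (Nat.primeCounting p) ∧ ∀ q ∈ PP 0 z, ¬ p ≡ N [MOD q]),
      x < p ∧ p ≤ x + k * primorial (2 * k) := by
    intro x hx
    rw [mem_filter] at hx
    obtain ⟨hxP, hg, hb⟩ := hx
    unfold Pre at hxP
    rw [mem_filter, mem_Ioc] at hxP
    obtain ⟨⟨hx1, hx2⟩, hxq⟩ := hxP
    obtain ⟨b, hb1, hb2, hSb⟩ := hS (Nat.primeCounting x) (le_trans (runs_pi_le x) hx2)
    obtain ⟨b, rfl⟩ : ∃ b', b = b' + 1 := ⟨b - 1, by omega⟩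
    have hpp : (Nat.nth Nat.Prime b).Prime := Nat.prime_nth_prime b
    have hpi : Nat.primeCounting (Nat.nth Nat.Prime b) = b + 1 := by
      unfold Nat.primeCounting Nat.primeCounting'
      exact Nat.count_nth_succ_of_infinite Nat.infinite_setOfPred_prime b
    have hxp : x < Nat.nth Nat.Prime b := by
      by_contra hcon
      have := Nat.monotone_primeCounting (not_lt.mp hcon)
      omega
    have hpH : Nat.nth Nat.Prime b ≤ x + k * primorial (2 * k) := by
      have h2 := runs_good k x
      have h3 : b < Nat.count Nat.Prime (x + k * primorial (2 * k) + 1) := by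
        have h4 : Nat.primeCounting (x + k * primorial (2 * k)) =
          Nat.count Nat.Prime (x + k * primorial (2 * k) + 1) := rfl
        omega
      exact Nat.lt_succ_iff.mp (Nat.nth_lt_of_lt_count h3)
    refine ⟨Nat.nth Nat.Prime b, ?_, hxp, hpH⟩
    rw [mem_filter, mem_Ioc]
    refine ⟨⟨by omega, by omega⟩, hpp, by rw [hpi]; exact hSb, ?_⟩
    -- the prime is in the tuple
    have hi : ∃ i : Fin k, Nat.nth Nat.Prime b = x + hh k i := by
      by_contra hcon
      push Not at hcon
      unfold bad at hb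
      rw [card_eq_zero] at hb
      have : Nat.nth Nat.Prime b - x ∈ (Icc 1 (k * primorial (2 * k))).filter
          (fun t => (∀ i, t ≠ hh k i) ∧ (x + t).Prime) := by
        rw [mem_filter, mem_Icc]
        refine ⟨⟨by omega, by omega⟩, fun i hti => hcon i (by omega), ?_⟩
        rw [Nat.add_sub_cancel' hxp.le]
        exact hpp
      rw [hb] at this
      exact absurd this (notMem_empty _)
    obtain ⟨i, hi⟩ := hi
    intro q hq hcong
    apply hxq q hq
    have hqp : q.Prime := by
      unfold PP at hq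
      rw [mem_filter] at hq
      exact hq.2.1
    refine (@Finset.mem_filter _ _ (_) _ _).mpr ⟨mem_range.mpr (Nat.mod_lt _ hqp.pos), i, Or.inr ?_⟩
    rw [hi] at hcong
    exact ((Nat.mod_modEq x q).add_right _).trans hcong
  choose! f hf using key
  have hcard : ((Pre (Om2 (hh k) N) z X).filter (fun x => m ≤ good k x ∧ bad k x = 0)).card ≤
      (k * primorial (2 * k)) * ((Ioc X (2 * X + k * primorial (2 * k))).filter
        (fun p => p.Prime ∧ S (Nat.primeCounting p) ∧ ∀ q ∈ PP 0 z, ¬ p ≡ N [MOD q])).card := by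
    apply card_le_mul_card_image_of_maps_to (f := f) (fun x hx => (hf x hx).1)
    intro p _
    calc _ ≤ (Ico (p - k * primorial (2 * k)) p).card := by
          apply card_le_card
          intro x hx
          rw [mem_filter] at hx
          have h5 := (hf x hx.1).2
          rw [hx.2] at h5
          rw [mem_Ico]
          omega
      _ ≤ k * primorial (2 * k) := by
          rw [Nat.card_Ico]
          omega
  have hcard' : (((Pre (Om2 (hh k) N) z X).filter (fun x => m ≤ good k x ∧ bad k x = 0)).card : ℝ) ≤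
      ((k * primorial (2 * k) : ℕ) : ℝ) * (((Ioc X (2 * X + k * primorial (2 * k))).filter
        (fun p => p.Prime ∧ S (Nat.primeCounting p) ∧ ∀ q ∈ PP 0 z, ¬ p ≡ N [MOD q])).card : ℝ) := by
    exact_mod_cast hcard
  have hlog0 : (0 : ℝ) < Real.log X := lt_of_lt_of_le (by exact_mod_cast hH1) hlog
  have h6 := h1.trans hcard'
  have h7 := h6.trans (mul_le_mul_of_nonneg_right hlog (Nat.cast_nonneg _))
  rw [pow_succ, ← div_div, div_le_iff₀ hlog0]
  rw [mul_comm] at h7
  exact h7

end Pool.Agent.Lib.MT
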