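import Pool.Agent.Lib.MT.Inv
import Pool.Agent.Lib.MT.Part

/-!
# MT-Star: weights which also sieve one more form x + t

Colour set `Option ι`: `some i` for x + h i, `none` (the star) for x + t. For a colouring τ of `Option ι` let ρ(τ) be its part with colours `some i` and s(τ) the set of primes with the star. Put
z' τ = mu τ * yy g R (ρ(τ)) * [pr s(τ) ≤ R]/GG R (ρ(τ)).
PROOF. (1) GG ≥ 1 (s = ∅), so |z'| ≤ 1 (0 ≤ g ≤ 1); z' τ ≠ 0 implies tot τ ≤ R * R. (2) ∑_τ z' τ^2/tot τ = ∑_ρ yy ρ^2/tot ρ * ∑_{s ⊆ P \ supp ρ, pr s ≤ R} (1/pr s)/GG ρ^2 = ∑_ρ yy ρ^2/(tot ρ GG ρ)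
(bijection τ ↔ (ρ, s)). (3) if σ' has no star, σ' = some ∘ σ, then lam z' σ' = lam (zz g R) σ: the sum over τ = (ρ, s) factors: ∑_ρ (∏ Amat (-1/p) (σ p) (ρ p)) mu ρ yy ρ * ∑_s (∏_{p ∈ s} (-1/p)(-1))/GG ρ =
∑_ρ (..) * 1 (terms with ρ not extending σ vanish). (4) if no p ∈ P divides x + t, a σ' which fits x has no star; so FF h' (lam z') x = FF h (lam (zz g R)) x.
-/

set_option autoImplicit false

open Finset

namespace Pool.Agent.Lib.MT

variable {P : Finset ℕ} {ι : Type} [Fintype ι] [DecidableEq ι]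

/-- `∑ 1/pr s` over the sets `s` of uncoloured primes of `ρ` with `pr s ≤ R` -/
noncomputable def GG (R : ℕ) (ρ : Col P ι) : ℝ :=
  ∑ s ∈ (P.filter (fun p => ∀ i, p ∉ part i ρ)).powerset.filter (fun s => pr s ≤ R), 1 / (pr s : ℝ)

/-- the uncoloured primes -/
private def star_unc (ρ : Col P ι) : Finset ℕ := P.filter (fun p => ∀ i, p ∉ part i ρ)

private lemma star_unc_none (ρ : Col P ι) (s : Finset ℕ) (hs : s ⊆ star_unc ρ)
    (p : {p : ℕ // p ∈ P}) (hp : (p : ℕ) ∈ s) : ρ p = none := by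
  have h1 := hs hp
  rw [star_unc, mem_filter] at h1
  cases h : ρ p with
  | none => rfl
  | some i =>
    exfalso
    exact h1.2 i ((mem_part i ρ p).2 ⟨p.2, h⟩)

/-- the colouring with the part `ρ` and the star on `s` -/
private def star_comb (ρ : Col P ι) (s : Finset ℕ) : Col P (Option ι) := fun p =>
  match ρ p with
  | some i => some (some i)
  | none => if (p : ℕ) ∈ s then some none else none

/-- the part without the star -/
private def star_rho (τ : Col P (Option ι)) : Col P ι := fun p =>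
  match τ p with
  | some (some i) => some i
  | _ => none

private lemma star_comb_rho (τ : Col P (Option ι)) : star_comb (star_rho τ) (part none τ) = τ := by
  funext p
  have h1 : ((p : ℕ) ∈ part none τ) ↔ τ p = some none := by
    rw [mem_part]
    constructor
    · rintro ⟨_, h⟩; exact h
    · intro h; exact ⟨p.2, h⟩
  rcases h : τ p with _ | _ | i
  · simp [star_comb, star_rho, h, h1]
  · simp [star_comb, star_rho, h, h1]
  · simp [star_comb, star_rho, h]

private lemma star_rho_comb (ρ : Col P ι) (s : Finset ℕ) : star_rho (star_comb ρ s) = ρ := by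
  funext p
  cases h : ρ p with
  | some i => simp [star_comb, star_rho, h]
  | none =>
    by_cases hs : (p : ℕ) ∈ s
    · simp [star_comb, star_rho, h, hs]
    · simp [star_comb, star_rho, h, hs]

private lemma star_part_comb (ρ : Col P ι) (s : Finset ℕ) (hs : s ⊆ star_unc ρ) :
    part none (star_comb ρ s) = s := by
  ext p
  rw [mem_part]
  constructor
  · rintro ⟨hp, h⟩
    by_contra hns
    cases hr : ρ ⟨p, hp⟩ with
    | some i => simp [star_comb, hr] at h
    | none => simp [star_comb, hr, hns] at h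
  · intro h
    have hp : p ∈ P := (mem_filter.1 (hs h)).1
    refine ⟨hp, ?_⟩
    have := star_unc_none ρ s hs ⟨p, hp⟩ h
    simp [star_comb, this, h]

private lemma star_part_sub (τ : Col P (Option ι)) : part none τ ⊆ star_unc (star_rho τ) := by
  intro p hp
  rw [mem_part] at hp
  obtain ⟨hp, h⟩ := hp
  rw [star_unc, mem_filter]
  refine ⟨hp, fun i hi => ?_⟩
  rw [mem_part] at hi
  obtain ⟨_, h2⟩ := hi
  simp [star_rho, h] at h2

private lemma star_sum (f : Col P (Option ι) → ℝ) :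
    ∑ τ : Col P (Option ι), f τ = ∑ ρ : Col P ι, ∑ s ∈ (star_unc ρ).powerset, f (star_comb ρ s) := by
  rw [Finset.sum_sigma']
  refine Finset.sum_bij' (fun τ _ => ⟨star_rho τ, part none τ⟩) (fun q _ => star_comb q.1 q.2) ?_ ?_ ?_ ?_ ?_
  · intro τ _
    rw [mem_sigma]
    exact ⟨mem_univ _, mem_powerset.2 (star_part_sub τ)⟩
  · intro q _
    exact mem_univ _
  · intro τ _
    exact star_comb_rho τ
  · rintro ⟨ρ, s⟩ hq
    rw [mem_sigma] at hq
    have h1 : s ⊆ star_unc ρ := mem_powerset.1 hq.2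
    simp only
    rw [star_rho_comb, star_part_comb ρ s h1]
  · intro τ _
    simp only
    rw [star_comb_rho]

private lemma star_prod_s (s : Finset ℕ) (hs : s ⊆ P) {M : Type} [CommMonoid M] (f : ℕ → M) :
    ∏ p : {p : ℕ // p ∈ P}, (if (p : ℕ) ∈ s then f p else 1) = ∏ p ∈ s, f p := by
  have h1 : ∏ p : {p : ℕ // p ∈ P}, (if (p : ℕ) ∈ s then f p else 1) =
      ∏ p ∈ P, (if p ∈ s then f p else 1) :=
    Finset.prod_coe_sort P (fun p => if p ∈ s then f p else 1)
  rw [h1, Finset.prod_ite_mem, Finset.inter_eq_right.2 hs]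

private lemma star_unc_sub (ρ : Col P ι) : star_unc ρ ⊆ P := filter_subset _ _

private lemma star_tot (ρ : Col P ι) (s : Finset ℕ) (hs : s ⊆ star_unc ρ) :
    tot (star_comb ρ s) = tot ρ * pr s := by
  rw [pr, ← star_prod_s s (hs.trans (star_unc_sub ρ)) (fun p => p), tot, tot, ← Finset.prod_mul_distrib]
  refine Finset.prod_congr rfl fun p _ => ?_
  by_cases hp : (p : ℕ) ∈ s
  · have h := star_unc_none ρ s hs p hp
    simp [star_comb, h, hp]
  · cases h : ρ p with
    | some i => simp [star_comb, h, hp]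
    | none => simp [star_comb, h, hp]

private lemma star_mu (ρ : Col P ι) (s : Finset ℕ) (hs : s ⊆ star_unc ρ) :
    mu (star_comb ρ s) = mu ρ * ∏ _p ∈ s, (-1 : ℝ) := by
  rw [← star_prod_s s (hs.trans (star_unc_sub ρ)) (fun _ => (-1 : ℝ)), mu, mu, ← Finset.prod_mul_distrib]
  refine Finset.prod_congr rfl fun p _ => ?_
  by_cases hp : (p : ℕ) ∈ s
  · have h := star_unc_none ρ s hs p hp
    simp [star_comb, h, hp]
  · cases h : ρ p with
    | some i => simp [star_comb, h, hp]
    | none => simp [star_comb, h, hp]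

private lemma star_amat (σ ρ : Col P ι) (s : Finset ℕ) (hs : s ⊆ star_unc ρ) :
    ∏ p : {p : ℕ // p ∈ P}, Amat (fun _ : Option ι => -(1 / ((p : ℕ) : ℝ))) ((σ p).map some)
      (star_comb ρ s p) =
    (∏ p : {p : ℕ // p ∈ P}, Amat (fun _ : ι => -(1 / ((p : ℕ) : ℝ))) (σ p) (ρ p)) *
      ∏ p ∈ s, (-(1 / (p : ℝ))) := by
  rw [← star_prod_s s (hs.trans (star_unc_sub ρ)) (fun p => (-(1 / (p : ℝ)))), ← Finset.prod_mul_distrib]
  refine Finset.prod_congr rfl fun p _ => ?_
  by_cases hp : (p : ℕ) ∈ s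
  · have h := star_unc_none ρ s hs p hp
    cases h2 : σ p with
    | none => simp [star_comb, h, hp, Amat]
    | some j => simp [star_comb, h, hp, Amat]
  · cases h : ρ p with
    | some i =>
      cases h2 : σ p with
      | none => simp [star_comb, h, hp, Amat]
      | some j => simp [star_comb, h, hp, Amat]
    | none =>
      cases h2 : σ p with
      | none => simp [star_comb, h, hp, Amat]
      | some j => simp [star_comb, h, hp, Amat]

private lemma star_GG_ge (R : ℕ) (hR : 1 ≤ R) (ρ : Col P ι) : 1 ≤ GG R ρ := by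
  have h1 : (∅ : Finset ℕ) ∈ (P.filter (fun p => ∀ i, p ∉ part i ρ)).powerset.filter
      (fun s => pr s ≤ R) := by
    rw [mem_filter, mem_powerset]
    exact ⟨empty_subset _, by simpa [pr] using hR⟩
  have h2 := Finset.single_le_sum (f := fun s => 1 / (pr s : ℝ)) (fun s _ => by positivity) h1
  simpa [pr, GG] using h2

private lemma star_abs_mu {κ : Type} [Fintype κ] [DecidableEq κ] (τ : Col P κ) : |mu τ| = 1 := by
  rw [mu, Finset.abs_prod]
  apply Finset.prod_eq_one
  intro p _
  by_cases h : τ p = none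
  · simp [h]
  · simp [h]

private lemma star_yy0 (g : ℕ → ℝ) (hg0 : ∀ n, 0 ≤ g n) (R : ℕ) (ρ : Col P ι) : 0 ≤ yy g R ρ := by
  rw [yy]
  split_ifs
  · exact Finset.prod_nonneg fun i _ => hg0 _
  · exact le_rfl

private lemma star_yy1 (g : ℕ → ℝ) (hg0 : ∀ n, 0 ≤ g n) (hg1 : ∀ n, g n ≤ 1) (R : ℕ) (ρ : Col P ι) :
    yy g R ρ ≤ 1 := by
  rw [yy]
  split_ifs
  · exact Finset.prod_le_one (fun i _ => hg0 _) (fun i _ => hg1 _)
  · exact zero_le_one

/-- the variables of the star sieve -/
private noncomputable def star_u (g : ℕ → ℝ) (R : ℕ) (τ : Col P (Option ι)) : ℝ :=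
  mu τ * yy g R (star_rho τ) * (if pr (part none τ) ≤ R then 1 / GG R (star_rho τ) else 0)

private lemma star_u_comb (g : ℕ → ℝ) (R : ℕ) (ρ : Col P ι) (s : Finset ℕ) (hs : s ⊆ star_unc ρ) :
    star_u g R (star_comb ρ s) =
      mu ρ * yy g R ρ * ((∏ _p ∈ s, (-1 : ℝ)) * (if pr s ≤ R then 1 / GG R ρ else 0)) := by
  rw [star_u, star_mu ρ s hs, star_rho_comb, star_part_comb ρ s hs]
  ring

private lemma star_lam (g : ℕ → ℝ) (R : ℕ) (hR : 1 ≤ R) (σ : Col P ι) :
    lam (star_u g R : Col P (Option ι) → ℝ) (fun p => (σ p).map some) =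
      lam (zz g R : Col P ι → ℝ) σ := by
  rw [lam, star_sum, lam]
  refine Finset.sum_congr rfl fun ρ _ => ?_
  have hG : GG R ρ ≠ 0 := by
    have := star_GG_ge R hR ρ
    positivity
  have h1 : ∀ s ∈ (star_unc ρ).powerset,
      (∏ p : {p : ℕ // p ∈ P}, Amat (fun _ : Option ι => -(1 / ((p : ℕ) : ℝ))) ((σ p).map some)
        (star_comb ρ s p)) * star_u g R (star_comb ρ s) =
      ((∏ p : {p : ℕ // p ∈ P}, Amat (fun _ : ι => -(1 / ((p : ℕ) : ℝ))) (σ p) (ρ p)) *
        (mu ρ * yy g R ρ) / GG R ρ) * (if pr s ≤ R then 1 / (pr s : ℝ) else 0) := by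
    intro s hs
    rw [mem_powerset] at hs
    rw [star_amat σ ρ s hs, star_u_comb g R ρ s hs]
    have h2 : (∏ p ∈ s, (-(1 / (p : ℝ)))) * (∏ _p ∈ s, (-1 : ℝ)) = 1 / (pr s : ℝ) := by
      rw [← Finset.prod_mul_distrib, pr, Nat.cast_prod]
      simp
    split_ifs with h3
    · rw [← h2]
      field_simp
    · simp
  rw [Finset.sum_congr rfl h1, ← Finset.mul_sum, ← Finset.sum_filter]
  have h3 : ∑ s ∈ (star_unc ρ).powerset.filter (fun s => pr s ≤ R), 1 / (pr s : ℝ) = GG R ρ := rfl
  rw [h3, zz]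
  field_simp

theorem star (hP : ∀ p ∈ P, p.Prime) (R t : ℕ) (hR : 1 ≤ R) (h : ι → ℕ) (g : ℕ → ℝ)
    (hg0 : ∀ n, 0 ≤ g n) (hg1 : ∀ n, g n ≤ 1) :
    ∃ u : Col P (Option ι) → ℝ, (∀ τ, |u τ| ≤ 1) ∧ (∀ τ, u τ ≠ 0 → tot τ ≤ R * R) ∧
      ∑ τ : Col P (Option ι), u τ ^ 2 / (tot τ : ℝ) ≤
        ∑ ρ : Col P ι, yy g R ρ ^ 2 / (tot ρ : ℝ) / GG R ρ ∧
      ∀ x : ℕ, (∀ p ∈ P, ¬ p ∣ x + t) →
        FF (fun o : Option ι => o.elim t h) (lam u) x = FF h (lam (zz g R : Col P ι → ℝ)) x := by
  have hsplit : ∀ τ : Col P (Option ι), tot τ = tot (star_rho τ) * pr (part none τ) := by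
    intro τ
    have := star_tot (star_rho τ) (part none τ) (star_part_sub τ)
    rwa [star_comb_rho] at this
  refine ⟨star_u g R, ?_, ?_, ?_, ?_⟩
  · intro τ
    have h1 := star_GG_ge R hR (star_rho τ)
    have h2 := star_yy0 g hg0 R (star_rho τ)
    have h3 := star_yy1 g hg0 hg1 R (star_rho τ)
    rw [star_u, abs_mul, abs_mul, star_abs_mu, one_mul, abs_of_nonneg h2]
    have h4 : |if pr (part none τ) ≤ R then 1 / GG R (star_rho τ) else 0| ≤ 1 := by
      split_ifs
      · rw [abs_of_nonneg (by positivity), div_le_one (by linarith)]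
        exact h1
      · simp
    exact mul_le_one₀ h3 (abs_nonneg _) h4
  · intro τ hτ
    rw [star_u] at hτ
    have h1 : pr (part none τ) ≤ R := by
      by_contra hc
      exact hτ (by rw [if_neg hc, mul_zero])
    have h2 : tot (star_rho τ) ≤ R := by
      by_contra hc
      exact hτ (by rw [yy, if_neg hc]; ring)
    rw [hsplit]
    exact Nat.mul_le_mul h2 h1
  · rw [star_sum]
    refine Finset.sum_le_sum fun ρ _ => ?_
    have hG1 := star_GG_ge R hR ρ
    have hG : GG R ρ ≠ 0 := by positivity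
    have h1 : ∀ s ∈ (star_unc ρ).powerset,
        star_u g R (star_comb ρ s) ^ 2 / (tot (star_comb ρ s) : ℝ) =
        (yy g R ρ ^ 2 / (tot ρ : ℝ) / (GG R ρ ^ 2)) * (if pr s ≤ R then 1 / (pr s : ℝ) else 0) := by
      intro s hs
      rw [mem_powerset] at hs
      rw [star_u_comb g R ρ s hs, star_tot ρ s hs]
      have h2 : mu ρ ^ 2 = 1 := by
        rw [← sq_abs, star_abs_mu, one_pow]
      have h3 : (∏ _p ∈ s, (-1 : ℝ)) ^ 2 = 1 := by
        rw [Finset.prod_const, ← pow_mul, mul_comm, pow_mul]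
        simp
      push_cast
      rw [mul_pow, mul_pow, mul_pow, h2, h3]
      split_ifs with h4
      · rw [one_mul, one_mul, one_div, one_div, inv_pow, div_eq_mul_inv, div_eq_mul_inv, div_eq_mul_inv, mul_inv]
        ring
      · simp
    rw [Finset.sum_congr rfl h1, ← Finset.mul_sum, ← Finset.sum_filter]
    have h3 : ∑ s ∈ (star_unc ρ).powerset.filter (fun s => pr s ≤ R), 1 / (pr s : ℝ) = GG R ρ := rfl
    rw [h3]
    apply le_of_eq
    rw [div_mul_eq_mul_div, sq (GG R ρ), mul_div_mul_right _ _ hG]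
  · intro x hx
    classical
    rw [FF, FF]
    symm
    refine Finset.sum_bij (fun (σ : Col P ι) _ => (fun p => (σ p).map some : Col P (Option ι))) ?_ ?_ ?_ ?_
    · intro σ hσ
      rw [mem_filter] at hσ ⊢
      refine ⟨mem_univ _, ?_⟩
      intro p o hpo
      simp only [Option.map_eq_some_iff] at hpo
      obtain ⟨i, hi, rfl⟩ := hpo
      exact hσ.2 p i hi
    · intro σ _ σ' _ he
      funext p
      have h1 := congrFun he p
      exact Option.map_injective (Option.some_injective ι) h1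
    · intro σ' hσ'
      rw [mem_filter] at hσ'
      refine ⟨star_rho σ', ?_, ?_⟩
      · rw [mem_filter]
        refine ⟨mem_univ _, fun p i hpi => ?_⟩
        have h1 : σ' p = some (some i) := by
          rcases h : σ' p with _ | _ | j
          · simp [star_rho, h] at hpi
          · simp [star_rho, h] at hpi
          · simp [star_rho, h] at hpi
            rw [hpi]
        exact hσ'.2 p (some i) h1
      · funext p
        rcases h : σ' p with _ | _ | j
        · simp [star_rho, h]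
        · exfalso
          exact hx p p.2 (hσ'.2 p none h)
        · simp [star_rho, h]
    · intro σ _
      exact (star_lam g R hR σ).symm

end Pool.Agent.Lib.MT
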