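import Pool.Agent.Lib.MT.Defs

/-!
# MT-Tens: inequalities between sums of squares multiply

PROOF. Induction over the finite type `α` (`Fintype.induction_empty_option`, or `Fin n` and `Fin.consEquiv` / `Fin.prod_univ_succ`).
Empty: both sides are `(L ∗)^2`. Step `Option α`: a function on `Option α` is a pair (value `t₀` at `none`, function on `α`)
(`Equiv.piOptionEquivProd`), products split off one factor (`Fintype.prod_option`). Write `E₀, P₀, A₀, D₀` for the data at `none`.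
Left side = ∑_{s'} (∏ P) ∑_{s₀} P₀ s₀ (∑_i E₀ s₀ i * v_{s'} i)^2 with v_{s'} i = ∑_{σ'} (∏ E (s' a) (σ' a)) L (i, σ').
By `h none` and `∏ P ≥ 0` this is ≤ ∑_{s'} (∏ P) ∑_{t₀} D₀ t₀ (∑_i A₀ t₀ i * v_{s'} i)^2 =
∑_{t₀} D₀ t₀ ∑_{s'} (∏ P) (∑_{σ'} (∏ E) L'_{t₀} σ')^2, L'_{t₀} σ' = ∑_i A₀ t₀ i * L (i, σ'). Induction hypothesis for L'_{t₀}, D₀ ≥ 0.
-/

set_option autoImplicit false

open Finset

namespace Pool.Agent.Lib.MT

section fin

variable {γ β δ : Type} [Fintype γ] [Fintype β] [Fintype δ]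

/-- a sum over functions on `Fin (n + 1)` -/
private theorem sum_cons {n : ℕ} {X : Type} [Fintype X] (f : (Fin (n + 1) → X) → ℝ) :
    ∑ s : Fin (n + 1) → X, f s = ∑ x : X, ∑ s : Fin n → X, f (Fin.cons x s) := by
  rw [← (Fin.consEquiv (fun _ : Fin (n + 1) => X)).sum_comp, Fintype.sum_prod_type]
  rfl

private theorem split_sq {n : ℕ} {X : Type} [Fintype X] (w : Fin (n + 1) → X → ℝ)
    (M : Fin (n + 1) → X → δ → ℝ) (L : (Fin (n + 1) → δ) → ℝ) (x : X) (s : Fin n → X) :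
    (∏ a, w a ((Fin.cons x s : Fin (n + 1) → X) a)) *
        (∑ σ : Fin (n + 1) → δ, (∏ a, M a ((Fin.cons x s : Fin (n + 1) → X) a) (σ a)) * L σ) ^ 2 =
      w 0 x * ((∏ a : Fin n, w a.succ (s a)) * (∑ σ : Fin n → δ,
        (∏ a : Fin n, M a.succ (s a) (σ a)) * ∑ i, M 0 x i * L (Fin.cons i σ)) ^ 2) := by
  rw [sum_cons, Fin.prod_univ_succ, Fin.cons_zero]
  simp only [Fin.cons_succ, Fin.prod_univ_succ, Fin.cons_zero]
  rw [mul_assoc]
  congr 3
  rw [sum_comm]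
  refine sum_congr rfl fun σ _ => ?_
  rw [mul_sum]
  refine sum_congr rfl fun i _ => ?_
  ring

private theorem tensor_fin (n : ℕ) : ∀ (Pw : Fin n → γ → ℝ) (E : Fin n → γ → δ → ℝ)
    (D : Fin n → β → ℝ) (A : Fin n → β → δ → ℝ)
    (_ : ∀ a s, 0 ≤ Pw a s) (_ : ∀ a t, 0 ≤ D a t)
    (_ : ∀ a, ∀ v : δ → ℝ, ∑ s, Pw a s * (∑ i, E a s i * v i) ^ 2 ≤
      ∑ t, D a t * (∑ i, A a t i * v i) ^ 2)
    (L : (Fin n → δ) → ℝ),
    ∑ s : Fin n → γ, (∏ a, Pw a (s a)) * (∑ σ : Fin n → δ, (∏ a, E a (s a) (σ a)) * L σ) ^ 2 ≤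
      ∑ t : Fin n → β, (∏ a, D a (t a)) * (∑ σ : Fin n → δ, (∏ a, A a (t a) (σ a)) * L σ) ^ 2 := by
  induction n with
  | zero =>
    intro Pw E D A hP hD h L
    simp
  | succ n ih =>
    intro Pw E D A hP hD h L
    rw [sum_cons, sum_cons]
    have e1 : ∀ (x : γ) (s : Fin n → γ), _ = _ := fun x s => split_sq Pw E L x s
    have e2 : ∀ (x : β) (s : Fin n → β), _ = _ := fun x s => split_sq D A L x s
    rw [sum_congr rfl fun x _ => sum_congr rfl fun s _ => e1 x s,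
      sum_congr rfl fun x _ => sum_congr rfl fun s _ => e2 x s, sum_comm]
    have h1 : ∀ s : Fin n → γ, ∑ x, Pw 0 x * ((∏ a : Fin n, Pw a.succ (s a)) *
        (∑ σ : Fin n → δ, (∏ a : Fin n, E a.succ (s a) (σ a)) *
          ∑ i, E 0 x i * L (Fin.cons i σ)) ^ 2) ≤
        ∑ t, D 0 t * ((∏ a : Fin n, Pw a.succ (s a)) *
        (∑ σ : Fin n → δ, (∏ a : Fin n, E a.succ (s a) (σ a)) *
          ∑ i, A 0 t i * L (Fin.cons i σ)) ^ 2) := by
      intro s
      have h2 := h 0 (fun i => ∑ σ : Fin n → δ, (∏ a : Fin n, E a.succ (s a) (σ a)) *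
        L (Fin.cons i σ))
      have h3 : 0 ≤ ∏ a : Fin n, Pw a.succ (s a) := prod_nonneg fun a _ => hP _ _
      have h4 : ∀ (c : δ → ℝ), ∑ σ : Fin n → δ, (∏ a : Fin n, E a.succ (s a) (σ a)) *
          ∑ i, c i * L (Fin.cons i σ) = ∑ i, c i * ∑ σ : Fin n → δ,
          (∏ a : Fin n, E a.succ (s a) (σ a)) * L (Fin.cons i σ) := by
        intro c
        simp only [mul_sum]
        rw [sum_comm]
        refine sum_congr rfl fun i _ => sum_congr rfl fun σ _ => ?_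
        ring
      have h5 := mul_le_mul_of_nonneg_left h2 h3
      rw [mul_sum, mul_sum] at h5
      refine le_trans (le_of_eq ?_) (le_trans h5 (le_of_eq ?_))
      · refine sum_congr rfl fun x _ => ?_
        rw [h4]
        ring
      · refine sum_congr rfl fun x _ => ?_
        rw [h4]
        ring
    refine le_trans (sum_le_sum fun s _ => h1 s) ?_
    rw [sum_comm]
    refine sum_le_sum fun t _ => ?_
    rw [← mul_sum, ← mul_sum]
    refine mul_le_mul_of_nonneg_left ?_ (hD _ _)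
    exact ih (fun a => Pw a.succ) (fun a => E a.succ) (fun a => D a.succ) (fun a => A a.succ)
      (fun a s => hP _ _) (fun a s => hD _ _) (fun a v => h _ v)
      (fun σ => ∑ i, A 0 t i * L (Fin.cons i σ))

end fin

theorem tensor_le {α γ β δ : Type} [Fintype α] [DecidableEq α] [Fintype γ] [Fintype β] [Fintype δ]
    (Pw : α → γ → ℝ) (E : α → γ → δ → ℝ) (D : α → β → ℝ) (A : α → β → δ → ℝ)
    (hP : ∀ a s, 0 ≤ Pw a s) (hD : ∀ a t, 0 ≤ D a t)
    (h : ∀ a, ∀ v : δ → ℝ, ∑ s, Pw a s * (∑ i, E a s i * v i) ^ 2 ≤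
      ∑ t, D a t * (∑ i, A a t i * v i) ^ 2)
    (L : (α → δ) → ℝ) :
    ∑ s : α → γ, (∏ a, Pw a (s a)) * (∑ σ : α → δ, (∏ a, E a (s a) (σ a)) * L σ) ^ 2 ≤
      ∑ t : α → β, (∏ a, D a (t a)) * (∑ σ : α → δ, (∏ a, A a (t a) (σ a)) * L σ) ^ 2 := by
  have e := Fintype.equivFin α
  have key : ∀ {X : Type} [Fintype X] (w : α → X → ℝ) (M : α → X → δ → ℝ),
      ∑ s : α → X, (∏ a, w a (s a)) * (∑ σ : α → δ, (∏ a, M a (s a) (σ a)) * L σ) ^ 2 =
      ∑ s : Fin (Fintype.card α) → X, (∏ a, w (e.symm a) (s a)) *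
        (∑ σ : Fin (Fintype.card α) → δ, (∏ a, M (e.symm a) (s a) (σ a)) *
          L (fun a => σ (e a))) ^ 2 := by
    intro X _ w M
    refine Fintype.sum_equiv (Equiv.arrowCongr e (Equiv.refl X)) _ _ fun s => ?_
    congr 1
    · rw [← e.prod_comp]
      refine prod_congr rfl fun a _ => ?_
      simp
    · congr 1
      refine Fintype.sum_equiv (Equiv.arrowCongr e (Equiv.refl δ)) _ _ fun σ => ?_
      congr 1
      · rw [← e.prod_comp]
        refine prod_congr rfl fun a _ => ?_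
        simp
      · congr 1
        funext a
        simp
  rw [key Pw E, key D A]
  exact tensor_fin _ (fun a => Pw (e.symm a)) (fun a => E (e.symm a)) (fun a => D (e.symm a))
    (fun a => A (e.symm a)) (fun a s => hP _ _) (fun a s => hD _ _) (fun a v => h _ v)
    (fun σ => L (fun a => σ (e a)))

end Pool.Agent.Lib.MT
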